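import Pool.Agent.H19.STAT.Sys

/-!
# Row 101 ADX: triangular systems
-/

set_option autoImplicit false

namespace Pool.STAT.AdxRow

open Finset MvPolynomial

/-! ### The solution of a triangular system -/

theorem iter_low {α : Type*} [Zero α] {S : (ℕ → α) → ℕ → α}
    (hS : ∀ i f f', (∀ j < i, f j = f' j) → S f i = S f' i) (i : ℕ) :
    ∀ m m' : ℕ, i < m → i < m' → (S^[m] 0) i = (S^[m'] 0) i := by
  induction i using Nat.strong_induction_on with
  | _ i ih =>
    intro m m' h h'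
    obtain ⟨a, rfl⟩ : ∃ a, m = a + 1 := ⟨m - 1, by omega⟩
    obtain ⟨b, rfl⟩ : ∃ b, m' = b + 1 := ⟨m' - 1, by omega⟩
    rw [Function.iterate_succ_apply', Function.iterate_succ_apply']
    exact hS i _ _ fun j hj => ih j hj a b (by omega) (by omega)

theorem fixm_eq {α : Type*} [Zero α] {S : (ℕ → α) → ℕ → α}
    (hS : ∀ i f f', (∀ j < i, f j = f' j) → S f i = S f' i) (i : ℕ) :
    fixm S i = S (fixm S) i := by
  unfold fixm
  rw [Function.iterate_succ_apply']
  exact hS i _ _ fun j hj => iter_low hS j i (j + 1) hj (Nat.lt_succ_self _)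

/-! ### Variables -/

theorem bnd_congr {σ τ : Type*} {P : MvPolynomial σ ℝ} {f g : σ → MvPolynomial τ ℝ}
    (h : ∀ k ∈ P.vars, f k = g k) : bind₁ f P = bind₁ g P :=
  eval₂Hom_congr' rfl (fun i hi _ => h i hi) rfl

theorem evl_congr {σ : Type*} {P : MvPolynomial σ ℝ} {f g : σ → ℝ}
    (h : ∀ k ∈ P.vars, f k = g k) : eval f P = eval g P :=
  eval₂Hom_congr' rfl (fun i hi _ => h i hi) rfl

theorem vars_bnd {m m' : ℕ} {P : PN} (hP : P.vars ⊆ range m) {f : ℕ → PN}
    (hf : ∀ k < m, (f k).vars ⊆ range m') : (bind₁ f P).vars ⊆ range m' := by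
  intro k hk
  obtain ⟨i, hi, hki⟩ := mem_vars_bind₁ f P hk
  exact hf i (mem_range.1 (hP hi)) hki

theorem vars_of_coeff {P Q : PN} (h : ∀ α, coeff α Q ≠ 0 → coeff α P ≠ 0) :
    Q.vars ⊆ P.vars := by
  intro k hk
  obtain ⟨α, hα, hkα⟩ := (mem_vars_iff_mem_support k).1 hk
  exact (mem_vars_iff_mem_support k).2
    ⟨α, MvPolynomial.mem_support_iff.2 (h α (MvPolynomial.mem_support_iff.1 hα)), hkα⟩

theorem coeff_whc (d : ℕ → ℕ) (m : ℕ) (P : PN) (α : ℕ →₀ ℕ) :
    coeff α (weightedHomogeneousComponent d m P) =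
      if Finsupp.weight d α = m then coeff α P else 0 :=
  coeff_weightedHomogeneousComponent _ _ _

theorem coeff_trw (d : ℕ → ℕ) (m : ℕ) (P : PN) (α : ℕ →₀ ℕ) :
    coeff α (trw d m P) = if Finsupp.weight d α < m then coeff α P else 0 := by
  unfold trw
  rw [coeff_sum]
  simp only [coeff_whc]
  rw [Finset.sum_ite_eq]
  simp only [mem_range]

theorem vars_whc (d : ℕ → ℕ) (m : ℕ) (P : PN) :
    (weightedHomogeneousComponent d m P).vars ⊆ P.vars := by
  refine vars_of_coeff fun α hα => ?_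
  rw [coeff_whc] at hα
  split_ifs at hα with h
  · exact hα
  · exact absurd rfl hα

theorem vars_trw (d : ℕ → ℕ) (m : ℕ) (P : PN) : (trw d m P).vars ⊆ P.vars := by
  refine vars_of_coeff fun α hα => ?_
  rw [coeff_trw] at hα
  split_ifs at hα with h
  · exact hα
  · exact absurd rfl hα

theorem vars_add_le {m : ℕ} {P Q : PN} (hP : P.vars ⊆ range m) (hQ : Q.vars ⊆ range m) :
    (P + Q).vars ⊆ range m :=
  (vars_add_subset P Q).trans (Finset.union_subset hP hQ)

theorem vars_mul_le {m : ℕ} {P Q : PN} (hP : P.vars ⊆ range m) (hQ : Q.vars ⊆ range m) :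
    (P * Q).vars ⊆ range m :=
  (vars_mul P Q).trans (Finset.union_subset hP hQ)

theorem vars_neg_le {m : ℕ} {P : PN} (hP : P.vars ⊆ range m) : (-P).vars ⊆ range m := by
  refine (vars_of_coeff fun α hα => ?_).trans hP
  rw [coeff_neg, neg_ne_zero] at hα
  exact hα

theorem vars_sub_le {m : ℕ} {P Q : PN} (hP : P.vars ⊆ range m) (hQ : Q.vars ⊆ range m) :
    (P - Q).vars ⊆ range m := by
  rw [sub_eq_add_neg]
  exact vars_add_le hP (vars_neg_le hQ)

theorem vars_C_le {m : ℕ} (a : ℝ) : (C a : PN).vars ⊆ range m := by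
  rw [vars_C]
  exact Finset.empty_subset _

theorem vars_X_le {m i : ℕ} (h : i < m) : (X i : PN).vars ⊆ range m := by
  rw [vars_X, Finset.singleton_subset_iff, mem_range]
  exact h

theorem vars_sum_le {ι : Type*} {m : ℕ} (s : Finset ι) (f : ι → PN)
    (h : ∀ i ∈ s, (f i).vars ⊆ range m) : (∑ i ∈ s, f i).vars ⊆ range m := by
  classical
  induction s using Finset.induction_on with
  | empty =>
    rw [Finset.sum_empty, vars_0]
    exact Finset.empty_subset _
  | insert a s ha ih =>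
    rw [Finset.sum_insert ha]
    exact vars_add_le (h a (Finset.mem_insert_self _ _))
      (ih fun i hi => h i (Finset.mem_insert_of_mem hi))

theorem lieN_congr {P : PN} {ξ ξ' : ℕ → PN} (h : ∀ k ∈ P.vars, ξ k = ξ' k) :
    lieN ξ P = lieN ξ' P := by
  refine derivation_eq_of_forall_mem_vars fun i hi => ?_
  unfold lieN
  rw [mkDerivation_X, mkDerivation_X]
  exact h i hi

theorem vars_lieN {m : ℕ} {P : PN} (hP : P.vars ⊆ range m) {ξ : ℕ → PN}
    (h : ∀ k < m, (ξ k).vars ⊆ range m) : (lieN ξ P).vars ⊆ range m := by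
  have h1 : lieN ξ P = ∑ α ∈ P.support, lieN ξ (monomial α (coeff α P)) := by
    conv_lhs => rw [P.as_sum]
    rw [map_sum]
  rw [h1]
  refine vars_sum_le _ _ fun α hα => ?_
  unfold lieN
  rw [mkDerivation_monomial, smul_eq_C_mul, Finsupp.sum]
  refine vars_mul_le (vars_C_le _) (vars_sum_le _ _ fun i hi => ?_)
  have hi' : i ∈ P.vars := (mem_vars_iff_mem_support i).2 ⟨α, hα, hi⟩
  rw [smul_eq_mul]
  refine vars_mul_le ?_ (h i (mem_range.1 (hP hi')))
  intro j hj
  obtain ⟨β, hβ, hjβ⟩ := (mem_vars_iff_mem_support j).1 hj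
  have h2 := Finset.mem_singleton.1 (support_monomial_subset hβ)
  rw [h2] at hjβ
  refine hP ((mem_vars_iff_mem_support j).2 ⟨α, hα, ?_⟩)
  rw [Finsupp.mem_support_iff] at hjβ ⊢
  intro h3
  apply hjβ
  rw [Finsupp.tsub_apply, h3, Nat.zero_sub]

/-- The derivation lowers the weight by one. -/
theorem lieN_hom {d : ℕ → ℕ} (hd : ∀ i, 1 ≤ d i) {ξ : ℕ → PN}
    (hξ : ∀ i, (ξ i).IsWeightedHomogeneous d (d i - 1)) {P : PN} {e : ℕ}
    (hP : P.IsWeightedHomogeneous d e) : (lieN ξ P).IsWeightedHomogeneous d (e - 1) := by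
  have h1 : lieN ξ P = ∑ m ∈ P.support, lieN ξ (monomial m (P.coeff m)) := by
    conv_lhs => rw [P.as_sum]
    rw [map_sum]
  rw [h1]
  refine IsWeightedHomogeneous.sum _ _ _ fun m hm => ?_
  have hm' : Finsupp.weight d m = e := hP (MvPolynomial.mem_support_iff.1 hm)
  unfold lieN
  rw [mkDerivation_monomial, smul_eq_C_mul, ← zero_add (e - 1)]
  refine (isWeightedHomogeneous_C d _).mul ?_
  rw [Finsupp.sum]
  refine IsWeightedHomogeneous.sum _ _ _ fun i hi => ?_
  have hmi : 1 ≤ m i := Nat.one_le_iff_ne_zero.2 (Finsupp.mem_support_iff.1 hi)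
  have h2 : m - Finsupp.single i 1 + Finsupp.single i 1 = m :=
    tsub_add_cancel_of_le (Finsupp.single_le_iff.2 hmi)
  have h3 : Finsupp.weight d (m - Finsupp.single i 1) + d i = e := by
    rw [← hm']
    conv_rhs => rw [← h2]
    rw [map_add, Finsupp.weight_single, one_smul]
  have h4 : e - 1 = (e - d i) + (d i - 1) := by
    have := hd i
    omega
  rw [smul_eq_mul, h4]
  exact (isWeightedHomogeneous_monomial _ _ _ (by omega)).mul (hξ i)

/-! ### The adapted coordinates -/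

section A

variable {d : ℕ → ℕ} {Φ : ℕ → PN}

theorem adp_eq (hΦ : TriN Φ) (i : ℕ) :
    adp d Φ i = X i + trw d (d i) (bind₁ (adp d Φ) (Φ i)) := by
  unfold adp
  exact fixm_eq (S := fun χ i => X i + trw d (d i) (bind₁ χ (Φ i))) (fun i f f' h => by
    rw [bnd_congr fun k hk => h k (mem_range.1 (hΦ i hk))]) i

theorem adp_vars (hΦ : TriN Φ) (i : ℕ) : (adp d Φ i).vars ⊆ range (i + 1) := by
  induction i using Nat.strong_induction_on with
  | _ i ih =>
    rw [adp_eq hΦ]
    refine vars_add_le (vars_X_le (Nat.lt_succ_self _)) ((vars_trw _ _ _).trans ?_)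
    refine vars_bnd (m := i) (hΦ i) fun k hk => (ih k hk).trans ?_
    exact Finset.range_mono (by omega)

theorem bnd_vars (hΦ : TriN Φ) (i : ℕ) : (bind₁ (adp d Φ) (Φ i)).vars ⊆ range i :=
  vars_bnd (m := i) (hΦ i) fun k hk => (adp_vars hΦ k).trans (Finset.range_mono (by omega))

theorem adp_tri (hΦ : TriN Φ) : TriN (fun i => adp d Φ i - X i) := by
  intro i
  have h : adp d Φ i - X i = trw d (d i) (bind₁ (adp d Φ) (Φ i)) := by
    conv_lhs => rw [adp_eq hΦ]
    ring
  change (adp d Φ i - X i).vars ⊆ range i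
  rw [h]
  exact (vars_trw _ _ _).trans (bnd_vars hΦ i)

/-! ### The inverse -/

theorem tinv_eq {χ : ℕ → PN} (hχ : TriN (fun i => χ i - X i)) (i : ℕ) :
    tinv χ i = X i - bind₁ (tinv χ) (χ i - X i) := by
  unfold tinv
  exact fixm_eq (S := fun Θ i => X i - bind₁ Θ (χ i - X i)) (fun i f f' h => by
    rw [bnd_congr fun k hk => h k (mem_range.1 (hχ i hk))]) i

theorem tinv_vars {χ : ℕ → PN} (hχ : TriN (fun i => χ i - X i)) (i : ℕ) :
    (tinv χ i).vars ⊆ range (i + 1) := by
  induction i using Nat.strong_induction_on with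
  | _ i ih =>
    rw [tinv_eq hχ]
    refine vars_sub_le (vars_X_le (Nat.lt_succ_self _)) ?_
    refine vars_bnd (m := i) (hχ i) fun k hk => (ih k hk).trans ?_
    exact Finset.range_mono (by omega)

theorem tinv_tri {χ : ℕ → PN} (hχ : TriN (fun i => χ i - X i)) :
    TriN (fun i => tinv χ i - X i) := by
  intro i
  have h : tinv χ i - X i = -bind₁ (tinv χ) (χ i - X i) := by
    conv_lhs => rw [tinv_eq hχ]
    ring
  change (tinv χ i - X i).vars ⊆ range i
  rw [h]
  refine vars_neg_le (vars_bnd (m := i) (hχ i) fun k hk => (tinv_vars hχ k).trans ?_)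
  exact Finset.range_mono (by omega)

theorem bnd_tinv {χ : ℕ → PN} (hχ : TriN (fun i => χ i - X i)) (i : ℕ) :
    bind₁ (tinv χ) (χ i) = X i := by
  have h : bind₁ (tinv χ) (χ i) = tinv χ i + bind₁ (tinv χ) (χ i - X i) := by
    rw [map_sub, bind₁_X_right]
    ring
  rw [h]
  conv_lhs => rw [tinv_eq hχ]
  ring

theorem tinv_bnd {χ : ℕ → PN} (hχ : TriN (fun i => χ i - X i)) (i : ℕ) :
    bind₁ χ (tinv χ i) = X i := by
  induction i using Nat.strong_induction_on with
  | _ i ih =>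
    rw [tinv_eq hχ, map_sub, bind₁_X_right, bind₁_bind₁,
      bnd_congr (g := X) fun k hk => ih k (mem_range.1 (hχ i hk))]
    have h1 : bind₁ (X : ℕ → PN) (χ i - X i) = χ i - X i := by
      rw [bind₁_X_left]
      rfl
    rw [h1]
    ring

/-! ### The field -/

theorem fld_step (hΦ : TriN Φ) (i : ℕ) : fld d Φ i = if i = 0 then 1 else
    lieN (fld d Φ) (weightedHomogeneousComponent d (d i) (bind₁ (adp d Φ) (Φ i))) := by
  unfold fld
  exact fixm_eq (S := fun ξ i => if i = 0 then 1 else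
    lieN ξ (weightedHomogeneousComponent d (d i) (bind₁ (adp d Φ) (Φ i)))) (fun i f f' h => by
      split_ifs with h0
      · rfl
      · exact lieN_congr fun k hk => h k (mem_range.1 (bnd_vars hΦ i (vars_whc _ _ _ hk)))) i

theorem fld_zero (hΦ : TriN Φ) : fld d Φ 0 = 1 := by
  rw [fld_step hΦ, if_pos rfl]

theorem fld_pos (hΦ : TriN Φ) {i : ℕ} (hi : 1 ≤ i) : fld d Φ i =
    lieN (fld d Φ) (weightedHomogeneousComponent d (d i) (bind₁ (adp d Φ) (Φ i))) := by
  conv_lhs => rw [fld_step hΦ, if_neg (by omega)]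

theorem fld_tri (hΦ : TriN Φ) : TriN (fld d Φ) := by
  intro i
  induction i using Nat.strong_induction_on with
  | _ i ih =>
    rw [fld_step hΦ]
    split_ifs with h0
    · rw [← C_1]
      exact vars_C_le _
    · exact vars_lieN ((vars_whc _ _ _).trans (bnd_vars hΦ i)) fun k hk =>
        (ih k hk).trans (Finset.range_mono (by omega))

theorem fld_hom (hd0 : d 0 = 1) (hd : ∀ i, 1 ≤ d i) (i : ℕ) :
    (fld d Φ i).IsWeightedHomogeneous d (d i - 1) := by
  unfold fld fixm
  have H : ∀ m i, (((fun (ξ : ℕ → PN) i => if i = 0 then (1 : PN) else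
      lieN ξ (weightedHomogeneousComponent d (d i) (bind₁ (adp d Φ) (Φ i))))^[m] 0)
      i).IsWeightedHomogeneous d (d i - 1) := by
    intro m
    induction m with
    | zero => exact fun i => isWeightedHomogeneous_zero ℝ d _
    | succ m ih =>
      intro i
      rw [Function.iterate_succ_apply']
      by_cases h0 : i = 0
      · simp only [h0, if_true]
        rw [hd0]
        exact isWeightedHomogeneous_one ℝ d
      · simp only [h0, if_false]
        exact lieN_hom hd ih (weightedHomogeneousComponent_isWeightedHomogeneous _ _)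
  exact H (i + 1) i

/-! ### The natural coordinates -/

theorem nuc_eq (hΦ : TriN Φ) (g : ℕ → ℕ) (i : ℕ) :
    nuc g Φ i = bind₁ (nuc g Φ) (Φ i) + C (1 / (2 : ℝ) ^ g i) * X i := by
  unfold nuc
  exact fixm_eq (S := fun ν i => bind₁ ν (Φ i) + C (1 / (2 : ℝ) ^ g i) * X i) (fun i f f' h => by
    rw [bnd_congr fun k hk => h k (mem_range.1 (hΦ i hk))]) i

theorem nuc_vars (hΦ : TriN Φ) (g : ℕ → ℕ) (i : ℕ) : (nuc g Φ i).vars ⊆ range (i + 1) := by
  induction i using Nat.strong_induction_on with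
  | _ i ih =>
    rw [nuc_eq hΦ]
    refine vars_add_le ?_ (vars_mul_le (vars_C_le _) (vars_X_le (Nat.lt_succ_self _)))
    refine vars_bnd (m := i) (hΦ i) fun k hk => (ih k hk).trans ?_
    exact Finset.range_mono (by omega)

theorem evl_bnd {σ τ : Type*} (u : τ → ℝ) (f : σ → MvPolynomial τ ℝ) (P : MvPolynomial σ ℝ) :
    eval u (bind₁ f P) = eval (fun k => eval u (f k)) P := by
  have h := eval₂Hom_bind₁ (RingHom.id ℝ) u f P
  exact h

theorem nuc_eval (hΦ : TriN Φ) (g : ℕ → ℕ) (b : ℕ → ℝ) (i : ℕ) :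
    eval (fun j => (2 : ℝ) ^ g j * (b j - eval b (Φ j))) (nuc g Φ i) = b i := by
  induction i using Nat.strong_induction_on with
  | _ i ih =>
    rw [nuc_eq hΦ, map_add, map_mul, eval_C, eval_X, evl_bnd,
      evl_congr (g := b) fun k hk => ih k (mem_range.1 (hΦ i hk)), ← mul_assoc,
      one_div_mul_cancel (pow_ne_zero _ (by norm_num)), one_mul]
    ring

end A

/-- **Row 101.** -/
theorem adx_thm : AdxStmt := by
  refine ⟨fun α _ S hS i => fixm_eq hS i, fun d Φ hd0 hd hΦ => ⟨adp_eq hΦ, adp_tri hΦ,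
    fun χ hχ => ⟨tinv_tri hχ, bnd_tinv hχ, tinv_bnd hχ⟩, fld_zero hΦ, fun i hi => fld_pos hΦ hi,
    fld_tri hΦ, fld_hom hd0 hd, fun g => ⟨nuc_eq hΦ g, nuc_vars hΦ g, nuc_eval hΦ g⟩⟩⟩

end Pool.STAT.AdxRow
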