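import Pool.Agent.H90.STAT.FulF
import Pool.Agent.H64.STAT.Fam0

/-!
# The entropy fields of the system of a family (row N1), and the exactness of a row (row N2)

* `ExW`: exactness of the coordinates `eps` given all closed labels (the conclusion of the
  exactness theorem);
* `CDat.Near`: the variation of the label polynomials between two near samples;
* `nd_time`, `nd_full`: the two hypotheses of `ok0`;
* `nd_exact`, `nrmd_exact`: the entropy of the base given a label, for the two systems.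
-/

set_option autoImplicit false

namespace Pool.STAT

open Finset MvPolynomial
open Pool.Agent.H49.Ent Pool.Agent.H32.Dense Pool.STK Pool.KS3 Pool.KA Pool.KSAT Pool.K2S Pool.PB
  Pool.GEN
open Pool.FLF (Fam.sub)

variable {m n J : ℕ}

/-- The support of a conditional law. -/
theorem cond_supp {Ω : Type} [Fintype Ω] {p : Ω → ℝ} {B : Ω → Prop} {ω : Ω}
    (h : 0 < Pool.Agent.H49.Ent.cond p B True ω) : B ω := by
  by_contra hcon
  have h1 : Pool.Agent.H49.Ent.cond p B True ω = 0 := by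
    unfold Pool.Agent.H49.Ent.cond
    rw [if_neg]
    intro h1
    exact hcon (of_eq_true h1)
  linarith

/-- **Exactness** of the coordinates `eps` given all labels which are closed in the window `w`. -/
def ExW (F : Fam m J) (B : F.Ω → Prop) (eps : Fin n → Fin m) (w : ℕ) (E : ℝ) : Prop :=
  ∀ (V : Type) (z : PtT F → V) (z' : LnT F → V), (∀ ω, B ω → z (ptr F J ω) = z' (slam F w ω)) →
    E ≤ CH (Pool.Agent.H49.Ent.cond F.p B True) (fun ω i => F.X J ω (eps i))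
      (fun ω => (z' (slam F w ω), F.W ω))

/-- Exactness for larger windows. -/
theorem ExW.win {F : Fam m J} {B : F.Ω → Prop} {eps : Fin n → Fin m} {w w' : ℕ} {E : ℝ}
    (h : ExW F B eps w' E) (hw : w ≤ w') (hw' : w' ≤ J) : ExW F B eps w E := by
  intro V z z' hz
  have e : ∀ ω, z' ((slam F w' ω).1, (slam F w' ω).2.1, (slam F w' ω).2.2 / 2 ^ (w' - w)) =
      z' (slam F w ω) := fun ω => by rw [← slam_coarse F hw hw' ω]
  have h1 := h V z (fun s => z' (s.1, s.2.1, s.2.2 / 2 ^ (w' - w)))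
    (fun ω hω => (hz ω hω).trans (e ω).symm)
  simp only [e] at h1
  exact h1

theorem ExW.mono {F : Fam m J} {B : F.Ω → Prop} {eps : Fin n → Fin m} {w : ℕ} {E E' : ℝ}
    (h : ExW F B eps w E) (hE : E' ≤ E) : ExW F B eps w E' :=
  fun V z z' hz => hE.trans (h V z z' hz)

namespace CDat

variable {F : Fam m J}

/-- `lab` as a function of the line. -/
def labs (C : CDat F) (z k : ℕ) (s : LnT F) : ((k' : ℕ) → Option (C.V k')) × ℕ :=
  (fun k' => if k' ≤ k then some (C.li k' (s.1, s.2.1, s.2.2 / 2 ^ (k * z - k' * z))) else none,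
    s.2.2)

theorem lab_labs (C : CDat F) {w₀ z k : ℕ} (hk : w₀ + k * z ≤ J) (ω : F.Ω) :
    C.lab w₀ z k ω = C.labs z k (slam F (w₀ + k * z) ω) := by
  unfold lab labs
  refine Prod.ext ?_ rfl
  funext k'
  by_cases hk' : k' ≤ k
  · simp only [if_pos hk']
    have h1 : k' * z ≤ k * z := Nat.mul_le_mul_right z hk'
    have h2 := slam_coarse F (Nat.add_le_add_left h1 w₀) hk ω
    have h3 : w₀ + k * z - (w₀ + k' * z) = k * z - k' * z := by omega
    rw [h3] at h2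
    rw [h2]
  · simp only [if_neg hk']

/-- Two samples with the same label, the same time and the same cells of side `2 ^ (-J)` of the
coordinates before `i`: the variation of the label polynomials, in the units of the `y`-th
digits. -/
def Near (C : CDat F) (e : ℕ → Fin m) (n w₀ z : ℕ) (g : ℕ → ℕ → ℕ) (k y : ℕ) (L : ℝ)
    (A : F.Ω → Prop) : Prop :=
  ∀ ω ω', A ω → A ω' → C.lab w₀ z k ω = C.lab w₀ z k ω' → F.T ω = F.T ω' →
    ∀ i, 1 ≤ i → i ≤ n → (∀ j, 1 ≤ j → j < i → F.X J ω (e j) = F.X J ω' (e j)) →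
    |eval (cx F e ω) (C.Ph w₀ z k ω i) - eval (cx F e ω') (C.Ph w₀ z k ω i)| ≤
      L / 2 ^ (g k i + y)

theorem Near.sub {C : CDat F} {e : ℕ → Fin m} {w₀ z : ℕ} {g : ℕ → ℕ → ℕ} {k y : ℕ} {L : ℝ}
    {A B : F.Ω → Prop} (h : C.Near e n w₀ z g k y L A) (hB : ∀ ω, B ω → A ω) :
    C.Near e n w₀ z g k y L B :=
  fun ω ω' a b => h ω ω' (hB ω a) (hB ω' b)

theorem Near.mono {C : CDat F} {e : ℕ → Fin m} {n' w₀ z : ℕ} {g : ℕ → ℕ → ℕ} {k y y' : ℕ}
    {L L' : ℝ} {A : F.Ω → Prop} (h : C.Near e n w₀ z g k y L A) (hn : n' ≤ n) (hy : y' ≤ y)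
    (hL0 : 0 ≤ L') (hL : L ≤ L') : C.Near e n' w₀ z g k y' L' A :=
  fun ω ω' a b hl hT i h1 hi hX => (h ω ω' a b hl hT i h1 (hi.trans hn) hX).trans
    (div_le_div₀ hL0 hL (by positivity) (pow_le_pow_right₀ (by norm_num) (by omega)))

theorem fl_T (F : Fam m J) (e : ℕ → Fin m) (ω : F.Ω) :
    ⌊(2 : ℝ) ^ J * cx F e ω 0⌋ = (F.T ω : ℤ) := by
  have h4 : (2 : ℝ) ^ J * cx F e ω 0 = (F.T ω : ℝ) := by
    rw [cx, if_pos rfl]
    unfold Fam.t
    field_simp
  rw [h4]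
  exact Int.floor_natCast _

theorem fl_X (F : Fam m J) (e : ℕ → Fin m) (ω : F.Ω) {i : ℕ} (hi : 1 ≤ i) :
    ⌊(2 : ℝ) ^ J * cx F e ω i⌋ = F.X J ω (e i) := by
  rw [cx, if_neg (by omega)]
  rfl

section

variable {C : CDat F} {e : ℕ → Fin m} {K w₀ z M : ℕ} {g : ℕ → ℕ → ℕ} {C₁ : ℝ} {A B : F.Ω → Prop}

/-- **The hypothesis `time`.** -/
theorem nd_time (hB : 0 < Pe F.p B) {e₀ : ℝ} (ht : (Fam.sub F B hB).Tm e₀) (hw : w₀ ≤ J) :
    ((J - w₀ : ℕ) : ℝ) * Real.log 2 - e₀ ≤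
      CH (Pool.Agent.H49.Ent.cond F.p B True) F.T (slam F w₀) :=
  Ful.fam_time hB ht hw (slam F w₀) fun _ _ _ _ h => h

/-- The times given the label of level `k`. -/
theorem nd_timek (hB : 0 < Pe F.p B) {e₀ : ℝ} (ht : (Fam.sub F B hB).Tm e₀) {k : ℕ}
    (hk : w₀ + k * z ≤ J) : ((J : ℝ) - (w₀ + k * z : ℕ)) * Real.log 2 - e₀ ≤
      CH (Pool.Agent.H49.Ent.cond F.p B True) F.T (C.lab w₀ z k) := by
  have h1 := Ful.fam_time hB ht hk (C.lab w₀ z k) fun ω ω' _ _ h => lab_slam C hk h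
  rwa [Nat.cast_sub hk] at h1

/-- **Exactness given the label of level `k`.** -/
theorem nd_ex (hC : C.Cnd e (n + 1) K w₀ z M g C₁ A) {k : ℕ} (hk : k ≤ M)
    (hJ : w₀ + k * z ≤ J) (hBA : ∀ ω, B ω → A ω) {eps : Fin n → Fin m} {E : ℝ}
    (hE : ExW F B eps (w₀ + k * z) E) :
    E ≤ CH (Pool.Agent.H49.Ent.cond F.p B True) (fun ω i => F.X J ω (eps i))
      (fun ω => (C.lab w₀ z k ω, F.W ω)) := by
  have h1 := hE _ (C.labp w₀ z k) (C.labs z k) fun ω hω => by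
    rw [← lab_pt hC hk (hBA ω hω), lab_labs C hJ ω]
  have h2 : (fun ω => (C.labs z k (slam F (w₀ + k * z) ω), F.W ω)) =
      fun ω => (C.lab w₀ z k ω, F.W ω) := by
    funext ω
    rw [lab_labs C hJ ω]
  rw [h2] at h1
  exact h1

/-- **The entropy of the base given the label of level `k`** (field `exact` of a row). -/
theorem nd_exact (hC : C.Cnd e (n + 1) K w₀ z M g C₁ A) {k : ℕ} (hk : k ≤ M)
    (hJ : w₀ + k * z ≤ J) (hB : 0 < Pe F.p B) (hBA : ∀ ω, B ω → A ω) {e₀ ε' : ℝ}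
    (ht : (Fam.sub F B hB).Tm e₀)
    (hE : ExW F B (fun j : Fin n => e (j + 1)) (w₀ + k * z)
      ((∑ i ∈ Ico 1 (n + 1), ((J : ℝ) - g k i)) * Real.log 2 - ε'))
    {𝒱 : Type} (Vf : F.Ω → 𝒱)
    (hV : ∀ ω ω', Vf ω = Vf ω' → F.T ω = F.T ω' ∧ ∀ i : Fin n, F.X J ω (e (i + 1)) =
      F.X J ω' (e (i + 1))) :
    (∑ i ∈ range (n + 1), ((J : ℝ) - g0 w₀ z g k i)) * Real.log 2 - (e₀ + ε') ≤
      CH (Pool.Agent.H49.Ent.cond F.p B True) Vf (C.lab w₀ z k) := by
  have hq := isLaw_cond F.isLaw hB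
  have h1 := nd_ex hC hk hJ hBA hE
  have h2 : ∑ i ∈ Ico 1 (n + 1), ((J : ℝ) - g k i) =
      ∑ i ∈ Ico 1 (n + 1), ((J : ℝ) - g0 w₀ z g k i) := by
    refine Finset.sum_congr rfl fun i hi => ?_
    rw [g0, if_neg (by have := (mem_Ico.1 hi).1; omega)]
  rw [h2] at h1
  refine Ful.fam_R hq (C.lab w₀ z k) (g0 w₀ z g k) (fun j : Fin n => e (j + 1)) ?_ h1 Vf ?_
  · exact nd_timek hB ht hJ
  · intro ω ω' _ _ h
    obtain ⟨a, b⟩ := hV ω ω' h
    exact Prod.ext a (funext b)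

/-- **The hypothesis `full`.** -/
theorem nd_full (hC : C.Cnd e (n + 1) K w₀ z M g C₁ A) {k : ℕ} (hk : k ≤ M)
    (hJ : w₀ + (k + 1) * z ≤ J) (hg : ∀ i, 1 ≤ i → i ≤ n → g k i + z ≤ J) {L : ℝ} (hL : 0 ≤ L)
    (hlip : C.Near e n w₀ z g k z L A) (hB : 0 < Pe F.p B) (hBA : ∀ ω, B ω → A ω) {e₀ ε' : ℝ}
    (ht : (Fam.sub F B hB).Tm e₀)
    (hE : ExW F B (fun j : Fin n => e (j + 1)) (w₀ + k * z)
      ((∑ i ∈ Ico 1 (n + 1), ((J : ℝ) - g k i)) * Real.log 2 - ε')) :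
    ((n + 1 : ℕ) : ℝ) * (z * Real.log 2) - (e₀ + ε' + (n + 1 : ℕ) * Real.log (5 + 2 * L)) ≤
      CH (Pool.Agent.H49.Ent.cond F.p B True) (fun ω (i : Fin (n + 1)) =>
        ⌊(2 : ℝ) ^ (g0 w₀ z g k i + z) *
          (cx F e ω i - eval (cx F e ω) (C.Ph w₀ z k ω i))⌋) (C.lab w₀ z k) := by
  have hq := isLaw_cond F.isLaw hB
  have hJk : w₀ + k * z ≤ J := by
    rw [Nat.succ_mul] at hJ
    omega
  have hpos : ∀ ω, 0 < Pool.Agent.H49.Ent.cond F.p B True ω → A ω :=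
    fun ω hω => hBA ω (cond_supp hω)
  have h2 : ∑ i ∈ Ico 1 (n + 1), ((J : ℝ) - g k i) =
      ∑ i ∈ Ico 1 (n + 1), ((J : ℝ) - g0 w₀ z g k i) := by
    refine Finset.sum_congr rfl fun i hi => ?_
    rw [g0, if_neg (by have := (mem_Ico.1 hi).1; omega)]
  have h1 := nd_ex hC hk hJk hBA hE
  rw [h2] at h1
  have h3 := Ful.full_of
    (D := ⟨F.Ω, LnT F, _, F.fin, slam F w₀, F.T, cx F e, C.lab w₀ z, fun _ x i =>
      if i = 0 then MvPolynomial.C ((x.2 : ℝ) / 2 ^ (w₀ + k * z)) else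
        match x.1 k with
        | some v => C.G k v i
        | none => 0, fun _ _ => 0, g0 w₀ z g⟩) (n := n + 1) (J := J) (k := k) (z := z) hq hL
    (ε := e₀ + ε') ?_ ?_ ?_
  · refine le_trans (le_of_eq ?_) (h3.trans (le_of_eq ?_))
    · ring
    · have h5 : ∀ (ω : F.Ω) (i : ℕ), (if i = 0 then
          MvPolynomial.C (((C.lab w₀ z k ω).2 : ℝ) / 2 ^ (w₀ + k * z)) else
          match (C.lab w₀ z k ω).1 k with
          | some v => C.G k v i
          | none => 0) = C.Ph w₀ z k ω i := by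
        intro ω i
        unfold Ph
        by_cases h0 : i = 0
        · rw [if_pos h0, if_pos h0]
          rfl
        · rw [if_neg h0, if_neg h0]
          have h6 : (C.lab w₀ z k ω).1 k = some (C.li k (slam F (w₀ + k * z) ω)) :=
            if_pos le_rfl
          rw [h6]
      unfold NDat.rh
      simp only [h5]
  · intro i hi
    change g0 w₀ z g k i + z ≤ J
    unfold g0
    by_cases h0 : i = 0
    · rw [if_pos h0]
      rw [Nat.succ_mul] at hJ
      omega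
    · rw [if_neg h0]
      exact hg i (by omega) (by omega)
  · intro ω ω' h h' ee i hi hj
    by_cases h0 : i = 0
    · simp only [h0, if_true, eval_C, sub_self, abs_zero]
      positivity
    · have hT : F.T ω = F.T ω' := by
        have h6 : ⌊(2 : ℝ) ^ J * cx F e ω 0⌋ = ⌊(2 : ℝ) ^ J * cx F e ω' 0⌋ := hj 0 (by omega)
        rw [fl_T, fl_T] at h6
        exact_mod_cast h6
      have h4 := hlip ω ω' (hpos ω h) (hpos ω' h') ee hT i (by omega) (by omega) fun j h1 hji => by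
        have h6 : ⌊(2 : ℝ) ^ J * cx F e ω j⌋ = ⌊(2 : ℝ) ^ J * cx F e ω' j⌋ := hj j hji
        rwa [fl_X F e ω h1, fl_X F e ω' h1] at h6
      have h5 : (if i = 0 then
          MvPolynomial.C (((C.lab w₀ z k ω).2 : ℝ) / 2 ^ (w₀ + k * z)) else
          match (C.lab w₀ z k ω).1 k with
          | some v => C.G k v i
          | none => 0) = C.Ph w₀ z k ω i := by
        unfold Ph
        rw [if_neg h0, if_neg h0]
        have h6 : (C.lab w₀ z k ω).1 k = some (C.li k (slam F (w₀ + k * z) ω)) := if_pos le_rfl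
        rw [h6]
      change |eval (cx F e ω) (if i = 0 then
          MvPolynomial.C (((C.lab w₀ z k ω).2 : ℝ) / 2 ^ (w₀ + k * z)) else
          match (C.lab w₀ z k ω).1 k with
          | some v => C.G k v i
          | none => 0) - eval (cx F e ω') (if i = 0 then
          MvPolynomial.C (((C.lab w₀ z k ω).2 : ℝ) / 2 ^ (w₀ + k * z)) else
          match (C.lab w₀ z k ω).1 k with
          | some v => C.G k v i
          | none => 0)| ≤ L / 2 ^ (g0 w₀ z g k i + z)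
      rw [h5, g0, if_neg h0]
      exact h4
  · refine Ful.fam_R hq (C.lab w₀ z k) (g0 w₀ z g k) (fun j : Fin n => e (j + 1)) ?_ h1 _ ?_
    · exact nd_timek hB ht hJk
    · intro ω ω' _ _ ee
      refine Prod.ext ?_ ?_
      · have h4 : ⌊(2 : ℝ) ^ J * cx F e ω 0⌋ = ⌊(2 : ℝ) ^ J * cx F e ω' 0⌋ :=
          congrFun ee (0 : Fin (n + 1))
        rw [fl_T, fl_T] at h4
        exact_mod_cast h4
      · funext i
        have h4 : ⌊(2 : ℝ) ^ J * cx F e ω (i.succ : Fin (n + 1))⌋ =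
            ⌊(2 : ℝ) ^ J * cx F e ω' (i.succ : Fin (n + 1))⌋ := congrFun ee i.succ
        rw [Fin.val_succ, fl_X F e ω (Nat.succ_pos _), fl_X F e ω' (Nat.succ_pos _)] at h4
        exact h4

end

end CDat

/-! ### The units of the window -/

/-- **The field `exact` of a row**, for the system in the units of the window; `tot` is
`∑ (J - g 0 i) log 2`. -/
theorem nrmd_exact {D : NDat} {K w₀ z M : ℕ} {σ : ℕ → ℝ} {κ C₁ : ℝ} {q : D.Ω → ℝ}
    (h : D.Ok0 n K J w₀ z M σ κ C₁ q) {r : ℕ} (φ : D.Λ → D.Γ) (ψ : D.Λ → ℕ) {k : ℕ}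
    (hk : k ≤ M) {𝒱 : Type} (Vf : D.Ω → 𝒱) {E : ℝ}
    (hE : (∑ i ∈ range r, ((J : ℝ) - D.g k i)) * Real.log 2 - E ≤ CH q Vf (D.c k)) :
    (∑ i ∈ range r, ((J : ℝ) - D.g 0 i)) * Real.log 2 -
      ∑ i ∈ range r, ((D.nrmd n J w₀ φ ψ).g k i : ℝ) * Real.log 2 - E ≤
      CH q Vf ((D.nrmd n J w₀ φ ψ).c k) := by
  have hq := h.isLaw
  have hc : ∀ k ≤ M, Det q (D.c k) (D.c 0) := by
    intro k
    induction k with
    | zero =>
      intro _ ω ω' _ _ e
      exact e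
    | succ k ih =>
      intro hk ω ω' a b e
      exact ih (by omega) ω ω' a b (h.c_c k (by omega) ω ω' a b e)
  have h1 : CH q Vf (D.c k) ≤ CH q Vf ((D.nrmd n J w₀ φ ψ).c k) := by
    refine CH_mono_cond hq.nonneg fun ω ω' a b e => ?_
    have h2 := hc k hk ω ω' a b e
    have h3 := h.c_T 0 (Nat.zero_le M) ω ω' a b h2
    have h4 : D.wd J w₀ ω = D.wd J w₀ ω' := by
      have h5 : w₀ + 0 * z = w₀ := by omega
      simp only [h5] at h3
      exact h3
    exact Prod.ext e (Prod.ext h2 h4)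
  refine le_trans (le_of_eq ?_) (hE.trans h1)
  have h6 : ∑ i ∈ range r, ((D.nrmd n J w₀ φ ψ).g k i : ℝ) * Real.log 2 =
      (∑ i ∈ range r, ((D.g k i : ℝ) - D.g 0 i)) * Real.log 2 := by
    rw [Finset.sum_mul]
    refine Finset.sum_congr rfl fun i _ => ?_
    change ((D.g k i - D.g 0 i : ℕ) : ℝ) * Real.log 2 = _
    rw [Nat.cast_sub (h.g_ge k hk i)]
  rw [h6, ← sub_mul, ← Finset.sum_sub_distrib]
  congr 2
  refine Finset.sum_congr rfl fun i _ => ?_
  ring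

/-! ### Classes -/

/-- Exactness in the precisions of the labels. -/
theorem ExW.num {F : Fam m J} {B : F.Ω → Prop} {eps : Fin n → Fin m} {w : ℕ} {s : Fin n → ℝ}
    {ρ θ : ℝ} (h : ExW F B eps w (((∑ j, (1 - s j)) - ρ) * Real.log 2 * J)) {g : ℕ → ℕ}
    (hg : ∀ j : Fin n, s j * J - θ ≤ g (j + 1)) :
    ExW F B eps w ((∑ i ∈ Ico 1 (n + 1), ((J : ℝ) - g i)) * Real.log 2 -
      (n * θ + ρ * J) * Real.log 2) := by
  refine h.mono ?_
  have h1 := Ful.num_ex (J := J) hg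
  have h2 : (0 : ℝ) < Real.log 2 := Real.log_pos (by norm_num)
  nlinarith [mul_le_mul_of_nonneg_right h1 h2.le]

/-- **Exactness for all large subevents**, all levels. -/
theorem bas_ex {S : PCl m} {M : ℕ} {wk : ℕ → ℝ} {E : ℕ → ℕ → ℝ} {eps : Fin n → Fin m}
    (h : ∀ k ≤ M, Pool.S6C.Bas S (fun J F A => ExW F A eps ⌊wk k * J⌋₊ (E k J))) :
    ∃ τ : ℝ, 0 < τ ∧ ∃ J₁ : ℕ, ∀ J ≥ J₁, ∀ (F : Fam m J) (A : F.Ω → Prop), S.St τ J F A →
      ∀ B : F.Ω → Prop, (∀ ω, B ω → A ω) → Real.exp (-(τ * J)) * Pe F.p A ≤ Pe F.p B →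
      ∀ k ≤ M, ∀ w : ℕ, w ≤ ⌊wk k * J⌋₊ → ⌊wk k * J⌋₊ ≤ J → ExW F B eps w (E k J) := by
  obtain ⟨τ, hτ, J₁, h1⟩ := Pool.S6C.Bas.all (M + 1)
    (Φ := fun k J F A => ExW F A eps ⌊wk k * J⌋₊ (E k J)) fun k hk => h k (by omega)
  refine ⟨τ / 2, half_pos hτ, J₁, fun J hJ F A hA B hB hP k hk w hw hw' => ?_⟩
  have h2 : S.St (τ / 2 + τ / 2) J F B := S.res (half_pos hτ).le hA hB hP
  rw [add_halves] at h2
  exact (h1 J hJ F B h2 k (by omega)).win hw hw'

end Pool.STAT
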