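import Pool.Agent.H90.STAT.CloN
import Pool.Agent.H77.STAT.RowF
import Pool.Agent.H12.STAT.N5S

/-!
# The static theorem for a family (row N5, family assembly)

* `fam_clo`: from chains of two-sided labels to exact labels with small variation in the cells;
* `fam_ok0`: the axioms `Ok0` for the law conditioned on a large event, from exactness;
* `Inp.ok0`, `Inp.row`: the axioms and the row of the height, from exactness and the rates;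
* `fam_sta`: a new label of the system, on a large event.
-/

set_option autoImplicit false

namespace Pool.STAT

open Finset MvPolynomial
open Pool.Agent.H49.Ent Pool.Agent.H32.Dense Pool.STK Pool.KS3 Pool.KA Pool.KSAT Pool.K2S Pool.PB
  Pool.GEN
open Pool.FLF (Fam.sub)

variable {m J : ℕ}

namespace FAM

theorem cnd_mono {F : Fam m J} {C : CDat F} {e : ℕ → Fin m} {n K w₀ z M : ℕ} {g : ℕ → ℕ → ℕ}
    {C₁ C₁' : ℝ} {A : F.Ω → Prop} (h : C.Cnd e n K w₀ z M g C₁ A) (hC : C₁ ≤ C₁') :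
    C.Cnd e n K w₀ z M g C₁' A :=
  ⟨h.deg, h.tri, h.Rdeg, h.Rtri, h.cls, h.pos, fun ω hω i h1 hi b hb =>
    (h.line ω hω i h1 hi b hb).trans (div_le_div_of_nonneg_right
      (Real.exp_le_exp.2 (mul_le_mul_of_nonneg_right hC (Nat.cast_nonneg z))) (by positivity))⟩

/-- **Chains for all levels.** -/
structure Chs (F : Fam m J) (c : ℕ → Fin m) (n K M w₀ z : ℕ) (e : ℕ → ℕ) (g : ℕ → ℕ → ℕ)
    (A : F.Ω → Prop) : Prop where
  inj : CLO.Inj c n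
  ok : ∃ (Kv : ℕ → ℕ → ℕ) (G : ℕ → PtT F → ℕ → MvPolynomial (Option (Fin m)) ℝ)
    (H : ℕ → LnT F → ℕ → MvPolynomial (Option (Fin m)) ℝ), (∀ k ≤ M, ∀ i < n, Kv k i ≤ K) ∧
    ∀ k ≤ M, ChOK F c n (Kv k) (w₀ + k * z) w₀ (e k) (g k) A (G k) (H k)

/-- **From chains to exact labels**, with the variation in the cells. -/
theorem fam_clo (n K : ℕ) : ∃ (sh K' s₁ : ℕ) (C₁ L : ℝ), 1 ≤ C₁ ∧ 1 ≤ L ∧ 1 ≤ K' ∧
    ∀ (m J M w₀ z : ℕ) (F : Fam m J) (c : ℕ → Fin m) (e : ℕ → ℕ) (g : ℕ → ℕ → ℕ)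
    (A : F.Ω → Prop), 1 ≤ z → w₀ + M * z ≤ J → (∀ k ≤ M, ∀ i < n, sh ≤ g k i) →
    Chs F c n K M w₀ z e g A →
    ∃ (C : CDat F) (B : F.Ω → Prop), (∀ ω, B ω → A ω) ∧ Pe F.p A ≤ K' ^ (M + 1) * Pe F.p B ∧
      C.Cnd (fun i => c (i - 1)) n K' w₀ z M (fun k i => g k (i - 1) - sh) C₁ B ∧
      (∀ k, C.HasZ w₀ z k) ∧ ∀ k ≤ M, ∀ y : ℕ,
      (∀ i < n, g k i + y + (e k + nlp (g k) 0 i) + s₁ ≤ J) →
      C.Near (fun i => c (i - 1)) n w₀ z (fun k i => g k (i - 1) - sh) k y L B := by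
  obtain ⟨sh, K', s₀, C₁, hC₁, hK', hclo⟩ := CLO.clo_fam n K
  obtain ⟨L, s₁, hL, hnear⟩ := CLO.clo_near n K sh K' s₀ hK'
  refine ⟨sh, K', s₁, max C₁ 1, L, le_max_right _ _, hL, hK', ?_⟩
  intro m J M w₀ z F c e g A hz hM hsh h
  obtain ⟨Kv, G, H, hKv, hok⟩ := h.ok
  obtain ⟨C, B, hB, hPe, hC, -, -, hNr⟩ := hclo m J M w₀ z F c Kv e g A G H hz hM h.inj hKv hsh hok
  refine ⟨C.addZ, B, hB, hPe, (cnd_mono hC (le_max_left _ _)).addZ, fun k => C.hasZ_addZ w₀ z k,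
    fun k hk y hy => ?_⟩
  have h1 := hnear m J M w₀ z F c g C₁ A B G C hM h.inj
    (fun k hk y i hi => ((hok k hk).degG y i).trans (hKv k hk i hi))
    (fun k hk y i => (hok k hk).depG y i) hsh hB hC hNr k hk
    (fun i => e k + nlp (g k) 0 i) y (fun ω hω i hi b hb l hl => by
      refine ((hok k hk).lip ω hω i hi b hb l hl).trans ?_
      refine pow_le_pow_right₀ (by norm_num) (Nat.add_le_add_left ?_ _)
      unfold nlp
      exact Nat.sub_le_sub_right (Finset.sup_mono (Finset.Icc_subset_Icc_left (Nat.zero_le l))) _)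
    hy
  intro ω ω' a b hl hT i h2 h3 hX
  exact h1 ω ω' a b (CDat.addZ_lab hl) hT i h2 h3 hX

section ok

variable {F : Fam m J} {C : CDat F} {e : ℕ → Fin m} {n K w₀ z M : ℕ} {g : ℕ → ℕ → ℕ}
  {σ : ℕ → ℝ} {κ C₁ L e₀ ε' : ℝ} {A B : F.Ω → Prop}

/-- **The axioms `Ok0`** for the law conditioned on a large event. -/
theorem fam_ok0 (hC : C.Cnd e (n + 1) K w₀ z M g C₁ A) (hN : CDat.Num (n + 1) J w₀ z M g σ C₁)
    (hC₁ : 0 ≤ C₁) (hL : 0 ≤ L) (hnear : ∀ k ≤ M, C.Near e n w₀ z g k z L A)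
    (hg : ∀ k ≤ M, ∀ i, 1 ≤ i → i ≤ n → g k i + z ≤ J) (hB : 0 < Pe F.p B)
    (hBA : ∀ ω, B ω → A ω) (ht : (Fam.sub F B hB).Tm e₀)
    (hE : ∀ k ≤ M, ExW F B (fun j : Fin n => e (j + 1)) (w₀ + k * z)
      ((∑ i ∈ Ico 1 (n + 1), ((J : ℝ) - g k i)) * Real.log 2 - ε'))
    (hε : 0 ≤ ε') (hκ : e₀ + ε' + (n + 1 : ℕ) * Real.log (5 + 2 * L) ≤ κ * z) :
    (C.nd e (n + 1) w₀ z M g).Ok0 (n + 1) K J w₀ z M σ κ C₁
      (Pool.Agent.H49.Ent.cond F.p B True) := by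
  have htop : ∀ k ≤ M, w₀ + (k + 1) * z ≤ J := fun k hk => by
    have h1 := hN.top
    have h2 : (k + 1) * z ≤ (M + 1) * z := Nat.mul_le_mul_right z (by omega)
    omega
  have hlog : 0 ≤ ((n + 1 : ℕ) : ℝ) * Real.log (5 + 2 * L) :=
    mul_nonneg (Nat.cast_nonneg _) (Real.log_nonneg (by linarith))
  refine CDat.ok0 hC hN hC₁ (isLaw_cond F.isLaw hB) (fun ω hω => hBA ω (cond_supp hω)) ?_ ?_
  · refine le_trans ?_ (CDat.nd_time hB ht (by have := htop 0 (Nat.zero_le M); omega))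
    linarith
  · intro k hk
    refine le_trans ?_ (CDat.nd_full hC hk (htop k hk) (hg k hk) hL (hnear k hk) hB hBA ht
      (hE k hk))
    linarith

end ok

/-! ### The row of the height -/

/-- **The labels of all levels on an event.** -/
structure Inp (F : Fam m J) (C : CDat F) (e : ℕ → Fin m) (n K w₀ z M U y : ℕ) (g : ℕ → ℕ → ℕ)
    (σ : ℕ → ℝ) (C₁ L : ℝ) (A : F.Ω → Prop) : Prop where
  cnd : C.Cnd e (n + 1) K w₀ z M g C₁ A
  num : CDat.Num (n + 1) J w₀ z M g σ C₁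
  hasZ : ∀ k ≤ M, C.HasZ w₀ z k
  ord : Cnr.Ord e (n + 1)
  near : ∀ k ≤ M, C.Near e (n + 1) w₀ z g k y L A
  C₁_nonneg : 0 ≤ C₁
  L_nonneg : 0 ≤ L
  U_pos : 1 ≤ U
  y_ge : C₁ * z + U * z ≤ y
  size : ∀ k ≤ M, ∀ i, 1 ≤ i → i ≤ n → g k i + U * z ≤ J

/-- **The entropies of a law of a family**: times and exactness. -/
structure EntB (F : Fam m J) (e : ℕ → Fin m) (n w₀ z M : ℕ) (g : ℕ → ℕ → ℕ) (e₀ ε' : ℝ)
    (B : F.Ω → Prop) : Prop where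
  pos : 0 < Pe F.p B
  tm : (Fam.sub F B pos).Tm e₀
  ex : ∀ k ≤ M, ExW F B (fun j : Fin n => e (j + 1)) (w₀ + k * z)
    ((∑ i ∈ Ico 1 (n + 1), ((J : ℝ) - g k i)) * Real.log 2 - ε')

/-- **The rates of the rows of the height.** -/
def RatB (F : Fam m J) (i₁ : Fin m) (M y : ℕ) (g : ℕ → ℕ) (a er : ℝ) (B : F.Ω → Prop) : Prop :=
  ∀ k ≤ M, ∀ Q : ℕ, g k ≤ Q → Q ≤ g k + y →
    CH (Pool.Agent.H49.Ent.cond F.p B True) (fun ω => F.X Q ω i₁)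
      (fun ω => (F.X (g k) ω i₁, (vj F i₁ J ω, F.W ω))) ≤
      (1 - a) * (((Q : ℝ) - g k) * Real.log 2) + er

section row

variable {F : Fam m J} {C : CDat F} {e : ℕ → Fin m} {n K w₀ z M U y : ℕ} {g : ℕ → ℕ → ℕ}
  {σ : ℕ → ℝ} {C₁ L e₀ ε' : ℝ} {A B : F.Ω → Prop}

/-- The system of a family is a system for all sub-events with the entropies. -/
theorem Inp.ok0 (h : Inp F C e n K w₀ z M U y g σ C₁ L A) (hBA : ∀ ω, B ω → A ω)
    (hE : EntB F e n w₀ z M g e₀ ε' B) (hε : 0 ≤ ε') {κ : ℝ}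
    (hκ : e₀ + ε' + (n + 1 : ℕ) * Real.log (5 + 2 * L) ≤ κ * z) :
    (C.nd e (n + 1) w₀ z M g).Ok0 (n + 1) K J w₀ z M σ κ C₁
      (Pool.Agent.H49.Ent.cond F.p B True) := by
  have hU : z ≤ U * z := Nat.le_mul_of_pos_left z h.U_pos
  have hzy : z ≤ y := by
    have h1 : (z : ℝ) ≤ U * z := by exact_mod_cast hU
    have h2 : 0 ≤ C₁ * z := mul_nonneg h.C₁_nonneg (Nat.cast_nonneg z)
    have h3 := h.y_ge
    have h4 : (z : ℝ) ≤ y := by linarith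
    exact_mod_cast h4
  refine fam_ok0 h.cnd h.num h.C₁_nonneg h.L_nonneg (fun k hk =>
    (h.near k hk).mono (Nat.le_succ n) hzy h.L_nonneg le_rfl) (fun k hk i h1 h2 => ?_) hE.pos hBA
    hE.tm hE.ex hε hκ
  exact (Nat.add_le_add_left hU _).trans (h.size k hk i h1 h2)

/-- **The inputs of a row of the height**, for the system in the units of the window. -/
theorem Inp.row (h : Inp F C e n K w₀ z M U y g σ C₁ L A) (hBA : ∀ ω, B ω → A ω)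
    (hE : EntB F e n w₀ z M g e₀ ε' B) (hε : 0 ≤ ε') (he₀ : 0 ≤ e₀)
    (hκ : e₀ + ε' + (n + 1 : ℕ) * Real.log (5 + 2 * L) ≤ z) {a er C₂ : ℝ}
    (ha0 : 0 ≤ a) (ha : a ≤ 1) (her : 0 ≤ er) (hC₂ : C₁ + 3 ≤ C₂)
    (her' : er + 2 * Real.log (7 + 2 * L) ≤ z)
    (hR : RatB F (e (n + 1)) M y (fun k => g k (n + 1)) a er B)
    (hσ : (⌈σ (n + 1)⌉₊ : ℝ) = σ (n + 1)) (φ : LnT F → (C.nd e (n + 1) w₀ z M g).Γ)
    (ψ : LnT F → ℕ) {v : ℕ} (hv : v + U ≤ M) :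
    ((C.nd e (n + 1) w₀ z M g).nrmd (n + 1) J w₀ φ ψ).Row (n + 1) z M U (fun i => ⌈σ i⌉₊) a C₂
      (fun ω => (vj F (e (n + 1)) J ω, F.W ω))
      ((∑ i ∈ range (n + 1), ((J : ℝ) - (C.nd e (n + 1) w₀ z M g).g 0 i)) * Real.log 2) v
      (Pool.Agent.H49.Ent.cond F.p B True) := by
  have hq := isLaw_cond F.isLaw hE.pos
  have hok := h.ok0 hBA hE hε (κ := 1) (by linarith)
  have hz0 : (0 : ℝ) ≤ z := Nat.cast_nonneg z
  have hvM : v ≤ M := by omega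
  have hlog : 0 ≤ ((n + 1 : ℕ) : ℝ) * Real.log (5 + 2 * L) :=
    mul_nonneg (Nat.cast_nonneg _) (Real.log_nonneg (by linarith [h.L_nonneg]))
  have hC₁z : 0 ≤ C₁ * z := mul_nonneg h.C₁_nonneg hz0
  have h3z : C₁ * z + 3 * z ≤ C₂ * z := by
    have h1 := mul_le_mul_of_nonneg_right hC₂ hz0
    linarith
  have htop : w₀ + (v + U) * z ≤ J := by
    have h1 := h.num.top
    have h2 : (v + U) * z ≤ (M + 1) * z := Nat.mul_le_mul_right z (by omega)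
    omega
  refine Cnr.row_fam (y := y) (L := L) (er := er) (ε := ε') hok hvM ?_ h.ord
    (Nat.succ_pos n) (h.hasZ v hvM) hσ.symm h.L_nonneg her ha ha0 h.C₁_nonneg h.y_ge ?_ ?_ htop
    ?_ ?_ ?_ ?_ ?_
  · intro ω i hi _
    exact NDat.rh_nrmd hok φ ψ v ω hi
  · exact (h.near v hvM).sub fun ω hω => hBA ω (cond_supp hω)
  · intro i h1 h2
    exact h.size v hvM i h1 (by omega)
  · intro v' h1 h2 h3
    have h4 : w₀ + v' * z ≤ J := by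
      have h5 := h.num.top
      have h6 : v' * z ≤ (M + 1) * z := Nat.mul_le_mul_right z (by omega)
      omega
    have h5 := CDat.nd_ex h.cnd h3 h4 hBA (hE.ex v' h3)
    refine h5.trans (CH_mono_left hq.nonneg fun ω ω' _ _ hh => ?_)
    simp only [Prod.mk.injEq] at hh
    funext j
    have h6 : vj F (e (n + 1)) J ω (e (j + 1)) = vj F (e (n + 1)) J ω' (e (j + 1)) := by
      rw [hh.1]
    have h7 : e ((j : ℕ) + 1) ≠ e (n + 1) := h.ord.ne _ (by omega) (by omega)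
    unfold vj at h6
    rw [Function.update_of_ne h7, Function.update_of_ne h7] at h6
    exact h6
  · intro Q h1 h2
    exact hR v hvM Q h1 h2
  · linarith
  · linarith
  · linarith

/-- The labels with the side information. -/
theorem Inp.of_addZ (hC : C.Cnd e (n + 1) K w₀ z M g C₁ A)
    (hN : CDat.Num (n + 1) J w₀ z M g σ C₁) (ho : Cnr.Ord e (n + 1))
    (hnear : ∀ k ≤ M, C.Near e (n + 1) w₀ z g k y L A) (hC₁ : 0 ≤ C₁) (hL : 0 ≤ L) (hU : 1 ≤ U)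
    (hy : C₁ * z + U * z ≤ y) (hs : ∀ k ≤ M, ∀ i, 1 ≤ i → i ≤ n → g k i + U * z ≤ J) :
    Inp F C.addZ e n K w₀ z M U y g σ C₁ L A :=
  ⟨hC.addZ, hN, fun k _ => C.hasZ_addZ w₀ z k, ho, fun k hk =>
    CDat.Vr.addZ (C := C) (hnear k hk), hC₁, hL, hU, hy, hs⟩

end row

/-- Events which are large in a large event. -/
theorem large_of {Ω : Type} {p : Ω → ℝ} [Fintype Ω] {A B B' : Ω → Prop} {K₁ x y : ℝ}
    (hK : K₁ * Real.exp (-x) ≤ Real.exp (-y)) (hA : 0 ≤ Pe p B) (h : Pe p A ≤ K₁ * Pe p B)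
    (hB : Real.exp (-y) * Pe p B ≤ Pe p B') : Real.exp (-x) * Pe p A ≤ Pe p B' := by
  refine le_trans ?_ ((mul_le_mul_of_nonneg_right hK hA).trans hB)
  have h1 := mul_le_mul_of_nonneg_left h (Real.exp_pos (-x)).le
  linarith

/-- **The static theorem for a family.** `A₀` carries the labels; all the large events `B` of `B₀`
have full times, exact coordinates below the height and, for integer slopes, the rates of the rows
of the height. Then there is a new label on a large event. -/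
theorem fam_sta {n K A : ℕ} {C₁ C₂ a : ℝ} {c : StaC} {σ : ℕ → ℝ}
    (hS : StaG (n + 1) K A C₁ C₂ a c σ) (hC₂ : C₁ + 3 ≤ C₂) (ha0 : 0 ≤ a) (ha : a ≤ 1)
    {κ₂ : ℝ} (hκ₂ : 0 < κ₂) : ∃ z₀ : ℕ, ∀ (m J : ℕ) (F : Fam m J) (C : CDat F) (e : ℕ → Fin m)
    (w₀ z y : ℕ) (g : ℕ → ℕ → ℕ) (L e₀ ε' er : ℝ) (A₀ B₀ : F.Ω → Prop), z₀ ≤ z →
    Inp F C e n K w₀ z c.M c.U y g σ C₁ L A₀ → (∀ ω, B₀ ω → A₀ ω) → 0 < Pe F.p B₀ →
    0 ≤ e₀ → 0 ≤ ε' → 0 ≤ er →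
    e₀ + ε' + (n + 1 : ℕ) * Real.log (5 + 2 * L) ≤ min c.κ 1 * z →
    er + 2 * Real.log (7 + 2 * L) ≤ z →
    (∀ B : F.Ω → Prop, (∀ ω, B ω → B₀ ω) → Real.exp (-(κ₂ * z)) * Pe F.p B₀ ≤ Pe F.p B →
      EntB F e n w₀ z c.M g e₀ ε' B) →
    ((∀ i ≤ n + 1, (⌈σ i⌉₊ : ℝ) = σ i) → ∀ B : F.Ω → Prop, (∀ ω, B ω → B₀ ω) →
      Real.exp (-(κ₂ * z)) * Pe F.p B₀ ≤ Pe F.p B →
      RatB F (e (n + 1)) c.M y (fun k => g k (n + 1)) a er B) →
    ∃ B : F.Ω → Prop, (∀ ω, B ω → B₀ ω) ∧ Real.exp (-(κ₂ * z)) * Pe F.p B₀ ≤ Pe F.p B ∧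
      ∃ v v' i, v ≤ v' ∧ v' ≤ c.M ∧ 1 ≤ i ∧ i ≤ n + 1 ∧
        (C.nd e (n + 1) w₀ z c.M g).NewLab0 J w₀ z i v v' A c.K' c.C₆ c.η'
          (Pool.Agent.H49.Ent.cond F.p B True) := by
  obtain ⟨z₀, hz₀⟩ := hS κ₂ hκ₂
  refine ⟨z₀, ?_⟩
  intro m J F C e w₀ z y g L e₀ ε' er A₀ B₀ hz hI hBA hB₀ he₀ hε her hκ her' hE hR
  have hz0 : (0 : ℝ) ≤ z := Nat.cast_nonneg z
  have hκ1 := hκ.trans (mul_le_mul_of_nonneg_right (min_le_left c.κ 1) hz0)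
  have hκ2 := hκ.trans (mul_le_mul_of_nonneg_right (min_le_right c.κ 1) hz0)
  rw [one_mul] at hκ2
  exact hz₀ J w₀ z (C.nd e (n + 1) w₀ z c.M g) F.p B₀ _
    (fun ω => (vj F (e (n + 1)) J ω, F.W ω))
    ((∑ i ∈ range (n + 1), ((J : ℝ) - (C.nd e (n + 1) w₀ z c.M g).g 0 i)) * Real.log 2) hz
    F.isLaw hB₀
    (fun B hB hP => hI.ok0 (fun ω hω => hBA ω (hB ω hω)) (hE B hB hP) hε hκ1)
    (fun hint φ ψ B hB hP k hk => hI.row (fun ω hω => hBA ω (hB ω hω)) (hE B hB hP) hε he₀ hκ2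
      ha0 ha her hC₂ her' (hR hint B hB hP) (hint _ le_rfl) φ ψ (by omega))

end FAM

end Pool.STAT
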