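import Pool.Agent.H45.EXA.ExvA
import Pool.Agent.H87.GEN.StaI

/-!
# The exactness input of the static theorem

`exIn_vexa`: from exactness of the greedy order at the windows (`VExa`); `exIn_of`: from the
exactness theorem `FZX n`, at the windows in `Wp`. The numbers are those of the chains
(`Pool.CHT.chsys`), along `e 1, …, e n`.
-/

set_option autoImplicit false

namespace Pool.STA

open Finset MvPolynomial
open Pool.Agent.H49.Ent Pool.Agent.H32.Dense Pool.STK Pool.KS3 Pool.KA Pool.KSAT Pool.K2S Pool.PB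
open Pool.GEN Pool.S6C Pool.STAT Pool.CHT Pool.GRW
open Pool.LBT (LSys ThrOf)

variable {m : ℕ}

/-- The order `e 1, …, e n`. -/
def ord (e : ℕ → Fin m) (n : ℕ) : Fin n → Fin m := fun j => e (j + 1)

theorem ord_inj {e : ℕ → Fin m} {n : ℕ}
    (he : ∀ j j', 1 ≤ j → j ≤ n → 1 ≤ j' → j' ≤ n → e j = e j' → j = j') :
    Function.Injective (ord e n) := by
  intro a b h
  have h1 := he (a + 1) (b + 1) (by omega) (by omega) (by omega) (by omega) h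
  exact Fin.ext (by omega)

/-- **Exactness at the good windows**, from the exactness of the greedy order. -/
theorem exIn_vexa {θ : ℝ} (hθ : 0 < θ) {S : PCl m} (hS : S.Ne) {C₀ : ℝ} (htm : TmC S C₀)
    (hpos : Bas S (fun _ F A => 0 < Pe F.p A)) {Λ : Finset (Fin m) → Fin m → ℝ → ℝ → ℝ}
    (hΛ : LamW S Λ) {P : List (Fin m) × Fin m → ℝ → ℝ → ℝ} (hP : ThrOf (chsys m θ) S P)
    {e : ℕ → Fin m} {n : ℕ}
    (he : ∀ j j', 1 ≤ j → j ≤ n → 1 ≤ j' → j' ≤ n → e j = e j' → j = j')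
    {L : ℕ → ℝ → ℝ → ℝ} (hL : ∀ j < n, ∀ w, L (j + 1) w w = bet P (fun l => e (l + 1)) j w w)
    {W : Set ℝ} (hW : ∀ w ∈ W, w ∈ Wp Λ P (ord e n) ∧ VExa S Λ (ord e n) w) :
    ExIn S e n L W := by
  intro w hw _ _ ρ hρ
  obtain ⟨h1, h2⟩ := hW w hw
  refine Bas.mono 0 (vst_exb hθ hS htm hpos hΛ hP (ord_inj he) (c := fun l => e (l + 1))
    (fun _ => rfl) h1 h2 hρ) ?_
  intro J _ F A h
  have e1 : ∑ j : Fin n, (1 - L (j + 1) w w) =
      ∑ j : Fin n, (1 - bet P (fun l => e (l + 1)) j w w) :=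
    Finset.sum_congr rfl fun j _ => by rw [hL j j.2]
  rw [e1]
  exact h

/-- **Exactness at the good windows**, from the exactness theorem. -/
theorem exIn_of {n : ℕ} (hF : FZX n) {θ : ℝ} (hθ : 0 < θ) {S : PCl m} (hS : S.Ne) {C₀ : ℝ}
    (hC : 0 ≤ C₀) (htm : TmC S C₀) (hpos : Bas S (fun _ F A => 0 < Pe F.p A))
    {Λ : Finset (Fin m) → Fin m → ℝ → ℝ → ℝ} (hΛ : LamW S Λ)
    {P : List (Fin m) × Fin m → ℝ → ℝ → ℝ} (hP : ThrOf (chsys m θ) S P) {N : ℚ → ℚ → ℝ}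
    {al : ℝ} (hal : 0 < al) {g₀ : ℝ → ℝ} (hg₀ : ∀ ε : ℝ, 0 < ε → 0 < g₀ ε)
    (hN : ActM N al g₀) {e : ℕ → Fin m}
    (he : ∀ j j', 1 ≤ j → j ≤ n → 1 ≤ j' → j' ≤ n → e j = e j' → j = j')
    (hact : 1 ≤ n → ActB N S (e 1)) {L : ℕ → ℝ → ℝ → ℝ}
    (hL : ∀ j < n, ∀ w, L (j + 1) w w = bet P (fun l => e (l + 1)) j w w) :
    ExIn S e n L (Wp Λ P (ord e n)) := by
  refine exIn_vexa hθ hS htm hpos hΛ hP he hL fun w hw => ⟨hw, ?_⟩
  obtain ⟨⟨h0, h1, hg, hc⟩, -⟩ := hw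
  intro ρ hρ
  refine vst_exa hF hS hC htm hΛ hal hg₀ hN hpos (ord_inj he) (fun k hk => ?_) h0 h1 hg hc hρ
  have h2 : ord e n k = e 1 := by
    unfold ord
    rw [hk]
  rw [h2]
  exact hact (by have := k.2; omega)

end Pool.STA
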