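import Pool.Agent.H19.STAT.Abs
import Pool.Agent.H14.BFL.Rat1

/-!
# The entropy fields `time` and `full` of a system in absolute units (row N1)

* `time_of`: the times are full given the line and the window;
* `time_w`, `time_c`: the same for smaller windows and for the labels;
* `full_of`: if the rounded positions have the entropy which is given by the precisions of the
  labels, then the natural digits are full;
* `full_fam`: the same from the entropy of the positions given the time and the label.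
-/

set_option autoImplicit false

namespace Pool.STAT.Ful

open Finset MvPolynomial
open Pool.Agent.H49.Ent Pool.Agent.H32.Dense Pool.STK Pool.KS3

section gen

variable {Ω S U : Type} [Fintype Ω] {q : Ω → ℝ}

/-- **The field `time`.** -/
theorem time_of (hq : IsLaw q) (T : Ω → ℕ) (l : Ω → S) (ln : Ω → U) {J w₀ : ℕ}
    (hT : ∀ ω, T ω < 2 ^ J) (hw : w₀ ≤ J) {θ : ℝ} (h : J * Real.log 2 - θ ≤ CH q T l)
    (hln : Det q (fun ω => (l ω, T ω / 2 ^ (J - w₀))) ln) :
    ((J - w₀ : ℕ) : ℝ) * Real.log 2 - θ ≤ CH q T ln := by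
  have h1 := Pool.BFL.RAT.time_wn hq T l hT hw h
  have h2 := CH_mono_cond hq.nonneg (X := T) (W' := fun ω => (l ω, T ω / 2 ^ (J - w₀)))
    (W := ln) hln
  rw [Nat.cast_sub hw]
  exact h1.trans h2

/-- Triangular vectors of integers. -/
theorem ch_vec (hq : IsLaw q) {n : ℕ} (Y : Ω → Fin n → ℤ) (W : Ω → U) (b : ℕ → ℝ)
    (hb : ∀ i : Fin n, ∀ ω ω', 0 < q ω → 0 < q ω' → W ω = W ω' → (∀ j < i, Y ω j = Y ω' j) →
      |((Y ω i - Y ω' i : ℤ) : ℝ)| ≤ b i) :
    CH q Y W ≤ ∑ i ∈ range n, Real.log (2 * b i + 1) := by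
  have H : ∀ m ≤ n, CH q (fun ω (j : Fin n) => if (j : ℕ) < m then Y ω j else 0) W ≤
      ∑ i ∈ range m, Real.log (2 * b i + 1) := by
    intro m
    induction m with
    | zero =>
      intro _
      rw [Finset.sum_range_zero]
      refine le_of_eq (CH_eq_zero hq.nonneg fun ω ω' _ _ _ => ?_)
      rfl
    | succ m ih =>
      intro hm
      have hm' : m < n := hm
      have h1 := ih hm'.le
      have h2 : CH q (fun ω => Y ω ⟨m, hm'⟩)
          (fun ω => ((fun j : Fin n => if (j : ℕ) < m then Y ω j else 0), W ω)) ≤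
          Real.log (2 * b m + 1) := by
        have h3 := CH_le_int hq.nonneg hq.sum_one (fun ω => Y ω ⟨m, hm'⟩)
          (fun ω => ((fun j : Fin n => if (j : ℕ) < m then Y ω j else 0), W ω))
          (fun _ => b m) (fun ω ω' h h' e => by
            simp only [Prod.mk.injEq] at e
            refine hb ⟨m, hm'⟩ ω ω' h h' e.2 fun j hj => ?_
            have h4 := congrFun e.1 j
            have h5 : (j : ℕ) < m := hj
            simp only [h5, if_true] at h4
            exact h4)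
        rw [Ex_const hq.sum_one] at h3
        exact h3
      have h3 := CH_chain hq.nonneg (fun ω => Y ω ⟨m, hm'⟩)
        (fun ω (j : Fin n) => if (j : ℕ) < m then Y ω j else 0) W
      have h4 : CH q (fun ω (j : Fin n) => if (j : ℕ) < m + 1 then Y ω j else 0) W ≤
          CH q (fun ω => (Y ω ⟨m, hm'⟩,
            fun j : Fin n => if (j : ℕ) < m then Y ω j else 0)) W := by
        refine CH_mono_left hq.nonneg fun ω ω' _ _ e => ?_
        simp only [Prod.mk.injEq] at e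
        funext j
        by_cases hj : (j : ℕ) < m
        · have h5 := congrFun e.1.2 j
          simp only [hj, if_true] at h5
          have h6 : (j : ℕ) < m + 1 := by omega
          simp only [h6, if_true]
          exact h5
        · by_cases hj2 : (j : ℕ) = m
          · have h6 : (j : ℕ) < m + 1 := by omega
            have h7 : j = ⟨m, hm'⟩ := Fin.ext hj2
            simp only [h6, if_true]
            rw [h7]
            exact e.1.1
          · have h6 : ¬ (j : ℕ) < m + 1 := by omega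
            simp only [h6, if_false]
      rw [Finset.sum_range_succ]
      linarith
  have h1 := H n le_rfl
  have h2 : (fun ω (j : Fin n) => if (j : ℕ) < n then Y ω j else 0) = Y := by
    funext ω j
    exact if_pos j.2
  rw [h2] at h1
  exact h1

theorem fl_le {x y : ℝ} {a : ℝ} (h : |x - y| ≤ a) : |((⌊x⌋ - ⌊y⌋ : ℤ) : ℝ)| ≤ a + 1 := by
  push_cast
  have h1 := Int.floor_le x
  have h2 := Int.lt_floor_add_one x
  have h3 := Int.floor_le y
  have h4 := Int.lt_floor_add_one y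
  rw [abs_le] at h ⊢
  constructor <;> linarith [h.1, h.2]

theorem fl_eq {x y : ℝ} (h : ⌊x⌋ = ⌊y⌋) : |x - y| ≤ 1 := by
  have h1 := Int.floor_le x
  have h2 := Int.lt_floor_add_one x
  have h3 := Int.floor_le y
  have h4 := Int.lt_floor_add_one y
  rw [h] at h1 h2
  rw [abs_le]
  constructor <;> linarith

end gen

variable {D : NDat} {n K J w₀ z M k : ℕ} {σ : ℕ → ℝ} {κ C₁ : ℝ} {q : D.Ω → ℝ}

/-- The times are full given the smaller windows. -/
theorem time_w (hq : IsLaw q)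
    (hln : Det q D.ln (fun ω => D.T ω / 2 ^ (J - w₀)))
    (ht : ((J - w₀ : ℕ) : ℝ) * Real.log 2 - κ * z ≤ CH q D.T D.ln) {v : ℕ} (h1 : w₀ ≤ v)
    (h2 : v ≤ J) : ((J : ℝ) - v) * Real.log 2 - κ * z ≤ CH q D.T (D.wn J v) := by
  have h3 := CH_le_add hq.nonneg D.T (fun ω => D.T ω / 2 ^ (J - v)) D.ln
  have h4 := Pool.BFL.RAT.ch_T_le hq (fun ω => D.T ω / 2 ^ (J - v)) (v - w₀) D.ln (by
    intro ω ω' h h' e
    have h5 := hln ω ω' h h' e
    simp only at h5 ⊢
    rw [Nat.div_div_eq_div_mul, Nat.div_div_eq_div_mul, ← pow_add]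
    have h6 : J - v + (v - w₀) = J - w₀ := by omega
    rw [h6]
    exact h5)
  have h5 := CH_mono_cond hq.nonneg (X := D.T) (W' := fun ω => (D.T ω / 2 ^ (J - v), D.ln ω))
    (W := D.wn J v) (fun ω ω' _ _ hh => by
      unfold NDat.wn
      simp only [Prod.mk.injEq] at hh ⊢
      exact ⟨hh.2, hh.1⟩)
  rw [Nat.cast_sub (h1.trans h2)] at ht
  rw [Nat.cast_sub h1] at h4
  linarith

/-- The times are full given the labels. -/
theorem time_c (hq : IsLaw q)
    (hln : Det q D.ln (fun ω => D.T ω / 2 ^ (J - w₀)))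
    (ht : ((J - w₀ : ℕ) : ℝ) * Real.log 2 - κ * z ≤ CH q D.T D.ln) {v : ℕ} (h1 : w₀ ≤ v)
    (h2 : v ≤ J) (hc : Det q (D.wn J v) (D.c k)) :
    ((J : ℝ) - v) * Real.log 2 - κ * z ≤ CH q D.T (D.c k) :=
  (time_w hq hln ht h1 h2).trans (CH_mono_cond hq.nonneg hc)

/-- **The field `full`**, from the entropy of the rounded positions given the label. `L` is the
variation of the label polynomials in the cells of side `2 ^ (-J)`, in the units of the digits. -/
theorem full_of (hq : IsLaw q) {L ε : ℝ} (hL : 0 ≤ L) (hg : ∀ i < n, D.g k i + z ≤ J)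
    (hlip : ∀ ω ω', 0 < q ω → 0 < q ω' → D.c k ω = D.c k ω' → ∀ i < n,
      (∀ j < i, ⌊(2 : ℝ) ^ J * D.X ω j⌋ = ⌊(2 : ℝ) ^ J * D.X ω' j⌋) →
      |eval (D.X ω) (D.P k (D.c k ω) i) - eval (D.X ω') (D.P k (D.c k ω) i)| ≤
        L / 2 ^ (D.g k i + z))
    (hY : (∑ i ∈ range n, ((J : ℝ) - D.g k i)) * Real.log 2 - ε ≤
      CH q (fun ω (i : Fin n) => ⌊(2 : ℝ) ^ J * D.X ω i⌋) (D.c k)) :
    n * (z * Real.log 2) - (ε + n * Real.log (5 + 2 * L)) ≤
      CH q (fun ω (i : Fin n) => ⌊(2 : ℝ) ^ (D.g k i + z) * D.rh k ω i⌋) (D.c k) := by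
  have hJ : (0 : ℝ) < 2 ^ J := by positivity
  have h1 := CH_le_add hq.nonneg (fun ω (i : Fin n) => ⌊(2 : ℝ) ^ J * D.X ω i⌋)
    (fun ω (i : Fin n) => ⌊(2 : ℝ) ^ (D.g k i + z) * D.rh k ω i⌋) (D.c k)
  have h2 := ch_vec hq (fun ω (i : Fin n) => ⌊(2 : ℝ) ^ J * D.X ω i⌋)
    (fun ω => ((fun i : Fin n => ⌊(2 : ℝ) ^ (D.g k i + z) * D.rh k ω i⌋), D.c k ω))
    (fun i => (1 + L) * 2 ^ (J - (D.g k i + z)) + 1) (fun i ω ω' h h' e hj => by
      simp only [Prod.mk.injEq] at e
      have h3 : |D.rh k ω i - D.rh k ω' i| ≤ 1 / 2 ^ (D.g k i + z) := by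
        have h4 := fl_eq (congrFun e.1 i)
        rw [← mul_sub, abs_mul, abs_of_pos (by positivity)] at h4
        rw [le_div_iff₀' (by positivity)]
        exact h4
      have h4 := hlip ω ω' h h' e.2 i i.2 (fun j hji => hj ⟨j, by omega⟩ hji)
      have h5 : D.X ω i - D.X ω' i = (D.rh k ω i - D.rh k ω' i) +
          (eval (D.X ω) (D.P k (D.c k ω) i) - eval (D.X ω') (D.P k (D.c k ω) i)) := by
        unfold NDat.rh
        rw [e.2]
        ring
      have h6 : |(2 : ℝ) ^ J * D.X ω i - 2 ^ J * D.X ω' i| ≤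
          (1 + L) * 2 ^ (J - (D.g k i + z)) := by
        rw [← mul_sub, abs_mul, abs_of_pos hJ, h5]
        have h7 : (2 : ℝ) ^ J * (1 / 2 ^ (D.g k i + z)) = 2 ^ (J - (D.g k i + z)) := by
          rw [mul_one_div, div_eq_iff (by positivity), ← pow_add]
          congr 1
          have := hg i i.2
          omega
        calc (2 : ℝ) ^ J * |_| ≤ 2 ^ J * (1 / 2 ^ (D.g k i + z) + L / 2 ^ (D.g k i + z)) :=
              mul_le_mul_of_nonneg_left ((abs_add_le _ _).trans (add_le_add h3 h4)) hJ.le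
          _ = (1 + L) * (2 ^ J * (1 / 2 ^ (D.g k i + z))) := by ring
          _ = (1 + L) * 2 ^ (J - (D.g k i + z)) := by rw [h7]
      exact fl_le h6)
  have h3 : ∑ i ∈ range n, Real.log (2 * ((1 + L) * 2 ^ (J - (D.g k i + z)) + 1) + 1) ≤
      ∑ i ∈ range n, ((((J : ℝ) - D.g k i) * Real.log 2 - z * Real.log 2) +
        Real.log (5 + 2 * L)) := by
    refine Finset.sum_le_sum fun i hi => ?_
    have hi' := hg i (mem_range.1 hi)
    have h4 : (1 : ℝ) ≤ 2 ^ (J - (D.g k i + z)) := one_le_pow₀ (by norm_num)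
    have h5 : 2 * ((1 + L) * (2 : ℝ) ^ (J - (D.g k i + z)) + 1) + 1 ≤
        2 ^ (J - (D.g k i + z)) * (5 + 2 * L) := by nlinarith
    refine (Real.log_le_log (by positivity) h5).trans (le_of_eq ?_)
    rw [Real.log_mul (by positivity) (by positivity), Real.log_pow, Nat.cast_sub hi']
    push_cast
    ring
  rw [Finset.sum_add_distrib, Finset.sum_sub_distrib, ← Finset.sum_mul, Finset.sum_const,
    Finset.sum_const, Finset.card_range, nsmul_eq_mul, nsmul_eq_mul] at h3
  linarith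

/-- **The field `full`**, from the entropy of the positions given the time and the label. -/
theorem full_fam {S : Type} (hq : IsLaw q) {L ε ε' : ℝ} (hL : 0 ≤ L) (hn : 1 ≤ n)
    (hX : ∀ ω, D.X ω 0 = (D.T ω : ℝ) / 2 ^ J) (hg : ∀ i < n, D.g k i + z ≤ J)
    (hlip : ∀ ω ω', 0 < q ω → 0 < q ω' → D.c k ω = D.c k ω' → ∀ i < n,
      (∀ j < i, ⌊(2 : ℝ) ^ J * D.X ω j⌋ = ⌊(2 : ℝ) ^ J * D.X ω' j⌋) →
      |eval (D.X ω) (D.P k (D.c k ω) i) - eval (D.X ω') (D.P k (D.c k ω) i)| ≤
        L / 2 ^ (D.g k i + z))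
    (hT : ((J : ℝ) - D.g k 0) * Real.log 2 - ε ≤ CH q D.T (D.c k)) (Y : D.Ω → S)
    (hY : Det q (fun ω (i : Fin n) => ⌊(2 : ℝ) ^ J * D.X ω i⌋) Y)
    (hV : (∑ i ∈ Ico 1 n, ((J : ℝ) - D.g k i)) * Real.log 2 - ε' ≤
      CH q Y (fun ω => (D.T ω, D.c k ω))) :
    n * (z * Real.log 2) - (ε + ε' + n * Real.log (5 + 2 * L)) ≤
      CH q (fun ω (i : Fin n) => ⌊(2 : ℝ) ^ (D.g k i + z) * D.rh k ω i⌋) (D.c k) := by
  refine full_of hq hL hg hlip ?_
  have h1 : CH q (fun ω => (Y ω, D.T ω)) (D.c k) ≤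
      CH q (fun ω (i : Fin n) => ⌊(2 : ℝ) ^ J * D.X ω i⌋) (D.c k) := by
    refine CH_mono_left hq.nonneg fun ω ω' h h' e => ?_
    simp only [Prod.mk.injEq] at e
    have h2 := congrFun e.1 ⟨0, hn⟩
    have h3 : ∀ ω, ⌊(2 : ℝ) ^ J * D.X ω ((⟨0, hn⟩ : Fin n) : ℕ)⌋ = (D.T ω : ℤ) := by
      intro ω
      have h4 : (2 : ℝ) ^ J * D.X ω ((⟨0, hn⟩ : Fin n) : ℕ) = (D.T ω : ℝ) := by
        change (2 : ℝ) ^ J * D.X ω 0 = _
        rw [hX]
        field_simp
      rw [h4]
      exact Int.floor_natCast _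
    simp only [h3] at h2
    exact Prod.ext (hY ω ω' h h' e.1) (by exact_mod_cast h2)
  rw [CH_chain hq.nonneg] at h1
  have h2 : ∑ i ∈ range n, ((J : ℝ) - D.g k i) =
      ((J : ℝ) - D.g k 0) + ∑ i ∈ Ico 1 n, ((J : ℝ) - D.g k i) := by
    rw [Finset.range_eq_Ico, Finset.sum_eq_sum_Ico_succ_bot (by omega)]
  rw [h2, add_mul]
  linarith

end Pool.STAT.Ful
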