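import Pool.Agent.H64.STAT.Rows

/-!
# The flow of a vector field of degree `-1` is a one parameter group

The exponential of a locally nilpotent derivation is an algebra homomorphism.
-/

set_option autoImplicit false

namespace Pool.STAT

open Finset MvPolynomial
open Pool.BFL (Pl CB)

/-! ### Iterates of a derivation -/

section Leib

variable {A : Type} [CommRing A] [Algebra ℝ A] (D : Derivation ℝ A A)

theorem iter_add (n : ℕ) (a b : A) : D^[n] (a + b) = D^[n] a + D^[n] b := by
  induction n generalizing a b with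
  | zero => rfl
  | succ n ih => rw [Function.iterate_succ_apply, Function.iterate_succ_apply,
      Function.iterate_succ_apply, map_add, ih]

theorem iter_zero (n : ℕ) : D^[n] (0 : A) = 0 := by
  induction n with
  | zero => rfl
  | succ n ih => rw [Function.iterate_succ_apply, map_zero, ih]

theorem iter_sum {ι : Type} (S : Finset ι) (f : ι → A) (n : ℕ) :
    D^[n] (∑ i ∈ S, f i) = ∑ i ∈ S, D^[n] (f i) := by
  classical
  induction S using Finset.induction_on with
  | empty => rw [sum_empty, sum_empty, iter_zero]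
  | insert a S ha ih => rw [sum_insert ha, sum_insert ha, iter_add, ih]

/-- Leibniz' rule. -/
theorem iter_mul (n : ℕ) (a b : A) :
    D^[n] (a * b) = ∑ ij ∈ antidiagonal n, n.choose ij.1 • (D^[ij.1] a * D^[ij.2] b) := by
  induction n with
  | zero => simp
  | succ n ih =>
    rw [sum_antidiagonal_choose_succ_nsmul (M := A) (fun i j => (D^[i] a * D^[j] b)) n]
    have h1 : ∀ ij ∈ antidiagonal n, D (n.choose ij.1 • (D^[ij.1] a * D^[ij.2] b)) =
        n.choose ij.1 • (D^[ij.1] a * D^[ij.2 + 1] b) +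
          n.choose ij.2 • (D^[ij.1 + 1] a * D^[ij.2] b) := by
      intro ij hij
      rw [map_nsmul, D.leibniz, Function.iterate_succ_apply', Function.iterate_succ_apply',
        n.choose_symm_of_eq_add (mem_antidiagonal.1 hij).symm, ← smul_add, smul_eq_mul,
        smul_eq_mul, mul_comm (D^[ij.2] b)]
    rw [Function.iterate_succ_apply', ih, map_sum, sum_congr rfl h1, sum_add_distrib]

end Leib

/-! ### Weights -/

section Wt

variable {c : ℕ} {d : Fin c → ℕ} {ξ : Fin c → Pl c}

/-- The derivation lowers the weight by one. -/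
theorem lie_hom (hd : ∀ i, 1 ≤ d i) (hξ : VF d ξ) {P : Pl c} {e : ℕ}
    (hP : P.IsWeightedHomogeneous d e) : (lie ξ P).IsWeightedHomogeneous d (e - 1) := by
  have h1 : lie ξ P = ∑ m ∈ P.support, lie ξ (monomial m (P.coeff m)) := by
    conv_lhs => rw [P.as_sum]
    rw [map_sum]
  rw [h1]
  refine IsWeightedHomogeneous.sum _ _ _ fun m hm => ?_
  have hm' : Finsupp.weight d m = e := hP (MvPolynomial.mem_support_iff.1 hm)
  unfold lie
  rw [mkDerivation_monomial, smul_eq_C_mul, ← zero_add (e - 1)]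
  refine (isWeightedHomogeneous_C d _).mul ?_
  rw [Finsupp.sum]
  refine IsWeightedHomogeneous.sum _ _ _ fun i hi => ?_
  have hmi : 1 ≤ m i := Nat.one_le_iff_ne_zero.2 (Finsupp.mem_support_iff.1 hi)
  have h2 : m - Finsupp.single i 1 + Finsupp.single i 1 = m :=
    tsub_add_cancel_of_le (Finsupp.single_le_iff.2 hmi)
  have h3 : Finsupp.weight d (m - Finsupp.single i 1) + d i = e := by
    rw [← hm']
    conv_rhs => rw [← h2]
    rw [map_add, Finsupp.weight_single, one_smul]
  have h4 : e - 1 = (e - d i) + (d i - 1) := by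
    have := hd i
    omega
  rw [smul_eq_mul, h4]
  exact (isWeightedHomogeneous_monomial _ _ _ (by omega)).mul (hξ i)

/-- Polynomials of weight `0` are constant. -/
theorem hom_zero (hd : ∀ i, 1 ≤ d i) {P : Pl c} (hP : P.IsWeightedHomogeneous d 0) :
    P = C (P.coeff 0) := by
  ext m
  by_cases h : m = 0
  · rw [h, coeff_C, if_pos rfl]
  · rw [coeff_C, if_neg (Ne.symm h)]
    refine hP.coeff_eq_zero m ?_
    obtain ⟨i, hi⟩ : ∃ i, m i ≠ 0 := by
      by_contra hc
      push Not at hc
      exact h (Finsupp.ext hc)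
    have h1 : d i * m i ≤ Finsupp.weight d m := by
      rw [Finsupp.weight_apply, Finsupp.sum]
      have h2 : m i • d i ≤ ∑ x ∈ m.support, m x • d x :=
        Finset.single_le_sum (f := fun x => m x • d x) (fun x _ => Nat.zero_le _)
          (Finsupp.mem_support_iff.2 hi)
      rw [smul_eq_mul, mul_comm] at h2
      exact h2
    have h2 : 1 ≤ d i * m i := Nat.one_le_iff_ne_zero.2 (Nat.mul_ne_zero (by have := hd i; omega) hi)
    omega

theorem iter_hom (hd : ∀ i, 1 ≤ d i) (hξ : VF d ξ) {P : Pl c} {e : ℕ}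
    (hP : P.IsWeightedHomogeneous d e) (n : ℕ) :
    ((lie ξ)^[n] P).IsWeightedHomogeneous d (e - n) := by
  induction n with
  | zero => exact hP
  | succ n ih =>
    rw [Function.iterate_succ_apply']
    have := lie_hom hd hξ ih
    rwa [Nat.sub_sub] at this

/-- The iterates vanish. -/
theorem iter_vanish (hd : ∀ i, 1 ≤ d i) (hξ : VF d ξ) {P : Pl c} {e : ℕ}
    (hP : P.IsWeightedHomogeneous d e) {n : ℕ} (hn : e < n) : (lie ξ)^[n] P = 0 := by
  have h1 : (lie ξ)^[e + 1] P = 0 := by
    rw [Function.iterate_succ_apply']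
    have h2 := iter_hom hd hξ hP e
    rw [Nat.sub_self] at h2
    rw [hom_zero hd h2, derivation_C]
  obtain ⟨k, rfl⟩ : ∃ k, n = k + (e + 1) := ⟨n - (e + 1), by omega⟩
  rw [Function.iterate_add_apply, h1, iter_zero]

theorem iter_X (hd : ∀ i, 1 ≤ d i) (hξ : VF d ξ) (i : Fin c) {n : ℕ} (hn : d i < n) :
    (lie ξ)^[n] (X i : Pl c) = 0 :=
  iter_vanish hd hξ (isWeightedHomogeneous_X ℝ d i) hn

end Wt

/-! ### The exponential -/

section Ex

variable {c : ℕ} {d : Fin c → ℕ} {ξ : Fin c → Pl c}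

/-- The exponential series of a coordinate. -/
noncomputable def exX (d : Fin c → ℕ) (ξ : Fin c → Pl c) (i : Fin c) : Polynomial (Pl c) :=
  ∑ r ∈ range (d i + 1), Polynomial.monomial r (C (1 / (r.factorial : ℝ)) * (lie ξ)^[r] (X i))

/-- The exponential series. -/
noncomputable def Ex (d : Fin c → ℕ) (ξ : Fin c → Pl c) : Pl c →ₐ[ℝ] Polynomial (Pl c) :=
  aeval (exX d ξ)

theorem exX_coeff (hd : ∀ i, 1 ≤ d i) (hξ : VF d ξ) (i : Fin c) (n : ℕ) :
    (exX d ξ i).coeff n = C (1 / (n.factorial : ℝ)) * (lie ξ)^[n] (X i) := by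
  unfold exX
  rw [Polynomial.finsetSum_coeff]
  simp only [Polynomial.coeff_monomial]
  by_cases h : n < d i + 1
  · rw [Finset.sum_ite_eq' (range (d i + 1)) n, if_pos (mem_range.2 h)]
  · rw [Finset.sum_ite_eq' (range (d i + 1)) n, if_neg (fun hc => h (mem_range.1 hc)),
      iter_X hd hξ i (by omega), mul_zero]

/-- The coefficients of the exponential series. -/
theorem Ex_coeff (hd : ∀ i, 1 ≤ d i) (hξ : VF d ξ) (P : Pl c) (n : ℕ) :
    (Ex d ξ P).coeff n = C (1 / (n.factorial : ℝ)) * (lie ξ)^[n] P := by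
  induction P using MvPolynomial.induction_on generalizing n with
  | C a =>
    unfold Ex
    rw [← MvPolynomial.algebraMap_eq, AlgHom.commutes]
    have e1 : algebraMap ℝ (Polynomial (Pl c)) a = Polynomial.C (C a) := rfl
    rw [e1, Polynomial.coeff_C]
    cases n with
    | zero => simp [MvPolynomial.algebraMap_eq]
    | succ n =>
      rw [if_neg (Nat.succ_ne_zero n), Function.iterate_succ_apply, MvPolynomial.algebraMap_eq,
        derivation_C, iter_zero, mul_zero]
  | add P Q hP hQ => rw [map_add, Polynomial.coeff_add, hP, hQ, iter_add, mul_add]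
  | mul_X P i hP =>
    have e1 : Ex d ξ (X i) = exX d ξ i := by
      unfold Ex
      rw [aeval_X]
    rw [map_mul, Polynomial.coeff_mul, iter_mul, mul_sum]
    refine Finset.sum_congr rfl fun ij hij => ?_
    rw [hP, e1, exX_coeff hd hξ]
    have h1 : ij.1 + ij.2 = n := mem_antidiagonal.1 hij
    have h2 : (C (1 / (n.factorial : ℝ)) : Pl c) * (n.choose ij.1 : Pl c) =
        C (1 / (ij.1.factorial : ℝ)) * C (1 / (ij.2.factorial : ℝ)) := by
      have h3 : (n.choose ij.1 : Pl c) = C ((n.choose ij.1 : ℕ) : ℝ) := by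
        rw [map_natCast]
      rw [h3, ← C_mul, ← C_mul]
      congr 1
      have h4 : (ij.1.factorial : ℝ) ≠ 0 := by exact_mod_cast Nat.factorial_ne_zero _
      have h5 : (ij.2.factorial : ℝ) ≠ 0 := by exact_mod_cast Nat.factorial_ne_zero _
      have h6 : ((n.choose ij.1 : ℕ) : ℝ) * ij.1.factorial * ij.2.factorial = n.factorial := by
        have h7 := Nat.choose_mul_factorial_mul_factorial (show ij.1 ≤ n by omega)
        have h8 : n - ij.1 = ij.2 := by omega
        rw [h8] at h7
        exact_mod_cast h7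
      have h9 : ((n.choose ij.1 : ℕ) : ℝ) ≠ 0 := by
        exact_mod_cast (Nat.choose_pos (show ij.1 ≤ n by omega)).ne'
      rw [← h6]
      field_simp
    rw [nsmul_eq_mul]
    calc C (1 / (ij.1.factorial : ℝ)) * (lie ξ)^[ij.1] P *
          (C (1 / (ij.2.factorial : ℝ)) * (lie ξ)^[ij.2] (X i)) =
        (C (1 / (ij.1.factorial : ℝ)) * C (1 / (ij.2.factorial : ℝ))) *
          ((lie ξ)^[ij.1] P * (lie ξ)^[ij.2] (X i)) := by ring
      _ = _ := by rw [← h2]; ring

/-- **The exponential is a substitution.** -/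
theorem bind_flow (hd : ∀ i, 1 ≤ d i) (hξ : VF d ξ) (s : ℝ) (P : Pl c) (N : ℕ)
    (hN : ∀ n, N ≤ n → (lie ξ)^[n] P = 0) :
    bind₁ (flow d ξ s) P = ∑ r ∈ range N, C (s ^ r / (r.factorial : ℝ)) * (lie ξ)^[r] P := by
  have h1 : ∀ Q : Pl c, bind₁ (flow d ξ s) Q = (Ex d ξ Q).eval (C s) := by
    intro Q
    have h2 : (bind₁ (flow d ξ s)) = ((Polynomial.aeval (C s : Pl c)).restrictScalars ℝ).comp
        (Ex d ξ) := by
      refine MvPolynomial.algHom_ext fun i => ?_
      rw [bind₁_X_right, AlgHom.comp_apply]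
      unfold Ex
      rw [aeval_X]
      unfold exX flow
      rw [AlgHom.restrictScalars_apply, map_sum]
      refine Finset.sum_congr rfl fun r _ => ?_
      rw [Polynomial.aeval_monomial, Algebra.algebraMap_self, RingHom.id_apply, ← C_pow]
      have e : (C (s ^ r / (r.factorial : ℝ)) : Pl c) = C (1 / (r.factorial : ℝ)) * C (s ^ r) := by
        rw [← C_mul]
        congr 1
        ring
      rw [e]
      ring
    rw [h2, AlgHom.comp_apply, AlgHom.restrictScalars_apply, Polynomial.coe_aeval_eq_eval]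
  rw [h1, Polynomial.eval_eq_sum_range' (n := N + ((Ex d ξ P).natDegree + 1)) (by omega)]
  rw [Finset.sum_range_add]
  have h3 : ∑ x ∈ range ((Ex d ξ P).natDegree + 1),
      (Ex d ξ P).coeff (N + x) * (C s : Pl c) ^ (N + x) = 0 := by
    refine Finset.sum_eq_zero fun x _ => ?_
    rw [Ex_coeff hd hξ, hN _ (by omega), mul_zero, zero_mul]
  rw [h3, add_zero]
  refine Finset.sum_congr rfl fun r _ => ?_
  rw [Ex_coeff hd hξ, ← C_pow]
  have e : (C (s ^ r / (r.factorial : ℝ)) : Pl c) = C (1 / (r.factorial : ℝ)) * C (s ^ r) := by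
    rw [← C_mul]
    congr 1
    ring
  rw [e]
  ring

/-- The binomial theorem for exponential series. -/
theorem exp_binom (s t : ℝ) (n : ℕ) :
    ∑ k ∈ range (n + 1), t ^ k / (k.factorial : ℝ) * (s ^ (n - k) / ((n - k).factorial : ℝ)) =
      (s + t) ^ n / (n.factorial : ℝ) := by
  rw [add_comm s t, add_pow, Finset.sum_div]
  refine Finset.sum_congr rfl fun k hk => ?_
  have hk' : k ≤ n := Nat.lt_succ_iff.1 (mem_range.1 hk)
  have h4 : (k.factorial : ℝ) ≠ 0 := by exact_mod_cast Nat.factorial_ne_zero _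
  have h5 : ((n - k).factorial : ℝ) ≠ 0 := by exact_mod_cast Nat.factorial_ne_zero _
  have h6 : (n.factorial : ℝ) ≠ 0 := by exact_mod_cast Nat.factorial_ne_zero _
  have h7 : ((n.choose k : ℕ) : ℝ) * k.factorial * (n - k).factorial = n.factorial := by
    exact_mod_cast Nat.choose_mul_factorial_mul_factorial hk'
  rw [← h7]
  have h8 : ((n.choose k : ℕ) : ℝ) ≠ 0 := by
    exact_mod_cast (Nat.choose_pos hk').ne'
  field_simp

/-- The binomial theorem for exponential series with one term more. -/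
theorem exp_binom' (s t : ℝ) (n : ℕ) :
    s ^ (n + 1) / ((n + 1).factorial : ℝ) + ∑ k ∈ range (n + 1),
      t ^ (k + 1) / ((k + 1).factorial : ℝ) * (s ^ (n - k) / ((n - k).factorial : ℝ)) =
      (s + t) ^ (n + 1) / ((n + 1).factorial : ℝ) := by
  rw [← exp_binom s t (n + 1), Finset.sum_range_succ' _ (n + 1), add_comm]
  congr 1
  · refine Finset.sum_congr rfl fun k _ => ?_
    rw [Nat.add_sub_add_right]
  · simp

/-- The sum of the iterates of a polynomial along the flow. -/
theorem bind_flow_sum (hd : ∀ i, 1 ≤ d i) (hξ : VF d ξ) (s : ℝ) (P : Pl c) (N : ℕ)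
    (hN : ∀ n, N ≤ n → (lie ξ)^[n] P = 0) (w : ℕ → ℝ) :
    bind₁ (flow d ξ s) (∑ r ∈ range N, C (w r) * (lie ξ)^[r] P) =
      ∑ n ∈ range N, C (∑ k ∈ range (n + 1), w k * (s ^ (n - k) / ((n - k).factorial : ℝ))) *
        (lie ξ)^[n] P := by
  have h1 : ∀ r ∈ range N, bind₁ (flow d ξ s) (C (w r) * (lie ξ)^[r] P) =
      ∑ q ∈ range (N - r), C (w r * (s ^ q / (q.factorial : ℝ))) * (lie ξ)^[r + q] P := by
    intro r _
    rw [map_mul, bind₁_C_right, bind_flow hd hξ s ((lie ξ)^[r] P) (N - r) (fun n hn => by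
      rw [← Function.iterate_add_apply]
      exact hN _ (by omega)), mul_sum]
    refine Finset.sum_congr rfl fun q _ => ?_
    rw [← Function.iterate_add_apply, add_comm q r, C_mul]
    ring
  rw [map_sum, Finset.sum_congr rfl h1]
  have h2 := Finset.sum_range_diag_flip N
    (fun r q => (C (w r * (s ^ q / (q.factorial : ℝ))) : Pl c) * (lie ξ)^[r + q] P)
  rw [← h2]
  refine Finset.sum_congr rfl fun n _ => ?_
  rw [map_sum, Finset.sum_mul]
  refine Finset.sum_congr rfl fun k hk => ?_
  have hk' : k ≤ n := Nat.lt_succ_iff.1 (mem_range.1 hk)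
  have e : k + (n - k) = n := by omega
  rw [e]

/-- The flow is a one parameter group. -/
theorem flow_add (hd : ∀ i, 1 ≤ d i) (hξ : VF d ξ) (s t : ℝ) (i : Fin c) :
    bind₁ (flow d ξ s) (flow d ξ t i) = flow d ξ (s + t) i := by
  unfold flow
  have h := bind_flow_sum hd hξ s (X i) (d i + 1) (fun n hn => iter_X hd hξ i (by omega))
    (fun r => t ^ r / (r.factorial : ℝ))
  unfold flow at h
  rw [h]
  exact Finset.sum_congr rfl fun n _ => by rw [exp_binom]

/-- The height along the flow. -/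
theorem hfl_add (hd : ∀ i, 1 ≤ d i) (hξ : VF d ξ) {j : ℕ} (hj : 1 ≤ j) {b : Pl c}
    (hb : b.IsWeightedHomogeneous d (j - 1)) (s t : ℝ) :
    hfl j ξ b (s + t) = hfl j ξ b s + bind₁ (flow d ξ s) (hfl j ξ b t) := by
  unfold hfl
  rw [bind_flow_sum hd hξ s b j (fun n hn => iter_vanish hd hξ hb (by omega))
    (fun r => t ^ (r + 1) / ((r + 1).factorial : ℝ)), ← Finset.sum_add_distrib]
  refine Finset.sum_congr rfl fun n _ => ?_
  rw [← exp_binom' s t n, C_add, add_mul]

theorem eval_bindF {n m : ℕ} (u : Fin m → ℝ) (f : Fin n → Pl m) (P : Pl n) :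
    eval u (bind₁ f P) = eval (fun k => eval u (f k)) P := by
  have h := eval₂Hom_bind₁ (RingHom.id ℝ) u f P
  exact h

/-- **Row FLW3.** -/
theorem flw3_alt : Flw3Stmt := by
  intro c j d ξ b s t u hd hj hξ hb
  refine ⟨fun i => ?_, ?_⟩
  · rw [← eval_bindF, flow_add hd hξ]
  · rw [← eval_bindF, hfl_add hd hξ hj hb, map_add]

end Ex

end Pool.STAT
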