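import Pool.Agent.H63.STAT.Clo
import Pool.Agent.H63.STAT.Flb

/-!
# The variation of the closed labels in small cells

`P` is a closed triangular system, `G` a raw one which is near `P` on the natural boxes and has a
gradient at most `2 ^ (e j)` there. Then the polynomials `P j` vary by at most `L / 2 ^ (g j + y)`
between two points of a cell of side `2 ^ (-J)`, if `g j + y + e j ≤ J`.
-/

set_option autoImplicit false

namespace Pool.STAT

open Finset MvPolynomial
open Pool.Agent.H49.Ent Pool.Agent.H32.Dense Pool.STK Pool.KA Pool.K2S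

namespace NEAR

open CLO

/-! ### The mean value inequality -/

theorem deriv_seg (F : PN) (a v : ℕ → ℝ) (t : ℝ) :
    HasDerivAt (fun t : ℝ => eval (fun j => a j + t * v j) F)
      (eval (fun j => a j + t * v j) (lieN (fun j => C (v j)) F)) t := by
  induction F using MvPolynomial.induction_on with
  | C c =>
    have h1 : lieN (fun j => C (v j)) (C c : PN) = 0 := by
      exact (lieN fun j => C (v j)).map_algebraMap c
    rw [h1, map_zero]
    simp only [eval_C]
    exact hasDerivAt_const t c
  | add p q hp hq =>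
    simp only [map_add]
    exact hp.add hq
  | mul_X p i hp =>
    have h1 : lieN (fun j => C (v j)) (p * X i : PN) =
        p * C (v i) + X i * lieN (fun j => C (v j)) p := by
      rw [Derivation.leibniz, smul_eq_mul, smul_eq_mul]
      congr 2
      unfold lieN
      exact mkDerivation_X _ _ _
    rw [h1]
    simp only [map_add, map_mul, eval_X, eval_C]
    have h2 : HasDerivAt (fun t : ℝ => a i + t * v i) (v i) t := by
      have h3 := ((hasDerivAt_id t).mul_const (v i)).const_add (a i)
      simpa using h3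
    have h3 := hp.mul h2
    refine h3.congr_deriv ?_
    ring

/-- **The mean value inequality** along a segment. -/
theorem mv {F : PN} {i : ℕ} (hv : F.vars ⊆ range i) (a b : ℕ → ℝ) (M : ℕ → ℝ)
    (hM : ∀ t : ℝ, 0 ≤ t → t ≤ 1 → ∀ l < i, b l ≠ a l →
      |eval (fun j => a j + t * (b j - a j)) (pderiv l F)| ≤ M l) :
    |eval b F - eval a F| ≤ ∑ l ∈ range i, M l * |b l - a l| := by
  have h1 := Convex.norm_image_sub_le_of_norm_hasDerivWithin_le
    (f := fun t : ℝ => eval (fun j => a j + t * (b j - a j)) F)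
    (f' := fun t : ℝ => eval (fun j => a j + t * (b j - a j))
      (lieN (fun j => C (b j - a j)) F))
    (C := ∑ l ∈ range i, M l * |b l - a l|) (s := Set.Icc (0 : ℝ) 1) (x := 0) (y := 1)
    (fun t _ => (deriv_seg F a (fun j => b j - a j) t).hasDerivWithinAt)
    (fun t ht => by
      rw [Real.norm_eq_abs, FLB.lieN_eq _ hv, map_sum]
      refine (Finset.abs_sum_le_sum_abs _ _).trans (Finset.sum_le_sum fun l hl => ?_)
      rw [map_mul, eval_C, abs_mul]
      by_cases h : b l = a l
      · rw [h, sub_self, abs_zero, mul_zero, mul_zero]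
      · exact mul_le_mul_of_nonneg_right (hM t ht.1 ht.2 l (mem_range.1 hl) h) (abs_nonneg _))
    (convex_Icc 0 1) (by simp) (by simp)
  simp only [sub_zero, norm_one, mul_one, one_mul, zero_mul, add_zero, Real.norm_eq_abs] at h1
  have h2 : (fun j => a j + (b j - a j)) = b := by
    funext j
    ring
  rwa [h2] at h1

theorem vars_pd (F : PN) (l : ℕ) : (pderiv l F).vars ⊆ F.vars := by
  intro j hj
  rw [mem_vars_iff_mem_support] at hj
  obtain ⟨k, hk, hjk⟩ := hj
  rw [mem_support_iff, coeff_pderiv] at hk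
  rw [mem_vars_iff_mem_support]
  refine ⟨k + Finsupp.single l 1, mem_support_iff.2 (left_ne_zero_of_mul hk), ?_⟩
  rw [Finsupp.mem_support_iff, Finsupp.add_apply]
  have := Finsupp.mem_support_iff.1 hjk
  omega

theorem deg_pd {F : PN} {K : ℕ} (hF : F.totalDegree ≤ K) (l : ℕ) :
    (pderiv l F).totalDegree ≤ K := by
  refine Finset.sup_le fun s hs => ?_
  rw [mem_support_iff, coeff_pderiv] at hs
  have h1 : s + Finsupp.single l 1 ∈ F.support := by
    rw [mem_support_iff]
    exact left_ne_zero_of_mul hs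
  have h2 := (le_totalDegree h1).trans hF
  rw [Finsupp.sum_add_index' (fun _ => rfl) (fun _ _ _ => rfl)] at h2
  omega

/-- The derivatives on a dilated cube. -/
theorem pd_le {F : PN} {i K : ℕ} {ρ : ℝ} {y : ℕ → ℝ} (hρ : 1 ≤ ρ) (hv : F.vars ⊆ range i)
    (hK : F.totalDegree ≤ K) (hy : ∀ j < i, |y j| ≤ ρ) (l : ℕ) :
    |eval y (pderiv l F)| ≤ K * n1 F * ρ ^ K := by
  refine (eval_le hρ ((vars_pd F l).trans hv) (deg_pd hK l) hy).trans ?_
  refine mul_le_mul_of_nonneg_right ?_ (by positivity)
  refine FLB.nrm_pderiv (d := fun _ => 1) F l fun k hk => ?_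
  have h1 := (le_totalDegree hk).trans hK
  refine le_trans ?_ h1
  by_cases hl : l ∈ k.support
  · exact Finset.single_le_sum (f := fun j => k j) (fun _ _ => Nat.zero_le _) hl
  · rw [Finsupp.notMem_support_iff.1 hl]
    exact Nat.zero_le _

/-- The variation of a polynomial on a dilated cube. -/
theorem var_le {F : PN} {i K : ℕ} {ρ δ : ℝ} {y y' : ℕ → ℝ} (hρ : 1 ≤ ρ) (hv : F.vars ⊆ range i)
    (hK : F.totalDegree ≤ K) (hy : ∀ j < i, |y j| ≤ ρ) (hy' : ∀ j < i, |y' j| ≤ ρ)
    (hδ : ∀ j < i, |y' j - y j| ≤ δ) :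
    |eval y' F - eval y F| ≤ i * (K * n1 F * ρ ^ K * δ) := by
  refine (mv hv y y' (fun _ => K * n1 F * ρ ^ K) fun t h0 h1 l _ _ =>
    pd_le hρ hv hK (fun j hj => ?_) l).trans ?_
  · have h2 : y j + t * (y' j - y j) = (1 - t) * y j + t * y' j := by ring
    rw [h2]
    have h3 := hy j hj
    have h4 := hy' j hj
    rw [abs_le] at h3 h4 ⊢
    constructor <;> nlinarith
  · have hn := n1_nonneg F
    calc ∑ l ∈ range i, K * n1 F * ρ ^ K * |y' l - y l| ≤
        ∑ _l ∈ range i, K * n1 F * ρ ^ K * δ :=
          Finset.sum_le_sum fun l hl => mul_le_mul_of_nonneg_left (hδ l (mem_range.1 hl))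
            (by positivity)
      _ = i * (K * n1 F * ρ ^ K * δ) := by
        rw [Finset.sum_const, card_range, nsmul_eq_mul]

/-! ### The variation -/

/-- The data at a point `x`: closed system `P`, raw system `G`. -/
structure Dat (n K : ℕ) (S : ℝ) (P G : ℕ → PN) (g : ℕ → ℕ) (x : ℕ → ℝ) (e : ℕ → ℕ)
    (J y : ℕ) : Prop where
  tri : TriN P
  deg : ∀ j, (P j).totalDegree ≤ K
  triG : ∀ j, 1 ≤ j → j ≤ n → (G j).vars ⊆ range j
  degG : ∀ j, 1 ≤ j → j ≤ n → (G j).totalDegree ≤ K
  zero : P 0 = C (x 0)
  fit : ∀ j, 1 ≤ j → j ≤ n → |x j - eval x (P j)| ≤ 1 / 2 ^ g j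
  near : ∀ j, 1 ≤ j → j ≤ n → ∀ b : ℕ → ℝ, Bx g P j b →
    |eval b (G j) - eval b (P j)| ≤ S / 2 ^ g j
  lip : ∀ j, 1 ≤ j → j ≤ n → ∀ b : ℕ → ℝ, Bx g P j b → ∀ l, 1 ≤ l → l < j →
    |eval b (pderiv l (G j))| ≤ 2 ^ e j
  siz : ∀ j, 1 ≤ j → j ≤ n → g j + y + e j ≤ J

theorem near_core (n K : ℕ) {S : ℝ} (hS : 0 ≤ S) : ∀ i ≤ n + 1, ∃ L : ℝ, 1 ≤ L ∧
    ∀ (P G : ℕ → PN) (g : ℕ → ℕ) (x : ℕ → ℝ) (e : ℕ → ℕ) (J y : ℕ), Dat n K S P G g x e J y →
    ∀ b : ℕ → ℝ, b 0 = x 0 → (∀ j ≤ n, |b j - x j| ≤ 1 / 2 ^ J) →
    ∀ j < i, |eval b (P j) - eval x (P j)| ≤ L / 2 ^ (g j + y) := by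
  obtain ⟨C₁, hC₁, hdil⟩ := dil n K
  obtain ⟨C₂, hC₂, hbox⟩ := n1_of_box n K
  obtain ⟨K₁, hK₁⟩ : ∃ K₁, K₁ = K * (K + 1) ^ (n + 1) := ⟨_, rfl⟩
  rw [← hK₁] at hdil
  intro i
  induction i with
  | zero =>
    intro _
    exact ⟨1, le_rfl, fun _ _ _ _ _ _ _ _ _ _ _ j hj => absurd hj (Nat.not_lt_zero j)⟩
  | succ i ih =>
    intro hi
    obtain ⟨L, hL, hI⟩ := ih (by omega)
    have hL0 : 0 ≤ L := by linarith
    obtain ⟨ρ, hρ⟩ : ∃ ρ : ℝ, ρ = 2 + L := ⟨_, rfl⟩
    have hρ1 : 1 ≤ ρ := by rw [hρ]; linarith
    have hρ0 : 0 ≤ ρ := by linarith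
    have hA0 : 0 ≤ n * (C₁ * ρ ^ K₁) := by positivity
    have hB0 : 0 ≤ n * (K₁ * (C₂ * S) * ρ ^ K₁ * (1 + L)) := by positivity
    refine ⟨L + (n * (C₁ * ρ ^ K₁) + n * (K₁ * (C₂ * S) * ρ ^ K₁ * (1 + L))), by linarith, ?_⟩
    intro P G g x e J y h b hb0 hb j hj
    rcases Nat.lt_succ_iff_lt_or_eq.1 hj with hj' | hj'
    · refine (hI P G g x e J y h b hb0 hb j hj').trans ?_
      exact div_le_div_of_nonneg_right (by linarith) (by positivity)
    · subst hj'
      have hjn : j ≤ n := by omega
      rcases Nat.eq_zero_or_pos j with h0 | h0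
      · subst h0
        rw [h.zero, eval_C, eval_C, sub_self, abs_zero]
        positivity
      · -- the cell is in the dilated box
        have box : ∀ b : ℕ → ℝ, b 0 = x 0 → (∀ j ≤ n, |b j - x j| ≤ 1 / 2 ^ J) →
            Bxr ρ g P j b := by
          intro b hb0 hb l hl
          rcases Nat.eq_zero_or_pos l with l0 | l0
          · subst l0
            rw [h.zero, eval_C, hb0, sub_self, abs_zero]
            positivity
          · have e1 := hb l (by omega)
            have e2 := h.fit l l0 (by omega)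
            have e3 := hI P G g x e J y h b hb0 hb l hl
            have e4 := h.siz l l0 (by omega)
            have e5 : (1 : ℝ) / 2 ^ J ≤ 1 / 2 ^ g l :=
              one_div_le_one_div_of_le (by positivity)
                (pow_le_pow_right₀ (by norm_num) (by omega))
            have e6 : L / 2 ^ (g l + y) ≤ L / 2 ^ g l :=
              div_le_div_of_nonneg_left hL0 (by positivity)
                (pow_le_pow_right₀ (by norm_num) (by omega))
            have e7 : ρ / 2 ^ g l = 1 / 2 ^ g l + 1 / 2 ^ g l + L / 2 ^ g l := by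
              rw [hρ]
              ring
            rw [e7]
            rw [abs_le] at e1 e2 e3 ⊢
            constructor <;> linarith [e1.1, e1.2, e2.1, e2.2, e3.1, e3.2]
        have hx0 : ∀ j ≤ n, |x j - x j| ≤ 1 / 2 ^ J := fun j _ => by
          rw [sub_self, abs_zero]
          positivity
        -- the raw polynomial
        have raw : |eval b (G j) - eval x (G j)| ≤ n * (C₁ * ρ ^ K₁) / 2 ^ (g j + y) := by
          have e1 := mv (h.triG j h0 hjn) x b (fun _ => C₁ * 2 ^ e j * ρ ^ K₁)
            (fun t t0 t1 l hl hne => by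
              have hl0 : 1 ≤ l := by
                rcases Nat.eq_zero_or_pos l with l0 | l0
                · subst l0
                  exact absurd hb0 hne
                · exact l0
              refine hdil P g (pderiv l (G j)) j (2 ^ e j) ρ h.tri h.deg hjn
                ((vars_pd _ l).trans (h.triG j h0 hjn)) (deg_pd (h.degG j h0 hjn) l) hρ1
                (fun b hb => h.lip j h0 hjn b hb l hl0 hl) _ (box _ ?_ fun k hk => ?_)
              · rw [hb0]
                ring
              · have e2 := hb k hk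
                have e3 : x k + t * (b k - x k) - x k = t * (b k - x k) := by ring
                rw [e3, abs_mul, abs_of_nonneg t0]
                exact (mul_le_of_le_one_left (abs_nonneg _) t1).trans e2)
          refine e1.trans ?_
          have e4 := h.siz j h0 hjn
          calc ∑ l ∈ range j, C₁ * 2 ^ e j * ρ ^ K₁ * |b l - x l| ≤
              ∑ _l ∈ range j, C₁ * 2 ^ e j * ρ ^ K₁ * (1 / 2 ^ J) :=
                Finset.sum_le_sum fun l hl => mul_le_mul_of_nonneg_left
                  (hb l (by have := mem_range.1 hl; omega)) (by positivity)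
            _ = j * (C₁ * ρ ^ K₁) * (2 ^ e j / 2 ^ J) := by
              rw [Finset.sum_const, card_range, nsmul_eq_mul]
              ring
            _ ≤ n * (C₁ * ρ ^ K₁) * (1 / 2 ^ (g j + y)) := by
              refine mul_le_mul ?_ ?_ (by positivity) hA0
              · exact mul_le_mul_of_nonneg_right (by exact_mod_cast hjn) (by positivity)
              · rw [div_le_div_iff₀ (by positivity) (by positivity), one_mul, ← pow_add]
                exact pow_le_pow_right₀ (by norm_num) (by omega)
            _ = n * (C₁ * ρ ^ K₁) / 2 ^ (g j + y) := by ring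
        -- the difference
        obtain ⟨F, hF⟩ : ∃ F, F = bind₁ (nuc g P) (G j - P j) := ⟨_, rfl⟩
        have hv : (G j - P j).vars ⊆ range j := by
          intro k hk
          rcases Finset.mem_union.1 (vars_sub_subset _ hk) with h1 | h1
          · exact h.triG j h0 hjn h1
          · exact h.tri j h1
        have hd : (G j - P j).totalDegree ≤ K :=
          (totalDegree_sub _ _).trans (max_le (h.degG j h0 hjn) (h.deg j))
        obtain ⟨f1, f2⟩ := nat_deg h.tri h.deg g hjn hv hd
        rw [← hF, ← hK₁] at f2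
        rw [← hF] at f1
        have f3 : n1 F ≤ C₂ * (S / 2 ^ g j) := by
          rw [hF]
          refine hbox P g (G j - P j) j (S / 2 ^ g j) h.tri h.deg hjn hv hd fun b hb => ?_
          rw [map_sub]
          exact h.near j h0 hjn b hb
        have f4 : ∀ l < j, |nc g P b l - nc g P x l| ≤ (1 + L) / 2 ^ y := by
          intro l hl
          have pg : (0 : ℝ) < 2 ^ g l := by positivity
          unfold nc
          rcases Nat.eq_zero_or_pos l with l0 | l0
          · subst l0
            rw [h.zero, eval_C, eval_C, hb0, sub_self, abs_zero]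
            positivity
          · have e1 := hb l (by omega)
            have e3 := hI P G g x e J y h b hb0 hb l hl
            have e4 := h.siz l l0 (by omega)
            have e5 : (1 : ℝ) / 2 ^ J ≤ 1 / 2 ^ (g l + y) :=
              one_div_le_one_div_of_le (by positivity)
                (pow_le_pow_right₀ (by norm_num) (by omega))
            have e6 : (2 : ℝ) ^ g l * (b l - eval b (P l)) - 2 ^ g l * (x l - eval x (P l)) =
                2 ^ g l * ((b l - x l) - (eval b (P l) - eval x (P l))) := by ring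
            rw [e6, abs_mul, abs_of_pos pg]
            have e7 : |(b l - x l) - (eval b (P l) - eval x (P l))| ≤ (1 + L) / 2 ^ (g l + y) := by
              have e8 : (1 + L) / 2 ^ (g l + y) = 1 / 2 ^ (g l + y) + L / 2 ^ (g l + y) := by
                ring
              rw [e8]
              rw [abs_le] at e1 e3 ⊢
              constructor <;> linarith [e1.1, e1.2, e3.1, e3.2]
            refine (mul_le_mul_of_nonneg_left e7 pg.le).trans (le_of_eq ?_)
            rw [pow_add]
            field_simp
        have dif : |eval b (G j - P j) - eval x (G j - P j)| ≤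
            n * (K₁ * (C₂ * S) * ρ ^ K₁ * (1 + L)) / 2 ^ (g j + y) := by
          rw [eval_nat h.tri g b, eval_nat h.tri g x, ← hF]
          refine (var_le hρ1 f1 f2 (fun l hl => nc_le.2 (box x rfl hx0 l hl))
            (fun l hl => nc_le.2 (box b hb0 hb l hl)) f4).trans ?_
          calc (j : ℝ) * (K₁ * n1 F * ρ ^ K₁ * ((1 + L) / 2 ^ y)) ≤
              n * (K₁ * (C₂ * (S / 2 ^ g j)) * ρ ^ K₁ * ((1 + L) / 2 ^ y)) := by
                refine mul_le_mul (by exact_mod_cast hjn) ?_ ?_ (Nat.cast_nonneg n)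
                · refine mul_le_mul_of_nonneg_right ?_ (by positivity)
                  refine mul_le_mul_of_nonneg_right ?_ (by positivity)
                  exact mul_le_mul_of_nonneg_left f3 (Nat.cast_nonneg K₁)
                · have := n1_nonneg F
                  positivity
            _ = n * (K₁ * (C₂ * S) * ρ ^ K₁ * (1 + L)) / 2 ^ (g j + y) := by
              rw [pow_add]
              field_simp
        have tot : eval b (P j) - eval x (P j) = (eval b (G j) - eval x (G j)) -
            (eval b (G j - P j) - eval x (G j - P j)) := by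
          rw [map_sub, map_sub]
          ring
        rw [tot]
        refine (abs_sub _ _).trans ((add_le_add raw dif).trans ?_)
        rw [← add_div]
        exact div_le_div_of_nonneg_right (by linarith) (by positivity)

/-- **The variation of the closed labels in a cell.** -/
theorem near (n K : ℕ) {S : ℝ} (hS : 0 ≤ S) : ∃ L : ℝ, 1 ≤ L ∧
    ∀ (P G : ℕ → PN) (g : ℕ → ℕ) (x : ℕ → ℝ) (e : ℕ → ℕ) (J y : ℕ), Dat n K S P G g x e J y →
    ∀ b : ℕ → ℝ, b 0 = x 0 → (∀ j ≤ n, |b j - x j| ≤ 1 / 2 ^ J) →
    ∀ j ≤ n, |eval b (P j) - eval x (P j)| ≤ L / 2 ^ (g j + y) := by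
  obtain ⟨L, hL, h⟩ := near_core n K hS (n + 1) le_rfl
  exact ⟨L, hL, fun P G g x e J y hd b hb0 hb j hj => h P G g x e J y hd b hb0 hb j (by omega)⟩

end NEAR

end Pool.STAT
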