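import Pool.Agent.H63.STAT.CloF
import Pool.Agent.H90.STAT.Near
import Pool.Agent.H90.STAT.FulC

/-!
# The variation of the exact labels of a chain in small cells (rows N1, N2)

The exact labels of `CLO.clo_fam` are near the point sides of the chains, and these have bounded
gradients on the natural boxes. So the polynomials of the exact labels vary by at most
`L / 2 ^ (g i + y)` between two samples with the same time in the same cell of side `2 ^ (-J)`, if
`g i + y + E i + s₁ ≤ J`; `E i` is the exponent of the gradient.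
-/

set_option autoImplicit false

namespace Pool.STAT

open Finset MvPolynomial
open Pool.Agent.H49.Ent Pool.Agent.H32.Dense Pool.STK Pool.KS3 Pool.KA Pool.KSAT Pool.PB Pool.GEN
open Pool.K2S

variable {m J : ℕ}

namespace CLO

/-- The derivatives of the translated polynomial. -/
theorem pd_tr {c : ℕ → Fin m} {n i l : ℕ} (hc : Inj c n) (hi : i ≤ n) (hl : l < i)
    (G : MvPolynomial (Option (Fin m)) ℝ) :
    pderiv (l + 1) (tr c i G) = tr c i (pderiv (some (c l)) G) := by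
  classical
  induction G using MvPolynomial.induction_on with
  | C a =>
    unfold tr
    rw [algHom_C, algebraMap_eq, pderiv_C, pderiv_C, map_zero]
  | add p q hp hq =>
    unfold tr at hp hq ⊢
    rw [map_add, map_add, map_add, map_add, hp, hq]
  | mul_X p o hp =>
    unfold tr at hp ⊢
    rw [map_mul, bind₁_X_right, Derivation.leibniz, Derivation.leibniz, map_add, smul_eq_mul,
      smul_eq_mul, smul_eq_mul, smul_eq_mul, map_mul, map_mul, bind₁_X_right, hp]
    congr 2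
    rcases o with _ | j
    · rw [pderiv_X_of_ne (by simp)]
      show pderiv (l + 1) (X 0 : PN) = _
      rw [pderiv_X_of_ne (by omega), map_zero]
    · by_cases hj : j = c l
      · subst hj
        rw [vr_some hc hi hl, pderiv_X_self, pderiv_X_self, map_one]
      · have h1 : (some j : Option (Fin m)) ≠ some (c l) := fun h => hj (Option.some.inj h)
        rw [pderiv_X_of_ne h1, map_zero]
        unfold vr
        simp only
        split_ifs with h
        · have h2 := Nat.find_spec h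
          have h3 : Nat.find h ≠ l := by
            intro h3
            rw [h3] at h2
            exact hj h2.2.symm
          rw [pderiv_X_of_ne (by omega)]
        · rw [map_zero]

theorem eval_cg {P : PN} {i : ℕ} (hP : P.vars ⊆ range i) {b b' : ℕ → ℝ}
    (h : ∀ j < i, b j = b' j) : eval b P = eval b' P :=
  eval₂Hom_congr' rfl (fun j hj _ => h j (mem_range.1 (hP hj))) rfl

/-- **The variation of the closed polynomials**, at one sample. -/
theorem near_pt (n K sh K' s₀ : ℕ) (hK' : 1 ≤ K') : ∃ (L : ℝ) (s₁ : ℕ), 1 ≤ L ∧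
    ∀ (m J : ℕ) (F : Fam m J) (c : ℕ → Fin m) (a : ℕ) (g E : ℕ → ℕ) (y : ℕ)
    (G : ℕ → MvPolynomial (Option (Fin m)) ℝ) (P : ℕ → PN) (ω : F.Ω), a ≤ J → Inj c n →
    (∀ i < n, (G i).totalDegree ≤ K) → (∀ i, DepC c i (G i)) →
    (∀ i < n, ∀ b : Option (Fin m) → ℝ, NBx c G g a (F.t ω) i b → ∀ l < i,
      |eval b (pderiv (some (c l)) (G i))| ≤ 2 ^ E i) →
    (∀ i, 1 ≤ i → i ≤ n → (P i).vars ⊆ range i) → (∀ i, 1 ≤ i → i ≤ n →
      (P i).totalDegree ≤ K') → P 0 = MvPolynomial.C ((F.T1 a ω : ℝ) / 2 ^ a) →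
    Nr K' (2 ^ s₀) (gg a g) P (sy c n ((F.T1 a ω : ℝ) / 2 ^ a) G) (n + 1) →
    (∀ i, 1 ≤ i → i ≤ n → |cx F (fun i => c (i - 1)) ω i -
      eval (cx F (fun i => c (i - 1)) ω) (P i)| ≤ 1 / 2 ^ (g (i - 1) - sh)) →
    (∀ i < n, sh ≤ g i) → (∀ i < n, g i + y + E i + s₁ ≤ J) →
    ∀ b : ℕ → ℝ, b 0 = F.t ω → ∀ i, 1 ≤ i → i ≤ n →
    (∀ j, 1 ≤ j → j < i → |b j - cx F (fun i => c (i - 1)) ω j| ≤ 1 / 2 ^ J) →
    |eval b (P i) - eval (cx F (fun i => c (i - 1)) ω) (P i)| ≤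
      L / 2 ^ (g (i - 1) - sh + y) := by
  obtain ⟨K₂, hK₂⟩ : ∃ K₂, K₂ = max K K' := ⟨_, rfl⟩
  obtain ⟨C₁, hC₁, hdil⟩ := dil n K₂
  obtain ⟨K₁, hK₁⟩ : ∃ K₁, K₁ = K₂ * (K₂ + 1) ^ (n + 1) := ⟨_, rfl⟩
  rw [← hK₁] at hdil
  obtain ⟨M, hM⟩ := cc_le K' n
  obtain ⟨Θ, hΘ⟩ : ∃ Θ : ℝ, Θ = 2 * K' * 2 ^ s₀ * 2 ^ (sh + 1) := ⟨_, rfl⟩
  have hK1 : (1 : ℝ) ≤ K' := by exact_mod_cast hK'
  have hs1 : (1 : ℝ) ≤ 2 ^ s₀ := one_le_pow₀ (by norm_num)
  have hs2 : (1 : ℝ) ≤ 2 ^ (sh + 1) := one_le_pow₀ (by norm_num)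
  have hΘ1 : 1 ≤ Θ := by
    rw [hΘ]
    have h1 : (1 : ℝ) ≤ 2 * K' := by linarith
    have h2 : (1 : ℝ) ≤ 2 * K' * 2 ^ s₀ := by nlinarith
    nlinarith
  obtain ⟨ρ, hρ⟩ : ∃ ρ : ℝ, ρ = Θ ^ M := ⟨_, rfl⟩
  have hρ1 : 1 ≤ ρ := by
    rw [hρ]
    exact one_le_pow₀ hΘ1
  obtain ⟨S, hS⟩ : ∃ S : ℝ, S = (K' * 2 ^ s₀ * ρ) ^ K' := ⟨_, rfl⟩
  have hS0 : 0 ≤ S := by
    rw [hS]
    positivity
  obtain ⟨s₁, hs₁⟩ := pow_unbounded_of_one_lt (C₁ * ρ ^ K₁) (one_lt_two (α := ℝ))
  obtain ⟨L, hL, hnear⟩ := NEAR.near n K₂ hS0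
  refine ⟨L, s₁, hL, ?_⟩
  intro m J F c a g E y G P ω ha hc hGK hdep hlip hPv hPd hP0 hNr hfit hsh hsiz b hb0 i hi1 hi hb
  obtain ⟨x, hx⟩ : ∃ x, x = cx F (fun i => c (i - 1)) ω := ⟨_, rfl⟩
  have hx0 : x 0 = F.t ω := by
    rw [hx]
    exact if_pos rfl
  rw [← hx] at hfit hb ⊢
  obtain ⟨P', hP'⟩ : ∃ P' : ℕ → PN, P' = fun i => if i = 0 then MvPolynomial.C (F.t ω) else
    if i ≤ n then P i else 0 := ⟨_, rfl⟩
  have eP0 : P' 0 = MvPolynomial.C (F.t ω) := by rw [hP']; exact if_pos rfl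
  have eP : ∀ j, 1 ≤ j → j ≤ n → P' j = P j := by
    intro j h1 h2
    rw [hP']
    show (if j = 0 then _ else if j ≤ n then P j else 0) = P j
    rw [if_neg (by omega), if_pos h2]
  obtain ⟨g', hg'⟩ : ∃ g' : ℕ → ℕ, g' = fun i => if i = 0 then J else g (i - 1) - sh := ⟨_, rfl⟩
  have eg0 : g' 0 = J := by rw [hg']; exact if_pos rfl
  have eg : ∀ j, 1 ≤ j → g' j = g (j - 1) - sh := by
    intro j h1
    rw [hg']
    exact if_neg (by omega)
  have pJ : (1 : ℝ) / 2 ^ J ≤ 1 / 2 ^ a :=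
    one_div_le_one_div_of_le (by positivity) (pow_le_pow_right₀ (by norm_num) ha)
  -- the boxes
  have box1 : ∀ j, 1 ≤ j → j ≤ n → ∀ b : ℕ → ℝ, Bx g' P' j b →
      Bxr (2 ^ (sh + 1)) (gg a g) P j b := by
    intro j hj1 hj b hb l hl
    rcases Nat.eq_zero_or_pos l with rfl | hl0
    · have h1 := hb 0 hl
      rw [eP0, eval_C, eg0] at h1
      rw [hP0, eval_C]
      have h2 := t_cell F ha ω
      have h3 : gg a g 0 = a := if_pos rfl
      rw [h3]
      have h4 : |b 0 - (F.T1 a ω : ℝ) / 2 ^ a| ≤ 2 / 2 ^ a := by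
        have h5 : (2 : ℝ) / 2 ^ a = 1 / 2 ^ a + 1 / 2 ^ a := by ring
        rw [h5]
        rw [abs_le] at h1 h2 ⊢
        constructor <;> linarith [h1.1, h1.2, h2.1, h2.2]
      refine h4.trans (div_le_div_of_nonneg_right ?_ (by positivity))
      rw [pow_succ]
      have : (1 : ℝ) ≤ 2 ^ sh := one_le_pow₀ (by norm_num)
      linarith
    · have h1 := hb l hl
      rw [eP l hl0 (by omega), eg l hl0] at h1
      have h3 : gg a g l = g (l - 1) := if_neg (by omega)
      rw [h3]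
      refine h1.trans ?_
      have h4 := hsh (l - 1) (by omega)
      rw [div_le_div_iff₀ (by positivity) (by positivity), one_mul, ← pow_add]
      exact pow_le_pow_right₀ (by norm_num) (by omega)
  have box2 : ∀ j, 1 ≤ j → j ≤ n → ∀ b : ℕ → ℝ, Bx g' P' j b →
      Bxr ρ (gg a g) (sy c n ((F.T1 a ω : ℝ) / 2 ^ a) G) j b := by
    intro j hj1 hj b hb
    have h1 := Nr.box hK' hs1 (hNr.mono (show j ≤ n + 1 by omega)) hs2 (box1 j hj1 hj b hb) j le_rfl
    refine h1.mono ?_ le_rfl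
    rw [hρ, hΘ]
    rw [hΘ] at hΘ1
    exact pow_le_pow_right₀ hΘ1 (hM j hj)
  have esy : ∀ (t t' : ℝ) (j : ℕ), 1 ≤ j → j ≤ n → sy c n t G j = sy c n t' G j := by
    intro t t' j h1 h2
    obtain ⟨j, rfl⟩ : ∃ j', j = j' + 1 := ⟨j - 1, by omega⟩
    rw [sy_succ (by omega), sy_succ (by omega)]
  have box3 : ∀ j, 1 ≤ j → j ≤ n → ∀ b : ℕ → ℝ, Bx g' P' j b →
      Bxr ρ (gg a g) (sy c n (F.t ω) G) j b := by
    intro j hj1 hj b hb l hl
    rcases Nat.eq_zero_or_pos l with rfl | hl0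
    · have h1 := hb 0 hl
      rw [eP0, eval_C, eg0] at h1
      rw [sy_zero, eval_C]
      have h3 : gg a g 0 = a := if_pos rfl
      rw [h3]
      exact (h1.trans pJ).trans (div_le_div_of_nonneg_right hρ1 (by positivity))
    · have h1 := box2 j hj1 hj b hb l hl
      rwa [esy _ (F.t ω) l hl0 (by omega)] at h1
  have hd : NEAR.Dat n K₂ S P' (sy c n (F.t ω) G) g' x (fun j => E (j - 1) + s₁) J y := by
    refine
      { tri := fun j => ?_
        deg := fun j => ?_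
        triG := fun j _ _ => sy_tri j
        degG := fun j _ _ => (sy_deg hGK j).trans (by rw [hK₂]; exact le_max_left _ _)
        zero := by rw [eP0, hx0]
        fit := fun j h1 h2 => ?_
        near := fun j h1 h2 b hb => ?_
        lip := fun j h1 h2 b hb l hl1 hl => ?_
        siz := fun j h1 h2 => ?_ }
    · rw [hP']
      show (if j = 0 then MvPolynomial.C (F.t ω) else if j ≤ n then P j else 0).vars ⊆ range j
      split_ifs with h1 h2
      · rw [vars_C]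
        exact Finset.empty_subset _
      · exact hPv j (by omega) h2
      · rw [vars_0]
        exact Finset.empty_subset _
    · rw [hP']
      show (if j = 0 then MvPolynomial.C (F.t ω) else if j ≤ n then P j else 0).totalDegree ≤ K₂
      split_ifs with h1 h2
      · rw [totalDegree_C]
        exact Nat.zero_le _
      · exact (hPd j (by omega) h2).trans (by rw [hK₂]; exact le_max_right _ _)
      · rw [totalDegree_zero]
        exact Nat.zero_le _
    · rw [eP j h1 h2, eg j h1]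
      exact hfit j h1 h2
    · have h3 := hNr.2 j h1 (by omega) ρ hρ1 b (box2 j h1 h2 b hb)
      have h4 : gg a g j = g (j - 1) := if_neg (by omega)
      rw [h4, ← hS] at h3
      rw [eP j h1 h2, eg j h1, abs_sub_comm, esy _ ((F.T1 a ω : ℝ) / 2 ^ a) j h1 h2]
      exact h3.trans (div_le_div_of_nonneg_left hS0 (by positivity)
        (pow_le_pow_right₀ (by norm_num) (Nat.sub_le _ _)))
    · obtain ⟨j, rfl⟩ : ∃ j', j = j' + 1 := ⟨j - 1, by omega⟩
      obtain ⟨l, rfl⟩ : ∃ l', l = l' + 1 := ⟨l - 1, by omega⟩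
      have h3 : (sy c n (F.t ω) G (j + 1)) = tr c j (G j) := sy_succ (by omega)
      have h4 : ∀ b : ℕ → ℝ, Bxr 1 (gg a g) (sy c n (F.t ω) G) (j + 1) b →
          |eval b (pderiv (l + 1) (tr c j (G j)))| ≤ 2 ^ E j := by
        intro b hb
        have h5 := nbx_of_bxr hc hdep (by omega) hb
        have h6 := hlip j (by omega) _ h5 l (by omega)
        rw [pd_tr hc (by omega) (by omega)]
        unfold tr
        rw [AdxRow.evl_bnd]
        exact h6
      rw [h3]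
      refine (hdil (sy c n (F.t ω) G) (gg a g) (pderiv (l + 1) (tr c j (G j))) (j + 1) (2 ^ E j) ρ
        sy_tri (fun i => (sy_deg hGK i).trans (by rw [hK₂]; exact le_max_left _ _)) h2
        ((NEAR.vars_pd _ _).trans (tr_vars _ _ _))
        (NEAR.deg_pd ((tr_deg _ _ _).trans ((hGK j (by omega)).trans
          (by rw [hK₂]; exact le_max_left _ _))) _) hρ1 h4 b (box3 (j + 1) h1 h2 b hb)).trans ?_
      show _ ≤ (2 : ℝ) ^ (E (j + 1 - 1) + s₁)
      rw [Nat.add_sub_cancel, pow_add]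
      have h5 : (0 : ℝ) < 2 ^ E j := by positivity
      nlinarith
    · have h3 := hsiz (j - 1) (by omega)
      rw [eg j h1]
      show g (j - 1) - sh + y + (E (j - 1) + s₁) ≤ J
      omega
  have h1 := hnear P' (sy c n (F.t ω) G) g' x (fun j => E (j - 1) + s₁) J y hd
    (fun j => if j < i then b j else x j) (by
      show (if 0 < i then b 0 else x 0) = x 0
      rw [if_pos (by omega), hb0, hx0]) (fun j _ => by
      show |(if j < i then b j else x j) - x j| ≤ _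
      split_ifs with h
      · rcases Nat.eq_zero_or_pos j with rfl | hj0
        · rw [hb0, hx0, sub_self, abs_zero]
          positivity
        · exact hb j hj0 h
      · rw [sub_self, abs_zero]
        positivity) i hi
  rw [eP i hi1 hi, eg i hi1] at h1
  have h2 : eval (fun j => if j < i then b j else x j) (P i) = eval b (P i) :=
    eval_cg (hPv i hi1 hi) fun j hj => if_pos hj
  rwa [h2] at h1

/-- **The variation of the exact labels in small cells**, for the labels of `clo_fam`. -/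
theorem clo_near (n K sh K' s₀ : ℕ) (hK' : 1 ≤ K') : ∃ (L : ℝ) (s₁ : ℕ), 1 ≤ L ∧
    ∀ (m J M w₀ z : ℕ) (F : Fam m J) (c : ℕ → Fin m) (g : ℕ → ℕ → ℕ) (C₁ : ℝ) (A B : F.Ω → Prop)
    (G : ℕ → PtT F → ℕ → MvPolynomial (Option (Fin m)) ℝ) (C : CDat F), w₀ + M * z ≤ J →
    Inj c n → (∀ k ≤ M, ∀ y, ∀ i < n, (G k y i).totalDegree ≤ K) →
    (∀ k ≤ M, ∀ y i, DepC c i (G k y i)) → (∀ k ≤ M, ∀ i < n, sh ≤ g k i) →
    (∀ ω, B ω → A ω) →
    C.Cnd (fun i => c (i - 1)) n K' w₀ z M (fun k i => g k (i - 1) - sh) C₁ B →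
    (∀ k ≤ M, ∀ ω, B ω → Nr K' (2 ^ s₀) (gg (w₀ + k * z) (g k)) (C.Ph w₀ z k ω)
      (Gs c n (w₀ + k * z) (G k) (ptr F J ω)) (n + 1)) →
    ∀ k ≤ M, ∀ (E : ℕ → ℕ) (y : ℕ),
    (∀ ω, A ω → ∀ i < n, ∀ b : Option (Fin m) → ℝ,
      NBx c (G k (ptr F J ω)) (g k) (w₀ + k * z) (F.t ω) i b → ∀ l < i,
      |eval b (pderiv (some (c l)) (G k (ptr F J ω) i))| ≤ 2 ^ E i) →
    (∀ i < n, g k i + y + E i + s₁ ≤ J) →
    C.Near (fun i => c (i - 1)) n w₀ z (fun k i => g k (i - 1) - sh) k y L B := by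
  obtain ⟨L, s₁, hL, h⟩ := near_pt n K sh K' s₀ hK'
  refine ⟨L, s₁, hL, ?_⟩
  intro m J M w₀ z F c g C₁ A B G C hM hc hGK hdep hsh hB hC hNr k hk E y hlip hsiz
  have hak : w₀ + k * z ≤ J := by
    have : k * z ≤ M * z := Nat.mul_le_mul_right _ hk
    omega
  intro ω ω' hω hω' _ hT i hi1 hi hX
  have hPi : ∀ j, 1 ≤ j → C.Ph w₀ z k ω j = C.G k (C.li k (slam F (w₀ + k * z) ω)) j :=
    fun j hj => if_neg (by omega)
  have h1 := h m J F c (w₀ + k * z) (g k) E y (G k (ptr F J ω)) (C.Ph w₀ z k ω) ω hak hc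
    (hGK k hk _) (hdep k hk _) (hlip ω (hB ω hω))
    (fun j h1 h2 => by rw [hPi j h1]; exact hC.tri k hk _ j h1 h2)
    (fun j h1 h2 => by rw [hPi j h1]; exact hC.deg k hk _ j h1 h2) (if_pos rfl)
    (hNr k hk ω hω) (fun j h1 h2 => by
      have h3 := hC.pos k hk ω hω j h1 h2
      have h4 : cx F (fun i => c (i - 1)) ω j = F.x ω (c (j - 1)) := if_neg (by omega)
      rw [h4]
      exact h3) (hsh k hk) hsiz (cx F (fun i => c (i - 1)) ω') (by
        show (if 0 = 0 then F.t ω' else _) = _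
        rw [if_pos rfl]
        unfold Fam.t
        rw [hT]) i hi1 hi fun j hj1 hj => by
        have h5 := hX j hj1 hj
        have h6 : cx F (fun i => c (i - 1)) ω j = F.x ω (c (j - 1)) := if_neg (by omega)
        have h7 : cx F (fun i => c (i - 1)) ω' j = F.x ω' (c (j - 1)) := if_neg (by omega)
        have h8 : ⌊(2 : ℝ) ^ J * F.x ω' (c (j - 1))⌋ = ⌊(2 : ℝ) ^ J * F.x ω (c (j - 1))⌋ := h5.symm
        have h9 := Ful.fl_eq h8
        rw [← mul_sub, abs_mul, abs_of_pos (by positivity : (0 : ℝ) < 2 ^ J)] at h9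
        rw [h6, h7, le_div_iff₀' (by positivity)]
        exact h9
  rw [abs_sub_comm]
  exact h1

end CLO

end Pool.STAT
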