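import Pool.Agent.H64.STAT.Cb
import Pool.Agent.H90.STAT.Flw3
import Pool.Agent.H55.KS3.SML

/-!
# The composition law of walks

The end point of a walk with a fixed incoming part is a polynomial of the end point of the
outgoing part.
-/

set_option autoImplicit false

namespace Pool.STAT

open Finset MvPolynomial
open Pool.BFL (Pl CB)

/-! ### The chain rule -/

section Chain

theorem pderiv_bind {n m : ℕ} (f : Fin n → Pl m) (P : Pl n) (a : Fin m) :
    pderiv a (bind₁ f P) = ∑ k, bind₁ f (pderiv k P) * pderiv a (f k) := by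
  induction P using MvPolynomial.induction_on with
  | C r =>
    rw [bind₁_C_right, pderiv_C]
    symm
    refine Finset.sum_eq_zero fun k _ => ?_
    rw [pderiv_C, map_zero, zero_mul]
  | add P Q hP hQ =>
    rw [map_add, map_add, hP, hQ, ← Finset.sum_add_distrib]
    exact Finset.sum_congr rfl fun k _ => by rw [map_add, map_add, add_mul]
  | mul_X P i hP =>
    rw [map_mul, bind₁_X_right, pderiv_mul, hP]
    have h1 : ∀ k, bind₁ f (pderiv k (P * X i)) * pderiv a (f k) =
        (bind₁ f (pderiv k P) * pderiv a (f k)) * f i +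
          (if i = k then bind₁ f P * pderiv a (f i) else 0) := by
      intro k
      rw [pderiv_mul, map_add, map_mul, map_mul, bind₁_X_right]
      by_cases h : i = k
      · subst h
        rw [pderiv_X_self, map_one, if_pos rfl]
        ring
      · rw [pderiv_X_of_ne h, map_zero, if_neg h]
        ring
    rw [Finset.sum_congr rfl fun k _ => h1 k, Finset.sum_add_distrib, Finset.sum_mul,
      Finset.sum_ite_eq Finset.univ i, if_pos (Finset.mem_univ i)]

theorem pderiv_rename_succ {N : ℕ} (P : Pl N) : pderiv 0 (rename Fin.succ P) = 0 := by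
  refine pderiv_eq_zero_of_notMem_vars fun h => ?_
  obtain ⟨a, -, ha⟩ := Finset.mem_image.1 ((vars_rename Fin.succ P) h)
  exact Fin.succ_ne_zero a ha

theorem pderiv_succ {N : ℕ} (P : Pl N) (a : Fin N) :
    pderiv a.succ (rename Fin.succ P) = rename Fin.succ (pderiv a P) :=
  pderiv_rename (Fin.succ_injective N) a P

theorem eval_succ {N : ℕ} (P : Pl N) (s : Fin (N + 1) → ℝ) :
    eval s (rename Fin.succ P) = eval (fun a : Fin N => s a.succ) P := by
  rw [eval_rename]
  rfl

end Chain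

/-! ### One leg -/

section Leg

variable {c N : ℕ}

/-- A weighted sum of iterates along the first leg of a walk. -/
noncomputable def lgs (ξ : Fin c → Pl c) (P : Pl c) (n : ℕ) (w : ℕ → ℝ) : Pl c :=
  ∑ r ∈ range n, C (w r) * (lie ξ)^[r] P

/-- The same as a polynomial of the lengths. -/
noncomputable def lgp (ξ : Fin c → Pl c) (P : Pl c) (n e : ℕ) (w : ℕ → ℝ)
    (g : Fin c → Pl (N + 1)) : Pl (N + 1) :=
  ∑ r ∈ range n, C (w r) * X 0 ^ (r + e) * bind₁ g ((lie ξ)^[r] P)

theorem lgp_eval (ξ : Fin c → Pl c) (P : Pl c) (n e : ℕ) (w : ℕ → ℝ) (g : Fin c → Pl (N + 1))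
    (s : Fin (N + 1) → ℝ) : eval s (lgp ξ P n e w g) =
      eval (fun k => eval s (g k)) (lgs ξ P n (fun r => w r * s 0 ^ (r + e))) := by
  unfold lgp lgs
  rw [map_sum, map_sum]
  refine Finset.sum_congr rfl fun r _ => ?_
  rw [map_mul, map_mul, map_mul, map_pow, eval_C, eval_X, eval_bindF, eval_C]

theorem lgp_zero (ξ : Fin c → Pl c) (P : Pl c) (n e : ℕ) (w : ℕ → ℝ) (g : Fin c → Pl (N + 1))
    (hg : ∀ k, pderiv 0 (g k) = 0) (s : Fin (N + 1) → ℝ) :
    eval s (pderiv 0 (lgp ξ P n e w g)) = eval (fun k => eval s (g k))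
      (lgs ξ P n (fun r => w r * (((r + e : ℕ) : ℝ) * s 0 ^ (r + e - 1)))) := by
  unfold lgp lgs
  rw [map_sum, map_sum, map_sum]
  refine Finset.sum_congr rfl fun r _ => ?_
  have h1 : pderiv 0 (bind₁ g ((lie ξ)^[r] P)) = 0 := by
    rw [pderiv_bind]
    exact Finset.sum_eq_zero fun k _ => by rw [hg, mul_zero]
  rw [pderiv_mul, h1, mul_zero, add_zero, pderiv_C_mul, pderiv_pow, pderiv_X_self, mul_one,
    map_mul, map_mul, map_mul, map_mul, map_pow, eval_C, eval_X, eval_bindF, eval_C, map_natCast]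

theorem lgp_succ (ξ : Fin c → Pl c) (P : Pl c) (n e : ℕ) (w : ℕ → ℝ) (g : Fin c → Pl (N + 1))
    (a : Fin N) (s : Fin (N + 1) → ℝ) :
    eval s (pderiv a.succ (lgp ξ P n e w g)) = ∑ k, eval (fun k => eval s (g k))
      (pderiv k (lgs ξ P n (fun r => w r * s 0 ^ (r + e)))) * eval s (pderiv a.succ (g k)) := by
  unfold lgp lgs
  have h1 : ∀ k, eval (fun k => eval s (g k)) (pderiv k (∑ r ∈ range n,
      C (w r * s 0 ^ (r + e)) * (lie ξ)^[r] P)) * eval s (pderiv a.succ (g k)) =
      ∑ r ∈ range n, w r * s 0 ^ (r + e) *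
        (eval (fun k => eval s (g k)) (pderiv k ((lie ξ)^[r] P)) *
          eval s (pderiv a.succ (g k))) := by
    intro k
    rw [map_sum, map_sum, Finset.sum_mul]
    refine Finset.sum_congr rfl fun r _ => ?_
    rw [pderiv_C_mul, map_mul, eval_C]
    ring
  rw [Finset.sum_congr rfl fun k _ => h1 k, Finset.sum_comm, map_sum, map_sum]
  refine Finset.sum_congr rfl fun r _ => ?_
  have h2 : pderiv a.succ ((C (w r) : Pl (N + 1)) * X 0 ^ (r + e)) = 0 := by
    rw [pderiv_C_mul, pderiv_pow, pderiv_X_of_ne (Fin.succ_ne_zero a).symm, mul_zero, mul_zero]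
  rw [pderiv_mul, h2, zero_mul, zero_add, pderiv_bind, map_mul, map_mul, map_pow, eval_C, eval_X,
    map_sum, ← Finset.mul_sum]
  congr 1
  exact Finset.sum_congr rfl fun k _ => by rw [map_mul, eval_bindF]

end Leg

/-! ### Walks -/

section Walk

variable {c N : ℕ} (d : Fin c → ℕ) (j : ℕ)

/-- The derivative of the flow with respect to the time. -/
noncomputable def dflow (ξ : Fin c → Pl c) (s : ℝ) (i : Fin c) : Pl c :=
  lgs ξ (X i) (d i + 1) (fun r => 1 / (r.factorial : ℝ) * (((r + 0 : ℕ) : ℝ) * s ^ (r + 0 - 1)))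

/-- The derivative of the height with respect to the time. -/
noncomputable def dhfl (ξ : Fin c → Pl c) (b : Pl c) (s : ℝ) : Pl c :=
  lgs ξ b j (fun r => 1 / ((r + 1).factorial : ℝ) * (((r + 1 : ℕ) : ℝ) * s ^ (r + 1 - 1)))

theorem flow_lgs (ξ : Fin c → Pl c) (s : ℝ) (i : Fin c) :
    flow d ξ s i = lgs ξ (X i) (d i + 1) (fun r => 1 / (r.factorial : ℝ) * s ^ (r + 0)) := by
  unfold flow lgs
  refine Finset.sum_congr rfl fun r _ => ?_
  have e : s ^ r / (r.factorial : ℝ) = 1 / (r.factorial : ℝ) * s ^ (r + 0) := by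
    rw [add_zero]
    ring
  rw [e]

theorem hfl_lgs (ξ : Fin c → Pl c) (b : Pl c) (s : ℝ) :
    hfl j ξ b s = lgs ξ b j (fun r => 1 / ((r + 1).factorial : ℝ) * s ^ (r + 1)) := by
  unfold hfl lgs
  refine Finset.sum_congr rfl fun r _ => ?_
  have e : s ^ (r + 1) / ((r + 1).factorial : ℝ) =
      1 / ((r + 1).factorial : ℝ) * s ^ (r + 1) := by ring
  rw [e]

/-- The end point of the walk without its first leg. -/
noncomputable def gs (ξ : Fin (N + 1) → Fin c → Pl c) (k : Fin c) : Pl (N + 1) :=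
  rename Fin.succ (wT d N (fun a => ξ a.succ) k)

theorem gs_zero (ξ : Fin (N + 1) → Fin c → Pl c) (k : Fin c) : pderiv 0 (gs d ξ k) = 0 :=
  pderiv_rename_succ _

theorem wT_lgp (ξ : Fin (N + 1) → Fin c → Pl c) (i : Fin c) :
    wT d (N + 1) ξ i = lgp (ξ 0) (X i) (d i + 1) 0 (fun r => 1 / (r.factorial : ℝ)) (gs d ξ) :=
  rfl

theorem wH_lgp (ξ : Fin (N + 1) → Fin c → Pl c) (b : Fin (N + 1) → Pl c) :
    wH d j (N + 1) ξ b = rename Fin.succ (wH d j N (fun a => ξ a.succ) (fun a => b a.succ)) +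
      lgp (ξ 0) (b 0) j 1 (fun r => 1 / ((r + 1).factorial : ℝ)) (gs d ξ) := rfl

variable (ξ : Fin (N + 1) → Fin c → Pl c) (b : Fin (N + 1) → Pl c) (s : Fin (N + 1) → ℝ)

/-- The end point of the walk without its first leg, values. -/
noncomputable def ue (k : Fin c) : ℝ :=
  eval (fun a : Fin N => s a.succ) (wT d N (fun a => ξ a.succ) k)

theorem gs_eval : (fun k => eval s (gs d ξ k)) = ue d ξ s := by
  funext k
  unfold gs ue
  rw [eval_succ]

theorem wT_val (i : Fin c) : eval s (wT d (N + 1) ξ i) = eval (ue d ξ s) (flow d (ξ 0) (s 0) i) := by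
  rw [wT_lgp, lgp_eval, gs_eval, flow_lgs]

theorem wT_d0 (i : Fin c) :
    eval s (pderiv 0 (wT d (N + 1) ξ i)) = eval (ue d ξ s) (dflow d (ξ 0) (s 0) i) := by
  rw [wT_lgp, lgp_zero _ _ _ _ _ _ (gs_zero d ξ), gs_eval]
  rfl

theorem wT_ds (i : Fin c) (a : Fin N) :
    eval s (pderiv a.succ (wT d (N + 1) ξ i)) =
      ∑ k, eval (ue d ξ s) (pderiv k (flow d (ξ 0) (s 0) i)) *
        eval (fun a : Fin N => s a.succ) (pderiv a (wT d N (fun a => ξ a.succ) k)) := by
  rw [wT_lgp, lgp_succ, gs_eval, flow_lgs]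
  refine Finset.sum_congr rfl fun k _ => ?_
  congr 1
  unfold gs
  rw [pderiv_succ, eval_succ]

theorem wH_val : eval s (wH d j (N + 1) ξ b) =
    eval (fun a : Fin N => s a.succ) (wH d j N (fun a => ξ a.succ) (fun a => b a.succ)) +
      eval (ue d ξ s) (hfl j (ξ 0) (b 0) (s 0)) := by
  rw [wH_lgp, map_add, lgp_eval, gs_eval, hfl_lgs, eval_succ]

theorem wH_d0 : eval s (pderiv 0 (wH d j (N + 1) ξ b)) =
    eval (ue d ξ s) (dhfl j (ξ 0) (b 0) (s 0)) := by
  rw [wH_lgp, map_add, map_add, pderiv_rename_succ, map_zero, zero_add,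
    lgp_zero _ _ _ _ _ _ (gs_zero d ξ), gs_eval]
  rfl

theorem wH_ds (a : Fin N) : eval s (pderiv a.succ (wH d j (N + 1) ξ b)) =
    eval (fun a : Fin N => s a.succ)
      (pderiv a (wH d j N (fun a => ξ a.succ) (fun a => b a.succ))) +
      ∑ k, eval (ue d ξ s) (pderiv k (hfl j (ξ 0) (b 0) (s 0))) *
        eval (fun a : Fin N => s a.succ) (pderiv a (wT d N (fun a => ξ a.succ) k)) := by
  rw [wH_lgp, map_add, map_add, pderiv_succ, eval_succ, lgp_succ, gs_eval, hfl_lgs]
  congr 1
  refine Finset.sum_congr rfl fun k _ => ?_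
  congr 1
  unfold gs
  rw [pderiv_succ, eval_succ]

end Walk

/-! ### The incoming part -/

section Inc

variable {c : ℕ} (d : Fin c → ℕ) (j : ℕ)

/-- The end point as a function of the end point of the outgoing part. -/
noncomputable def GTo : (L : ℕ) → (Fin L → Fin c → Pl c) → (Fin L → ℝ) → Fin c → Pl c
  | 0, _, _ => fun i => X i
  | L + 1, ξ, σ => fun i => bind₁ (GTo L (fun a => ξ a.succ) (fun a => σ a.succ))
      (flow d (ξ 0) (σ 0) i)

/-- The height as a function of the end point of the outgoing part. -/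
noncomputable def GNo : (L : ℕ) → (Fin L → Fin c → Pl c) → (Fin L → Pl c) → (Fin L → ℝ) → Pl c
  | 0, _, _, _ => 0
  | L + 1, ξ, b, σ => GNo L (fun a => ξ a.succ) (fun a => b a.succ) (fun a => σ a.succ) +
      bind₁ (GTo d L (fun a => ξ a.succ) (fun a => σ a.succ)) (hfl j (ξ 0) (b 0) (σ 0))

/-- The derivatives of the end point. -/
noncomputable def DTo : (L : ℕ) → (Fin L → Fin c → Pl c) → (Fin L → ℝ) → Fin L → Fin c → Pl c
  | 0, _, _ => fun l => Fin.elim0 l
  | L + 1, ξ, σ => fun l i => Fin.cases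
      (bind₁ (GTo d L (fun a => ξ a.succ) (fun a => σ a.succ)) (dflow d (ξ 0) (σ 0) i))
      (fun l => ∑ k, bind₁ (GTo d L (fun a => ξ a.succ) (fun a => σ a.succ))
        (pderiv k (flow d (ξ 0) (σ 0) i)) *
        DTo L (fun a => ξ a.succ) (fun a => σ a.succ) l k) l

/-- The derivatives of the height. -/
noncomputable def DNo : (L : ℕ) → (Fin L → Fin c → Pl c) → (Fin L → Pl c) → (Fin L → ℝ) →
    Fin L → Pl c
  | 0, _, _, _ => fun l => Fin.elim0 l
  | L + 1, ξ, b, σ => fun l => Fin.cases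
      (bind₁ (GTo d L (fun a => ξ a.succ) (fun a => σ a.succ)) (dhfl j (ξ 0) (b 0) (σ 0)))
      (fun l => DNo L (fun a => ξ a.succ) (fun a => b a.succ) (fun a => σ a.succ) l +
        ∑ k, bind₁ (GTo d L (fun a => ξ a.succ) (fun a => σ a.succ))
        (pderiv k (hfl j (ξ 0) (b 0) (σ 0))) *
        DTo d L (fun a => ξ a.succ) (fun a => σ a.succ) l k) l

/-- **The composition law.** -/
theorem comp_law (M : ℕ) (ξ' : Fin M → Fin c → Pl c) (b' : Fin M → Pl c) (σ' : Fin M → ℝ) :
    ∀ (L : ℕ) (ξ : Fin L → Fin c → Pl c) (b : Fin L → Pl c) (σ : Fin L → ℝ) (N : ℕ)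
      (hN : N = L + M) (Ξ : Fin N → Fin c → Pl c) (Bb : Fin N → Pl c) (ρ : Fin N → ℝ)
      (lf : Fin L → Fin N) (rf : Fin M → Fin N), (∀ l, (lf l : ℕ) = l) →
      (∀ a, (rf a : ℕ) = L + a) → (∀ l, Ξ (lf l) = ξ l) → (∀ a, Ξ (rf a) = ξ' a) →
      (∀ l, Bb (lf l) = b l) → (∀ a, Bb (rf a) = b' a) → (∀ l, ρ (lf l) = σ l) →
      (∀ a, ρ (rf a) = σ' a) →
      let u : Fin c → ℝ := fun k => eval σ' (wT d M ξ' k)
      (∀ i, eval ρ (wT d N Ξ i) = eval u (GTo d L ξ σ i)) ∧
      eval ρ (wH d j N Ξ Bb) = eval σ' (wH d j M ξ' b') + eval u (GNo d j L ξ b σ) ∧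
      (∀ l i, eval ρ (pderiv (lf l) (wT d N Ξ i)) = eval u (DTo d L ξ σ l i)) ∧
      (∀ l, eval ρ (pderiv (lf l) (wH d j N Ξ Bb)) = eval u (DNo d j L ξ b σ l)) ∧
      (∀ a i, eval ρ (pderiv (rf a) (wT d N Ξ i)) =
        ∑ k, eval u (pderiv k (GTo d L ξ σ i)) * eval σ' (pderiv a (wT d M ξ' k))) ∧
      ∀ a, eval ρ (pderiv (rf a) (wH d j N Ξ Bb)) = eval σ' (pderiv a (wH d j M ξ' b')) +
        ∑ k, eval u (pderiv k (GNo d j L ξ b σ)) * eval σ' (pderiv a (wT d M ξ' k)) := by
  intro L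
  induction L with
  | zero =>
    intro ξ b σ N hN Ξ Bb ρ lf rf hlf hrf hΞl hΞr hBl hBr hρl hρr u
    obtain rfl : N = M := by omega
    have hid : rf = id := by
      funext a
      refine Fin.ext ?_
      rw [hrf, id]
      omega
    subst hid
    have e1 : Ξ = ξ' := funext hΞr
    have e2 : Bb = b' := funext hBr
    have e3 : ρ = σ' := funext hρr
    subst e1 e2 e3
    refine ⟨fun i => ?_, ?_, fun l => Fin.elim0 l, fun l => Fin.elim0 l, fun a i => ?_,
      fun a => ?_⟩
    · change _ = eval u (X i)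
      rw [eval_X]
    · change _ = _ + eval u 0
      rw [map_zero, add_zero]
    · change _ = ∑ k, eval u (pderiv k (X i)) * _
      rw [Finset.sum_eq_single i]
      · rw [pderiv_X_self, map_one, one_mul]
        rfl
      · intro k _ hk
        rw [pderiv_X_of_ne (Ne.symm hk), map_zero, zero_mul]
      · intro h
        exact absurd (Finset.mem_univ i) h
    · change _ = _ + ∑ k, eval u (pderiv k 0) * _
      rw [Finset.sum_eq_zero, add_zero]
      · rfl
      · intro k _
        rw [map_zero, map_zero, zero_mul]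
  | succ L ih =>
    intro ξ b σ N hN Ξ Bb ρ lf rf hlf hrf hΞl hΞr hBl hBr hρl hρr u
    obtain ⟨N', rfl⟩ : ∃ N', N = N' + 1 := ⟨N - 1, by omega⟩
    have hl0 : lf 0 = 0 := Fin.ext (by rw [hlf]; rfl)
    obtain ⟨lf', hlf'⟩ : ∃ lf' : Fin L → Fin N', ∀ l, lf l.succ = (lf' l).succ := by
      refine ⟨fun l => ⟨l, by have := l.2; omega⟩, fun l => Fin.ext ?_⟩
      rw [hlf]
      rfl
    obtain ⟨rf', hrf'⟩ : ∃ rf' : Fin M → Fin N', ∀ a, rf a = (rf' a).succ := by
      refine ⟨fun a => ⟨L + a, by have := a.2; omega⟩, fun a => Fin.ext ?_⟩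
      rw [hrf]
      change L + 1 + (a : ℕ) = L + a + 1
      omega
    have hE0 : Ξ 0 = ξ 0 := by rw [← hl0]; exact hΞl 0
    have hB0 : Bb 0 = b 0 := by rw [← hl0]; exact hBl 0
    have hρ0 : ρ 0 = σ 0 := by rw [← hl0]; exact hρl 0
    obtain ⟨i1, i2, i3, i4, i5, i6⟩ := ih (fun a => ξ a.succ) (fun a => b a.succ)
      (fun a => σ a.succ) N' (by omega) (fun a => Ξ a.succ) (fun a => Bb a.succ)
      (fun a => ρ a.succ) lf' rf' (fun l => by
        have := hlf l.succ
        rw [hlf', Fin.val_succ, Fin.val_succ] at this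
        omega) (fun a => by
        have := hrf a
        rw [hrf', Fin.val_succ] at this
        omega) (fun l => by rw [← hlf']; exact hΞl _) (fun a => by rw [← hrf']; exact hΞr _)
      (fun l => by rw [← hlf']; exact hBl _) (fun a => by rw [← hrf']; exact hBr _)
      (fun l => by rw [← hlf']; exact hρl _) (fun a => by rw [← hrf']; exact hρr _)
    have hue : ue d Ξ ρ = fun k => eval u (GTo d L (fun a => ξ a.succ) (fun a => σ a.succ) k) :=
      funext i1
    refine ⟨fun i => ?_, ?_, fun l i => ?_, fun l => ?_, fun a i => ?_, fun a => ?_⟩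
    · rw [wT_val, hue, hE0, hρ0]
      change _ = eval u (bind₁ _ _)
      rw [eval_bindF]
    · rw [wH_val, i2, hue, hE0, hB0, hρ0]
      change _ = _ + eval u (GNo d j L _ _ _ + bind₁ _ _)
      rw [map_add, eval_bindF, add_assoc]
    · refine Fin.cases ?_ (fun l => ?_) l
      · rw [hl0, wT_d0, hue, hE0, hρ0]
        change _ = eval u (bind₁ _ _)
        rw [eval_bindF]
      · rw [hlf', wT_ds, hue, hE0, hρ0]
        change _ = eval u (∑ k, bind₁ _ _ * _)
        rw [map_sum]
        refine Finset.sum_congr rfl fun k _ => ?_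
        rw [i3, map_mul, eval_bindF]
    · refine Fin.cases ?_ (fun l => ?_) l
      · rw [hl0, wH_d0, hue, hE0, hB0, hρ0]
        change _ = eval u (bind₁ _ _)
        rw [eval_bindF]
      · rw [hlf', wH_ds, hue, hE0, hB0, hρ0, i4]
        change _ = eval u (DNo d j L _ _ _ l + ∑ k, bind₁ _ _ * _)
        rw [map_add, map_sum]
        congr 1
        refine Finset.sum_congr rfl fun k _ => ?_
        rw [i3, map_mul, eval_bindF]
    · rw [hrf', wT_ds, hue, hE0, hρ0]
      have h1 : ∀ k', eval u (pderiv k' (GTo d (L + 1) ξ σ i)) *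
          eval σ' (pderiv a (wT d M ξ' k')) =
          ∑ k, eval (fun k => eval u (GTo d L (fun a => ξ a.succ) (fun a => σ a.succ) k))
            (pderiv k (flow d (ξ 0) (σ 0) i)) * (eval u
            (pderiv k' (GTo d L (fun a => ξ a.succ) (fun a => σ a.succ) k)) *
            eval σ' (pderiv a (wT d M ξ' k'))) := by
        intro k'
        change eval u (pderiv k' (bind₁ _ _)) * _ = _
        rw [pderiv_bind, map_sum, Finset.sum_mul]
        refine Finset.sum_congr rfl fun k _ => ?_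
        rw [map_mul, eval_bindF]
        ring
      rw [Finset.sum_congr rfl fun k' _ => h1 k', Finset.sum_comm]
      refine Finset.sum_congr rfl fun k _ => ?_
      rw [i5, Finset.mul_sum]
    · rw [hrf', wH_ds, hue, hE0, hB0, hρ0, i6]
      have h1 : ∀ k', eval u (pderiv k' (GNo d j (L + 1) ξ b σ)) *
          eval σ' (pderiv a (wT d M ξ' k')) =
          eval u (pderiv k' (GNo d j L (fun a => ξ a.succ) (fun a => b a.succ)
            (fun a => σ a.succ))) * eval σ' (pderiv a (wT d M ξ' k')) +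
          ∑ k, eval (fun k => eval u (GTo d L (fun a => ξ a.succ) (fun a => σ a.succ) k))
            (pderiv k (hfl j (ξ 0) (b 0) (σ 0))) * (eval u
            (pderiv k' (GTo d L (fun a => ξ a.succ) (fun a => σ a.succ) k)) *
            eval σ' (pderiv a (wT d M ξ' k'))) := by
        intro k'
        change eval u (pderiv k' (GNo d j L _ _ _ + bind₁ _ _)) * _ = _
        rw [map_add, map_add, pderiv_bind, map_sum, add_mul, Finset.sum_mul]
        congr 1
        refine Finset.sum_congr rfl fun k _ => ?_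
        rw [map_mul, eval_bindF]
        ring
      rw [Finset.sum_congr rfl fun k' _ => h1 k', Finset.sum_add_distrib, Finset.sum_comm,
        ← add_assoc]
      congr 1
      refine Finset.sum_congr rfl fun k _ => ?_
      rw [i5, Finset.mul_sum]

end Inc

end Pool.STAT
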