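import Pool.Agent.H90.STAT.Spl

/-!
# The composition law of walks: bounds
-/

set_option autoImplicit false

namespace Pool.STAT

open Finset MvPolynomial
open Pool.BFL (Pl CB)

variable {c n : ℕ}

theorem pb_C {R a : ℝ} (hR : 1 ≤ R) (ha : |a| ≤ 1) : PB 1 R (C a : Pl c) := by
  refine ⟨by rw [totalDegree_C]; exact Nat.zero_le _, cb_C ?_⟩
  rw [Nat.cast_one, one_mul, pow_one]
  exact ha.trans hR

theorem pb_C' {K : ℕ} {R a : ℝ} (ha : |a| ≤ K * R ^ K) : PB K R (C a : Pl c) :=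
  ⟨by rw [totalDegree_C]; exact Nat.zero_le _, cb_C ha⟩

theorem pb_X {R : ℝ} (hR : 1 ≤ R) (i : Fin c) : PB 1 R (X i : Pl c) := by
  classical
  refine ⟨(totalDegree_X i).le, fun k => ?_⟩
  rw [Nat.cast_one, one_mul, pow_one, coeff_X]
  split_ifs
  · rw [abs_one]
    exact hR
  · rw [abs_zero]
    linarith

theorem pb_ofCB {D : ℕ} {R : ℝ} {P : Pl c} (hR : 1 ≤ R) (hD : P.totalDegree ≤ D) (h : CB P R) :
    PB (D + 1) R P := by
  refine ⟨hD.trans (Nat.le_succ D), cb_mono h ?_⟩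
  have h1 : R ^ 1 ≤ R ^ (D + 1) := pow_le_pow_right₀ hR (by omega)
  rw [pow_one] at h1
  have h2 : (1 : ℝ) ≤ ((D + 1 : ℕ) : ℝ) := by exact_mod_cast Nat.le_add_left 1 D
  calc R = 1 * R := (one_mul R).symm
    _ ≤ ((D + 1 : ℕ) : ℝ) * R ^ (D + 1) := mul_le_mul h2 h1 (by linarith) (by positivity)

/-- The total degree of a homogeneous polynomial. -/
theorem hom_degree {d : Fin c → ℕ} (hd : ∀ i, 1 ≤ d i) {P : Pl c} {e : ℕ}
    (hP : P.IsWeightedHomogeneous d e) : P.totalDegree ≤ e := by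
  rw [totalDegree]
  refine Finset.sup_le fun m hm => ?_
  have h1 : Finsupp.weight d m = e := hP (MvPolynomial.mem_support_iff.1 hm)
  rw [← h1, Finsupp.weight_apply, Finsupp.sum, Finsupp.sum]
  refine Finset.sum_le_sum fun i _ => ?_
  rw [smul_eq_mul]
  calc m i = m i * 1 := (mul_one _).symm
    _ ≤ m i * d i := Nat.mul_le_mul_left _ (hd i)

/-- The derivation in coordinates. -/
theorem lie_eq (ξ : Fin c → Pl c) (P : Pl c) : lie ξ P = ∑ k, pderiv k P * ξ k := by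
  induction P using MvPolynomial.induction_on with
  | C r =>
    rw [derivation_C]
    symm
    exact Finset.sum_eq_zero fun k _ => by rw [pderiv_C, zero_mul]
  | add P Q hP hQ =>
    rw [map_add, hP, hQ, ← Finset.sum_add_distrib]
    exact Finset.sum_congr rfl fun k _ => by rw [map_add, add_mul]
  | mul_X P i hP =>
    have h0 : lie ξ (X i) = ξ i := by
      unfold lie
      rw [mkDerivation_X]
    have h1 : ∀ k, pderiv k (P * X i) * ξ k = (pderiv k P * ξ k) * X i +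
        (if i = k then P * ξ i else 0) := by
      intro k
      rw [pderiv_mul]
      by_cases h : i = k
      · subst h
        rw [pderiv_X_self, if_pos rfl]
        ring
      · rw [pderiv_X_of_ne h, if_neg h]
        ring
    rw [Derivation.leibniz, smul_eq_mul, smul_eq_mul, h0, hP,
      Finset.sum_congr rfl fun k _ => h1 k, Finset.sum_add_distrib,
      Finset.sum_ite_eq Finset.univ i, if_pos (Finset.mem_univ i), ← Finset.sum_mul]
    ring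

theorem pb_lie (c K K₁ : ℕ) : ∃ K' : ℕ, ∀ R : ℝ, 1 ≤ R → ∀ (ξ : Fin c → Pl c) (P : Pl c),
    (∀ i, PB K₁ R (ξ i)) → PB K R P → PB K' R (lie ξ P) := by
  obtain ⟨K₂, hK₂⟩ : ∃ K₂, K₂ = (K * K + K + 1) ^ c * ((K * K + K) * K₁) + (K * K + K + K₁) :=
    ⟨_, rfl⟩
  refine ⟨c * K₂ + K₂, fun R hR ξ P hξ hP => ?_⟩
  rw [lie_eq, hK₂]
  exact PB.sum hR _ fun k => PB.mul hR (PB.pderiv hR hP k) (hξ k)

theorem pb_iter (c K K₁ n : ℕ) : ∃ K' : ℕ, ∀ R : ℝ, 1 ≤ R → ∀ (ξ : Fin c → Pl c) (P : Pl c),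
    (∀ i, PB K₁ R (ξ i)) → PB K R P → PB K' R ((lie ξ)^[n] P) := by
  induction n with
  | zero => exact ⟨K, fun R _ ξ P _ hP => hP⟩
  | succ n ih =>
    obtain ⟨K', h⟩ := ih
    obtain ⟨K'', h'⟩ := pb_lie c K' K₁
    refine ⟨K'', fun R hR ξ P hξ hP => ?_⟩
    rw [Function.iterate_succ_apply']
    exact h' R hR ξ _ hξ (h R hR ξ P hξ hP)

theorem pb_lgs (c K K₁ n : ℕ) : ∃ K' : ℕ, ∀ R : ℝ, 1 ≤ R → ∀ (ξ : Fin c → Pl c) (P : Pl c)
    (w : ℕ → ℝ), (∀ i, PB K₁ R (ξ i)) → PB K R P → (∀ r, |w r| ≤ 1) →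
    PB K' R (lgs ξ P n w) := by
  induction n with
  | zero =>
    refine ⟨0, fun R hR ξ P w _ _ _ => ?_⟩
    unfold lgs
    rw [Finset.sum_range_zero]
    refine ⟨by rw [totalDegree_zero], cb_zero ?_⟩
    positivity
  | succ n ih =>
    obtain ⟨K', h⟩ := ih
    obtain ⟨K'', h'⟩ := pb_iter c K K₁ n
    refine ⟨K' + ((1 + 1) ^ c * (1 * K'') + (1 + K'')), fun R hR ξ P w hξ hP hw => ?_⟩
    unfold lgs
    rw [Finset.sum_range_succ]
    exact PB.add hR (h R hR ξ P w hξ hP hw) (PB.mul hR (pb_C hR (hw n)) (h' R hR ξ P hξ hP))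

theorem pb_pow (c K E : ℕ) : ∃ K' : ℕ, ∀ R : ℝ, 1 ≤ R → ∀ P : Pl c, PB K R P → ∀ e ≤ E,
    PB K' R (P ^ e) := by
  induction E with
  | zero =>
    refine ⟨1, fun R hR P _ e he => ?_⟩
    obtain rfl : e = 0 := by omega
    rw [pow_zero]
    exact PB.one hR
  | succ E ih =>
    obtain ⟨K', h⟩ := ih
    refine ⟨1 + ((K' + 1) ^ c * (K' * K) + (K' + K)), fun R hR P hP e he => ?_⟩
    rcases Nat.eq_zero_or_pos e with he0 | he0
    · rw [he0, pow_zero]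
      exact (PB.one hR).mono (Nat.le_add_right _ _) hR
    · obtain ⟨e', rfl⟩ : ∃ e', e = e' + 1 := ⟨e - 1, by omega⟩
      rw [pow_succ]
      exact (PB.mul hR (h R hR P hP e' (by omega)) hP).mono (Nat.le_add_left _ _) hR

/-- Substitution. -/
theorem pb_bind (n c K K₁ : ℕ) : ∃ K' : ℕ, ∀ R : ℝ, 1 ≤ R → ∀ (f : Fin n → Pl c) (P : Pl n),
    (∀ i, PB K₁ R (f i)) → PB K R P → PB K' R (bind₁ f P) := by
  classical
  obtain ⟨K₂, h₂⟩ := pb_pow c K₁ K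
  obtain ⟨K₃, h₃⟩ := pb_prod c n K₂
  obtain ⟨K₄, hK₄⟩ : ∃ K₄, K₄ = (K + 1) ^ c * (K * K₃) + (K + K₃) := ⟨_, rfl⟩
  refine ⟨(K + 1) ^ n * K₄ + K₄, fun R hR f P hf hP => ?_⟩
  have h1 : bind₁ f P = ∑ m ∈ P.support, C (coeff m P) * ∏ i, f i ^ m i := by
    conv_lhs => rw [P.as_sum]
    rw [map_sum]
    refine Finset.sum_congr rfl fun m _ => ?_
    rw [bind₁_monomial]
    congr 1
    refine Finset.prod_subset (Finset.subset_univ _) fun i _ hi => ?_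
    rw [Finsupp.notMem_support_iff.1 hi, pow_zero]
  have h2 : ∀ m ∈ P.support, PB K₄ R (C (coeff m P) * ∏ i, f i ^ m i) := by
    intro m hm
    rw [hK₄]
    refine PB.mul hR (pb_C' (hP.2 m)) (h₃ R hR _ fun i => h₂ R hR _ (hf i) _ ?_)
    exact (monomial_le_degreeOf i hm).trans ((degreeOf_le_totalDegree P i).trans hP.1)
  rw [h1]
  refine ⟨(totalDegree_finsetSum _ _).trans (Finset.sup_le fun m hm =>
    (h2 m hm).1.trans (Nat.le_add_left _ _)), cb_mono (cb_sum _ _ _ fun m hm => (h2 m hm).2) ?_⟩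
  rw [Finset.sum_const, nsmul_eq_mul]
  have h3 : (P.support.card : ℝ) ≤ (K + 1 : ℝ) ^ n := by exact_mod_cast card_support_le hP.1
  have h4 : R ^ K₄ ≤ R ^ ((K + 1) ^ n * K₄ + K₄) := pow_le_pow_right₀ hR (Nat.le_add_left _ _)
  rw [← mul_assoc]
  refine mul_le_mul ?_ h4 (by positivity) (by positivity)
  push_cast
  have h5 : (0 : ℝ) ≤ K₄ := Nat.cast_nonneg _
  nlinarith [mul_le_mul_of_nonneg_right h3 h5]

/-! ### The weights -/

theorem w_le1 {s : ℝ} (hs : |s| ≤ 1) (r e : ℕ) : |1 / (r.factorial : ℝ) * s ^ e| ≤ 1 := by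
  rw [abs_mul, abs_pow]
  have h1 : (1 : ℝ) ≤ r.factorial := by
    have h0 : 1 ≤ r.factorial := Nat.one_le_iff_ne_zero.2 (Nat.factorial_ne_zero r)
    exact_mod_cast h0
  have h2 : |1 / (r.factorial : ℝ)| ≤ 1 := by
    rw [abs_of_nonneg (by positivity), div_le_one (by linarith)]
    exact h1
  calc |1 / (r.factorial : ℝ)| * |s| ^ e ≤ 1 * 1 :=
        mul_le_mul h2 (pow_le_one₀ (abs_nonneg _) hs) (by positivity) zero_le_one
    _ = 1 := one_mul 1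

theorem w_le2 {s : ℝ} (hs : |s| ≤ 1) (r : ℕ) :
    |1 / (r.factorial : ℝ) * ((r : ℝ) * s ^ (r - 1))| ≤ 1 := by
  rcases Nat.eq_zero_or_pos r with h | h
  · rw [h]
    simp
  · obtain ⟨q, rfl⟩ : ∃ q, r = q + 1 := ⟨r - 1, by omega⟩
    have e : 1 / ((q + 1).factorial : ℝ) * (((q + 1 : ℕ) : ℝ) * s ^ (q + 1 - 1)) =
        1 / (q.factorial : ℝ) * s ^ q := by
      rw [Nat.factorial_succ, Nat.add_sub_cancel]
      have h4 : (q.factorial : ℝ) ≠ 0 := by exact_mod_cast Nat.factorial_ne_zero _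
      have h5 : ((q + 1 : ℕ) : ℝ) ≠ 0 := by exact_mod_cast Nat.succ_ne_zero q
      push_cast at h5 ⊢
      field_simp
    rw [e]
    exact w_le1 hs q q

/-- Bounds for one leg. -/
theorem pb_leg (c j : ℕ) (d : Fin c → ℕ) (hd : ∀ i, 1 ≤ d i) : ∃ K : ℕ, ∀ R : ℝ, 1 ≤ R →
    ∀ (ξ : Fin c → Pl c) (b : Pl c) (s : ℝ), VF d ξ → b.IsWeightedHomogeneous d (j - 1) →
    (∀ i, CB (ξ i) R) → CB b R → |s| ≤ 1 →
    (∀ i, PB K R (flow d ξ s i)) ∧ PB K R (hfl j ξ b s) ∧ (∀ i, PB K R (dflow d ξ s i)) ∧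
      PB K R (dhfl j ξ b s) := by
  obtain ⟨D, hD⟩ : ∃ D, D = ∑ i, d i := ⟨_, rfl⟩
  have hDi : ∀ i, d i ≤ D := fun i => by
    rw [hD]
    exact Finset.single_le_sum (f := d) (fun _ _ => Nat.zero_le _) (Finset.mem_univ i)
  choose Kf hKf using fun i => pb_lgs c 1 (D + 1) (d i + 1)
  obtain ⟨Kh, hKh⟩ := pb_lgs c (j - 1 + 1) (D + 1) j
  obtain ⟨S, hS⟩ : ∃ S, S = ∑ i : Fin c, Kf i := ⟨_, rfl⟩
  have hSi : ∀ i, Kf i ≤ S + Kh := fun i => by
    have : Kf i ≤ S := by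
      rw [hS]
      exact Finset.single_le_sum (f := Kf) (fun _ _ => Nat.zero_le _) (Finset.mem_univ i)
    omega
  refine ⟨S + Kh, fun R hR ξ b s hξ hb hξR hbR hs => ?_⟩
  have h1 : ∀ i, PB (D + 1) R (ξ i) := fun i =>
    pb_ofCB hR ((hom_degree hd (hξ i)).trans (by have := hDi i; omega)) (hξR i)
  have h2 : PB (j - 1 + 1) R b := pb_ofCB hR (hom_degree hd hb) hbR
  refine ⟨fun i => ?_, ?_, fun i => ?_, ?_⟩
  · rw [flow_lgs]
    exact (hKf i R hR ξ _ _ h1 (pb_X hR i) fun r => w_le1 hs r _).mono (hSi i) hR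
  · rw [hfl_lgs]
    exact (hKh R hR ξ b _ h1 h2 fun r => w_le1 hs _ _).mono (Nat.le_add_left _ _) hR
  · unfold dflow
    exact (hKf i R hR ξ _ _ h1 (pb_X hR i) fun r => w_le2 hs r).mono (hSi i) hR
  · unfold dhfl
    exact (hKh R hR ξ b _ h1 h2 fun r => w_le2 hs (r + 1)).mono (Nat.le_add_left _ _) hR

/-- Bounds for the incoming part. -/
theorem pb_inc (c j : ℕ) (d : Fin c → ℕ) (hd : ∀ i, 1 ≤ d i) (L : ℕ) : ∃ K : ℕ, ∀ R : ℝ,
    1 ≤ R → ∀ (ξ : Fin L → Fin c → Pl c) (b : Fin L → Pl c) (σ : Fin L → ℝ),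
    (∀ a, VF d (ξ a)) → (∀ a, (b a).IsWeightedHomogeneous d (j - 1)) →
    (∀ a i, CB (ξ a i) R) → (∀ a, CB (b a) R) → (∀ a, |σ a| ≤ 1) →
    (∀ i, PB K R (GTo d L ξ σ i)) ∧ PB K R (GNo d j L ξ b σ) ∧
      (∀ l i, PB K R (DTo d L ξ σ l i)) ∧ ∀ l, PB K R (DNo d j L ξ b σ l) := by
  obtain ⟨K₁, h₁⟩ := pb_leg c j d hd
  induction L with
  | zero =>
    refine ⟨1, fun R hR ξ b σ _ _ _ _ _ => ⟨fun i => pb_X hR i, ?_, fun l => Fin.elim0 l,
      fun l => Fin.elim0 l⟩⟩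
    refine ⟨by
      change (0 : Pl c).totalDegree ≤ 1
      rw [totalDegree_zero]
      exact Nat.zero_le _, cb_zero (by positivity)⟩
  | succ L ih =>
    obtain ⟨K₂, h₂⟩ := ih
    obtain ⟨K₃, h₃⟩ := pb_bind c c K₁ K₂
    obtain ⟨K₄, h₄⟩ := pb_bind c c (K₁ * K₁ + K₁) K₂
    obtain ⟨K₅, hK₅⟩ : ∃ K₅, K₅ = c * ((K₄ + 1) ^ c * (K₄ * K₂) + (K₄ + K₂)) +
      ((K₄ + 1) ^ c * (K₄ * K₂) + (K₄ + K₂)) := ⟨_, rfl⟩
    refine ⟨K₂ + K₃ + K₅, fun R hR ξ b σ hξ hb hξR hbR hσ => ?_⟩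
    obtain ⟨f1, f2, f3, f4⟩ := h₁ R hR (ξ 0) (b 0) (σ 0) (hξ 0) (hb 0) (hξR 0) (hbR 0) (hσ 0)
    obtain ⟨g1, g2, g3, g4⟩ := h₂ R hR (fun a => ξ a.succ) (fun a => b a.succ)
      (fun a => σ a.succ) (fun a => hξ _) (fun a => hb _) (fun a => hξR _) (fun a => hbR _)
      (fun a => hσ _)
    refine ⟨fun i => ?_, ?_, fun l i => ?_, fun l => ?_⟩
    · change PB _ R (bind₁ _ _)
      exact (h₃ R hR _ _ g1 (f1 i)).mono (by omega) hR
    · change PB _ R (_ + bind₁ _ _)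
      exact (PB.add hR g2 (h₃ R hR _ _ g1 f2)).mono (by omega) hR
    · refine Fin.cases ?_ (fun l => ?_) l
      · change PB _ R (bind₁ _ _)
        exact (h₃ R hR _ _ g1 (f3 i)).mono (by omega) hR
      · change PB _ R (∑ k, bind₁ _ _ * _)
        refine PB.mono (K := K₅) ?_ (by omega) hR
        rw [hK₅]
        exact PB.sum hR _ fun k => PB.mul hR (h₄ R hR _ _ g1 (PB.pderiv hR (f1 i) k)) (g3 l k)
    · refine Fin.cases ?_ (fun l => ?_) l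
      · change PB _ R (bind₁ _ _)
        exact (h₃ R hR _ _ g1 f4).mono (by omega) hR
      · change PB _ R (_ + ∑ k, bind₁ _ _ * _)
        refine (PB.add hR (g4 l) ?_ : PB (K₂ + K₅) R _).mono (by omega) hR
        rw [hK₅]
        exact PB.sum hR _ fun k => PB.mul hR (h₄ R hR _ _ g1 (PB.pderiv hR f2 k)) (g3 l k)

/-- **Row SPL.** -/
theorem spl_thm : SplStmt := by
  intro c j L M d hd _
  obtain ⟨K, hK⟩ := pb_inc c j d hd L
  refine ⟨K, fun R hR ξ b σ hξ hb hξR hbR hσ => ?_⟩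
  obtain ⟨g1, g2, g3, g4⟩ := hK R hR ξ b σ hξ hb hξR hbR hσ
  refine ⟨GTo d L ξ σ, GNo d j L ξ b σ, DTo d L ξ σ, DNo d j L ξ b σ, g1, g2, g3, g4, ?_, ?_⟩
  · have h := comp_law d j 0 (fun a => Fin.elim0 a) (fun a => Fin.elim0 a)
      (fun a => Fin.elim0 a) L ξ b σ L rfl ξ b σ id (fun a => Fin.elim0 a) (fun _ => rfl)
      (fun a => Fin.elim0 a) (fun _ => rfl) (fun a => Fin.elim0 a) (fun _ => rfl)
      (fun a => Fin.elim0 a) (fun _ => rfl) (fun a => Fin.elim0 a)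
    obtain ⟨-, -, h3, -⟩ := h
    intro l i
    have h4 := h3 l i
    have h5 : (fun k => eval (fun a : Fin 0 => (Fin.elim0 a : ℝ))
        (wT d 0 (fun a => (Fin.elim0 a : Fin c → Pl c)) k)) = (0 : Fin c → ℝ) := by
      funext k
      change eval _ (0 : Pl 0) = 0
      rw [map_zero]
    rw [h5] at h4
    exact h4
  · intro ξ' b' σ' u Ξ Bb ρ
    exact comp_law d j M ξ' b' σ' L ξ b σ (L + M) rfl Ξ Bb ρ (Fin.castAdd M) (Fin.natAdd L)
      (fun _ => rfl) (fun _ => rfl) (fun l => Fin.append_left _ _ l)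
      (fun a => Fin.append_right _ _ a) (fun l => Fin.append_left _ _ l)
      (fun a => Fin.append_right _ _ a) (fun l => Fin.append_left _ _ l)
      (fun a => Fin.append_right _ _ a)

end Pool.STAT
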