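import Pool.Agent.H64.STAT.Rows2
import Pool.Agent.H90.STAT.Spl2

/-!
# Row SPL with data which do not depend on the outgoing walk
-/

set_option autoImplicit false

namespace Pool.STAT

open Finset MvPolynomial
open Pool.BFL (Pl CB Pb P2 MC alt)

theorem splM_thm : SplMStmt := by
  intro c j L d hd _
  obtain ⟨K, hK⟩ := pb_inc c j d hd L
  refine ⟨K, fun R hR ξ b σ hξ hb hξR hbR hσ => ?_⟩
  obtain ⟨g1, g2, g3, g4⟩ := hK R hR ξ b σ hξ hb hξR hbR hσ
  refine ⟨GTo d L ξ σ, GNo d j L ξ b σ, DTo d L ξ σ, DNo d j L ξ b σ, g1, g2, g3, g4, ?_, ?_⟩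
  · have h := comp_law d j 0 (fun a => Fin.elim0 a) (fun a => Fin.elim0 a)
      (fun a => Fin.elim0 a) L ξ b σ L rfl ξ b σ id (fun a => Fin.elim0 a) (fun _ => rfl)
      (fun a => Fin.elim0 a) (fun _ => rfl) (fun a => Fin.elim0 a) (fun _ => rfl)
      (fun a => Fin.elim0 a) (fun _ => rfl) (fun a => Fin.elim0 a)
    obtain ⟨-, -, h3, -⟩ := h
    intro l i
    have h4 := h3 l i
    have h5 : (fun k => eval (fun a : Fin 0 => (Fin.elim0 a : ℝ))
        (wT d 0 (fun a => (Fin.elim0 a : Fin c → Pl c)) k)) = (0 : Fin c → ℝ) := by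
      funext k
      change eval _ (0 : Pl 0) = 0
      rw [map_zero]
    rw [h5] at h4
    exact h4
  · intro M ξ' b' σ' u Ξ Bb ρ
    exact comp_law d j M ξ' b' σ' L ξ b σ (L + M) rfl Ξ Bb ρ (Fin.castAdd M) (Fin.natAdd L)
      (fun _ => rfl) (fun _ => rfl) (fun l => Fin.append_left _ _ l)
      (fun a => Fin.append_right _ _ a) (fun l => Fin.append_left _ _ l)
      (fun a => Fin.append_right _ _ a) (fun l => Fin.append_left _ _ l)
      (fun a => Fin.append_right _ _ a)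

end Pool.STAT
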