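import Pool.Agent.H90.STAT.Chi

/-!
# Adapted coordinates: the derivative along a line
-/

set_option autoImplicit false

namespace Pool.STAT.Chi

open Finset MvPolynomial
open Pool.BFL (Pl CB)

variable {n N : ℕ}

/-! ### Coefficientwise derivatives -/

/-- The coefficients are differentiable. -/
def PD (f : ℝ → Pl n) (f' : Pl n) (t : ℝ) : Prop :=
  ∀ α : Fin n →₀ ℕ, HasDerivAt (fun s => coeff α (f s)) (coeff α f') t

theorem PD.const (P : Pl n) (t : ℝ) : PD (fun _ => P) 0 t := by
  intro α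
  rw [coeff_zero]
  exact hasDerivAt_const t _

theorem PD.C {f : ℝ → ℝ} {f' t : ℝ} (h : HasDerivAt f f' t) :
    PD (fun s => (MvPolynomial.C (f s) : Pl n)) (MvPolynomial.C f') t := by
  classical
  intro α
  simp only [coeff_C]
  split_ifs with h1
  · exact h
  · exact hasDerivAt_const t _

theorem PD.add {f g : ℝ → Pl n} {f' g' : Pl n} {t : ℝ} (hf : PD f f' t) (hg : PD g g' t) :
    PD (fun s => f s + g s) (f' + g') t := by
  intro α
  simp only [coeff_add]
  exact (hf α).add (hg α)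

theorem PD.neg {f : ℝ → Pl n} {f' : Pl n} {t : ℝ} (hf : PD f f' t) :
    PD (fun s => -f s) (-f') t := by
  intro α
  simp only [coeff_neg]
  exact (hf α).neg

theorem PD.sub {f g : ℝ → Pl n} {f' g' : Pl n} {t : ℝ} (hf : PD f f' t) (hg : PD g g' t) :
    PD (fun s => f s - g s) (f' - g') t := by
  intro α
  simp only [coeff_sub]
  exact (hf α).sub (hg α)

theorem PD.sum {ι : Type*} (S : Finset ι) {f : ι → ℝ → Pl n} {f' : ι → Pl n} {t : ℝ}
    (h : ∀ i ∈ S, PD (f i) (f' i) t) : PD (fun s => ∑ i ∈ S, f i s) (∑ i ∈ S, f' i) t := by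
  intro α
  simp only [coeff_sum]
  exact HasDerivAt.fun_sum fun i hi => h i hi α

theorem PD.mul {f g : ℝ → Pl n} {f' g' : Pl n} {t : ℝ} (hf : PD f f' t) (hg : PD g g' t) :
    PD (fun s => f s * g s) (f' * g t + f t * g') t := by
  classical
  intro α
  simp only [coeff_add, coeff_mul]
  rw [← Finset.sum_add_distrib]
  exact HasDerivAt.fun_sum fun x _ => (hf x.1).mul (hg x.2)

theorem PD.congr' {f g : ℝ → Pl n} {f' g' : Pl n} {t : ℝ} (hf : PD f f' t) (h : ∀ s, f s = g s)
    (h' : f' = g') : PD g g' t := by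
  have e : f = g := funext h
  rw [← e, ← h']
  exact hf

theorem PD.trn {f : ℝ → Pl n} {f' : Pl n} {t : ℝ} (hf : PD f f' t) (d : Fin n → ℕ) (m : ℕ) :
    PD (fun s => Chi.trn d m (f s)) (Chi.trn d m f') t := by
  intro α
  simp only [coeff_trn]
  split_ifs with h
  · exact hf α
  · exact hasDerivAt_const t _

/-- Substitution in a fixed polynomial. -/
theorem PD.bind (Q : Pl N) {χ : ℝ → Fin N → Pl n} {χ' : Fin N → Pl n} {t : ℝ}
    (h : ∀ k, PD (fun s => χ s k) (χ' k) t) :
    PD (fun s => bind₁ (χ s) Q) (∑ k, bind₁ (χ t) (pderiv k Q) * χ' k) t := by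
  classical
  induction Q using MvPolynomial.induction_on with
  | C r =>
    refine (PD.const (MvPolynomial.C r) t).congr' (fun s => by rw [bind₁_C_right]) ?_
    symm
    exact Finset.sum_eq_zero fun k _ => by rw [pderiv_C, map_zero, zero_mul]
  | add P Q hP hQ =>
    refine (hP.add hQ).congr' (fun s => by rw [map_add]) ?_
    rw [← Finset.sum_add_distrib]
    exact Finset.sum_congr rfl fun k _ => by rw [map_add, map_add, add_mul]
  | mul_X P i hP =>
    refine (hP.mul (h i)).congr' (fun s => by rw [map_mul, bind₁_X_right]) ?_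
    have h1 : ∀ k, bind₁ (χ t) (pderiv k (P * X i)) * χ' k =
        bind₁ (χ t) (pderiv k P) * χ' k * χ t i + (if i = k then bind₁ (χ t) P * χ' i else 0) := by
      intro k
      rw [pderiv_mul, map_add, map_mul, map_mul, bind₁_X_right]
      by_cases hk : i = k
      · subst hk
        rw [pderiv_X_self, if_pos rfl, map_one]
        ring
      · rw [pderiv_X_of_ne hk, if_neg hk, map_zero]
        ring
    rw [Finset.sum_congr rfl fun k _ => h1 k, Finset.sum_add_distrib,
      Finset.sum_ite_eq Finset.univ i, if_pos (Finset.mem_univ i), Finset.sum_mul]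

/-- Polynomials with support in `S`. -/
theorem sum_of_supp {S : Finset (Fin n →₀ ℕ)} {P : Pl n} (h : P.support ⊆ S) :
    P = ∑ α ∈ S, MvPolynomial.C (coeff α P) * monomial α 1 := by
  conv_lhs => rw [P.as_sum]
  rw [Finset.sum_subset h fun α _ hα => by
    rw [MvPolynomial.notMem_support_iff.1 hα, monomial_zero]]
  refine Finset.sum_congr rfl fun α _ => ?_
  rw [C_mul_monomial, mul_one]

/-- The support of the derivative. -/
theorem PD.supp {f : ℝ → Pl n} {f' : Pl n} {t : ℝ} (hf : PD f f' t)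
    {S : Finset (Fin n →₀ ℕ)} (h : ∀ s, (f s).support ⊆ S) : f'.support ⊆ S := by
  intro α hα
  by_contra hc
  refine MvPolynomial.mem_support_iff.1 hα ?_
  have h1 : ∀ s, coeff α (f s) = 0 := fun s =>
    MvPolynomial.notMem_support_iff.1 fun hh => hc (h s hh)
  have h2 := hf α
  simp only [h1] at h2
  exact h2.unique (hasDerivAt_const t _)

/-- Substitution in a moving polynomial. -/
theorem PD.bind2 {T : ℝ → Pl N} {T' : Pl N} {χ : ℝ → Fin N → Pl n} {χ' : Fin N → Pl n} {t : ℝ}
    {S : Finset (Fin N →₀ ℕ)} (hS : ∀ s, (T s).support ⊆ S) (hT : PD T T' t)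
    (h : ∀ k, PD (fun s => χ s k) (χ' k) t) :
    PD (fun s => bind₁ (χ s) (T s))
      (bind₁ (χ t) T' + ∑ k, bind₁ (χ t) (pderiv k (T t)) * χ' k) t := by
  have h1 : PD (fun s => ∑ α ∈ S, MvPolynomial.C (coeff α (T s)) *
      bind₁ (χ s) (monomial α (1 : ℝ) : Pl N)) _ t :=
    PD.sum S fun α _ => (PD.C (hT α)).mul (PD.bind (monomial α 1) h)
  refine h1.congr' (fun s => ?_) ?_
  · conv_rhs => rw [sum_of_supp (hS s)]
    rw [map_sum]
    exact Finset.sum_congr rfl fun α _ => by rw [map_mul, bind₁_C_right]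
  · rw [Finset.sum_add_distrib]
    congr 1
    · conv_rhs => rw [sum_of_supp (hT.supp hS)]
      rw [map_sum]
      exact Finset.sum_congr rfl fun α _ => by rw [map_mul, bind₁_C_right]
    · have h2 : ∀ k, pderiv k (T t) =
          ∑ α ∈ S, MvPolynomial.C (coeff α (T t)) * pderiv k (monomial α (1 : ℝ) : Pl N) := by
        intro k
        conv_lhs => rw [sum_of_supp (hS t)]
        rw [map_sum]
        exact Finset.sum_congr rfl fun α _ => by rw [pderiv_C_mul]
      simp only [h2, map_sum, map_mul, bind₁_C_right, Finset.mul_sum, Finset.sum_mul]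
      rw [Finset.sum_comm]
      exact Finset.sum_congr rfl fun k _ => Finset.sum_congr rfl fun α _ => by ring

/-- The same, if only the variables `k < m` occur. -/
theorem PD.bind3 {m : ℕ} {T : ℝ → Pl N} {T' : Pl N} {χ : ℝ → Fin N → Pl n}
    {χ' : Fin N → Pl n} {t : ℝ} {S : Finset (Fin N →₀ ℕ)} (hS : ∀ s, (T s).support ⊆ S)
    (hT : PD T T' t) (hm : ∀ s, Dep m (T s)) (h : ∀ k : Fin N, (k : ℕ) < m →
      PD (fun s => χ s k) (χ' k) t) :
    PD (fun s => bind₁ (χ s) (T s))
      (bind₁ (χ t) T' + ∑ k, bind₁ (χ t) (pderiv k (T t)) * χ' k) t := by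
  classical
  have hm' : Dep m T' := by
    intro k hk
    obtain ⟨α, hα, hkα⟩ := (mem_vars_iff_mem_support k).1 hk
    by_contra hc
    refine MvPolynomial.mem_support_iff.1 hα ?_
    have h1 : ∀ s, coeff α (T s) = 0 := fun s => MvPolynomial.notMem_support_iff.1 fun hh =>
      hc (hm s k ((mem_vars_iff_mem_support k).2 ⟨α, hh, hkα⟩))
    have h2 := hT α
    simp only [h1] at h2
    exact h2.unique (hasDerivAt_const t _)
  have h1 := PD.bind2 (χ := fun s k => if (k : ℕ) < m then χ s k else 0)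
    (χ' := fun k => if (k : ℕ) < m then χ' k else 0) hS hT (fun k => by
      by_cases hk : (k : ℕ) < m
      · simp only [hk, if_true]
        exact h k hk
      · simp only [hk, if_false]
        exact PD.const 0 t)
  refine h1.congr' (fun s => ?_) ?_
  · exact bind_congr fun k hk => if_pos (hm s k hk)
  · congr 1
    · exact bind_congr fun k hk => if_pos (hm' k hk)
    · refine Finset.sum_congr rfl fun k _ => ?_
      by_cases hk : (k : ℕ) < m
      · rw [if_pos hk]
        congr 1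
        exact bind_congr fun j hj => if_pos ((hm t).pderiv k j hj)
      · rw [if_neg hk, (hm t).pderiv_eq (by omega), map_zero, zero_mul, map_zero, zero_mul]

/-- Evaluation. -/
theorem PD.eval {f : ℝ → Pl n} {f' : Pl n} {t : ℝ} (hf : PD f f' t)
    {S : Finset (Fin n →₀ ℕ)} (hS : ∀ s, (f s).support ⊆ S) (z : Fin n → ℝ) :
    HasDerivAt (fun s => MvPolynomial.eval z (f s)) (MvPolynomial.eval z f') t := by
  have h1 : ∀ P : Pl n, P.support ⊆ S → MvPolynomial.eval z P =
      ∑ α ∈ S, coeff α P * MvPolynomial.eval z (monomial α 1) := by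
    intro P hP
    conv_lhs => rw [sum_of_supp hP]
    rw [map_sum]
    exact Finset.sum_congr rfl fun α _ => by rw [map_mul, eval_C]
  have e1 : (fun s => MvPolynomial.eval z (f s)) =
      fun s => ∑ α ∈ S, coeff α (f s) * MvPolynomial.eval z (monomial α 1) :=
    funext fun s => h1 _ (hS s)
  rw [e1, h1 _ (hf.supp hS)]
  exact HasDerivAt.fun_sum fun α _ => (hf α).mul_const _

/-- All exponents at most `K`. -/
noncomputable def box (n K : ℕ) : Finset (Fin n →₀ ℕ) :=
  Finset.Icc 0 (Finsupp.equivFunOnFinite.symm fun _ => K)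

theorem supp_box {K : ℕ} {P : Pl n} (h : P.totalDegree ≤ K) : P.support ⊆ box n K := by
  intro α hα
  unfold box
  rw [Finset.mem_Icc]
  refine ⟨bot_le, fun k => ?_⟩
  rw [Finsupp.equivFunOnFinite_symm_apply_apply]
  exact (monomial_le_degreeOf k hα).trans ((degreeOf_le_totalDegree P k).trans h)

/-! ### Degrees -/

theorem deg_bind {K K₁ : ℕ} {f : Fin N → Pl n} {P : Pl N} (hf : ∀ k, (f k).totalDegree ≤ K)
    (hP : P.totalDegree ≤ K₁) : (bind₁ f P).totalDegree ≤ K₁ * K := by
  classical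
  have h1 : bind₁ f P = ∑ m ∈ P.support, C (coeff m P) * ∏ i, f i ^ m i := by
    conv_lhs => rw [P.as_sum]
    rw [map_sum]
    refine Finset.sum_congr rfl fun m _ => ?_
    rw [bind₁_monomial]
    congr 1
    refine Finset.prod_subset (Finset.subset_univ _) fun i _ hi => ?_
    rw [Finsupp.notMem_support_iff.1 hi, pow_zero]
  rw [h1]
  refine (totalDegree_finsetSum _ _).trans (Finset.sup_le fun m hm => ?_)
  refine (totalDegree_mul _ _).trans ?_
  rw [totalDegree_C, zero_add]
  refine (totalDegree_finsetProd _ _).trans ?_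
  have h2 : ∑ i, m i ≤ K₁ := by
    have h3 := le_totalDegree hm
    rw [Finsupp.sum_fintype _ _ (fun _ => rfl)] at h3
    exact h3.trans hP
  calc ∑ i, (f i ^ m i).totalDegree ≤ ∑ i, m i * K := Finset.sum_le_sum fun i _ =>
        (totalDegree_pow _ _).trans (Nat.mul_le_mul_left _ (hf i))
    _ = (∑ i, m i) * K := (Finset.sum_mul _ _ _).symm
    _ ≤ K₁ * K := Nat.mul_le_mul_right _ h2

theorem deg_trn (d : Fin n → ℕ) (m : ℕ) (P : Pl n) : (trn d m P).totalDegree ≤ P.totalDegree := by
  rw [totalDegree, totalDegree]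
  refine Finset.sup_mono fun α hα => ?_
  rw [MvPolynomial.mem_support_iff, coeff_trn] at hα
  split_ifs at hα with h
  · exact MvPolynomial.mem_support_iff.2 hα
  · exact absurd rfl hα

theorem deg_chi (d : Fin n → ℕ) (K : ℕ) : ∃ K' : ℕ, ∀ (Q : Fin n → Pl n) (y : Fin n → ℝ),
    (∀ i, (Q i).totalDegree ≤ K) → ∀ i, (chi d Q y i).totalDegree ≤ K' := by
  have H : ∀ m : ℕ, ∃ K' : ℕ, ∀ (Q : Fin n → Pl n) (y : Fin n → ℝ),
      (∀ i, (Q i).totalDegree ≤ K) → ∀ i, ((stp d Q y)^[m] 0 i).totalDegree ≤ K' := by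
    intro m
    induction m with
    | zero =>
      refine ⟨0, fun Q y _ i => ?_⟩
      change (0 : Pl n).totalDegree ≤ 0
      rw [totalDegree_zero]
    | succ m ih =>
      obtain ⟨K', h⟩ := ih
      refine ⟨1 + K * K', fun Q y hQ i => ?_⟩
      rw [Function.iterate_succ_apply']
      unfold stp
      refine (totalDegree_add _ _).trans (max_le ((totalDegree_add _ _).trans (max_le ?_ ?_)) ?_)
      · rw [totalDegree_X]
        omega
      · rw [totalDegree_C]
        omega
      · exact ((deg_trn _ _ _).trans (deg_bind (h Q y hQ) (hQ i))).trans (by omega)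
  exact H n

theorem deg_tt (d : Fin n → ℕ) (K : ℕ) : ∃ K' : ℕ, ∀ (Q : Fin n → Pl n) (y : Fin n → ℝ),
    (∀ i, (Q i).totalDegree ≤ K) → ∀ i, (tt d Q (chi d Q y) i).totalDegree ≤ K' := by
  obtain ⟨K', h⟩ := deg_chi d K
  exact ⟨K * K', fun Q y hQ i => (deg_trn _ _ _).trans (deg_bind (h Q y hQ) (hQ i))⟩

theorem deg_th (d : Fin n → ℕ) (K : ℕ) : ∃ K' : ℕ, ∀ (Q : Fin n → Pl n) (y : Fin n → ℝ),
    (∀ i, (Q i).totalDegree ≤ K) → ∀ i, (th d Q y i).totalDegree ≤ K' := by
  obtain ⟨K₁, h₁⟩ := deg_tt d K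
  have H : ∀ m : ℕ, ∃ K' : ℕ, ∀ (T : Fin n → Pl n) (y : Fin n → ℝ),
      (∀ i, (T i).totalDegree ≤ K₁) → ∀ i, ((tstp T y)^[m] 0 i).totalDegree ≤ K' := by
    intro m
    induction m with
    | zero =>
      refine ⟨0, fun T y _ i => ?_⟩
      change (0 : Pl n).totalDegree ≤ 0
      rw [totalDegree_zero]
    | succ m ih =>
      obtain ⟨K', h⟩ := ih
      refine ⟨1 + K₁ * K', fun T y hT i => ?_⟩
      rw [Function.iterate_succ_apply']
      unfold tstp
      refine (totalDegree_sub _ _).trans (max_le ((totalDegree_sub _ _).trans (max_le ?_ ?_)) ?_)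
      · rw [totalDegree_X]
        omega
      · rw [totalDegree_C]
        omega
      · exact (deg_bind (h T y hT) (hT i)).trans (by omega)
  obtain ⟨K₂, h₂⟩ := H n
  exact ⟨K₂, fun Q y hQ i => h₂ _ y (h₁ Q y hQ) i⟩

/-! ### The derivative of the adapted coordinates -/

/-- The adapted coordinates move with the field. -/
theorem chi_pd {d : Fin n → ℕ} (hd : ∀ i, 1 ≤ d i) {Q : Fin n → Pl n} (hQ : Low Q)
    {E : Fin n → ℝ} (hE : ∀ i, E i ≠ 0 → d i = 1) {y : ℝ → Fin n → ℝ} {t : ℝ}
    (hy : ∀ i, HasDerivAt (fun s => y s i) (E i) t) (i : Fin n) :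
    PD (fun s => chi d Q (y s) i) (lie (xi d Q E (chi d Q (y t))) (chi d Q (y t) i)) t := by
  suffices H : ∀ m : ℕ, ∀ i : Fin n, (i : ℕ) < m →
      PD (fun s => chi d Q (y s) i) (lie (xi d Q E (chi d Q (y t))) (chi d Q (y t) i)) t from
    H _ i (Nat.lt_succ_self _)
  intro m
  induction m with
  | zero => exact fun i hi => absurd hi (Nat.not_lt_zero _)
  | succ m ih =>
    intro i hi
    have hI := isChi_chi (d := d) hQ (y t)
    have h1 : PD (fun s => bind₁ (chi d Q (y s)) (Q i)) _ t :=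
      PD.bind3 (m := (i : ℕ)) (T := fun _ => Q i) (S := (Q i).support) (fun _ => subset_rfl)
        (PD.const (Q i) t) (fun _ => hQ i) fun k hk => ih k (by omega)
    refine (((PD.const (X i) t).add (PD.C (hy i))).add (h1.trn d (d i))).congr' (fun s => ?_) ?_
    · exact (isChi_chi hQ (y s) i).symm
    · rw [zero_add, map_zero, zero_add]
      exact chi_vel hd hQ hE hI (isXi_xi hQ E hI) i

/-- The adapted coordinates of a fixed point move against the field. -/
theorem th_pd {d : Fin n → ℕ} (hd : ∀ i, 1 ≤ d i) {Q : Fin n → Pl n} (hQ : Low Q)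
    {E : Fin n → ℝ} (hE : ∀ i, E i ≠ 0 → d i = 1) {y : ℝ → Fin n → ℝ} {t : ℝ}
    (hy : ∀ i, HasDerivAt (fun s => y s i) (E i) t) (i : Fin n) :
    PD (fun s => th d Q (y s) i) (-bind₁ (th d Q (y t)) (xi d Q E (chi d Q (y t)) i)) t := by
  obtain ⟨K, hK⟩ : ∃ K, ∀ i, (Q i).totalDegree ≤ K :=
    ⟨∑ i, (Q i).totalDegree, fun i =>
      Finset.single_le_sum (f := fun i => (Q i).totalDegree) (fun _ _ => Nat.zero_le _)
        (Finset.mem_univ i)⟩
  obtain ⟨K', hK'⟩ := deg_tt d K
  have hI := isChi_chi (d := d) hQ (y t)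
  have hX := isXi_xi hQ E hI
  have hv := IsXi.vf hQ hd hE hI hX
  suffices H : ∀ m : ℕ, ∀ i : Fin n, (i : ℕ) < m →
      PD (fun s => th d Q (y s) i) (-bind₁ (th d Q (y t)) (xi d Q E (chi d Q (y t)) i)) t from
    H _ i (Nat.lt_succ_self _)
  intro m
  induction m with
  | zero => exact fun i hi => absurd hi (Nat.not_lt_zero _)
  | succ m ih =>
    intro i hi
    have h0 : PD (fun s => bind₁ (chi d Q (y s)) (Q i)) _ t :=
      PD.bind (Q i) fun k => chi_pd hd hQ hE hy k
    have h1 : PD (fun s => tt d Q (chi d Q (y s)) i) _ t := h0.trn d (d i)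
    have h2 : PD (fun s => bind₁ (th d Q (y s)) (tt d Q (chi d Q (y s)) i)) _ t :=
      PD.bind3 (m := (i : ℕ)) (S := box n K') (fun s => supp_box (hK' Q (y s) hK i)) h1
        (fun s => (isChi_chi (d := d) hQ (y s)).low_tt hQ i) fun k hk => ih k (by omega)
    refine (((PD.const (X i) t).sub (PD.C (hy i))).sub h2).congr' (fun s => ?_) ?_
    · exact (th_eq hQ (y s) i).symm
    · have e1 : trn d (d i) (∑ k, bind₁ (chi d Q (y t)) (pderiv k (Q i)) *
          lie (xi d Q E (chi d Q (y t))) (chi d Q (y t) k)) =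
          lie (xi d Q E (chi d Q (y t))) (chi d Q (y t) i) - C (E i) := by
        rw [← chi_vel hd hQ hE hI hX i]
        ring
      have e2 : lie (xi d Q E (chi d Q (y t))) (chi d Q (y t) i) =
          xi d Q E (chi d Q (y t)) i + lie (xi d Q E (chi d Q (y t))) (tt d Q (chi d Q (y t)) i) := by
        conv_lhs => rw [chi_eq hQ (y t) i]
        rw [map_add, map_add, derivation_C, add_zero]
        congr 1
        unfold lie
        rw [mkDerivation_X]
      have e3 : ∑ k, bind₁ (th d Q (y t)) (pderiv k (tt d Q (chi d Q (y t)) i)) *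
          -bind₁ (th d Q (y t)) (xi d Q E (chi d Q (y t)) k) =
          -bind₁ (th d Q (y t)) (lie (xi d Q E (chi d Q (y t))) (tt d Q (chi d Q (y t)) i)) := by
        rw [lie_eq, map_sum, ← Finset.sum_neg_distrib]
        exact Finset.sum_congr rfl fun k _ => by rw [map_mul]; ring
      rw [e1, e2, e3, map_sub, map_add, bind₁_C_right]
      ring

/-- The same, for values. -/
theorem th_deriv {d : Fin n → ℕ} (hd : ∀ i, 1 ≤ d i) {Q : Fin n → Pl n} (hQ : Low Q)
    {E : Fin n → ℝ} (hE : ∀ i, E i ≠ 0 → d i = 1) {y : ℝ → Fin n → ℝ} {t : ℝ}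
    (hy : ∀ i, HasDerivAt (fun s => y s i) (E i) t) (z : Fin n → ℝ) (i : Fin n) :
    HasDerivAt (fun s => eval z (th d Q (y s) i))
      (-eval (fun k => eval z (th d Q (y t) k)) (xi d Q E (chi d Q (y t)) i)) t := by
  obtain ⟨K, hK⟩ : ∃ K, ∀ i, (Q i).totalDegree ≤ K :=
    ⟨∑ i, (Q i).totalDegree, fun i =>
      Finset.single_le_sum (f := fun i => (Q i).totalDegree) (fun _ _ => Nat.zero_le _)
        (Finset.mem_univ i)⟩
  obtain ⟨K', hK'⟩ := deg_th d K
  have h := (th_pd hd hQ hE hy i).eval (fun s => supp_box (hK' Q (y s) hK i)) z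
  rw [map_neg, eval_bindF] at h
  exact h

end Pool.STAT.Chi
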