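import Pool.Agent.H90.STAT.Adx
import Pool.Agent.H90.STAT.ChiD

/-!
# Transfer from finitely many to countably many coordinates; row 103 ODE
-/

set_option autoImplicit false

namespace Pool.STAT.Trf

open Finset MvPolynomial
open Pool.BFL (Pl CB)
open Pool.STAT.AdxRow

variable {n : ℕ}

/-- The inclusion of the polynomials in the first `n` variables. -/
noncomputable abbrev inc (n : ℕ) : Pl n →ₐ[ℝ] PN := rename (Fin.val : Fin n → ℕ)

/-- The weights of the first `n` coordinates. -/
abbrev dn (d : ℕ → ℕ) (n : ℕ) : Fin n → ℕ := fun i => d i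

theorem weight_map (d : ℕ → ℕ) (α : Fin n →₀ ℕ) :
    Finsupp.weight d (α.mapDomain Fin.val) = Finsupp.weight (dn d n) α := by
  rw [Finsupp.weight_apply, Finsupp.weight_apply,
    Finsupp.sum_mapDomain_index (h := fun i c => c • d i) (fun b => zero_smul ℕ (d b))
      (fun b m m' => add_smul m m' (d b))]

theorem whc_inc (d : ℕ → ℕ) (m : ℕ) (P : Pl n) :
    weightedHomogeneousComponent d m (inc n P) = inc n (Chi.cmp (dn d n) m P) := by
  have h1 : ∀ α : Fin n →₀ ℕ, weightedHomogeneousComponent d m (inc n (monomial α (coeff α P))) =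
      inc n (Chi.cmp (dn d n) m (monomial α (coeff α P))) := by
    intro α
    have h2 : (monomial α (coeff α P)).IsWeightedHomogeneous (dn d n)
        (Finsupp.weight (dn d n) α) := isWeightedHomogeneous_monomial _ α _ rfl
    have h3 : (inc n (monomial α (coeff α P))).IsWeightedHomogeneous d
        (Finsupp.weight (dn d n) α) := by
      rw [rename_monomial]
      exact isWeightedHomogeneous_monomial d _ _ (weight_map d α)
    rw [Chi.cmp_of h2, weightedHomogeneousComponent_of_mem
      ((mem_weightedHomogeneousSubmodule ℝ d _ _).2 h3)]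
    split_ifs
    · rfl
    · rw [map_zero]
  conv_lhs => rw [P.as_sum]
  conv_rhs => rw [P.as_sum]
  rw [map_sum, map_sum, map_sum, map_sum]
  exact Finset.sum_congr rfl fun α _ => h1 α

theorem trw_inc (d : ℕ → ℕ) (m : ℕ) (P : Pl n) :
    trw d m (inc n P) = inc n (Chi.trn (dn d n) m P) := by
  unfold trw
  rw [Chi.trn_apply, map_sum]
  exact Finset.sum_congr rfl fun k _ => whc_inc d k P

/-- Substitutions which agree on the variables. -/
theorem bnd_inc {f : ℕ → PN} {g : Fin n → Pl n} {P : Pl n}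
    (h : ∀ k ∈ P.vars, f k = inc n (g k)) : bind₁ f (inc n P) = inc n (bind₁ g P) := by
  rw [bind₁_rename, rename_bind₁]
  exact bnd_congr fun k hk => h k hk

theorem lieN_inc_all {f : ℕ → PN} {g : Fin n → Pl n} (h : ∀ k : Fin n, f k = inc n (g k))
    (P : Pl n) : lieN f (inc n P) = inc n (lie g P) := by
  induction P using MvPolynomial.induction_on with
  | C r => rw [rename_C, derivation_C, derivation_C, map_zero]
  | add P Q hP hQ => rw [map_add, map_add, map_add, map_add, hP, hQ]
  | mul_X P i hP =>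
    have h1 : lieN f (X (i : ℕ)) = f i := by
      unfold lieN
      rw [mkDerivation_X]
    have h2 : lie g (X i) = g i := by
      unfold lie
      rw [mkDerivation_X]
    rw [map_mul, rename_X, Derivation.leibniz, Derivation.leibniz, hP, h1, h2, h i, map_add,
      smul_eq_mul, smul_eq_mul, smul_eq_mul, smul_eq_mul, map_mul, map_mul, rename_X]

/-- The derivations. -/
theorem lieN_inc {f : ℕ → PN} {g : Fin n → Pl n} {P : Pl n}
    (h : ∀ k ∈ P.vars, f k = inc n (g k)) : lieN f (inc n P) = inc n (lie g P) := by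
  classical
  rw [← lieN_inc_all (f := fun j => if h : j < n then inc n (g ⟨j, h⟩) else 0)
    (fun k => by rw [dif_pos k.2]) P]
  refine lieN_congr fun j hj => ?_
  obtain ⟨k, hk, rfl⟩ := Finset.mem_image.1 (vars_rename _ _ hj)
  rw [h k hk, dif_pos k.2]

/-- A polynomial in the first variables. -/
theorem inc_toF {P : PN} (hP : P.vars ⊆ range n) : inc n (toF n P) = P := by
  have h1 : inc n (toF n P) = bind₁ (fun j => if h : j < n then X j else 0) P := by
    have h2 : ((inc n).comp (toF n)) = bind₁ (fun j => if h : j < n then X j else 0) := by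
      refine MvPolynomial.algHom_ext fun j => ?_
      rw [AlgHom.comp_apply, bind₁_X_right]
      unfold toF
      rw [aeval_X]
      split_ifs with h
      · rw [rename_X]
      · rw [map_zero]
    rw [← h2]
    rfl
  rw [h1]
  have h2 : bind₁ (fun j => if h : j < n then X j else 0) P = bind₁ (X : ℕ → PN) P :=
    bnd_congr fun k hk => dif_pos (mem_range.1 (hP hk))
  rw [h2, bind₁_X_left]
  rfl

theorem dep_toF {m : ℕ} {P : PN} (hm : m ≤ n) (hP : P.vars ⊆ range m) :
    Chi.Dep m (toF n P) := by
  classical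
  intro k hk
  have h1 := inc_toF (n := n) (hP.trans (Finset.range_mono hm))
  obtain ⟨α, hα, hkα⟩ := (mem_vars_iff_mem_support k).1 hk
  have h2 : coeff (α.mapDomain Fin.val) P = coeff α (toF n P) := by
    conv_lhs => rw [← h1]
    exact coeff_rename_mapDomain _ Fin.val_injective _ _
  have h3 : (k : ℕ) ∈ P.vars := by
    refine (mem_vars_iff_mem_support (k : ℕ)).2 ⟨α.mapDomain Fin.val, ?_, ?_⟩
    · rw [MvPolynomial.mem_support_iff, h2]
      exact MvPolynomial.mem_support_iff.1 hα
    · rw [Finsupp.mem_support_iff, Finsupp.mapDomain_apply Fin.val_injective]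
      exact Finsupp.mem_support_iff.1 hkα
  exact mem_range.1 (hP h3)

/-! ### The system with finitely many coordinates -/

/-- The sheets of the first `n` coordinates, without the time. -/
noncomputable def qf (n : ℕ) (Φ : ℕ → PN) (i : Fin n) : Pl n :=
  if (i : ℕ) = 0 then 0 else toF n (Φ i)

/-- The base point. -/
def yt (n : ℕ) (t : ℝ) (i : Fin n) : ℝ := if (i : ℕ) = 0 then t else 0

/-- The velocity of the base point. -/
def et (n : ℕ) (i : Fin n) : ℝ := if (i : ℕ) = 0 then 1 else 0

theorem tri_atT {Φ : ℕ → PN} (h : TriN (atT 0 Φ)) (t : ℝ) : TriN (atT t Φ) := by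
  intro i
  unfold atT
  by_cases hi : i = 0
  · rw [hi, Function.update_self]
    exact vars_C_le _
  · rw [Function.update_of_ne hi]
    have := h i
    unfold atT at this
    rwa [Function.update_of_ne hi] at this

theorem tri_pos {Φ : ℕ → PN} (h : TriN (atT 0 Φ)) {i : ℕ} (hi : i ≠ 0) :
    (Φ i).vars ⊆ range i := by
  have := h i
  unfold atT at this
  rwa [Function.update_of_ne hi] at this

theorem low_qf {Φ : ℕ → PN} (h : TriN (atT 0 Φ)) : Chi.Low (qf n Φ) := by
  intro i
  unfold qf
  split_ifs with hi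
  · exact Chi.Dep.zero
  · exact dep_toF i.2.le (tri_pos h hi)

theorem inc_qf {Φ : ℕ → PN} (h : TriN (atT 0 Φ)) {i : Fin n} (hi : (i : ℕ) ≠ 0) :
    inc n (qf n Φ i) = Φ i := by
  unfold qf
  rw [if_neg hi]
  exact inc_toF ((tri_pos h hi).trans (Finset.range_mono i.2.le))

theorem et_d {d : ℕ → ℕ} (hd0 : d 0 = 1) (i : Fin n) (h : et n i ≠ 0) : dn d n i = 1 := by
  unfold et at h
  split_ifs at h with hi
  · change d i = 1
    rw [hi, hd0]
  · exact absurd rfl h

variable {d : ℕ → ℕ} {Φ : ℕ → PN}

/-- The adapted coordinates. -/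
theorem adp_inc (hd0 : d 0 = 1) (h : TriN (atT 0 Φ)) (t : ℝ) (i : Fin n) :
    adp d (atT t Φ) i = inc n (Chi.chi (dn d n) (qf n Φ) (yt n t) i) := by
  have hT := tri_atT h t
  have hQ := low_qf (n := n) h
  suffices H : ∀ m : ℕ, ∀ i : Fin n, (i : ℕ) < m →
      adp d (atT t Φ) i = inc n (Chi.chi (dn d n) (qf n Φ) (yt n t) i) from
    H _ i (Nat.lt_succ_self _)
  intro m
  induction m with
  | zero => exact fun i hi => absurd hi (Nat.not_lt_zero _)
  | succ m ih =>
    intro i hi
    rw [adp_eq hT, Chi.isChi_chi hQ (yt n t) i, map_add, map_add, rename_X, rename_C]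
    by_cases h0 : (i : ℕ) = 0
    · have h1 : atT t Φ i = C t := by
        unfold atT
        rw [h0, Function.update_self]
      have h2 : trw d (d i) (C t : PN) = C t := by
        ext α
        rw [coeff_trw, coeff_C]
        split_ifs with h3 h4
        · rfl
        · rfl
        · exfalso
          rename_i h5
          rw [← h5, map_zero, h0, hd0] at h3
          omega
        · rfl
      have h3 : qf n Φ i = 0 := by
        unfold qf
        rw [if_pos h0]
      have h4 : yt n t i = t := by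
        unfold yt
        rw [if_pos h0]
      rw [h1, bind₁_C_right, h2, h3, h4, map_zero, map_zero, map_zero, add_zero]
    · have h1 : atT t Φ i = Φ i := by
        unfold atT
        rw [Function.update_of_ne h0]
      have h4 : yt n t i = 0 := by
        unfold yt
        rw [if_neg h0]
      have h5 : bind₁ (adp d (atT t Φ)) (inc n (qf n Φ i)) =
          inc n (bind₁ (Chi.chi (dn d n) (qf n Φ) (yt n t)) (qf n Φ i)) :=
        bnd_inc fun k hk => ih k (by have := hQ i k hk; omega)
      rw [inc_qf h h0] at h5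
      rw [h1, h4, C_0, add_zero, h5, trw_inc]

/-- The inverse. -/
theorem tinv_inc (hd0 : d 0 = 1) (h : TriN (atT 0 Φ)) (t : ℝ) (i : Fin n) :
    tinv (adp d (atT t Φ)) i = inc n (Chi.th (dn d n) (qf n Φ) (yt n t) i) := by
  have hT := tri_atT h t
  have hQ := low_qf (n := n) h
  suffices H : ∀ m : ℕ, ∀ i : Fin n, (i : ℕ) < m →
      tinv (adp d (atT t Φ)) i = inc n (Chi.th (dn d n) (qf n Φ) (yt n t) i) from
    H _ i (Nat.lt_succ_self _)
  intro m
  induction m with
  | zero => exact fun i hi => absurd hi (Nat.not_lt_zero _)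
  | succ m ih =>
    intro i hi
    have h1 : adp d (atT t Φ) i - X (i : ℕ) = inc n (C (yt n t i) +
        Chi.tt (dn d n) (qf n Φ) (Chi.chi (dn d n) (qf n Φ) (yt n t)) i) := by
      rw [adp_inc hd0 h, Chi.chi_eq hQ, map_add, map_add, map_add, rename_X]
      ring
    rw [AdxRow.tinv_eq (adp_tri hT), Chi.th_eq hQ, h1, map_sub, map_sub, rename_X, rename_C,
      map_add, map_add, rename_C, bind₁_C_right]
    have h2 : bind₁ (tinv (adp d (atT t Φ))) (inc n
        (Chi.tt (dn d n) (qf n Φ) (Chi.chi (dn d n) (qf n Φ) (yt n t)) i)) =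
        inc n (bind₁ (Chi.th (dn d n) (qf n Φ) (yt n t))
          (Chi.tt (dn d n) (qf n Φ) (Chi.chi (dn d n) (qf n Φ) (yt n t)) i)) :=
      bnd_inc fun k hk => ih k (by
        have := (Chi.isChi_chi (d := dn d n) hQ (yt n t)).low_tt hQ i k hk
        omega)
    rw [h2]
    ring

/-- The field. -/
theorem fld_inc (hd0 : d 0 = 1) (h : TriN (atT 0 Φ)) (t : ℝ) (i : Fin n) :
    fld d (atT t Φ) i = inc n (Chi.xi (dn d n) (qf n Φ) (et n)
      (Chi.chi (dn d n) (qf n Φ) (yt n t)) i) := by
  have hT := tri_atT h t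
  have hQ := low_qf (n := n) h
  have hI := Chi.isChi_chi (d := dn d n) hQ (yt n t)
  suffices H : ∀ m : ℕ, ∀ i : Fin n, (i : ℕ) < m →
      fld d (atT t Φ) i = inc n (Chi.xi (dn d n) (qf n Φ) (et n)
        (Chi.chi (dn d n) (qf n Φ) (yt n t)) i) from H _ i (Nat.lt_succ_self _)
  intro m
  induction m with
  | zero => exact fun i hi => absurd hi (Nat.not_lt_zero _)
  | succ m ih =>
    intro i hi
    rw [Chi.isXi_xi hQ (et n) hI i, map_add, rename_C]
    by_cases h0 : (i : ℕ) = 0
    · have h3 : qf n Φ i = 0 := by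
        unfold qf
        rw [if_pos h0]
      have h4 : et n i = 1 := by
        unfold et
        rw [if_pos h0]
      rw [h0, fld_zero hT, h3, h4, map_zero, map_zero, map_zero, map_zero, C_1, add_zero]
    · have h1 : atT t Φ i = Φ i := by
        unfold atT
        rw [Function.update_of_ne h0]
      have h4 : et n i = 0 := by
        unfold et
        rw [if_neg h0]
      have h5 : bind₁ (adp d (atT t Φ)) (inc n (qf n Φ i)) =
          inc n (bind₁ (Chi.chi (dn d n) (qf n Φ) (yt n t)) (qf n Φ i)) :=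
        bnd_inc fun k _ => adp_inc hd0 h t k
      rw [inc_qf h h0] at h5
      have h6 : lieN (fld d (atT t Φ)) (inc n (Chi.cmp (dn d n) (dn d n i)
          (bind₁ (Chi.chi (dn d n) (qf n Φ) (yt n t)) (qf n Φ i)))) =
          inc n (lie (Chi.xi (dn d n) (qf n Φ) (et n) (Chi.chi (dn d n) (qf n Φ) (yt n t)))
            (Chi.cmp (dn d n) (dn d n i)
              (bind₁ (Chi.chi (dn d n) (qf n Φ) (yt n t)) (qf n Φ i)))) :=
        lieN_inc fun k hk => ih k (by
          have := ((hI.dep' hQ i).cmp (dn d n) (dn d n i)) k hk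
          omega)
      rw [fld_pos hT (by omega), h1, h5, whc_inc, h6, h4, C_0, zero_add]

theorem yt_deriv (t : ℝ) (i : Fin n) : HasDerivAt (fun s => yt n s i) (et n i) t := by
  unfold yt et
  split_ifs with h
  · exact hasDerivAt_id' t
  · exact hasDerivAt_const t _

/-- **Row 103.** -/
theorem ode_thm : OdeStmt := by
  intro d Φ hd0 hd h
  refine ⟨fun t i k => ?_, fun b t i => ?_⟩
  · obtain ⟨j, hj⟩ : ∃ j : Fin (i + 1), (j : ℕ) = i := ⟨⟨i, Nat.lt_succ_self i⟩, rfl⟩
    have h1 : ∀ t, adp d (atT t Φ) i =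
        inc (i + 1) (Chi.chi (dn d (i + 1)) (qf (i + 1) Φ) (yt (i + 1) t) j) := by
      intro t
      have := adp_inc hd0 h t j
      rwa [hj] at this
    have h2 : lieN (fld d (atT t Φ)) (adp d (atT t Φ) i) =
        inc (i + 1) (lie (Chi.xi (dn d (i + 1)) (qf (i + 1) Φ) (et (i + 1))
          (Chi.chi (dn d (i + 1)) (qf (i + 1) Φ) (yt (i + 1) t)))
          (Chi.chi (dn d (i + 1)) (qf (i + 1) Φ) (yt (i + 1) t) j)) := by
      rw [h1]
      exact lieN_inc fun k _ => fld_inc hd0 h t k
    have h3 := Chi.chi_pd (d := dn d (i + 1)) (fun k => hd k) (low_qf h) (E := et (i + 1))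
      (et_d hd0) (y := fun s => yt (i + 1) s) (t := t) (fun k => yt_deriv t k) j
    rw [h2]
    have e : (fun t => coeff k (adp d (atT t Φ) i)) = fun t => coeff k
        (inc (i + 1) (Chi.chi (dn d (i + 1)) (qf (i + 1) Φ) (yt (i + 1) t) j)) :=
      funext fun t => by rw [h1]
    rw [e]
    by_cases hk : ∃ α : Fin (i + 1) →₀ ℕ, α.mapDomain Fin.val = k
    · obtain ⟨α, rfl⟩ := hk
      simp only [coeff_rename_mapDomain _ Fin.val_injective]
      exact h3 α
    · have h4 : ∀ P : Pl (i + 1), coeff k (inc (i + 1) P) = 0 := fun P =>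
        coeff_rename_eq_zero _ _ _ fun α hα => absurd ⟨α, hα⟩ hk
      simp only [h4]
      exact hasDerivAt_const t _
  · obtain ⟨j, hj⟩ : ∃ j : Fin (i + 1), (j : ℕ) = i := ⟨⟨i, Nat.lt_succ_self i⟩, rfl⟩
    have h1 : ∀ (t : ℝ) (k : Fin (i + 1)), eval b (tinv (adp d (atT t Φ)) k) =
        eval (b ∘ Fin.val) (Chi.th (dn d (i + 1)) (qf (i + 1) Φ) (yt (i + 1) t) k) := by
      intro t k
      rw [tinv_inc hd0 h t k, eval_rename]
    have h3 := Chi.th_deriv (d := dn d (i + 1)) (fun k => hd k) (low_qf h) (E := et (i + 1))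
      (et_d hd0) (y := fun s => yt (i + 1) s) (t := t) (fun k => yt_deriv t k)
      (b ∘ Fin.val) j
    have e : (fun t => eval b (tinv (adp d (atT t Φ)) i)) = fun t =>
        eval (b ∘ Fin.val) (Chi.th (dn d (i + 1)) (qf (i + 1) Φ) (yt (i + 1) t) j) :=
      funext fun t => by rw [← h1, hj]
    have e2 : eval (fun j => eval b (tinv (adp d (atT t Φ)) j)) (fld d (atT t Φ) i) =
        eval (fun k => eval (b ∘ Fin.val) (Chi.th (dn d (i + 1)) (qf (i + 1) Φ)
          (yt (i + 1) t) k)) (Chi.xi (dn d (i + 1)) (qf (i + 1) Φ) (et (i + 1))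
          (Chi.chi (dn d (i + 1)) (qf (i + 1) Φ) (yt (i + 1) t)) j) := by
      have h4 := fld_inc hd0 h t j
      rw [hj] at h4
      rw [h4, eval_rename]
      exact evl_congr fun k _ => h1 t k
    rw [e, e2]
    exact h3

end Pool.STAT.Trf
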