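import Pool.Agent.H90.STAT.NearV
import Pool.Agent.H77.STAT.RowF

/-!
# From two-sided triangular systems to exact labels, all degrees universal

* `near_s`: the variation of the closed polynomials, with explicit dependence on the errors;
* `clo_trc`: from raw two-sided systems of degree at most `D` with errors `2 ^ s` to exact labels,
  with the conditions `Cnd` and with small variation in the cells;
* `var_trc`: the variation of a system which is near the point side of a chain.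
-/

set_option autoImplicit false

namespace Pool.STAT

open Finset MvPolynomial
open Pool.Agent.H49.Ent Pool.Agent.H32.Dense Pool.STK Pool.KS3 Pool.KA Pool.KSAT Pool.PB Pool.GEN
open Pool.K2S

namespace NEAR

open CLO

/-- One step of the induction of `near_v`, with explicit constants. -/
theorem near_step (n K : ℕ) : ∃ (C₂ : ℝ) (K₁ : ℕ), 1 ≤ C₂ ∧ ∀ {S R L : ℝ}, 0 ≤ S → 0 ≤ R →
    0 ≤ L → ∀ i ≤ n, ∀ (P G : ℕ → PN) (g : ℕ → ℕ) (x b : ℕ → ℝ) (J y : ℕ),
    DatV (i + 1) K S R P G g x b J y → b 0 = x 0 → (∀ j < i + 1, |b j - x j| ≤ 1 / 2 ^ J) →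
    (∀ j < i, |eval b (P j) - eval x (P j)| ≤ L / 2 ^ (g j + y)) →
    ∀ j < i + 1, |eval b (P j) - eval x (P j)| ≤
      (L + (R + n * (K₁ * (C₂ * S) * (2 + L) ^ K₁ * (1 + L)))) / 2 ^ (g j + y) := by
  obtain ⟨C₂, hC₂, hbox⟩ := n1_of_box n K
  obtain ⟨K₁, hK₁⟩ : ∃ K₁, K₁ = K * (K + 1) ^ (n + 1) := ⟨_, rfl⟩
  refine ⟨C₂, K₁, hC₂, ?_⟩
  intro S R L hS hR hL0 i hi P G g x b J y h hb0 hb hI' j hj
  obtain ⟨ρ, hρ⟩ : ∃ ρ : ℝ, ρ = 2 + L := ⟨_, rfl⟩
  have hρ1 : 1 ≤ ρ := by rw [hρ]; linarith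
  have hρ0 : 0 ≤ ρ := by linarith
  rw [← hρ]
  have hB0 : 0 ≤ n * (K₁ * (C₂ * S) * ρ ^ K₁ * (1 + L)) := by positivity
  rcases Nat.lt_succ_iff_lt_or_eq.1 hj with hj' | hj'
  · refine (hI' j hj').trans ?_
    exact div_le_div_of_nonneg_right (by linarith) (by positivity)
  · subst hj'
    rcases Nat.eq_zero_or_pos j with h0 | h0
    · subst h0
      rw [h.zero, eval_C, eval_C, sub_self, abs_zero]
      positivity
    · -- the two points are in the dilated box
      have boxb : Bxr ρ g P j b := by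
        intro l hl
        rcases Nat.eq_zero_or_pos l with l0 | l0
        · subst l0
          rw [h.zero, eval_C, hb0, sub_self, abs_zero]
          positivity
        · have e1 := hb l (by omega)
          have e2 := h.fit l l0 (by omega)
          have e3 := hI' l hl
          have e4 := h.siz l l0 (by omega)
          have e5 : (1 : ℝ) / 2 ^ J ≤ 1 / 2 ^ g l :=
            one_div_le_one_div_of_le (by positivity)
              (pow_le_pow_right₀ (by norm_num) (by omega))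
          have e6 : L / 2 ^ (g l + y) ≤ L / 2 ^ g l :=
            div_le_div_of_nonneg_left hL0 (by positivity)
              (pow_le_pow_right₀ (by norm_num) (by omega))
          have e7 : ρ / 2 ^ g l = 1 / 2 ^ g l + 1 / 2 ^ g l + L / 2 ^ g l := by
            rw [hρ]
            ring
          rw [e7]
          rw [abs_le] at e1 e2 e3 ⊢
          constructor <;> linarith [e1.1, e1.2, e2.1, e2.2, e3.1, e3.2]
      have boxx : Bxr ρ g P j x := by
        intro l hl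
        rcases Nat.eq_zero_or_pos l with l0 | l0
        · subst l0
          rw [h.zero, eval_C, sub_self, abs_zero]
          positivity
        · exact (h.fit l l0 (by omega)).trans
            (div_le_div_of_nonneg_right hρ1 (by positivity))
      -- the difference
      obtain ⟨F, hF⟩ : ∃ F, F = bind₁ (nuc g P) (G j - P j) := ⟨_, rfl⟩
      have hv : (G j - P j).vars ⊆ range j := by
        intro k hk
        rcases Finset.mem_union.1 (vars_sub_subset _ hk) with h1 | h1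
        · exact h.triG j h0 hj h1
        · exact h.tri j h1
      have hd : (G j - P j).totalDegree ≤ K :=
        (totalDegree_sub _ _).trans (max_le (h.degG j h0 hj) (h.deg j))
      obtain ⟨f1, f2⟩ := nat_deg h.tri h.deg g hi hv hd
      rw [← hF, ← hK₁] at f2
      rw [← hF] at f1
      have f3 : n1 F ≤ C₂ * (S / 2 ^ g j) := by
        rw [hF]
        refine hbox P g (G j - P j) j (S / 2 ^ g j) h.tri h.deg hi hv hd fun b hb => ?_
        rw [map_sub]
        exact h.near j h0 hj b hb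
      have f4 : ∀ l < j, |nc g P b l - nc g P x l| ≤ (1 + L) / 2 ^ y := by
        intro l hl
        have pg : (0 : ℝ) < 2 ^ g l := by positivity
        unfold nc
        rcases Nat.eq_zero_or_pos l with l0 | l0
        · subst l0
          rw [h.zero, eval_C, eval_C, hb0, sub_self, abs_zero]
          positivity
        · have e1 := hb l (by omega)
          have e3 := hI' l hl
          have e4 := h.siz l l0 (by omega)
          have e5 : (1 : ℝ) / 2 ^ J ≤ 1 / 2 ^ (g l + y) :=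
            one_div_le_one_div_of_le (by positivity)
              (pow_le_pow_right₀ (by norm_num) (by omega))
          have e6 : (2 : ℝ) ^ g l * (b l - eval b (P l)) - 2 ^ g l * (x l - eval x (P l)) =
              2 ^ g l * ((b l - x l) - (eval b (P l) - eval x (P l))) := by ring
          rw [e6, abs_mul, abs_of_pos pg]
          have e7 : |(b l - x l) - (eval b (P l) - eval x (P l))| ≤ (1 + L) / 2 ^ (g l + y) := by
            have e8 : (1 + L) / 2 ^ (g l + y) = 1 / 2 ^ (g l + y) + L / 2 ^ (g l + y) := by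
              ring
            rw [e8]
            rw [abs_le] at e1 e3 ⊢
            constructor <;> linarith [e1.1, e1.2, e3.1, e3.2]
          refine (mul_le_mul_of_nonneg_left e7 pg.le).trans (le_of_eq ?_)
          rw [pow_add]
          field_simp
      have dif : |eval b (G j - P j) - eval x (G j - P j)| ≤
          n * (K₁ * (C₂ * S) * ρ ^ K₁ * (1 + L)) / 2 ^ (g j + y) := by
        rw [eval_nat h.tri g b, eval_nat h.tri g x, ← hF]
        refine (var_le hρ1 f1 f2 (fun l hl => nc_le.2 (boxx l hl))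
          (fun l hl => nc_le.2 (boxb l hl)) f4).trans ?_
        calc (j : ℝ) * (K₁ * n1 F * ρ ^ K₁ * ((1 + L) / 2 ^ y)) ≤
            n * (K₁ * (C₂ * (S / 2 ^ g j)) * ρ ^ K₁ * ((1 + L) / 2 ^ y)) := by
              refine mul_le_mul (by exact_mod_cast hi) ?_ ?_ (Nat.cast_nonneg n)
              · refine mul_le_mul_of_nonneg_right ?_ (by positivity)
                refine mul_le_mul_of_nonneg_right ?_ (by positivity)
                exact mul_le_mul_of_nonneg_left f3 (Nat.cast_nonneg K₁)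
              · have := n1_nonneg F
                positivity
          _ = n * (K₁ * (C₂ * S) * ρ ^ K₁ * (1 + L)) / 2 ^ (g j + y) := by
            rw [pow_add]
            field_simp
      have tot : eval b (P j) - eval x (P j) = (eval b (G j) - eval x (G j)) -
          (eval b (G j - P j) - eval x (G j - P j)) := by
        rw [map_sub, map_sub]
        ring
      rw [tot]
      refine (abs_sub _ _).trans ((add_le_add (h.var j h0 hj) dif).trans ?_)
      rw [← add_div]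
      exact div_le_div_of_nonneg_right (by linarith) (by positivity)

/-- The recursion of the constants. -/
theorem rec_pow (n K₁ : ℕ) {C₂ : ℝ} (hC₂ : 0 ≤ C₂) {C : ℕ} (hC : 1 ≤ C) : ∃ C' : ℕ, C ≤ C' ∧
    ∀ s : ℕ, (2 : ℝ) ^ (C * (s + 1)) + ((2 : ℝ) ^ s + n * (K₁ * (C₂ * 2 ^ s) *
      (2 + 2 ^ (C * (s + 1))) ^ K₁ * (1 + 2 ^ (C * (s + 1))))) ≤ 2 ^ (C' * (s + 1)) := by
  obtain ⟨e, he⟩ := pow_unbounded_of_one_lt ((n : ℝ) * (K₁ * C₂)) (one_lt_two (α := ℝ))
  obtain ⟨q, hq⟩ : ∃ q, q = e + 1 + (C + 1) * K₁ + (C + 1) := ⟨_, rfl⟩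
  refine ⟨q + 2, by omega, fun s => ?_⟩
  obtain ⟨X, hX⟩ : ∃ X : ℝ, X = 2 ^ (s + 1) := ⟨_, rfl⟩
  have hX2 : 2 ≤ X := by
    rw [hX]
    calc (2 : ℝ) = 2 ^ 1 := (pow_one _).symm
      _ ≤ 2 ^ (s + 1) := pow_le_pow_right₀ (by norm_num) (by omega)
  have hX1 : 1 ≤ X := by linarith
  have hX0 : 0 < X := by linarith
  have eX : ∀ t : ℕ, (2 : ℝ) ^ (t * (s + 1)) = X ^ t := by
    intro t
    rw [hX, ← pow_mul, mul_comm]
  rw [eX C, eX (q + 2)]
  have h1 : (2 : ℝ) ^ s ≤ X := by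
    rw [hX]
    exact pow_le_pow_right₀ (by norm_num) (by omega)
  have h2 : 2 ≤ X ^ C := by
    calc (2 : ℝ) ≤ X := hX2
      _ = X ^ 1 := (pow_one _).symm
      _ ≤ X ^ C := pow_le_pow_right₀ hX1 hC
  have h3 : X ^ (C + 1) = X ^ C * X := pow_succ _ _
  have h4 : 2 + X ^ C ≤ X ^ (C + 1) := by
    rw [h3]
    nlinarith
  have h5 : 1 + X ^ C ≤ X ^ (C + 1) := by linarith
  have h6 : (n : ℝ) * (K₁ * C₂) ≤ X ^ e := by
    refine he.le.trans (pow_le_pow_left₀ (by norm_num) hX2 e)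
  have h7 : n * (K₁ * (C₂ * 2 ^ s) * (2 + X ^ C) ^ K₁ * (1 + X ^ C)) ≤ X ^ q := by
    have e1 : n * (K₁ * (C₂ * 2 ^ s) * (2 + X ^ C) ^ K₁ * (1 + X ^ C)) =
        (n * (K₁ * C₂)) * 2 ^ s * (2 + X ^ C) ^ K₁ * (1 + X ^ C) := by ring
    have e2 : X ^ q = X ^ e * X * (X ^ (C + 1)) ^ K₁ * X ^ (C + 1) := by
      rw [hq, ← pow_mul, ← pow_succ, ← pow_add, ← pow_add]
    rw [e1, e2]
    have hp : 0 ≤ (n : ℝ) * (K₁ * C₂) := by positivity
    gcongr
  have h8 : X ^ C ≤ X ^ q := pow_le_pow_right₀ hX1 (by rw [hq]; omega)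
  have h9 : X ≤ X ^ q := by
    calc X = X ^ 1 := (pow_one _).symm
      _ ≤ X ^ q := pow_le_pow_right₀ hX1 (by rw [hq]; omega)
  have h10 : 0 < X ^ q := by positivity
  have h11 : X ^ (q + 2) = X ^ q * (X * X) := by ring
  have h12 : 4 ≤ X * X := by nlinarith
  rw [h11]
  nlinarith

theorem near_coreS (n K : ℕ) : ∀ i ≤ n + 1, ∃ C : ℕ, 1 ≤ C ∧ ∀ (s : ℕ) (P G : ℕ → PN)
    (g : ℕ → ℕ) (x b : ℕ → ℝ) (J y : ℕ), DatV i K (2 ^ s) (2 ^ s) P G g x b J y →
    b 0 = x 0 → (∀ j < i, |b j - x j| ≤ 1 / 2 ^ J) →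
    ∀ j < i, |eval b (P j) - eval x (P j)| ≤ 2 ^ (C * (s + 1)) / 2 ^ (g j + y) := by
  obtain ⟨C₂, K₁, hC₂, hst⟩ := near_step n K
  intro i
  induction i with
  | zero =>
    intro _
    exact ⟨1, le_rfl, fun _ _ _ _ _ _ _ _ _ _ _ j hj => absurd hj (Nat.not_lt_zero j)⟩
  | succ i ih =>
    intro hi
    obtain ⟨C, hC, hI⟩ := ih (by omega)
    obtain ⟨C', hC', hr⟩ := rec_pow n K₁ (by linarith : 0 ≤ C₂) hC
    refine ⟨C', by omega, ?_⟩
    intro s P G g x b J y h hb0 hb j hj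
    have hI' := hI s P G g x b J y (h.mono (Nat.le_succ i)) hb0 fun l hl => hb l (by omega)
    refine (hst (by positivity) (by positivity) (by positivity) i (by omega) P G g x b J y h hb0 hb
      hI' j hj).trans ?_
    exact div_le_div_of_nonneg_right (hr s) (by positivity)

/-- **The variation of the closed polynomials**, with explicit dependence on the errors. -/
theorem near_s (n K : ℕ) : ∃ C : ℕ, 1 ≤ C ∧ ∀ (s : ℕ), ∀ i ≤ n + 1, ∀ (P G : ℕ → PN)
    (g : ℕ → ℕ) (x b : ℕ → ℝ) (J y : ℕ), DatV i K (2 ^ s) (2 ^ s) P G g x b J y →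
    b 0 = x 0 → (∀ j < i, |b j - x j| ≤ 1 / 2 ^ J) →
    ∀ j < i, |eval b (P j) - eval x (P j)| ≤ 2 ^ (C * (s + 1)) / 2 ^ (g j + y) := by
  have h := near_coreS n K
  choose! C hC h1 using h
  refine ⟨1 + ∑ i ∈ range (n + 2), C i, by omega, ?_⟩
  intro s i hi P G g x b J y hd hb0 hb j hj
  refine (h1 i hi s P G g x b J y hd hb0 hb j hj).trans ?_
  refine div_le_div_of_nonneg_right ?_ (by positivity)
  refine pow_le_pow_right₀ (by norm_num) (Nat.mul_le_mul_right _ ?_)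
  have h2 : C i ≤ ∑ i ∈ range (n + 2), C i :=
    Finset.single_le_sum (fun _ _ => Nat.zero_le _) (mem_range.2 (by omega))
  omega

end NEAR

variable {m J : ℕ}

namespace CLO

theorem exp_le_two (s c q : ℕ) : ((c : ℝ) * 2 ^ s * (2 ^ (q * (s + 1)))) ^ c ≤
    2 ^ ((c + 1 + q) * c * (s + 1)) := by
  have h1 : (c : ℝ) ≤ 2 ^ (c * (s + 1)) := by
    have e1 : (c : ℝ) < 2 ^ c := by exact_mod_cast Nat.lt_two_pow_self
    refine e1.le.trans (pow_le_pow_right₀ (by norm_num) ?_)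
    exact Nat.le_mul_of_pos_right c (Nat.succ_pos s)
  have h2 : (2 : ℝ) ^ s ≤ 2 ^ (s + 1) := pow_le_pow_right₀ (by norm_num) (by omega)
  calc ((c : ℝ) * 2 ^ s * (2 ^ (q * (s + 1)))) ^ c ≤
      (2 ^ (c * (s + 1)) * 2 ^ (s + 1) * 2 ^ (q * (s + 1))) ^ c := by
        gcongr
    _ = 2 ^ ((c + 1 + q) * c * (s + 1)) := by
        rw [← pow_add, ← pow_add, ← pow_mul]
        congr 1
        ring

/-- **From two-sided triangular systems to exact labels (row N1)**, with degrees and constants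
which depend on the degree `D` of the sides only. `s`: the error of the sides in digits. -/
theorem clo_trc (n D : ℕ) : ∃ (a K' c : ℕ) (L : ℝ), 1 ≤ K' ∧ 1 ≤ L ∧ ∀ (m J M w₀ z s : ℕ)
    (F : Fam m J) (e : ℕ → Fin m) (g : ℕ → ℕ → ℕ) (A : F.Ω → Prop)
    (G : ℕ → PtT F → ℕ → PN) (H : ℕ → LnT F → ℕ → PN) (R : LnT F → ℕ → PN), w₀ + M * z ≤ J →
    (∀ k ≤ M, ∀ i, 1 ≤ i → i ≤ n → a * (s + 1) ≤ g k i) →
    (∀ k ≤ M, Raw n D (2 ^ s) A (ptr F J) (slam F (w₀ + k * z)) (tp (w₀ + k * z))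
      (tl (w₀ + k * z)) (CDat.g0 w₀ z g k) (G k) (H k)) →
    (∀ k ≤ M, ∀ ω, A ω → ∀ i, 1 ≤ i → i ≤ n →
      |F.x ω (e i) - eval (cx F e ω) (G k (ptr F J ω) i)| ≤ 2 ^ s / 2 ^ g k i) →
    (∀ l, TriN (R l)) → (∀ l i, (R l i).totalDegree ≤ D) →
    (∀ ω, A ω → ∀ i, 1 ≤ i → i ≤ n → ∀ b : ℕ → ℝ,
      Bx (CDat.g0 w₀ z g M) (G M (ptr F J ω)) i b →
      |eval b (R (slam F w₀ ω) i) - eval b (G M (ptr F J ω) i)| ≤ 2 ^ s / 2 ^ g M i) →
    ∃ (C : CDat F) (B : F.Ω → Prop), (∀ ω, B ω → A ω) ∧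
      Pe F.p A ≤ K' ^ (M + 1) * Pe F.p B ∧ (∀ k, C.HasZ w₀ z k) ∧
      (∀ C₁ : ℝ, 2 ^ (c * (s + 1)) ≤ Real.exp (C₁ * z) →
        C.Cnd e n K' w₀ z M (fun k i => g k i - a * (s + 1)) C₁ B) ∧
      (∀ k ≤ M, ∀ y : ℕ, (∀ ω, A ω → ∀ i, 1 ≤ i → i ≤ n → ∀ b : ℕ → ℝ, b 0 = F.t ω →
          (∀ j, 1 ≤ j → j < i → |b j - cx F e ω j| ≤ 1 / 2 ^ J) →
          |eval b (G k (ptr F J ω) i) - eval (cx F e ω) (G k (ptr F J ω) i)| ≤
            1 / 2 ^ (g k i + (y + c * (s + 1)))) →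
        (∀ i, 1 ≤ i → i ≤ n → g k i + (y + c * (s + 1)) ≤ J) →
        C.Near e n w₀ z (fun k i => g k i - a * (s + 1)) k y L B) ∧
      ∀ k ≤ M, ∀ ω, B ω → Nr c (2 ^ s) (CDat.g0 w₀ z g k) (C.Ph w₀ z k ω)
        (G k (ptr F J ω)) (n + 1) := by
  obtain ⟨a, c₁, hc₁, hclo⟩ := clo_all n D
  obtain ⟨C₀, hC₀, hdil⟩ := dil n D
  obtain ⟨K₁, hK₁⟩ : ∃ K₁, K₁ = D * (D + 1) ^ (n + 1) := ⟨_, rfl⟩
  rw [← hK₁] at hdil
  obtain ⟨M₀, hM₀⟩ := cc_le c₁ n
  obtain ⟨K₂, hK₂⟩ : ∃ K₂, K₂ = max D c₁ := ⟨_, rfl⟩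
  obtain ⟨Cn, hCn, hnear⟩ := NEAR.near_s n K₂
  obtain ⟨e₀, he₀⟩ := pow_unbounded_of_one_lt C₀ (one_lt_two (α := ℝ))
  obtain ⟨q, hq⟩ : ∃ q, q = (c₁ + 3 + a) * M₀ := ⟨_, rfl⟩
  obtain ⟨u, hu⟩ : ∃ u, u = (c₁ + 1 + q) * c₁ := ⟨_, rfl⟩
  obtain ⟨v, hv⟩ : ∃ v, v = e₀ + 1 + q * K₁ := ⟨_, rfl⟩
  refine ⟨a, K₂, c₁ + (1 + v + u) + Cn * (u + 1), 1, hc₁.trans (hK₂ ▸ le_max_right _ _), le_rfl,
    ?_⟩
  intro m J M w₀ z s F e g A G H R hM hg hraw hpos hRt hRd hline
  have hak : ∀ k ≤ M, w₀ + k * z ≤ J := fun k hk => by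
    have : k * z ≤ M * z := Nat.mul_le_mul_right _ hk
    omega
  obtain ⟨sh, hsh⟩ : ∃ sh, sh = a * (s + 1) := ⟨_, rfl⟩
  rw [← hsh] at hg ⊢
  have hg0 : ∀ k i, 1 ≤ i → CDat.g0 w₀ z g k i = g k i := fun k i hi => if_neg (by omega)
  have hg00 : ∀ k, CDat.g0 w₀ z g k 0 = w₀ + k * z := fun k => if_pos rfl
  obtain ⟨Z, Z', P, B, hB, hPe, hL⟩ := hclo M F.Ω (PtT F) (LnT F) F.p s A (ptr F J)
    (fun k => slam F (w₀ + k * z)) (fun k => tp (w₀ + k * z)) (fun k => tl (w₀ + k * z))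
    (fun k => CDat.g0 w₀ z g k) G H (cx F e) F.isLaw hraw
    (fun k hk ω hω => by
      have h1 : cx F e ω 0 = F.t ω := if_pos rfl
      rw [h1, hg00 k, (hraw k hk).G_zero, eval_C, tp_eq]
      exact t_cell F (hak k hk) ω)
    (fun k hk ω hω i hi1 hi => by
      have h1 : cx F e ω i = F.x ω (e i) := if_neg (by omega)
      rw [h1, hg0 k i hi1]
      exact hpos k hk ω hω i hi1 hi)
    (fun k hk i hi1 hi => by
      rw [hg0 k i hi1, ← hsh]
      exact hg k hk i hi1 hi)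
  rw [← hsh] at hL
  -- the system of the labels
  have hPh : ∀ k ≤ M, ∀ ω, B ω → (cd F Z Z' P R).Ph w₀ z k ω = P k (Z k (ptr F J ω)) := by
    intro k hk ω hω
    obtain ⟨h1, -⟩ := hL k hk
    funext i
    have h2 : Z k (ptr F J ω) = Z' k (slam F (w₀ + k * z) ω) := h1.cls ω hω
    unfold CDat.Ph
    split_ifs with hi
    · rw [hi, h1.zero, h1.fst, tp_eq]
    · rw [h2]
      rfl
  have hs1 : (1 : ℝ) ≤ 2 ^ s := one_le_pow₀ (by norm_num)
  have hc1 : (1 : ℝ) ≤ c₁ := by exact_mod_cast hc₁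
  have hr1 : (1 : ℝ) ≤ 2 ^ (sh + 1) := one_le_pow₀ (by norm_num)
  have h2p : ∀ {p q : ℕ}, p ≤ q → (2 : ℝ) ^ p ≤ 2 ^ q := fun h =>
    pow_le_pow_right₀ (by norm_num) h
  -- the boxes of the closed system are in dilated boxes of the raw one
  have hbox : ∀ k ≤ M, ∀ ω, B ω → ∀ j ≤ n, ∀ b : ℕ → ℝ,
      Bxr (2 ^ (sh + 1)) (CDat.g0 w₀ z g k) (P k (Z k (ptr F J ω))) j b →
      Bxr (2 ^ (q * (s + 1))) (CDat.g0 w₀ z g k) (G k (ptr F J ω)) j b := by
    intro k hk ω hω j hj b hb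
    have h1 := Nr.box hc₁ hs1 (((hL k hk).2 ω hω).mono (show j ≤ n + 1 by omega)) hr1 hb j le_rfl
    refine h1.mono ?_ le_rfl
    have h2 : 2 * (c₁ : ℝ) * 2 ^ s * 2 ^ (sh + 1) ≤ 2 ^ ((c₁ + 3 + a) * (s + 1)) := by
      have e1 : (c₁ : ℝ) ≤ 2 ^ c₁ := by
        have : (c₁ : ℝ) < 2 ^ c₁ := by exact_mod_cast Nat.lt_two_pow_self
        exact this.le
      calc 2 * (c₁ : ℝ) * 2 ^ s * 2 ^ (sh + 1) ≤ 2 ^ 1 * 2 ^ c₁ * 2 ^ s * 2 ^ (sh + 1) := by
            rw [pow_one]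
            gcongr
        _ = 2 ^ (1 + c₁ + s + (sh + 1)) := by
            rw [← pow_add, ← pow_add, ← pow_add]
        _ ≤ 2 ^ ((c₁ + 3 + a) * (s + 1)) := by
            refine h2p ?_
            rw [hsh]
            have e2 : (c₁ + 3 + a) * (s + 1) = c₁ * s + c₁ + 3 * s + 3 + a * (s + 1) := by ring
            rw [e2]
            have e3 : 0 ≤ c₁ * s := Nat.zero_le _
            omega
    have h3 : 1 ≤ 2 * (c₁ : ℝ) * 2 ^ s * 2 ^ (sh + 1) := by
      have e1 : (1 : ℝ) ≤ 2 * c₁ := by linarith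
      have e2 : (1 : ℝ) ≤ 2 * c₁ * 2 ^ s := by nlinarith
      nlinarith
    calc (2 * (c₁ : ℝ) * 2 ^ s * 2 ^ (sh + 1)) ^ cc c₁ j ≤
        (2 * (c₁ : ℝ) * 2 ^ s * 2 ^ (sh + 1)) ^ M₀ := pow_le_pow_right₀ h3 (hM₀ j hj)
      _ ≤ (2 ^ ((c₁ + 3 + a) * (s + 1))) ^ M₀ := pow_le_pow_left₀ (by linarith) h2 _
      _ = 2 ^ (q * (s + 1)) := by
        rw [← pow_mul, hq]
        congr 1
        ring
  have hρ1 : (1 : ℝ) ≤ 2 ^ (q * (s + 1)) := one_le_pow₀ (by norm_num)
  -- the two systems are near there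
  have hnr : ∀ k ≤ M, ∀ ω, B ω → ∀ j, 1 ≤ j → j ≤ n → ∀ b : ℕ → ℝ,
      Bxr (2 ^ (q * (s + 1))) (CDat.g0 w₀ z g k) (G k (ptr F J ω)) j b →
      |eval b (P k (Z k (ptr F J ω)) j) - eval b (G k (ptr F J ω) j)| ≤
        2 ^ (u * (s + 1)) / 2 ^ g k j := by
    intro k hk ω hω j hj1 hj b hb
    have h1 := ((hL k hk).2 ω hω).2 j hj1 (by omega) _ hρ1 b hb
    rw [hg0 k j hj1] at h1
    refine h1.trans (div_le_div_of_nonneg_right ?_ (by positivity))
    rw [hu]
    exact exp_le_two s c₁ q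
  have hcd : ∀ C₁ : ℝ, 2 ^ ((c₁ + (1 + v + u) + Cn * (u + 1)) * (s + 1)) ≤ Real.exp (C₁ * z) →
      (cd F Z Z' P R).Cnd e n K₂ w₀ z M (fun k i => g k i - sh) C₁ B := by
    intro C₁ hC₁
    refine ⟨fun k hk v i _ _ => ((hL k hk).1.deg v i).trans (hK₂ ▸ le_max_right _ _),
      fun k hk v i _ _ => (hL k hk).1.tri v i, fun l i _ _ => (hRd l i).trans
        (hK₂ ▸ le_max_left _ _), fun l i _ _ => hRt l i,
      fun k hk ω hω => (hL k hk).1.cls ω hω, fun k hk ω hω i hi1 hi => ?_,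
      fun ω hω i hi1 hi b hb => ?_⟩
    · have h1 := (hL k hk).1.hgt ω hω i hi
      have h3 : gs sh (CDat.g0 w₀ z g k) i = g k i - sh := by
        unfold gs
        rw [if_neg (by omega), hg0 k i hi1]
      rw [h3] at h1
      have h4 : cx F e ω i = F.x ω (e i) := if_neg (by omega)
      rw [hPh k hk ω hω, ← h4]
      exact h1
    · rw [hPh M le_rfl ω hω] at hb ⊢
      have h1 : Bxr (2 ^ (sh + 1)) (CDat.g0 w₀ z g M) (P M (Z M (ptr F J ω))) i b := by
        intro l hl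
        refine (hb l hl).trans ?_
        rcases Nat.eq_zero_or_pos l with rfl | hl0
        · have e1 : CDat.g0 w₀ z (fun k i => g k i - sh) M 0 = w₀ + M * z := if_pos rfl
          rw [e1, hg00 M]
          exact div_le_div_of_nonneg_right hr1 (by positivity)
        · have e1 : CDat.g0 w₀ z (fun k i => g k i - sh) M l = g M l - sh := if_neg (by omega)
          rw [e1, hg0 M l hl0]
          have h4 := hg M le_rfl l hl0 (by omega)
          rw [div_le_div_iff₀ (by positivity) (by positivity), one_mul, ← pow_add]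
          exact h2p (by omega)
      have h2 := hbox M le_rfl ω hω i hi b h1
      have h3 := hnr M le_rfl ω hω i hi1 hi b h2
      have h4 : |eval b (R (slam F w₀ ω) i - G M (ptr F J ω) i)| ≤
          C₀ * (2 ^ s / 2 ^ g M i) * (2 ^ (q * (s + 1))) ^ K₁ := by
        refine hdil (G M (ptr F J ω)) (CDat.g0 w₀ z g M) (R (slam F w₀ ω) i - G M (ptr F J ω) i) i
          (2 ^ s / 2 ^ g M i) (2 ^ (q * (s + 1))) ((hraw M le_rfl).G_tri _)
          ((hraw M le_rfl).G_deg _) hi ?_ ?_ hρ1 ?_ b h2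
        · intro k hk
          rcases Finset.mem_union.1 (vars_sub_subset _ hk) with h1 | h1
          · exact hRt _ i h1
          · exact (hraw M le_rfl).G_tri _ i h1
        · exact (totalDegree_sub _ _).trans (max_le (hRd _ i) ((hraw M le_rfl).G_deg _ i))
        · intro b' hb'
          rw [map_sub]
          exact hline ω (hB ω hω) i hi1 hi b' hb'
      rw [map_sub] at h4
      have h5 : C₀ * (2 ^ s / 2 ^ g M i) * (2 ^ (q * (s + 1))) ^ K₁ ≤
          2 ^ (v * (s + 1)) / 2 ^ g M i := by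
        have e1 : C₀ * (2 ^ s / 2 ^ g M i) * (2 ^ (q * (s + 1))) ^ K₁ =
            (C₀ * 2 ^ s * (2 ^ (q * (s + 1))) ^ K₁) / 2 ^ g M i := by ring
        rw [e1]
        refine div_le_div_of_nonneg_right ?_ (by positivity)
        calc C₀ * 2 ^ s * (2 ^ (q * (s + 1))) ^ K₁ ≤ 2 ^ e₀ * 2 ^ s * (2 ^ (q * (s + 1))) ^ K₁ := by
              have := he₀.le
              gcongr
          _ = 2 ^ (e₀ + s + q * (s + 1) * K₁) := by
              rw [← pow_mul, ← pow_add, ← pow_add]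
          _ ≤ 2 ^ (v * (s + 1)) := by
              refine h2p ?_
              rw [hv]
              have e2 : (e₀ + 1 + q * K₁) * (s + 1) =
                  e₀ * s + e₀ + s + 1 + q * (s + 1) * K₁ := by ring
              rw [e2]
              have e3 : 0 ≤ e₀ * s := Nat.zero_le _
              omega
      have h6 : |eval b (R (slam F w₀ ω) i) - eval b (P M (Z M (ptr F J ω)) i)| ≤
          2 ^ (v * (s + 1)) / 2 ^ g M i + 2 ^ (u * (s + 1)) / 2 ^ g M i := by
        have e1 : eval b (R (slam F w₀ ω) i) - eval b (P M (Z M (ptr F J ω)) i) =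
            (eval b (R (slam F w₀ ω) i) - eval b (G M (ptr F J ω) i)) -
            (eval b (P M (Z M (ptr F J ω)) i) - eval b (G M (ptr F J ω) i)) := by ring
        rw [e1]
        exact (abs_sub _ _).trans (add_le_add (h4.trans h5) h3)
      refine h6.trans ?_
      rw [← add_div]
      have h7 : (2 : ℝ) ^ (v * (s + 1)) + 2 ^ (u * (s + 1)) ≤ Real.exp (C₁ * z) := by
        refine le_trans ?_ hC₁
        have e1 : (2 : ℝ) ^ (v * (s + 1)) ≤ 2 ^ ((v + u) * (s + 1)) :=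
          h2p (Nat.mul_le_mul_right _ (by omega))
        have e2 : (2 : ℝ) ^ (u * (s + 1)) ≤ 2 ^ ((v + u) * (s + 1)) :=
          h2p (Nat.mul_le_mul_right _ (by omega))
        calc (2 : ℝ) ^ (v * (s + 1)) + 2 ^ (u * (s + 1)) ≤ 2 * 2 ^ ((v + u) * (s + 1)) := by
              linarith
          _ = 2 ^ ((v + u) * (s + 1) + 1) := by rw [pow_succ]; ring
          _ ≤ 2 ^ ((c₁ + (1 + v + u) + Cn * (u + 1)) * (s + 1)) := by
              refine h2p ?_
              have e3 : (c₁ + (1 + v + u) + Cn * (u + 1)) * (s + 1) =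
                  (c₁ + Cn * (u + 1)) * (s + 1) + ((v + u) * (s + 1) + (s + 1)) := by ring
              rw [e3]
              have e4 : 0 ≤ (c₁ + Cn * (u + 1)) * (s + 1) := Nat.zero_le _
              omega
      have h8 : Real.exp (C₁ * z) / 2 ^ g M i ≤ Real.exp (C₁ * z) / 2 ^ (g M i - sh) :=
        div_le_div_of_nonneg_left (Real.exp_pos _).le (by positivity) (h2p (Nat.sub_le _ _))
      exact (div_le_div_of_nonneg_right h7 (by positivity)).trans h8
  refine ⟨(cd F Z Z' P R).addZ, B, hB, ?_, fun k => CDat.hasZ_addZ _ w₀ z k,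
    fun C₁ hC₁ => (hcd C₁ hC₁).addZ, ?_, fun k hk ω hω => ?_⟩
  · refine hPe.trans (mul_le_mul_of_nonneg_right ?_ (Pe_nonneg F.isLaw _))
    refine pow_le_pow_left₀ (Nat.cast_nonneg _) ?_ _
    rw [hK₂]
    exact_mod_cast le_max_right D c₁
  · -- the variation
    intro k hk y hvar hsiz ω ω' hω hω' _ hT i hi1 hi hX
    have hPa : (cd F Z Z' P R).addZ.Ph w₀ z k ω = (cd F Z Z' P R).Ph w₀ z k ω := rfl
    rw [hPa]
    obtain ⟨x, hx⟩ : ∃ x, x = cx F e ω := ⟨_, rfl⟩
    have hx0 : x 0 = F.t ω := by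
      rw [hx]
      exact if_pos rfl
    obtain ⟨Q, hQ⟩ : ∃ Q, Q = P k (Z k (ptr F J ω)) := ⟨_, rfl⟩
    rw [hPh k hk ω hω, ← hQ, abs_sub_comm]
    obtain ⟨y', hy'⟩ : ∃ y', y' = y + (c₁ + (1 + v + u) + Cn * (u + 1)) * (s + 1) := ⟨_, rfl⟩
    rw [← hy'] at hvar hsiz
    obtain ⟨P', hP'⟩ : ∃ P' : ℕ → PN, P' = fun i => if i = 0 then MvPolynomial.C (F.t ω) else
      Q i := ⟨_, rfl⟩
    have eP0 : P' 0 = MvPolynomial.C (F.t ω) := by rw [hP']; exact if_pos rfl
    have eP : ∀ j, 1 ≤ j → P' j = Q j := by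
      intro j h1
      rw [hP']
      exact if_neg (by omega)
    obtain ⟨g', hg'⟩ : ∃ g' : ℕ → ℕ, g' = fun i => if i = 0 then J else g k i - sh := ⟨_, rfl⟩
    have eg0 : g' 0 = J := by rw [hg']; exact if_pos rfl
    have eg : ∀ j, 1 ≤ j → g' j = g k j - sh := by
      intro j h1
      rw [hg']
      exact if_neg (by omega)
    have hQ0 : Q 0 = MvPolynomial.C ((F.T1 (w₀ + k * z) ω : ℝ) / 2 ^ (w₀ + k * z)) := by
      rw [hQ, (hL k hk).1.zero, (hL k hk).1.fst, tp_eq]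
    have pJ : (1 : ℝ) / 2 ^ J ≤ 1 / 2 ^ (w₀ + k * z) :=
      one_div_le_one_div_of_le (by positivity) (h2p (hak k hk))
    -- the boxes
    have box1 : ∀ j, 1 ≤ j → j ≤ n → ∀ b : ℕ → ℝ, Bx g' P' j b →
        Bxr (2 ^ (sh + 1)) (CDat.g0 w₀ z g k) Q j b := by
      intro j hj1 hj b hb l hl
      rcases Nat.eq_zero_or_pos l with rfl | hl0
      · have h1 := hb 0 hl
        rw [eP0, eval_C, eg0] at h1
        rw [hQ0, eval_C, hg00 k]
        have h2 := t_cell F (hak k hk) ω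
        have h4 : |b 0 - (F.T1 (w₀ + k * z) ω : ℝ) / 2 ^ (w₀ + k * z)| ≤
            2 / 2 ^ (w₀ + k * z) := by
          have h5 : (2 : ℝ) / 2 ^ (w₀ + k * z) = 1 / 2 ^ (w₀ + k * z) + 1 / 2 ^ (w₀ + k * z) := by
            ring
          rw [h5]
          rw [abs_le] at h1 h2 ⊢
          constructor <;> linarith [h1.1, h1.2, h2.1, h2.2]
        refine h4.trans (div_le_div_of_nonneg_right ?_ (by positivity))
        rw [pow_succ]
        have : (1 : ℝ) ≤ 2 ^ sh := one_le_pow₀ (by norm_num)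
        linarith
      · have h1 := hb l hl
        rw [eP l hl0, eg l hl0] at h1
        rw [hg0 k l hl0]
        refine h1.trans ?_
        have h4 := hg k hk l hl0 (by omega)
        rw [div_le_div_iff₀ (by positivity) (by positivity), one_mul, ← pow_add]
        exact h2p (by omega)
    -- the second point
    obtain ⟨b, hb⟩ : ∃ b, b = cx F e ω' := ⟨_, rfl⟩
    have hb0 : b 0 = F.t ω := by
      rw [hb]
      show (if 0 = 0 then F.t ω' else _) = _
      rw [if_pos rfl]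
      unfold Fam.t
      rw [hT]
    have hbx : ∀ j, 1 ≤ j → j < i → |b j - x j| ≤ 1 / 2 ^ J := by
      intro j hj1 hj
      have h5 := hX j hj1 hj
      have h6 : x j = F.x ω (e j) := by
        rw [hx]
        exact if_neg (by omega)
      have h7 : b j = F.x ω' (e j) := by
        rw [hb]
        exact if_neg (by omega)
      have h8 : ⌊(2 : ℝ) ^ J * F.x ω' (e j)⌋ = ⌊(2 : ℝ) ^ J * F.x ω (e j)⌋ := h5.symm
      have h9 := Ful.fl_eq h8
      rw [← mul_sub, abs_mul, abs_of_pos (by positivity : (0 : ℝ) < 2 ^ J)] at h9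
      rw [h6, h7, le_div_iff₀' (by positivity)]
      exact h9
    rw [← hx, ← hb]
    obtain ⟨b', hb'⟩ : ∃ b' : ℕ → ℝ, b' = fun j => if j < i then b j else x j := ⟨_, rfl⟩
    have eb : ∀ j < i, b' j = b j := fun j hj => by
      rw [hb']
      exact if_pos hj
    have hb'0 : b' 0 = x 0 := by rw [eb 0 (by omega), hb0, hx0]
    have hb'1 : ∀ j < i + 1, |b' j - x j| ≤ 1 / 2 ^ J := by
      intro j _
      rw [hb']
      show |(if j < i then b j else x j) - x j| ≤ _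
      split_ifs with h
      · rcases Nat.eq_zero_or_pos j with rfl | hj0
        · rw [hb0, hx0, sub_self, abs_zero]
          positivity
        · exact hbx j hj0 h
      · rw [sub_self, abs_zero]
        positivity
    have hQt : TriN Q := by
      rw [hQ]
      exact (hL k hk).1.tri _
    have hQd : ∀ j, (Q j).totalDegree ≤ K₂ := fun j => by
      rw [hQ]
      exact ((hL k hk).1.deg _ j).trans (hK₂ ▸ le_max_right _ _)
    have hd : NEAR.DatV (i + 1) K₂ (2 ^ (u * (s + 1))) (2 ^ (u * (s + 1))) P' (G k (ptr F J ω)) g'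
        x b' J y' := by
      refine
        { tri := fun j => ?_
          deg := fun j => ?_
          triG := fun j _ _ => (hraw k hk).G_tri _ j
          degG := fun j _ _ => ((hraw k hk).G_deg _ j).trans (hK₂ ▸ le_max_left _ _)
          zero := by rw [eP0, hx0]
          fit := fun j h1 h2 => ?_
          near := fun j h1 h2 b hb => ?_
          var := fun j h1 h2 => ?_
          siz := fun j h1 h2 => ?_ }
      · rw [hP']
        show (if j = 0 then MvPolynomial.C (F.t ω) else Q j).vars ⊆ range j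
        split_ifs with h1
        · rw [vars_C]
          exact Finset.empty_subset _
        · exact hQt j
      · rw [hP']
        show (if j = 0 then MvPolynomial.C (F.t ω) else Q j).totalDegree ≤ K₂
        split_ifs with h1
        · rw [totalDegree_C]
          exact Nat.zero_le _
        · exact hQd j
      · have h3 := (hL k hk).1.hgt ω hω j (by omega)
        have h4 : gs sh (CDat.g0 w₀ z g k) j = g k j - sh := by
          unfold gs
          rw [if_neg (by omega), hg0 k j h1]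
        rw [h4, ← hQ, ← hx] at h3
        rw [eP j h1, eg j h1]
        exact h3
      · have hjn : j ≤ n := by omega
        have h3 := box1 j h1 hjn b hb
        rw [hQ] at h3
        have h4 := hnr k hk ω hω j h1 hjn b (hbox k hk ω hω j hjn b h3)
        rw [eP j h1, eg j h1, abs_sub_comm, hQ]
        exact h4.trans (div_le_div_of_nonneg_left (by positivity) (by positivity)
          (h2p (Nat.sub_le _ _)))
      · have h3 : eval b' (G k (ptr F J ω) j) = eval b (G k (ptr F J ω) j) :=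
          eval_cg ((hraw k hk).G_tri _ j) fun l hl => eb l (by omega)
        rw [h3, eg j h1]
        have h4 := hvar ω (hB ω hω) j h1 (by omega) b hb0 fun l hl1 hl => by
          rw [← hx]
          exact hbx l hl1 (by omega)
        rw [← hx] at h4
        refine h4.trans (div_le_div₀ (by positivity) (one_le_pow₀ (by norm_num)) (by positivity)
          (h2p ?_))
        omega
      · have h3 := hsiz j h1 (by omega)
        rw [eg j h1]
        omega
    have h1 := hnear (u * (s + 1)) (i + 1) (by omega) P' (G k (ptr F J ω)) g' x b' J y' hd hb'0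
      hb'1 i (Nat.lt_succ_self i)
    rw [eP i hi1, eg i hi1] at h1
    have h2 : eval b' (Q i) = eval b (Q i) := eval_cg (hQt i) fun j hj => eb j hj
    rw [h2] at h1
    refine h1.trans ?_
    rw [div_le_div_iff₀ (by positivity) (by positivity), one_mul, ← pow_add]
    refine h2p ?_
    rw [hy']
    have e1 : Cn * (u * (s + 1) + 1) ≤ (c₁ + (1 + v + u) + Cn * (u + 1)) * (s + 1) := by
      have e2 : (c₁ + (1 + v + u) + Cn * (u + 1)) * (s + 1) =
        (c₁ + (1 + v + u)) * (s + 1) + (Cn * (u * (s + 1) + 1) + Cn * s) := by ring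
      rw [e2]
      omega
    show Cn * (u * (s + 1) + 1) + (g k i - sh + y) ≤ _
    omega
  · have h1 := (hL k hk).2 ω hω
    have h2 : (cd F Z Z' P R).addZ.Ph w₀ z k ω = (cd F Z Z' P R).Ph w₀ z k ω := rfl
    rw [h2, hPh k hk ω hω]
    exact h1.mono_c hc₁ hs1 (by omega)

/-- **The variation of a system which is near the point side of a chain**: `lam` is the distance
in digits, the loss is linear in `lam`. -/
theorem var_trc (n K : ℕ) : ∃ s₁ : ℕ, ∀ (m J : ℕ) (F : Fam m J) (c : ℕ → Fin m) (Kv : ℕ → ℕ)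
    (a w e : ℕ) (g : ℕ → ℕ) (A : F.Ω → Prop)
    (G : PtT F → ℕ → MvPolynomial (Option (Fin m)) ℝ)
    (H : LnT F → ℕ → MvPolynomial (Option (Fin m)) ℝ), a ≤ J → Inj c n → (∀ i < n, Kv i ≤ K) →
    ChOK F c n Kv a w e g A G H → ∀ (Gt : PtT F → ℕ → PN) (lam y : ℕ),
    (∀ v, TriN (Gt v)) → (∀ v i, (Gt v i).totalDegree ≤ K) →
    (∀ ω, A ω → ∀ i, 1 ≤ i → i ≤ n → ∀ b : ℕ → ℝ,
      Bx (gg a g) (Gs c n a G (ptr F J ω)) i b →
      |eval b (Gs c n a G (ptr F J ω) i) - eval b (Gt (ptr F J ω) i)| ≤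
        2 ^ lam / 2 ^ g (i - 1)) →
    (∀ i < n, g i + y + lam + (e + nlp g 0 i) + s₁ ≤ J) →
    ∀ ω, A ω → ∀ i, 1 ≤ i → i ≤ n → ∀ b : ℕ → ℝ, b 0 = F.t ω →
    (∀ j, 1 ≤ j → j < i → |b j - cx F (fun i => c (i - 1)) ω j| ≤ 1 / 2 ^ J) →
    |eval b (Gt (ptr F J ω) i) - eval (cx F (fun i => c (i - 1)) ω) (Gt (ptr F J ω) i)| ≤
      1 / 2 ^ (g (i - 1) + y) := by
  obtain ⟨L, hL, hnear⟩ := NEAR.near n K (S := 0) le_rfl
  obtain ⟨C₂, hC₂, hbox⟩ := n1_of_box n K
  obtain ⟨K₁, hK₁⟩ : ∃ K₁, K₁ = K * (K + 1) ^ (n + 1) := ⟨_, rfl⟩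
  have hL0 : 0 ≤ L := by linarith
  obtain ⟨ρ, hρ⟩ : ∃ ρ : ℝ, ρ = 2 + L := ⟨_, rfl⟩
  have hρ1 : 1 ≤ ρ := by rw [hρ]; linarith
  have hρ0 : 0 ≤ ρ := by linarith
  obtain ⟨s₁, hs₁⟩ := pow_unbounded_of_one_lt (L + n * (K₁ * C₂ * ρ ^ K₁ * (1 + L)))
    (one_lt_two (α := ℝ))
  refine ⟨s₁, ?_⟩
  intro m J F c Kv a w e g A G H ha hc hKv h Gt lam y hGt hGd hclose hsiz ω hω i hi1 hi b hb0 hb
  have h2p : ∀ {p q : ℕ}, p ≤ q → (2 : ℝ) ^ p ≤ 2 ^ q := fun h =>
    pow_le_pow_right₀ (by norm_num) h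
  obtain ⟨x, hx⟩ : ∃ x, x = cx F (fun i => c (i - 1)) ω := ⟨_, rfl⟩
  have hx0 : x 0 = F.t ω := by
    rw [hx]
    exact if_pos rfl
  rw [← hx] at hb ⊢
  obtain ⟨y', hy'⟩ : ∃ y', y' = y + lam + s₁ := ⟨_, rfl⟩
  obtain ⟨Φ, hΦ⟩ : ∃ Φ, Φ = sy c n (F.t ω) (G (ptr F J ω)) := ⟨_, rfl⟩
  obtain ⟨Ψ, hΨ⟩ : ∃ Ψ, Ψ = Gs c n a G (ptr F J ω) := ⟨_, rfl⟩
  have hGK : ∀ i < n, (G (ptr F J ω) i).totalDegree ≤ K := fun i hi =>
    (h.degG _ i).trans (hKv i hi)
  have hΦt : TriN Φ := by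
    rw [hΦ]
    exact sy_tri
  have hΨt : TriN Ψ := by
    rw [hΨ]
    exact sy_tri
  have hΦd : ∀ i, (Φ i).totalDegree ≤ K := fun i => by
    rw [hΦ]
    exact sy_deg hGK i
  have hΨd : ∀ i, (Ψ i).totalDegree ≤ K := fun i => by
    rw [hΨ]
    exact sy_deg hGK i
  have esy : ∀ j, 1 ≤ j → j ≤ n → Ψ j = Φ j := by
    intro j h1 h2
    obtain ⟨j, rfl⟩ : ∃ j', j = j' + 1 := ⟨j - 1, by omega⟩
    rw [hΨ, hΦ]
    unfold Gs
    rw [sy_succ (by omega), sy_succ (by omega)]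
  have hgg : ∀ j, 1 ≤ j → gg a g j = g (j - 1) := fun j hj => if_neg (by omega)
  have hgg0 : gg a g 0 = a := if_pos rfl
  have hfit : ∀ j, 1 ≤ j → j ≤ n → |x j - eval x (Φ j)| ≤ 1 / 2 ^ gg a g j := by
    intro j h1 h2
    have h3 := pos_of hc h hω h1 h2
    rw [← hx, ← hΨ, esy j h1 h2] at h3
    exact h3
  have hy'J : ∀ j, 1 ≤ j → j ≤ n → gg a g j + y' + (e + nlp g 0 (j - 1)) ≤ J := by
    intro j h1 h2
    have h3 := hsiz (j - 1) (by omega)
    rw [hgg j h1, hy']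
    omega
  -- the variation of the chain
  have hd : NEAR.Dat n K 0 Φ Φ (gg a g) x (fun j => e + nlp g 0 (j - 1)) J y' := by
    refine
      { tri := hΦt
        deg := hΦd
        triG := fun j _ _ => hΦt j
        degG := fun j _ _ => hΦd j
        zero := by rw [hΦ, sy_zero, hx0]
        fit := hfit
        near := fun j h1 h2 b hb => by rw [sub_self, abs_zero, zero_div]
        lip := fun j h1 h2 b hb l hl1 hl => ?_
        siz := hy'J }
    obtain ⟨j, rfl⟩ : ∃ j', j = j' + 1 := ⟨j - 1, by omega⟩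
    obtain ⟨l, rfl⟩ : ∃ l', l = l' + 1 := ⟨l - 1, by omega⟩
    have h3 : Φ (j + 1) = tr c j (G (ptr F J ω) j) := by
      rw [hΦ]
      exact sy_succ (by omega)
    have hb' : Bxr 1 (gg a g) (sy c n (F.t ω) (G (ptr F J ω))) (j + 1) b := by
      rw [← hΦ]
      exact hb
    have h5 := nbx_of_bxr hc (h.depG _) (by omega) hb'
    have h6 := h.lip ω hω j (by omega) _ h5 l (by omega)
    rw [h3, pd_tr hc (by omega) (by omega)]
    unfold tr
    rw [AdxRow.evl_bnd]
    refine h6.trans (h2p ?_)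
    show e + nlp g l j ≤ e + nlp g 0 (j + 1 - 1)
    rw [Nat.add_sub_cancel]
    refine Nat.add_le_add_left ?_ _
    unfold nlp
    exact Nat.sub_le_sub_right (Finset.sup_mono (Finset.Icc_subset_Icc_left (Nat.zero_le l))) _
  obtain ⟨b', hb'⟩ : ∃ b' : ℕ → ℝ, b' = fun j => if j < i then b j else x j := ⟨_, rfl⟩
  have eb : ∀ j < i, b' j = b j := fun j hj => by
    rw [hb']
    exact if_pos hj
  have hb'0 : b' 0 = x 0 := by rw [eb 0 (by omega), hb0, hx0]
  have hb'1 : ∀ j, |b' j - x j| ≤ 1 / 2 ^ J := by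
    intro j
    rw [hb']
    show |(if j < i then b j else x j) - x j| ≤ _
    split_ifs with h
    · rcases Nat.eq_zero_or_pos j with rfl | hj0
      · rw [hb0, hx0, sub_self, abs_zero]
        positivity
      · exact hb j hj0 h
    · rw [sub_self, abs_zero]
      positivity
  have hvar := hnear Φ Φ (gg a g) x (fun j => e + nlp g 0 (j - 1)) J y' hd b' hb'0
    fun j _ => hb'1 j
  -- the difference
  obtain ⟨P, hP⟩ : ∃ P, P = bind₁ (nuc (gg a g) Ψ) (Gt (ptr F J ω) i - Ψ i) := ⟨_, rfl⟩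
  have hv : (Gt (ptr F J ω) i - Ψ i).vars ⊆ range i := by
    intro k hk
    rcases Finset.mem_union.1 (vars_sub_subset _ hk) with h1 | h1
    · exact hGt _ i h1
    · exact hΨt i h1
  have hdeg : (Gt (ptr F J ω) i - Ψ i).totalDegree ≤ K :=
    (totalDegree_sub _ _).trans (max_le (hGd _ i) (hΨd i))
  obtain ⟨f1, f2⟩ := nat_deg hΨt hΨd (gg a g) hi hv hdeg
  rw [← hP, ← hK₁] at f2
  rw [← hP] at f1
  have f3 : n1 P ≤ C₂ * (2 ^ lam / 2 ^ g (i - 1)) := by
    rw [hP]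
    refine hbox Ψ (gg a g) (Gt (ptr F J ω) i - Ψ i) i _ hΨt hΨd hi hv hdeg fun b hb => ?_
    rw [map_sub, abs_sub_comm]
    have hb'' : Bx (gg a g) (Gs c n a G (ptr F J ω)) i b := by
      rw [← hΨ]
      exact hb
    have h1 := hclose ω hω i hi1 hi b hb''
    rw [← hΨ] at h1
    exact h1
  have hΨ0 : Ψ 0 = MvPolynomial.C ((F.T1 a ω : ℝ) / 2 ^ a) := by
    rw [hΨ]
    unfold Gs
    rw [sy_zero, tp_eq]
  have boxx : ∀ l < i, |nc (gg a g) Ψ x l| ≤ ρ := by
    intro l hl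
    rw [nc_le]
    rcases Nat.eq_zero_or_pos l with rfl | hl0
    · rw [hΨ0, eval_C, hx0, hgg0]
      exact (t_cell F ha ω).trans (div_le_div_of_nonneg_right hρ1 (by positivity))
    · rw [esy l hl0 (by omega)]
      exact (hfit l hl0 (by omega)).trans (div_le_div_of_nonneg_right hρ1 (by positivity))
  have hJl : ∀ l, 1 ≤ l → l ≤ n → (1 : ℝ) / 2 ^ J ≤ 1 / 2 ^ (gg a g l + y') := fun l h1 h2 =>
    one_div_le_one_div_of_le (by positivity) (h2p (by
      have := hy'J l h1 h2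
      omega))
  have boxb : ∀ l < i, |nc (gg a g) Ψ b' l| ≤ ρ := by
    intro l hl
    rw [nc_le]
    rcases Nat.eq_zero_or_pos l with rfl | hl0
    · rw [hΨ0, eval_C, hb'0, hx0, hgg0]
      exact (t_cell F ha ω).trans (div_le_div_of_nonneg_right hρ1 (by positivity))
    · rw [esy l hl0 (by omega)]
      have e1 := hb'1 l
      have e2 := hfit l hl0 (by omega)
      have e3 := hvar l (by omega)
      have e5 : (1 : ℝ) / 2 ^ J ≤ 1 / 2 ^ gg a g l :=
        (hJl l hl0 (by omega)).trans (one_div_le_one_div_of_le (by positivity)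
          (h2p (Nat.le_add_right _ _)))
      have e6 : L / 2 ^ (gg a g l + y') ≤ L / 2 ^ gg a g l :=
        div_le_div_of_nonneg_left hL0 (by positivity) (h2p (Nat.le_add_right _ _))
      have e7 : ρ / 2 ^ gg a g l = 1 / 2 ^ gg a g l + 1 / 2 ^ gg a g l + L / 2 ^ gg a g l := by
        rw [hρ]
        ring
      rw [e7]
      rw [abs_le] at e1 e2 e3 ⊢
      constructor <;> linarith [e1.1, e1.2, e2.1, e2.2, e3.1, e3.2]
  have f4 : ∀ l < i, |nc (gg a g) Ψ b' l - nc (gg a g) Ψ x l| ≤ (1 + L) / 2 ^ y' := by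
    intro l hl
    have pg : (0 : ℝ) < 2 ^ gg a g l := by positivity
    unfold nc
    rcases Nat.eq_zero_or_pos l with rfl | hl0
    · rw [hΨ0, eval_C, eval_C, hb'0, sub_self, abs_zero]
      positivity
    · rw [esy l hl0 (by omega)]
      have e1 := hb'1 l
      have e3 := hvar l (by omega)
      have e5 := hJl l hl0 (by omega)
      have e6 : (2 : ℝ) ^ gg a g l * (b' l - eval b' (Φ l)) -
          2 ^ gg a g l * (x l - eval x (Φ l)) =
          2 ^ gg a g l * ((b' l - x l) - (eval b' (Φ l) - eval x (Φ l))) := by ring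
      rw [e6, abs_mul, abs_of_pos pg]
      have e7 : |(b' l - x l) - (eval b' (Φ l) - eval x (Φ l))| ≤
          (1 + L) / 2 ^ (gg a g l + y') := by
        have e8 : (1 + L) / 2 ^ (gg a g l + y') =
          1 / 2 ^ (gg a g l + y') + L / 2 ^ (gg a g l + y') := by ring
        rw [e8]
        rw [abs_le] at e1 e3 ⊢
        constructor <;> linarith [e1.1, e1.2, e3.1, e3.2]
      refine (mul_le_mul_of_nonneg_left e7 pg.le).trans (le_of_eq ?_)
      rw [pow_add]
      field_simp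
  have hgi : gg a g i = g (i - 1) := hgg i hi1
  have dif : |eval b' (Gt (ptr F J ω) i - Ψ i) - eval x (Gt (ptr F J ω) i - Ψ i)| ≤
      n * (K₁ * C₂ * ρ ^ K₁ * (1 + L)) * 2 ^ lam / 2 ^ (g (i - 1) + y') := by
    rw [eval_nat hΨt (gg a g) b', eval_nat hΨt (gg a g) x, ← hP]
    refine (NEAR.var_le hρ1 f1 f2 boxx boxb f4).trans ?_
    calc (i : ℝ) * (K₁ * n1 P * ρ ^ K₁ * ((1 + L) / 2 ^ y')) ≤
        n * (K₁ * (C₂ * (2 ^ lam / 2 ^ g (i - 1))) * ρ ^ K₁ * ((1 + L) / 2 ^ y')) := by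
          refine mul_le_mul (by exact_mod_cast hi) ?_ ?_ (Nat.cast_nonneg n)
          · refine mul_le_mul_of_nonneg_right ?_ (by positivity)
            refine mul_le_mul_of_nonneg_right ?_ (by positivity)
            exact mul_le_mul_of_nonneg_left f3 (Nat.cast_nonneg K₁)
          · have := n1_nonneg P
            positivity
      _ = n * (K₁ * C₂ * ρ ^ K₁ * (1 + L)) * 2 ^ lam / 2 ^ (g (i - 1) + y') := by
        rw [pow_add]
        field_simp
  have raw : |eval b' (Ψ i) - eval x (Ψ i)| ≤ L / 2 ^ (g (i - 1) + y') := by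
    rw [esy i hi1 hi, ← hgi]
    exact hvar i hi
  have hbe : eval b (Gt (ptr F J ω) i) = eval b' (Gt (ptr F J ω) i) :=
    (eval_cg (hGt _ i) fun j hj => eb j hj).symm
  have tot : eval b' (Gt (ptr F J ω) i) - eval x (Gt (ptr F J ω) i) =
      (eval b' (Ψ i) - eval x (Ψ i)) +
      (eval b' (Gt (ptr F J ω) i - Ψ i) - eval x (Gt (ptr F J ω) i - Ψ i)) := by
    rw [map_sub, map_sub]
    ring
  rw [hbe, tot]
  refine (abs_add_le _ _).trans ((add_le_add raw dif).trans ?_)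
  rw [← add_div, div_le_div_iff₀ (by positivity) (by positivity), one_mul]
  have h1 : (1 : ℝ) ≤ 2 ^ lam := one_le_pow₀ (by norm_num)
  have h2 : L ≤ L * 2 ^ lam := by nlinarith
  have h3 : (2 : ℝ) ^ (g (i - 1) + y') = 2 ^ s₁ * 2 ^ lam * 2 ^ (g (i - 1) + y) := by
    rw [← pow_add, ← pow_add, hy']
    congr 1
    omega
  rw [h3]
  refine mul_le_mul_of_nonneg_right ?_ (by positivity)
  have h4 : L + n * (K₁ * C₂ * ρ ^ K₁ * (1 + L)) * 2 ^ lam ≤
      (L + n * (K₁ * C₂ * ρ ^ K₁ * (1 + L))) * 2 ^ lam := by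
    rw [add_mul]
    linarith
  exact h4.trans (mul_le_mul_of_nonneg_right hs₁.le (by positivity))

end CLO

end Pool.STAT
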