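import Pool.Agent.H90.STAT.Ful
import Pool.Agent.H54.GN.Lb
import Pool.Agent.H45.EXA.Stm
import Pool.Agent.H71.GEN.Lip

/-!
# The entropy fields of a system, for a family (row N1)

* `near_lip`: the variation of a polynomial with a small gradient between two near samples;
* `fam_time`: the field `time`;
* `ex_low`, `fam_R`: the entropy of the positions given a label;
* `fam_full`: the field `full`.
-/

set_option autoImplicit false

namespace Pool.STAT.Ful

open Finset Real MvPolynomial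
open Pool.Agent.H49.Ent Pool.Agent.H32.Dense Pool.STK Pool.KS3 Pool.KA Pool.KSAT Pool.K2S Pool.PB
  Pool.S6C Pool.GEN
open Pool.FLF (Fam.sub)

variable {m n J : ℕ}

/-! ### Near samples -/

/-- The variation of a polynomial of the time and of the coordinates in `I` between two near
samples. -/
theorem near_lip {F : Fam m J} {I : Finset (Fin m)} {P : MvPolynomial (Option (Fin m)) ℝ}
    (dep : ∀ b b' : Option (Fin m) → ℝ, b none = b' none → (∀ i ∈ I, b (some i) = b' (some i)) →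
      eval b P = eval b' P) {ω ω' : F.Ω} {M δ : ℝ} (hδ : 0 ≤ δ)
    (hM : ∀ b : Option (Fin m) → ℝ, (∀ o, |b o - bt F ω o| ≤ δ) → ∀ o, |eval b (pderiv o P)| ≤ M)
    (ht : |F.t ω - F.t ω'| ≤ δ) (hI : ∀ k ∈ I, |F.x ω k - F.x ω' k| ≤ δ) :
    |eval (bt F ω) P - eval (bt F ω') P| ≤ M * ((m + 1) * δ) := by
  classical
  obtain ⟨b, hb⟩ : ∃ b : Option (Fin m) → ℝ, b = fun o => match o with
      | none => F.t ω'
      | some k => if k ∈ I then F.x ω' k else F.x ω k := ⟨_, rfl⟩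
  have e1 : eval (bt F ω') P = eval b P := by
    refine dep _ _ ?_ fun k hk => ?_
    · rw [hb]
      rfl
    · rw [hb]
      simp only [if_pos hk]
      rfl
  have hbd : ∀ o, |b o - bt F ω o| ≤ δ := by
    intro o
    rw [hb]
    rcases o with _ | k
    · simp only [bt]
      rw [abs_sub_comm]
      exact ht
    · simp only [bt]
      by_cases hk : k ∈ I
      · rw [if_pos hk, abs_sub_comm]
        exact hI k hk
      · rw [if_neg hk, sub_self, abs_zero]
        exact hδ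
  have h3 := mvσ P (bt F ω) b M (fun y hy i => hM y (fun o => (hy o).trans (hbd o)) i)
  have h4 : ∑ o, |b o - bt F ω o| ≤ (m + 1) * δ := by
    calc ∑ o, |b o - bt F ω o| ≤ ∑ _o : Option (Fin m), δ := Finset.sum_le_sum fun o _ => hbd o
      _ = (m + 1) * δ := by
        rw [Finset.sum_const, Finset.card_univ, Fintype.card_option, Fintype.card_fin,
          nsmul_eq_mul]
        push_cast
        ring
  have hM0 : 0 ≤ M := (abs_nonneg _).trans (hM (bt F ω) (fun o => by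
    rw [sub_self, abs_zero]
    exact hδ) none)
  rw [e1, abs_sub_comm]
  exact h3.trans (mul_le_mul_of_nonneg_left h4 hM0)

/-- The variation of a label between two near samples. -/
theorem lb_near {F : Fam m J} {I : Finset (Fin m)} {k : Fin m} {K e r w ρ P : ℕ}
    {A : F.Ω → Prop} {V : Type} {z : PtT F → V} {z' : LnT F → V}
    {G : V → MvPolynomial (Option (Fin m)) ℝ} (h : LbOK F I k K e r w ρ P A z z' G)
    (hρ : ρ ≤ J) {ω ω' : F.Ω} (hω : A ω) (ht : |F.t ω - F.t ω'| ≤ 1 / 2 ^ J)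
    (hI : ∀ k ∈ I, |F.x ω k - F.x ω' k| ≤ 1 / 2 ^ J) :
    |eval (bt F ω) (G (z' (slam F w ω))) - eval (bt F ω') (G (z' (slam F w ω)))| ≤
      ((m + 1) * 2 ^ e) / 2 ^ J := by
  have h1 := near_lip (M := 2 ^ e) (h.dep (z' (slam F w ω))) (by positivity)
    (fun b hb o => h.lip ω hω b (fun o => (hb o).trans (inv_mono hρ)) o) ht hI
  refine h1.trans (le_of_eq ?_)
  ring

/-! ### Natural indices -/

/-- The natural index of a coordinate, in the order `σ`; the time has the index `0`. -/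
def ix (σ : Equiv.Perm (Fin m)) : Option (Fin m) → ℕ
  | none => 0
  | some k => (σ.symm k : ℕ) + 1

theorem ix_inj (σ : Equiv.Perm (Fin m)) : Function.Injective (ix σ) := by
  intro a b h
  rcases a with _ | a <;> rcases b with _ | b <;> simp only [ix] at h
  · rfl
  · omega
  · omega
  · have h1 : σ.symm a = σ.symm b := Fin.ext (by omega)
    rw [σ.symm.injective h1]

/-- The time and the position, in natural indices. -/
noncomputable def nx (F : Fam m J) (σ : Equiv.Perm (Fin m)) (ω : F.Ω) (i : ℕ) : ℝ :=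
  if i = 0 then F.t ω else if h : i - 1 < m then F.x ω (σ ⟨i - 1, h⟩) else 0

theorem nx_zero (F : Fam m J) (σ : Equiv.Perm (Fin m)) (ω : F.Ω) : nx F σ ω 0 = F.t ω := by
  rw [nx, if_pos rfl]

theorem nx_succ (F : Fam m J) (σ : Equiv.Perm (Fin m)) (ω : F.Ω) (j : Fin m) :
    nx F σ ω ((j : ℕ) + 1) = F.x ω (σ j) := by
  have h : (j : ℕ) + 1 - 1 < m := by
    have := j.2
    omega
  rw [nx, if_neg (Nat.succ_ne_zero _), dif_pos h]
  congr 2

theorem nx_ix (F : Fam m J) (σ : Equiv.Perm (Fin m)) (ω : F.Ω) (o : Option (Fin m)) :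
    nx F σ ω (ix σ o) = bt F ω o := by
  rcases o with _ | k
  · exact nx_zero F σ ω
  · simp only [ix, bt]
    rw [nx_succ, Equiv.apply_symm_apply]

theorem eval_ix (F : Fam m J) (σ : Equiv.Perm (Fin m)) (ω : F.Ω)
    (G : MvPolynomial (Option (Fin m)) ℝ) :
    eval (nx F σ ω) (rename (ix σ) G) = eval (bt F ω) G := by
  rw [eval_rename]
  congr 2
  funext o
  exact nx_ix F σ ω o

/-- A polynomial which depends on the time and on the coordinates in `I` only has only these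
variables. -/
theorem vars_dep {I : Finset (Fin m)} {G : MvPolynomial (Option (Fin m)) ℝ}
    (dep : ∀ b b' : Option (Fin m) → ℝ, b none = b' none → (∀ i ∈ I, b (some i) = b' (some i)) →
      eval b G = eval b' G) {k : Fin m} (hk : k ∉ I) : (some k : Option (Fin m)) ∉ G.vars := by
  classical
  have h1 : G = bind₁ (fun o : Option (Fin m) => if o = some k then 0 else X o) G := by
    refine MvPolynomial.funext fun b => ?_
    have h3 : eval b (bind₁ (fun o : Option (Fin m) => if o = some k then 0 else X o) G) =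
        eval (fun o => eval b (if o = some k then 0 else X o)) G :=
      eval₂Hom_bind₁ (RingHom.id ℝ) b _ G
    rw [h3]
    refine dep _ _ ?_ fun i hi => ?_
    · simp
    · have h2 : (some i : Option (Fin m)) ≠ some k := fun h =>
        hk (by rw [← Option.some.inj h]; exact hi)
      simp [h2]
  intro h2
  rw [h1] at h2
  obtain ⟨o, ho, ho'⟩ := MvPolynomial.mem_vars_bind₁ _ _ h2
  by_cases h3 : o = some k
  · rw [if_pos h3] at ho'
    simp at ho'
  · rw [if_neg h3, vars_X, mem_singleton] at ho'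
    exact h3 ho'.symm

/-- The variables of a label in natural indices. -/
theorem vars_ix {σ : Equiv.Perm (Fin m)} {j : Fin m} {G : MvPolynomial (Option (Fin m)) ℝ}
    (dep : ∀ b b' : Option (Fin m) → ℝ, b none = b' none →
      (∀ i ∈ bef σ j, b (some i) = b' (some i)) → eval b G = eval b' G) :
    (rename (ix σ) G).vars ⊆ range ((j : ℕ) + 1) := by
  classical
  intro i hi
  have h1 := MvPolynomial.vars_rename (ix σ) G hi
  obtain ⟨o, ho, rfl⟩ := mem_image.1 h1
  rw [mem_range]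
  rcases o with _ | k
  · exact Nat.succ_pos _
  · by_cases hk : k ∈ bef σ j
    · have := mem_bef.1 hk
      have h2 : ((σ.symm k : Fin m) : ℕ) < j := this
      simp only [ix]
      omega
    · exact absurd ho (vars_dep dep hk)

theorem deg_ix {σ : Equiv.Perm (Fin m)} {G : MvPolynomial (Option (Fin m)) ℝ} {K : ℕ}
    (h : G.totalDegree ≤ K) : (rename (ix σ) G).totalDegree ≤ K :=
  (totalDegree_rename_le _ _).trans h

/-- **The variation of a label in natural indices** between two near samples. -/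
theorem hlip_ix {F : Fam m J} {A : F.Ω → Prop} {σ : Equiv.Perm (Fin m)} {j : Fin m} {Γ : Type}
    {c : F.Ω → Γ} {G : Γ → MvPolynomial (Option (Fin m)) ℝ} {ρ e : ℕ}
    (dep : ∀ x, ∀ b b' : Option (Fin m) → ℝ, b none = b' none →
      (∀ i ∈ bef σ j, b (some i) = b' (some i)) → eval b (G x) = eval b' (G x))
    (lip : ∀ ω, A ω → ∀ b : Option (Fin m) → ℝ, (∀ o, |b o - bt F ω o| ≤ 1 / 2 ^ ρ) → ∀ o,
      |eval b (pderiv o (G (c ω)))| ≤ 2 ^ e) (hρ : ρ ≤ J) {ω ω' : F.Ω} (hω : A ω)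
    (hj : ∀ i < (j : ℕ) + 1, |nx F σ ω i - nx F σ ω' i| ≤ 1 / 2 ^ J) :
    |eval (nx F σ ω) (rename (ix σ) (G (c ω))) - eval (nx F σ ω') (rename (ix σ) (G (c ω)))| ≤
      ((m + 1) * 2 ^ e) / 2 ^ J := by
  rw [eval_ix, eval_ix]
  have h1 := near_lip (M := 2 ^ e) (ω := ω) (ω' := ω') (dep (c ω)) (by positivity)
    (fun b hb o => lip ω hω b (fun o => (hb o).trans (inv_mono hρ)) o) ?_ ?_
  · refine h1.trans (le_of_eq ?_)
    ring
  · have h2 := hj 0 (Nat.succ_pos _)
    rwa [nx_zero, nx_zero] at h2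
  · intro k hk
    have h3 : ((σ.symm k : Fin m) : ℕ) < j := mem_bef.1 hk
    have h2 := hj ((σ.symm k : ℕ) + 1) (by omega)
    rw [nx_succ, nx_succ, Equiv.apply_symm_apply] at h2
    exact h2

/-! ### The entropy fields -/

/-- **The field `time`**, for the restriction of a family to an event. -/
theorem fam_time {F : Fam m J} {A : F.Ω → Prop} (hA : 0 < Pe F.p A) {e : ℝ}
    (ht : (Fam.sub F A hA).Tm e) {w₀ : ℕ} (hw : w₀ ≤ J) {Λ : Type} (ln : F.Ω → Λ)
    (hln : Det (Pool.Agent.H49.Ent.cond F.p A True) (slam F w₀) ln) :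
    ((J - w₀ : ℕ) : ℝ) * Real.log 2 - e ≤ CH (Pool.Agent.H49.Ent.cond F.p A True) F.T ln := by
  have hq := isLaw_cond F.isLaw hA
  have h1 : (J : ℝ) * Real.log 2 - e ≤ CH (Pool.Agent.H49.Ent.cond F.p A True) F.T
      (fun ω => (F.l ω, F.Z ω)) := by
    refine le_trans ht (le_of_eq ?_)
    exact Pool.FLF.sub_CH (F := F) (A := A) (hA := hA) F.T (fun ω => (F.l ω, F.Z ω))
  refine time_of hq F.T (fun ω => (F.l ω, F.Z ω)) ln F.tim hw h1 ?_
  intro ω ω' h h' e
  refine hln ω ω' h h' ?_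
  simp only [Prod.mk.injEq] at e
  unfold slam Fam.T1
  simp only [Prod.mk.injEq]
  exact ⟨e.1.1, e.1.2, e.2⟩

/-- **The entropy of the base given a label**, from the exactness of the space coordinates. -/
theorem fam_R {F : Fam m J} {q : F.Ω → ℝ} (hq : IsLaw q) {Γ 𝒱 : Type} (c : F.Ω → Γ)
    (g : ℕ → ℕ) (eps : Fin n → Fin m) {ε ε' : ℝ}
    (hT : ((J : ℝ) - g 0) * Real.log 2 - ε ≤ CH q F.T c)
    (hE : (∑ i ∈ Ico 1 (n + 1), ((J : ℝ) - g i)) * Real.log 2 - ε' ≤
      CH q (fun ω (i : Fin n) => F.X J ω (eps i)) (fun ω => (c ω, F.W ω)))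
    (Vf : F.Ω → 𝒱) (hV : Det q Vf (fun ω => (F.T ω, fun i : Fin n => F.X J ω (eps i)))) :
    (∑ i ∈ range (n + 1), ((J : ℝ) - g i)) * Real.log 2 - (ε + ε') ≤ CH q Vf c := by
  have h1 : CH q (fun ω => ((fun i : Fin n => F.X J ω (eps i)), F.T ω)) c ≤ CH q Vf c := by
    refine CH_mono_left hq.nonneg fun ω ω' h h' e => ?_
    simp only [Prod.mk.injEq] at e
    have h2 := hV ω ω' h h' e.1
    simp only [Prod.mk.injEq] at h2
    exact Prod.ext h2.2 h2.1
  rw [CH_chain hq.nonneg] at h1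
  have h2 : CH q (fun ω (i : Fin n) => F.X J ω (eps i)) (fun ω => (c ω, F.W ω)) ≤
      CH q (fun ω (i : Fin n) => F.X J ω (eps i)) (fun ω => (F.T ω, c ω)) :=
    CH_mono_cond hq.nonneg fun ω ω' _ _ e => by
      simp only [Prod.mk.injEq] at e ⊢
      exact ⟨congrArg Prod.fst e.2, e.1⟩
  have h3 : ∑ i ∈ range (n + 1), ((J : ℝ) - g i) =
      ((J : ℝ) - g 0) + ∑ i ∈ Ico 1 (n + 1), ((J : ℝ) - g i) := by
    rw [Finset.range_eq_Ico, Finset.sum_eq_sum_Ico_succ_bot (by omega)]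
  rw [h3, add_mul]
  linarith

/-- The numbers: exactness in the units of the thresholds. -/
theorem num_ex {s : Fin n → ℝ} {g : ℕ → ℕ} {θ : ℝ} (h : ∀ j : Fin n, s j * J - θ ≤ g (j + 1)) :
    ∑ i ∈ Ico 1 (n + 1), ((J : ℝ) - g i) ≤ (∑ j, (1 - s j)) * J + n * θ := by
  have h1 : ∑ i ∈ Ico 1 (n + 1), ((J : ℝ) - g i) = ∑ j : Fin n, ((J : ℝ) - g (j + 1)) := by
    rw [Finset.sum_Ico_eq_sum_range, Nat.add_sub_cancel, Finset.sum_range]
    refine Finset.sum_congr rfl fun j _ => ?_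
    rw [add_comm 1 (j : ℕ)]
  rw [h1]
  calc ∑ j : Fin n, ((J : ℝ) - g (j + 1)) ≤ ∑ j : Fin n, ((1 - s j) * J + θ) :=
        Finset.sum_le_sum fun j _ => by linarith [h j]
    _ = (∑ j, (1 - s j)) * J + n * θ := by
      rw [Finset.sum_add_distrib, Finset.sum_const, Finset.card_univ, Fintype.card_fin,
        nsmul_eq_mul, ← Finset.sum_mul]

/-- **The field `full`**, for a family. -/
theorem fam_full {F : Fam m J} {q : F.Ω → ℝ} (hq : IsLaw q) {Λ Γ : Type} (ln : F.Ω → Λ)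
    (X : F.Ω → ℕ → ℝ) (c : ℕ → F.Ω → Γ) (P : ℕ → Γ → ℕ → PN) (R : Λ → ℕ → PN) (g : ℕ → ℕ → ℕ)
    (eps : Fin n → Fin m) (hX0 : ∀ ω, X ω 0 = F.t ω)
    (hX : ∀ ω (j : Fin n), X ω (j + 1) = F.x ω (eps j)) {k z : ℕ} {L ε ε' : ℝ} (hL : 0 ≤ L)
    (hg : ∀ i < n + 1, g k i + z ≤ J)
    (hlip : ∀ ω ω', 0 < q ω → 0 < q ω' → c k ω = c k ω' → ∀ i < n + 1,
      (∀ j < i, ⌊(2 : ℝ) ^ J * X ω j⌋ = ⌊(2 : ℝ) ^ J * X ω' j⌋) →
      |eval (X ω) (P k (c k ω) i) - eval (X ω') (P k (c k ω) i)| ≤ L / 2 ^ (g k i + z))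
    (hT : ((J : ℝ) - g k 0) * Real.log 2 - ε ≤ CH q F.T (c k))
    (hE : (∑ i ∈ Ico 1 (n + 1), ((J : ℝ) - g k i)) * Real.log 2 - ε' ≤
      CH q (fun ω (i : Fin n) => F.X J ω (eps i)) (fun ω => (c k ω, F.W ω))) :
    ((n + 1 : ℕ) : ℝ) * (z * Real.log 2) - (ε + ε' + (n + 1 : ℕ) * Real.log (5 + 2 * L)) ≤
      CH q (fun ω (i : Fin (n + 1)) =>
        ⌊(2 : ℝ) ^ (g k i + z) * (X ω i - eval (X ω) (P k (c k ω) i))⌋) (c k) := by
  refine full_of (D := ⟨F.Ω, Λ, Γ, F.fin, ln, F.T, X, c, P, R, g⟩) (n := n + 1) (k := k) (z := z)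
    hq hL hg hlip ?_
  refine fam_R hq (c k) (g k) eps hT hE _ ?_
  intro ω ω' _ _ e
  refine Prod.ext ?_ ?_
  · have h1 := congrFun e (0 : Fin (n + 1))
    have h2 : ∀ ω, ⌊(2 : ℝ) ^ J * X ω ((0 : Fin (n + 1)) : ℕ)⌋ = (F.T ω : ℤ) := by
      intro ω
      have h4 : (2 : ℝ) ^ J * X ω ((0 : Fin (n + 1)) : ℕ) = (F.T ω : ℝ) := by
        change (2 : ℝ) ^ J * X ω 0 = _
        rw [hX0]
        unfold Fam.t
        field_simp
      rw [h4]
      exact Int.floor_natCast _
    have h3 : (F.T ω : ℤ) = F.T ω' := by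
      rw [← h2 ω, ← h2 ω']
      exact h1
    exact_mod_cast h3
  · funext i
    have h1 := congrFun e i.succ
    have h2 : ∀ ω, ⌊(2 : ℝ) ^ J * X ω ((i.succ : Fin (n + 1)) : ℕ)⌋ = F.X J ω (eps i) := by
      intro ω
      rw [Fin.val_succ, hX]
      rfl
    change F.X J ω (eps i) = F.X J ω' (eps i)
    rw [← h2 ω, ← h2 ω']
    exact h1

end Pool.STAT.Ful
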