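import Pool.Agent.H90.STAT.Spl2

/-!
# Adapted coordinates of a triangular system of sheets

`Q i` is the sheet of the coordinate `i` (a polynomial in the coordinates `k < i`). The adapted
coordinates at the base point `y`: `χ i = X i + y i + (Q i ∘ χ)_(weight < d i)`.
-/

set_option autoImplicit false

namespace Pool.STAT.Chi

open Finset MvPolynomial
open Pool.BFL (Pl CB)

variable {n : ℕ}

/-! ### Parts -/

/-- The part of weight `m`. -/
noncomputable abbrev cmp (d : Fin n → ℕ) (m : ℕ) : Pl n →ₗ[ℝ] Pl n :=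
  weightedHomogeneousComponent d m

/-- The part of weight less than `m`. -/
noncomputable def trn (d : Fin n → ℕ) (m : ℕ) : Pl n →ₗ[ℝ] Pl n :=
  ∑ r ∈ range m, cmp d r

theorem trn_apply (d : Fin n → ℕ) (m : ℕ) (P : Pl n) : trn d m P = ∑ r ∈ range m, cmp d r P := by
  unfold trn
  rw [LinearMap.sum_apply]

theorem trn_succ (d : Fin n → ℕ) (m : ℕ) (P : Pl n) :
    trn d (m + 1) P = trn d m P + cmp d m P := by
  rw [trn_apply, trn_apply, Finset.sum_range_succ]

theorem coeff_cmp (d : Fin n → ℕ) (m : ℕ) (P : Pl n) (α : Fin n →₀ ℕ) :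
    coeff α (cmp d m P) = if Finsupp.weight d α = m then coeff α P else 0 :=
  coeff_weightedHomogeneousComponent _ _ _

theorem coeff_trn (d : Fin n → ℕ) (m : ℕ) (P : Pl n) (α : Fin n →₀ ℕ) :
    coeff α (trn d m P) = if Finsupp.weight d α < m then coeff α P else 0 := by
  rw [trn_apply, coeff_sum]
  simp only [coeff_cmp]
  rw [Finset.sum_ite_eq]
  simp only [mem_range]

theorem cmp_hom (d : Fin n → ℕ) (m : ℕ) (P : Pl n) :
    (cmp d m P).IsWeightedHomogeneous d m := weightedHomogeneousComponent_isWeightedHomogeneous _ _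

theorem cmp_of {d : Fin n → ℕ} {e : ℕ} {P : Pl n} (h : P.IsWeightedHomogeneous d e) (m : ℕ) :
    cmp d m P = if m = e then P else 0 :=
  weightedHomogeneousComponent_of_mem ((mem_weightedHomogeneousSubmodule ℝ d e P).2 h)

/-- The derivation and the parts. -/
theorem lie_cmp {d : Fin n → ℕ} {ξ : Fin n → Pl n} (hd : ∀ i, 1 ≤ d i) (hξ : VF d ξ) (P : Pl n)
    (r : ℕ) : cmp d r (lie ξ P) = lie ξ (cmp d (r + 1) P) := by
  have h1 : ∀ α : Fin n →₀ ℕ, cmp d r (lie ξ (monomial α (coeff α P))) =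
      lie ξ (cmp d (r + 1) (monomial α (coeff α P))) := by
    intro α
    have h2 : (monomial α (coeff α P)).IsWeightedHomogeneous d (Finsupp.weight d α) :=
      isWeightedHomogeneous_monomial d α _ rfl
    rw [cmp_of h2]
    rcases Nat.eq_zero_or_pos (Finsupp.weight d α) with h3 | h3
    · rw [h3] at h2
      rw [if_neg (by omega), map_zero, hom_zero hd h2, derivation_C, map_zero]
    · rw [cmp_of (lie_hom hd hξ h2)]
      by_cases h4 : r + 1 = Finsupp.weight d α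
      · rw [if_pos h4, if_pos (by omega)]
      · rw [if_neg h4, if_neg (by omega), map_zero]
  conv_lhs => rw [P.as_sum]
  conv_rhs => rw [P.as_sum]
  rw [map_sum, map_sum, map_sum, map_sum]
  exact Finset.sum_congr rfl fun α _ => h1 α

theorem lie_cmp_zero {d : Fin n → ℕ} (ξ : Fin n → Pl n) (hd : ∀ i, 1 ≤ d i) (P : Pl n) :
    lie ξ (cmp d 0 P) = 0 := by
  rw [hom_zero hd (cmp_hom d 0 P), derivation_C]

theorem lie_trn {d : Fin n → ℕ} {ξ : Fin n → Pl n} (hd : ∀ i, 1 ≤ d i) (hξ : VF d ξ) (P : Pl n)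
    (m : ℕ) : trn d m (lie ξ P) = lie ξ (trn d (m + 1) P) := by
  rw [trn_apply, trn_apply, Finset.sum_range_succ', map_add, lie_cmp_zero ξ hd, add_zero, map_sum]
  exact Finset.sum_congr rfl fun r _ => lie_cmp hd hξ P r

/-! ### Dependence on the variables -/

/-- Only the variables `k < m` occur. -/
def Dep (m : ℕ) (P : Pl n) : Prop := ∀ k ∈ P.vars, (k : ℕ) < m

theorem Dep.mono {m m' : ℕ} {P : Pl n} (h : Dep m P) (hm : m ≤ m') : Dep m' P :=
  fun k hk => (h k hk).trans_le hm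

theorem Dep.C {m : ℕ} (a : ℝ) : Dep m (MvPolynomial.C a : Pl n) := by
  intro k hk
  rw [vars_C] at hk
  exact absurd hk (Finset.notMem_empty _)

theorem Dep.zero {m : ℕ} : Dep m (0 : Pl n) := by
  intro k hk
  rw [vars_0] at hk
  exact absurd hk (Finset.notMem_empty _)

theorem Dep.X {m : ℕ} {i : Fin n} (hi : (i : ℕ) < m) : Dep m (MvPolynomial.X i : Pl n) := by
  intro k hk
  rw [vars_X, Finset.mem_singleton] at hk
  rw [hk]
  exact hi

theorem Dep.add {m : ℕ} {P Q : Pl n} (hP : Dep m P) (hQ : Dep m Q) : Dep m (P + Q) := by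
  classical
  intro k hk
  rcases Finset.mem_union.1 (vars_add_subset _ _ hk) with h | h
  · exact hP k h
  · exact hQ k h

theorem Dep.mul {m : ℕ} {P Q : Pl n} (hP : Dep m P) (hQ : Dep m Q) : Dep m (P * Q) := by
  classical
  intro k hk
  rcases Finset.mem_union.1 (vars_mul _ _ hk) with h | h
  · exact hP k h
  · exact hQ k h

theorem Dep.sum {m : ℕ} {ι : Type*} (s : Finset ι) (f : ι → Pl n) (h : ∀ i ∈ s, Dep m (f i)) :
    Dep m (∑ i ∈ s, f i) := by
  classical
  induction s using Finset.induction_on with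
  | empty =>
    rw [Finset.sum_empty]
    exact Dep.zero
  | insert a s ha ih =>
    rw [Finset.sum_insert ha]
    exact (h a (Finset.mem_insert_self _ _)).add (ih fun i hi => h i (Finset.mem_insert_of_mem hi))

theorem Dep.of_coeff {m : ℕ} {P Q : Pl n} (hP : Dep m P)
    (h : ∀ α, coeff α Q ≠ 0 → coeff α P ≠ 0) : Dep m Q := by
  intro k hk
  obtain ⟨α, hα, hkα⟩ := (mem_vars_iff_mem_support k).1 hk
  exact hP k ((mem_vars_iff_mem_support k).2
    ⟨α, MvPolynomial.mem_support_iff.2 (h α (MvPolynomial.mem_support_iff.1 hα)), hkα⟩)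

theorem Dep.cmp {m : ℕ} {P : Pl n} (hP : Dep m P) (d : Fin n → ℕ) (r : ℕ) :
    Dep m (Chi.cmp d r P) := by
  refine hP.of_coeff fun α hα => ?_
  rw [coeff_cmp] at hα
  split_ifs at hα with h
  · exact hα
  · exact absurd rfl hα

theorem Dep.trn {m : ℕ} {P : Pl n} (hP : Dep m P) (d : Fin n → ℕ) (r : ℕ) :
    Dep m (Chi.trn d r P) := by
  refine hP.of_coeff fun α hα => ?_
  rw [coeff_trn] at hα
  split_ifs at hα with h
  · exact hα
  · exact absurd rfl hα

theorem Dep.bind {N m m' : ℕ} {P : Pl N} (hP : Dep m P) {f : Fin N → Pl n}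
    (hf : ∀ k : Fin N, (k : ℕ) < m → Dep m' (f k)) : Dep m' (bind₁ f P) := by
  classical
  intro k hk
  obtain ⟨i, hi, hki⟩ := mem_vars_bind₁ f P hk
  exact hf i (hP i hi) k hki

theorem bind_congr {N : ℕ} {P : Pl N} {f g : Fin N → Pl n} (h : ∀ k ∈ P.vars, f k = g k) :
    bind₁ f P = bind₁ g P :=
  eval₂Hom_congr' rfl (fun i hi _ => h i hi) rfl

theorem Dep.pderiv_eq {m : ℕ} {P : Pl n} (hP : Dep m P) {k : Fin n} (hk : m ≤ (k : ℕ)) :
    pderiv k P = 0 := by
  refine pderiv_eq_zero_of_notMem_vars fun h => ?_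
  have := hP k h
  omega

theorem Dep.pderiv {m : ℕ} {P : Pl n} (hP : Dep m P) (k : Fin n) :
    Dep m (MvPolynomial.pderiv k P) := by
  classical
  have h1 : MvPolynomial.pderiv k P =
      ∑ α ∈ P.support, MvPolynomial.pderiv k (monomial α (coeff α P)) := by
    conv_lhs => rw [P.as_sum]
    rw [map_sum]
  rw [h1]
  refine Dep.sum _ _ fun α hα => ?_
  rw [pderiv_monomial]
  intro j hj
  obtain ⟨β, hβ, hjβ⟩ := (mem_vars_iff_mem_support j).1 hj
  have h2 := Finset.mem_singleton.1 (support_monomial_subset hβ)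
  rw [h2] at hjβ
  refine hP j ((mem_vars_iff_mem_support j).2 ⟨α, hα, ?_⟩)
  rw [Finsupp.mem_support_iff] at hjβ ⊢
  intro h3
  apply hjβ
  rw [Finsupp.tsub_apply, h3, Nat.zero_sub]

theorem lie_congr {m : ℕ} {P : Pl n} (hP : Dep m P) {ξ ξ' : Fin n → Pl n}
    (h : ∀ k : Fin n, (k : ℕ) < m → ξ k = ξ' k) : lie ξ P = lie ξ' P := by
  rw [lie_eq, lie_eq]
  refine Finset.sum_congr rfl fun k _ => ?_
  by_cases hk : (k : ℕ) < m
  · rw [h k hk]
  · rw [hP.pderiv_eq (by omega), zero_mul, zero_mul]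

theorem Dep.lie {m m' : ℕ} {P : Pl n} (hP : Dep m P) (hm : m ≤ m') {ξ : Fin n → Pl n}
    (h : ∀ k : Fin n, (k : ℕ) < m → Dep m' (ξ k)) : Dep m' (STAT.lie ξ P) := by
  rw [lie_eq]
  refine Dep.sum _ _ fun k _ => ?_
  by_cases hk : (k : ℕ) < m
  · exact ((hP.pderiv k).mono hm).mul (h k hk)
  · rw [hP.pderiv_eq (by omega), zero_mul]
    exact Dep.zero

/-- The sheet of the coordinate `i` depends only on the coordinates `k < i`. -/
def Low (Q : Fin n → Pl n) : Prop := ∀ i : Fin n, Dep (i : ℕ) (Q i)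

/-! ### The chain rule -/

theorem pderiv_bnd {N : ℕ} (f : Fin N → Pl n) (P : Pl N) (a : Fin n) :
    pderiv a (bind₁ f P) = ∑ k, bind₁ f (pderiv k P) * pderiv a (f k) := by
  exact pderiv_bind f P a

theorem lie_bind {N : ℕ} (ξ : Fin n → Pl n) (f : Fin N → Pl n) (P : Pl N) :
    lie ξ (bind₁ f P) = ∑ k, bind₁ f (pderiv k P) * lie ξ (f k) := by
  rw [lie_eq]
  have h1 : ∀ a, pderiv a (bind₁ f P) * ξ a =
      ∑ k, bind₁ f (pderiv k P) * (pderiv a (f k) * ξ a) := by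
    intro a
    rw [pderiv_bnd, Finset.sum_mul]
    exact Finset.sum_congr rfl fun k _ => by ring
  rw [Finset.sum_congr rfl fun a _ => h1 a, Finset.sum_comm]
  refine Finset.sum_congr rfl fun k _ => ?_
  rw [← Finset.mul_sum, lie_eq]

/-! ### The adapted coordinates -/

/-- One step of the recursion. -/
noncomputable def stp (d : Fin n → ℕ) (Q : Fin n → Pl n) (y : Fin n → ℝ) (χ : Fin n → Pl n)
    (i : Fin n) : Pl n := X i + C (y i) + trn d (d i) (bind₁ χ (Q i))

/-- The equation of the adapted coordinates. -/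
def IsChi (d : Fin n → ℕ) (Q : Fin n → Pl n) (y : Fin n → ℝ) (χ : Fin n → Pl n) : Prop :=
  ∀ i, χ i = X i + C (y i) + trn d (d i) (bind₁ χ (Q i))

/-- The adapted coordinates. -/
noncomputable def chi (d : Fin n → ℕ) (Q : Fin n → Pl n) (y : Fin n → ℝ) : Fin n → Pl n :=
  (stp d Q y)^[n] 0

theorem stp_congr {d : Fin n → ℕ} {Q : Fin n → Pl n} (hQ : Low Q) (y : Fin n → ℝ)
    {χ χ' : Fin n → Pl n} {m : ℕ} (h : ∀ k : Fin n, (k : ℕ) < m → χ k = χ' k) (i : Fin n)
    (hi : (i : ℕ) < m + 1) : stp d Q y χ i = stp d Q y χ' i := by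
  unfold stp
  rw [bind_congr fun k hk => h k (by have := hQ i k hk; omega)]

/-- Triangular iterations. -/
theorem iter_tri {A : Type*} (F : (Fin n → A) → Fin n → A)
    (hF : ∀ (m : ℕ) (χ χ' : Fin n → A), (∀ k : Fin n, (k : ℕ) < m → χ k = χ' k) →
      ∀ i : Fin n, (i : ℕ) < m + 1 → F χ i = F χ' i) (m : ℕ) (χ χ' : Fin n → A) (i : Fin n)
    (hi : (i : ℕ) < m) : F^[m] χ i = F^[m] χ' i := by
  induction m generalizing i with
  | zero => exact absurd hi (Nat.not_lt_zero _)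
  | succ m ih =>
    rw [Function.iterate_succ_apply', Function.iterate_succ_apply']
    exact hF m _ _ (fun k hk => ih k hk) i hi

theorem iter_fix {A : Type*} (F : (Fin n → A) → Fin n → A)
    (hF : ∀ (m : ℕ) (χ χ' : Fin n → A), (∀ k : Fin n, (k : ℕ) < m → χ k = χ' k) →
      ∀ i : Fin n, (i : ℕ) < m + 1 → F χ i = F χ' i) (χ : Fin n → A) :
    F (F^[n] χ) = F^[n] χ := by
  funext i
  have h1 : F (F^[n] χ) = F^[n] (F χ) := by
    rw [← Function.iterate_succ_apply' F n χ, Function.iterate_succ_apply]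
  rw [h1]
  exact iter_tri F hF n _ _ i i.2

theorem iter_unique {A : Type*} (F : (Fin n → A) → Fin n → A)
    (hF : ∀ (m : ℕ) (χ χ' : Fin n → A), (∀ k : Fin n, (k : ℕ) < m → χ k = χ' k) →
      ∀ i : Fin n, (i : ℕ) < m + 1 → F χ i = F χ' i) (χ χ' : Fin n → A) (h : F χ = χ) :
    χ = F^[n] χ' := by
  have h1 : F^[n] χ = χ := Function.iterate_fixed h n
  funext i
  rw [← h1]
  exact iter_tri F hF n _ _ i i.2

theorem isChi_chi {d : Fin n → ℕ} {Q : Fin n → Pl n} (hQ : Low Q) (y : Fin n → ℝ) :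
    IsChi d Q y (chi d Q y) := by
  intro i
  have h := iter_fix (stp d Q y) (fun _ _ _ h i hi => stp_congr hQ y h i hi) 0
  have h2 := congrFun h i
  unfold stp at h2
  exact h2.symm

theorem chi_unique {d : Fin n → ℕ} {Q : Fin n → Pl n} (hQ : Low Q) {y : Fin n → ℝ}
    {χ : Fin n → Pl n} (h : IsChi d Q y χ) : χ = chi d Q y :=
  iter_unique (stp d Q y) (fun _ _ _ h i hi => stp_congr hQ y h i hi) χ 0
    (funext fun i => (h i).symm)

/-- The coordinate `i` of the adapted coordinates sees the variables up to `i`. -/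
theorem IsChi.dep {d : Fin n → ℕ} {Q : Fin n → Pl n} (hQ : Low Q) {y : Fin n → ℝ}
    {χ : Fin n → Pl n} (h : IsChi d Q y χ) (i : Fin n) : Dep ((i : ℕ) + 1) (χ i) := by
  suffices H : ∀ m : ℕ, ∀ i : Fin n, (i : ℕ) < m → Dep ((i : ℕ) + 1) (χ i) from
    H _ i (Nat.lt_succ_self _)
  intro m
  induction m with
  | zero => exact fun i hi => absurd hi (Nat.not_lt_zero _)
  | succ m ih =>
    intro i hi
    rw [h i]
    refine ((Dep.X (Nat.lt_succ_self _)).add (Dep.C _)).add (Dep.trn ?_ _ _)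
    exact (hQ i).bind fun k hk => (ih k (by omega)).mono (by omega)

theorem IsChi.dep' {d : Fin n → ℕ} {Q : Fin n → Pl n} (hQ : Low Q) {y : Fin n → ℝ}
    {χ : Fin n → Pl n} (h : IsChi d Q y χ) (i : Fin n) : Dep (i : ℕ) (bind₁ χ (Q i)) :=
  (hQ i).bind fun k hk => (h.dep hQ k).mono (by omega)

/-! ### The field -/

/-- One step of the recursion of the field. -/
noncomputable def xstp (d : Fin n → ℕ) (Q : Fin n → Pl n) (E : Fin n → ℝ) (χ : Fin n → Pl n)
    (ξ : Fin n → Pl n) (i : Fin n) : Pl n := C (E i) + lie ξ (cmp d (d i) (bind₁ χ (Q i)))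

/-- The equation of the field. -/
def IsXi (d : Fin n → ℕ) (Q : Fin n → Pl n) (E : Fin n → ℝ) (χ : Fin n → Pl n)
    (ξ : Fin n → Pl n) : Prop := ∀ i, ξ i = C (E i) + lie ξ (cmp d (d i) (bind₁ χ (Q i)))

/-- The field. -/
noncomputable def xi (d : Fin n → ℕ) (Q : Fin n → Pl n) (E : Fin n → ℝ) (χ : Fin n → Pl n) :
    Fin n → Pl n := (xstp d Q E χ)^[n] 0

theorem xstp_congr {d : Fin n → ℕ} {Q : Fin n → Pl n} (hQ : Low Q) {y : Fin n → ℝ}
    (E : Fin n → ℝ) {χ : Fin n → Pl n} (h : IsChi d Q y χ) {ξ ξ' : Fin n → Pl n} {m : ℕ}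
    (hm : ∀ k : Fin n, (k : ℕ) < m → ξ k = ξ' k) (i : Fin n) (hi : (i : ℕ) < m + 1) :
    xstp d Q E χ ξ i = xstp d Q E χ ξ' i := by
  unfold xstp
  rw [lie_congr ((h.dep' hQ i).cmp d (d i)) fun k hk => hm k (by omega)]

theorem isXi_xi {d : Fin n → ℕ} {Q : Fin n → Pl n} (hQ : Low Q) {y : Fin n → ℝ}
    (E : Fin n → ℝ) {χ : Fin n → Pl n} (h : IsChi d Q y χ) : IsXi d Q E χ (xi d Q E χ) := by
  intro i
  have h1 := iter_fix (xstp d Q E χ) (fun _ _ _ hm i hi => xstp_congr hQ E h hm i hi) 0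
  have h2 := congrFun h1 i
  unfold xstp at h2
  exact h2.symm

theorem xi_unique {d : Fin n → ℕ} {Q : Fin n → Pl n} (hQ : Low Q) {y : Fin n → ℝ}
    {E : Fin n → ℝ} {χ : Fin n → Pl n} (h : IsChi d Q y χ) {ξ : Fin n → Pl n}
    (hξ : IsXi d Q E χ ξ) : ξ = xi d Q E χ :=
  iter_unique (xstp d Q E χ) (fun _ _ _ hm i hi => xstp_congr hQ E h hm i hi) ξ 0
    (funext fun i => (hξ i).symm)

/-- The field has degree `-1`. -/
theorem xi_vf {d : Fin n → ℕ} {Q : Fin n → Pl n} {E : Fin n → ℝ} (hd : ∀ i, 1 ≤ d i)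
    (hE : ∀ i, E i ≠ 0 → d i = 1) (χ : Fin n → Pl n) : VF d (xi d Q E χ) := by
  have H : ∀ m : ℕ, VF d ((xstp d Q E χ)^[m] 0) := by
    intro m
    induction m with
    | zero => exact fun i => isWeightedHomogeneous_zero ℝ d _
    | succ m ih =>
      intro i
      rw [Function.iterate_succ_apply']
      unfold xstp
      refine IsWeightedHomogeneous.add ?_ (lie_hom hd ih (cmp_hom d (d i) _))
      by_cases h : E i = 0
      · rw [h, C_0]
        exact isWeightedHomogeneous_zero ℝ d _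
      · rw [hE i h]
        exact isWeightedHomogeneous_C d _
  exact H n

theorem IsXi.vf {d : Fin n → ℕ} {Q : Fin n → Pl n} {E : Fin n → ℝ} (hQ : Low Q)
    (hd : ∀ i, 1 ≤ d i) (hE : ∀ i, E i ≠ 0 → d i = 1) {y : Fin n → ℝ} {χ : Fin n → Pl n}
    (h : IsChi d Q y χ) {ξ : Fin n → Pl n} (hξ : IsXi d Q E χ ξ) : VF d ξ := by
  rw [xi_unique hQ h hξ]
  exact xi_vf hd hE χ

theorem IsXi.dep {d : Fin n → ℕ} {Q : Fin n → Pl n} {E : Fin n → ℝ} (hQ : Low Q)
    {y : Fin n → ℝ} {χ : Fin n → Pl n} (h : IsChi d Q y χ) {ξ : Fin n → Pl n}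
    (hξ : IsXi d Q E χ ξ) (i : Fin n) : Dep (i : ℕ) (ξ i) := by
  suffices H : ∀ m : ℕ, ∀ i : Fin n, (i : ℕ) < m → Dep (i : ℕ) (ξ i) from
    H _ i (Nat.lt_succ_self _)
  intro m
  induction m with
  | zero => exact fun i hi => absurd hi (Nat.not_lt_zero _)
  | succ m ih =>
    intro i hi
    rw [hξ i]
    refine (Dep.C _).add (Dep.lie ((h.dep' hQ i).cmp d (d i)) le_rfl fun k hk => ?_)
    exact (ih k (by omega)).mono (by omega)

/-- The velocity of the adapted coordinates. -/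
theorem chi_vel {d : Fin n → ℕ} {Q : Fin n → Pl n} {E : Fin n → ℝ} (hd : ∀ i, 1 ≤ d i)
    (hQ : Low Q) (hE : ∀ i, E i ≠ 0 → d i = 1) {y : Fin n → ℝ} {χ : Fin n → Pl n}
    (h : IsChi d Q y χ) {ξ : Fin n → Pl n} (hξ : IsXi d Q E χ ξ) (i : Fin n) :
    C (E i) + trn d (d i) (∑ k, bind₁ χ (pderiv k (Q i)) * lie ξ (χ k)) = lie ξ (χ i) := by
  have hv := IsXi.vf hQ hd hE h hξ
  rw [← lie_bind, lie_trn hd hv, trn_succ, map_add]
  conv_rhs => rw [h i]
  rw [map_add, map_add, derivation_C, add_zero]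
  have h0 : lie ξ (X i) = ξ i := by
    unfold lie
    rw [mkDerivation_X]
  rw [h0]
  conv_rhs => rw [hξ i]
  ring

/-! ### The inverse -/

/-- One step of the recursion of the inverse. -/
noncomputable def tstp (T : Fin n → Pl n) (y : Fin n → ℝ) (Θ : Fin n → Pl n) (i : Fin n) : Pl n :=
  X i - C (y i) - bind₁ Θ (T i)

/-- The inverse of `X i + C (y i) + T i`. -/
noncomputable def tinv (T : Fin n → Pl n) (y : Fin n → ℝ) : Fin n → Pl n := (tstp T y)^[n] 0

theorem tstp_congr {T : Fin n → Pl n} (hT : Low T) (y : Fin n → ℝ) {Θ Θ' : Fin n → Pl n}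
    {m : ℕ} (h : ∀ k : Fin n, (k : ℕ) < m → Θ k = Θ' k) (i : Fin n) (hi : (i : ℕ) < m + 1) :
    tstp T y Θ i = tstp T y Θ' i := by
  unfold tstp
  rw [bind_congr fun k hk => h k (by have := hT i k hk; omega)]

theorem tinv_eq {T : Fin n → Pl n} (hT : Low T) (y : Fin n → ℝ) (i : Fin n) :
    tinv T y i = X i - C (y i) - bind₁ (tinv T y) (T i) := by
  have h1 := iter_fix (tstp T y) (fun _ _ _ hm i hi => tstp_congr hT y hm i hi) 0
  have h2 := congrFun h1 i
  unfold tstp at h2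
  exact h2.symm

theorem tinv_unique {T : Fin n → Pl n} (hT : Low T) {y : Fin n → ℝ} {Θ : Fin n → Pl n}
    (h : ∀ i, Θ i = X i - C (y i) - bind₁ Θ (T i)) : Θ = tinv T y :=
  iter_unique (tstp T y) (fun _ _ _ hm i hi => tstp_congr hT y hm i hi) Θ 0
    (funext fun i => (h i).symm)

theorem bind_tinv {T : Fin n → Pl n} (hT : Low T) (y : Fin n → ℝ) (i : Fin n) :
    bind₁ (tinv T y) (X i + C (y i) + T i) = X i := by
  rw [map_add, map_add, bind₁_X_right, bind₁_C_right, tinv_eq hT y i]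
  ring

theorem tinv_bind {T : Fin n → Pl n} (hT : Low T) (y : Fin n → ℝ) (i : Fin n) :
    bind₁ (fun k => X k + C (y k) + T k) (tinv T y i) = X i := by
  suffices H : ∀ m : ℕ, ∀ i : Fin n, (i : ℕ) < m →
      bind₁ (fun k => X k + C (y k) + T k) (tinv T y i) = X i from H _ i (Nat.lt_succ_self _)
  intro m
  induction m with
  | zero => exact fun i hi => absurd hi (Nat.not_lt_zero _)
  | succ m ih =>
    intro i hi
    rw [tinv_eq hT y i, map_sub, map_sub, bind₁_X_right, bind₁_C_right, bind₁_bind₁]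
    rw [bind_congr (g := X) fun k hk => ih k (by have := hT i k hk; omega)]
    have h1 : bind₁ (X : Fin n → Pl n) (T i) = T i := by
      rw [bind₁_X_left]
      rfl
    rw [h1]
    ring

theorem tinv_dep {T : Fin n → Pl n} (hT : Low T) (y : Fin n → ℝ) (i : Fin n) :
    Dep ((i : ℕ) + 1) (tinv T y i) := by
  suffices H : ∀ m : ℕ, ∀ i : Fin n, (i : ℕ) < m → Dep ((i : ℕ) + 1) (tinv T y i) from
    H _ i (Nat.lt_succ_self _)
  intro m
  induction m with
  | zero => exact fun i hi => absurd hi (Nat.not_lt_zero _)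
  | succ m ih =>
    intro i hi
    rw [tinv_eq hT y i, sub_eq_add_neg, sub_eq_add_neg]
    have h1 : Dep ((i : ℕ) + 1) (bind₁ (tinv T y) (T i)) :=
      (hT i).bind fun k hk => (ih k (by omega)).mono (by omega)
    have h2 : -(C (y i) : Pl n) = C (-(y i)) := by rw [C_neg]
    have h3 : -(bind₁ (tinv T y) (T i)) = C (-1) * bind₁ (tinv T y) (T i) := by
      rw [C_neg, C_1]
      ring
    rw [h2, h3]
    exact ((Dep.X (Nat.lt_succ_self _)).add (Dep.C _)).add ((Dep.C _).mul h1)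

/-- The sheets in adapted coordinates, parts of weight less than `d i`. -/
noncomputable def tt (d : Fin n → ℕ) (Q χ : Fin n → Pl n) (i : Fin n) : Pl n :=
  trn d (d i) (bind₁ χ (Q i))

theorem IsChi.low_tt {d : Fin n → ℕ} {Q : Fin n → Pl n} (hQ : Low Q) {y : Fin n → ℝ}
    {χ : Fin n → Pl n} (h : IsChi d Q y χ) : Low (tt d Q χ) :=
  fun i => (h.dep' hQ i).trn d (d i)

/-- The adapted coordinates of a point. -/
noncomputable def th (d : Fin n → ℕ) (Q : Fin n → Pl n) (y : Fin n → ℝ) : Fin n → Pl n :=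
  tinv (tt d Q (chi d Q y)) y

theorem chi_eq {d : Fin n → ℕ} {Q : Fin n → Pl n} (hQ : Low Q) (y : Fin n → ℝ) (i : Fin n) :
    chi d Q y i = X i + C (y i) + tt d Q (chi d Q y) i := isChi_chi hQ y i

theorem th_eq {d : Fin n → ℕ} {Q : Fin n → Pl n} (hQ : Low Q) (y : Fin n → ℝ) (i : Fin n) :
    th d Q y i = X i - C (y i) - bind₁ (th d Q y) (tt d Q (chi d Q y) i) :=
  tinv_eq ((isChi_chi hQ y).low_tt hQ) y i

theorem bind_th {d : Fin n → ℕ} {Q : Fin n → Pl n} (hQ : Low Q) (y : Fin n → ℝ) (i : Fin n) :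
    bind₁ (th d Q y) (chi d Q y i) = X i := by
  rw [chi_eq hQ]
  exact bind_tinv ((isChi_chi hQ y).low_tt hQ) y i

theorem bind_chi {d : Fin n → ℕ} {Q : Fin n → Pl n} (hQ : Low Q) (y : Fin n → ℝ) (i : Fin n) :
    bind₁ (chi d Q y) (th d Q y i) = X i := by
  have h1 : chi d Q y = fun k => X k + C (y k) + tt d Q (chi d Q y) k :=
    funext fun k => chi_eq hQ y k
  have h2 := tinv_bind ((isChi_chi (d := d) hQ y).low_tt hQ) y i
  rw [← h1] at h2
  exact h2

end Pool.STAT.Chi
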