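import Pool.Agent.H90.STAT.ChiD

/-!
# Adapted coordinates: change of the reference coordinates, dilations
-/

set_option autoImplicit false

namespace Pool.STAT.Chi

open Finset MvPolynomial
open Pool.BFL (Pl CB)

variable {n N : ℕ}

/-! ### Weights at most `m` -/

/-- All weights are at most `m`. -/
def WLe (d : Fin n → ℕ) (m : ℕ) (P : Pl n) : Prop :=
  ∀ α, coeff α P ≠ 0 → Finsupp.weight d α ≤ m

variable {d : Fin n → ℕ}

theorem WLe.mono {m m' : ℕ} {P : Pl n} (h : WLe d m P) (hm : m ≤ m') : WLe d m' P :=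
  fun α hα => (h α hα).trans hm

theorem WLe.C (a : ℝ) (m : ℕ) : WLe d m (MvPolynomial.C a : Pl n) := by
  classical
  intro α hα
  rw [coeff_C] at hα
  split_ifs at hα with h
  · rw [← h, map_zero]
    exact Nat.zero_le _
  · exact absurd rfl hα

theorem WLe.X (i : Fin n) : WLe d (d i) (MvPolynomial.X i : Pl n) := by
  classical
  intro α hα
  rw [coeff_X] at hα
  split_ifs at hα with h
  · rw [← h, Finsupp.weight_single, one_smul]
  · exact absurd rfl hα

theorem WLe.add {m : ℕ} {P Q : Pl n} (hP : WLe d m P) (hQ : WLe d m Q) : WLe d m (P + Q) := by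
  intro α hα
  by_cases h : coeff α P = 0
  · refine hQ α fun h2 => hα ?_
    rw [coeff_add, h, h2, add_zero]
  · exact hP α h

theorem WLe.sum {m : ℕ} {ι : Type*} (s : Finset ι) (f : ι → Pl n) (h : ∀ i ∈ s, WLe d m (f i)) :
    WLe d m (∑ i ∈ s, f i) := by
  classical
  induction s using Finset.induction_on with
  | empty =>
    rw [Finset.sum_empty, ← C_0]
    exact WLe.C 0 m
  | insert a s ha ih =>
    rw [Finset.sum_insert ha]
    exact (h a (Finset.mem_insert_self _ _)).add (ih fun i hi => h i (Finset.mem_insert_of_mem hi))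

theorem WLe.mul {a b : ℕ} {P Q : Pl n} (hP : WLe d a P) (hQ : WLe d b Q) :
    WLe d (a + b) (P * Q) := by
  classical
  intro α hα
  rw [coeff_mul] at hα
  obtain ⟨x, hx, hx2⟩ := Finset.exists_ne_zero_of_sum_ne_zero hα
  rw [← Finset.HasAntidiagonal.mem_antidiagonal.1 hx, map_add]
  exact Nat.add_le_add (hP _ (left_ne_zero_of_mul hx2)) (hQ _ (right_ne_zero_of_mul hx2))

theorem WLe.pow {a : ℕ} {P : Pl n} (hP : WLe d a P) (e : ℕ) : WLe d (e * a) (P ^ e) := by
  induction e with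
  | zero =>
    rw [pow_zero, ← C_1]
    exact WLe.C 1 _
  | succ e ih =>
    rw [pow_succ, Nat.succ_mul]
    exact ih.mul hP

theorem WLe.prod {ι : Type*} (s : Finset ι) (f : ι → Pl n) (a : ι → ℕ)
    (h : ∀ i ∈ s, WLe d (a i) (f i)) : WLe d (∑ i ∈ s, a i) (∏ i ∈ s, f i) := by
  classical
  induction s using Finset.induction_on with
  | empty =>
    rw [Finset.prod_empty, ← C_1]
    exact WLe.C 1 _
  | insert a s ha ih =>
    rw [Finset.prod_insert ha, Finset.sum_insert ha]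
    exact (h a (Finset.mem_insert_self _ _)).mul (ih fun i hi => h i (Finset.mem_insert_of_mem hi))

theorem WLe.bind {d' : Fin N → ℕ} {m : ℕ} {P : Pl N} (hP : WLe d' m P) {f : Fin N → Pl n}
    (hf : ∀ k, WLe d (d' k) (f k)) : WLe d m (bind₁ f P) := by
  classical
  have h1 : bind₁ f P = ∑ m ∈ P.support, MvPolynomial.C (coeff m P) * ∏ i, f i ^ m i := by
    conv_lhs => rw [P.as_sum]
    rw [map_sum]
    refine Finset.sum_congr rfl fun m _ => ?_
    rw [bind₁_monomial]
    congr 1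
    refine Finset.prod_subset (Finset.subset_univ _) fun i _ hi => ?_
    rw [Finsupp.notMem_support_iff.1 hi, pow_zero]
  rw [h1]
  refine WLe.sum _ _ fun α hα => ?_
  have h2 : WLe d (∑ i, α i * d' i) (∏ i, f i ^ α i) :=
    WLe.prod _ _ _ fun i _ => (hf i).pow (α i)
  have h3 : ∑ i, α i * d' i ≤ m := by
    have h4 := hP α (MvPolynomial.mem_support_iff.1 hα)
    rw [Finsupp.weight_apply, Finsupp.sum_fintype _ _ (fun i => by rw [zero_smul])] at h4
    simpa only [smul_eq_mul] using h4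
  have h5 := (WLe.C (d := d) (coeff α P) 0).mul (h2.mono h3)
  rwa [zero_add] at h5

theorem trn_of_wle {m : ℕ} {P : Pl n} (h : WLe d (m - 1) P) (hm : 1 ≤ m) : trn d m P = P := by
  ext α
  rw [coeff_trn]
  by_cases h1 : coeff α P = 0
  · rw [h1, ite_self]
  · rw [if_pos]
    have := h α h1
    omega

theorem cmp_of_wle {m : ℕ} {P : Pl n} (h : WLe d (m - 1) P) (hm : 1 ≤ m) : cmp d m P = 0 := by
  ext α
  rw [coeff_cmp, coeff_zero]
  split_ifs with h2
  · by_contra h3
    have := h α h3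
    omega
  · rfl

theorem wle_trn (m : ℕ) (P : Pl n) : WLe d (m - 1) (trn d m P) := by
  intro α hα
  rw [coeff_trn] at hα
  split_ifs at hα with h
  · omega
  · exact absurd rfl hα

theorem wle_chi {Q : Fin n → Pl n} (hQ : Low Q) (y : Fin n → ℝ)
    (i : Fin n) : WLe d (d i) (chi d Q y i) := by
  rw [isChi_chi hQ y i]
  exact ((WLe.X i).add (WLe.C _ _)).add ((wle_trn _ _).mono (Nat.sub_le _ _))

/-! ### Change of the reference coordinates -/

/-- The sheets in the coordinates which are adapted at `y₀`. -/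
noncomputable def qt (d : Fin n → ℕ) (Q : Fin n → Pl n) (y₀ : Fin n → ℝ) (i : Fin n) : Pl n :=
  bind₁ (chi d Q y₀) (Q i) - tt d Q (chi d Q y₀) i

theorem coeff_qt (Q : Fin n → Pl n) (y₀ : Fin n → ℝ) (i : Fin n) (α : Fin n →₀ ℕ) :
    coeff α (qt d Q y₀ i) =
      if Finsupp.weight d α < d i then 0 else coeff α (bind₁ (chi d Q y₀) (Q i)) := by
  unfold qt tt
  rw [coeff_sub, coeff_trn]
  split_ifs with h
  · rw [sub_self]
  · rw [sub_zero]

theorem low_qt {Q : Fin n → Pl n} (hQ : Low Q) (y₀ : Fin n → ℝ) : Low (qt d Q y₀) := by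
  intro i
  have h1 := (isChi_chi (d := d) hQ y₀).dep' hQ i
  unfold qt
  have h2 : bind₁ (chi d Q y₀) (Q i) - tt d Q (chi d Q y₀) i =
      bind₁ (chi d Q y₀) (Q i) + C (-1) * tt d Q (chi d Q y₀) i := by
    rw [C_neg, C_1]
    ring
  rw [h2]
  exact h1.add ((Dep.C _).mul (h1.trn d (d i)))

theorem bind_qt {Q : Fin n → Pl n} (y₀ : Fin n → ℝ) (χ : Fin n → Pl n) (i : Fin n) :
    bind₁ χ (bind₁ (chi d Q y₀) (Q i)) = bind₁ χ (qt d Q y₀ i) +
      bind₁ χ (tt d Q (chi d Q y₀) i) := by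
  rw [← map_add]
  unfold qt
  rw [sub_add_cancel]

/-- **Change of the reference coordinates.** -/
theorem chi_add (hd : ∀ i, 1 ≤ d i) {Q : Fin n → Pl n} (hQ : Low Q) (y₀ η : Fin n → ℝ)
    (i : Fin n) : chi d Q (fun k => y₀ k + η k) i =
      bind₁ (chi d (qt d Q y₀) η) (chi d Q y₀ i) := by
  have h1 : IsChi d Q (fun k => y₀ k + η k)
      (fun i => bind₁ (chi d (qt d Q y₀) η) (chi d Q y₀ i)) := by
    intro i
    have hq := low_qt (d := d) hQ y₀
    have h2 : bind₁ (fun i => bind₁ (chi d (qt d Q y₀) η) (chi d Q y₀ i)) (Q i) =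
        bind₁ (chi d (qt d Q y₀) η) (bind₁ (chi d Q y₀) (Q i)) := by
      rw [bind₁_bind₁]
    have h3 : WLe d (d i - 1) (bind₁ (chi d (qt d Q y₀) η) (tt d Q (chi d Q y₀) i)) :=
      (wle_trn _ _).bind fun k => wle_chi hq η k
    have h4 : bind₁ (chi d (qt d Q y₀) η) (chi d Q y₀ i) =
        chi d (qt d Q y₀) η i + C (y₀ i) +
          bind₁ (chi d (qt d Q y₀) η) (tt d Q (chi d Q y₀) i) := by
      have h5 := congrArg (bind₁ (chi d (qt d Q y₀) η)) (chi_eq (d := d) hQ y₀ i)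
      rw [map_add, map_add, bind₁_X_right, bind₁_C_right] at h5
      exact h5
    have h6 : trn d (d i) (bind₁ (chi d (qt d Q y₀) η) (qt d Q y₀ i) +
        bind₁ (chi d (qt d Q y₀) η) (tt d Q (chi d Q y₀) i)) =
        trn d (d i) (bind₁ (chi d (qt d Q y₀) η) (qt d Q y₀ i)) +
          bind₁ (chi d (qt d Q y₀) η) (tt d Q (chi d Q y₀) i) := by
      rw [LinearMap.map_add, trn_of_wle h3 (hd i)]
    change bind₁ (chi d (qt d Q y₀) η) (chi d Q y₀ i) = _
    rw [h2, bind_qt, h6, h4, isChi_chi hq η i, C_add]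
    ring
  exact (congrFun (chi_unique hQ h1) i).symm

theorem cmp_add (hd : ∀ i, 1 ≤ d i) {Q : Fin n → Pl n} (hQ : Low Q) (y₀ η : Fin n → ℝ)
    (i : Fin n) : cmp d (d i) (bind₁ (chi d Q (fun k => y₀ k + η k)) (Q i)) =
      cmp d (d i) (bind₁ (chi d (qt d Q y₀) η) (qt d Q y₀ i)) := by
  have h1 : chi d Q (fun k => y₀ k + η k) =
      fun i => bind₁ (chi d (qt d Q y₀) η) (chi d Q y₀ i) := funext fun i => chi_add hd hQ y₀ η i
  have h2 : bind₁ (fun i => bind₁ (chi d (qt d Q y₀) η) (chi d Q y₀ i)) (Q i) =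
      bind₁ (chi d (qt d Q y₀) η) (bind₁ (chi d Q y₀) (Q i)) := by
    rw [bind₁_bind₁]
  rw [h1, h2, bind_qt, map_add]
  have h3 : WLe d (d i - 1) (bind₁ (chi d (qt d Q y₀) η) (tt d Q (chi d Q y₀) i)) :=
    (wle_trn _ _).bind fun k => wle_chi (low_qt hQ y₀) η k
  rw [cmp_of_wle h3 (hd i), add_zero]

/-- The field does not depend on the reference coordinates. -/
theorem xi_add (hd : ∀ i, 1 ≤ d i) {Q : Fin n → Pl n} (hQ : Low Q) (E y₀ η : Fin n → ℝ) :
    xi d Q E (chi d Q (fun k => y₀ k + η k)) =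
      xi d (qt d Q y₀) E (chi d (qt d Q y₀) η) := by
  have h1 : xstp d Q E (chi d Q (fun k => y₀ k + η k)) =
      xstp d (qt d Q y₀) E (chi d (qt d Q y₀) η) := by
    funext ξ i
    unfold xstp
    rw [cmp_add hd hQ]
  unfold xi
  rw [h1]

theorem bind_id {f g : Fin n → Pl n} (h : ∀ k, bind₁ f (g k) = X k) (P : Pl n) :
    bind₁ f (bind₁ g P) = P := by
  have e : (fun k => bind₁ f (g k)) = X := funext h
  rw [bind₁_bind₁, e, bind₁_X_left]
  rfl

/-- Uniqueness of the inverse. -/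
theorem th_unique {Q : Fin n → Pl n} (hQ : Low Q) (y : Fin n → ℝ) {P : Pl n} {i : Fin n}
    (h : bind₁ (chi d Q y) P = X i) : P = th d Q y i := by
  rw [← bind_id (fun k => bind_th (d := d) hQ y k) P, h, bind₁_X_right]

/-- The adapted coordinates of a point. -/
theorem th_add (hd : ∀ i, 1 ≤ d i) {Q : Fin n → Pl n} (hQ : Low Q) (y₀ η : Fin n → ℝ)
    (i : Fin n) : th d Q (fun k => y₀ k + η k) i =
      bind₁ (th d Q y₀) (th d (qt d Q y₀) η i) := by
  have hq := low_qt (d := d) hQ y₀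
  have e : chi d Q (fun k => y₀ k + η k) =
      fun i => bind₁ (chi d (qt d Q y₀) η) (chi d Q y₀ i) :=
    funext fun i => chi_add hd hQ y₀ η i
  refine (th_unique hQ (fun k => y₀ k + η k) ?_).symm
  rw [e, ← bind₁_bind₁, bind_id (fun k => bind_chi hQ y₀ k), bind_chi hq]

/-! ### Dilations -/

/-- The dilation. -/
noncomputable def dil (d : Fin n → ℕ) (a : ℝ) : Pl n →ₐ[ℝ] Pl n :=
  bind₁ (fun k => C (a ^ d k) * X k)

theorem dil_monomial (a : ℝ) (α : Fin n →₀ ℕ) (r : ℝ) :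
    dil d a (monomial α r) = monomial α (a ^ Finsupp.weight d α * r) := by
  unfold dil
  rw [bind₁_monomial]
  have h1 : ∀ i, (C (a ^ d i) * X i : Pl n) ^ α i = C (a ^ (α i * d i)) * X i ^ α i := by
    intro i
    rw [mul_pow, ← C_pow, ← pow_mul, mul_comm (d i)]
  rw [Finset.prod_congr rfl fun i _ => h1 i, Finset.prod_mul_distrib, ← map_prod,
    Finset.prod_pow_eq_pow_sum]
  have h2 : ∑ i ∈ α.support, α i * d i = Finsupp.weight d α := by
    rw [Finsupp.weight_apply, Finsupp.sum]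
    exact Finset.sum_congr rfl fun i _ => by rw [smul_eq_mul]
  rw [h2, monomial_eq (a := a ^ Finsupp.weight d α * r), Finsupp.prod, C_mul]
  ring

theorem coeff_dil (a : ℝ) (P : Pl n) (α : Fin n →₀ ℕ) :
    coeff α (dil d a P) = a ^ Finsupp.weight d α * coeff α P := by
  classical
  conv_lhs => rw [P.as_sum]
  rw [map_sum, coeff_sum]
  have h1 : ∀ β ∈ P.support, coeff α (dil d a (monomial β (coeff β P))) =
      if β = α then a ^ Finsupp.weight d α * coeff α P else 0 := by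
    intro β _
    rw [dil_monomial, coeff_monomial]
    split_ifs with h
    · rw [h]
    · rfl
  rw [Finset.sum_congr rfl h1, Finset.sum_ite_eq' P.support α]
  split_ifs with h
  · rfl
  · rw [MvPolynomial.notMem_support_iff.1 h, mul_zero]

theorem dil_trn (a : ℝ) (m : ℕ) (P : Pl n) : dil d a (trn d m P) = trn d m (dil d a P) := by
  ext α
  rw [coeff_dil, coeff_trn, coeff_trn, coeff_dil]
  split_ifs with h
  · rfl
  · rw [mul_zero]

theorem cmp_dil (a : ℝ) (m : ℕ) (P : Pl n) : cmp d m (dil d a P) = C (a ^ m) * cmp d m P := by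
  ext α
  rw [coeff_cmp, coeff_dil, coeff_C_mul, coeff_cmp]
  split_ifs with h
  · rw [h]
  · rw [mul_zero]

theorem trn_C_mul (m : ℕ) (r : ℝ) (P : Pl n) : trn d m (C r * P) = C r * trn d m P := by
  rw [C_mul', C_mul', map_smul]

/-- The sheets in dilated coordinates. -/
noncomputable def qd (d : Fin n → ℕ) (a : ℝ) (Q : Fin n → Pl n) (i : Fin n) : Pl n :=
  C ((a ^ d i)⁻¹) * dil d a (Q i)

theorem coeff_qd (a : ℝ) (Q : Fin n → Pl n) (i : Fin n) (α : Fin n →₀ ℕ) :
    coeff α (qd d a Q i) = (a ^ d i)⁻¹ * (a ^ Finsupp.weight d α * coeff α (Q i)) := by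
  unfold qd
  rw [coeff_C_mul, coeff_dil]

theorem low_qd {Q : Fin n → Pl n} (hQ : Low Q) (a : ℝ) : Low (qd d a Q) := by
  intro i
  refine (Dep.C _).mul ((hQ i).bind fun k hk => (Dep.C _).mul (Dep.X hk))

theorem bind_qd {a : ℝ} (ha : a ≠ 0) (Q χ : Fin n → Pl n) (i : Fin n) :
    bind₁ (fun k => C ((a ^ d k)⁻¹) * dil d a (χ k)) (qd d a Q i) =
      C ((a ^ d i)⁻¹) * dil d a (bind₁ χ (Q i)) := by
  unfold qd
  rw [map_mul, bind₁_C_right]
  congr 1
  unfold dil
  rw [bind₁_bind₁, bind₁_bind₁]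
  congr 2
  funext k
  rw [map_mul, bind₁_C_right, bind₁_X_right, ← mul_assoc, ← C_mul,
    mul_inv_cancel₀ (pow_ne_zero _ ha), C_1, one_mul]

/-- Dilated adapted coordinates. -/
theorem chi_dil {a : ℝ} (ha : a ≠ 0) {Q : Fin n → Pl n} (hQ : Low Q) (y : Fin n → ℝ)
    (i : Fin n) : chi d (qd d a Q) (fun k => (a ^ d k)⁻¹ * y k) i =
      C ((a ^ d i)⁻¹) * dil d a (chi d Q y i) := by
  have h1 : IsChi d (qd d a Q) (fun k => (a ^ d k)⁻¹ * y k)
      (fun k => C ((a ^ d k)⁻¹) * dil d a (chi d Q y k)) := by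
    intro i
    have h2 : dil d a (X i) = C (a ^ d i) * X i := by
      unfold dil
      rw [bind₁_X_right]
    have h3 : dil d a (C (y i)) = C (y i) := by
      unfold dil
      rw [bind₁_C_right]
    have h4 := congrArg (dil d a) (isChi_chi (d := d) hQ y i)
    rw [map_add, map_add, h2, h3] at h4
    rw [bind_qd ha, trn_C_mul, ← dil_trn]
    change C ((a ^ d i)⁻¹) * dil d a (chi d Q y i) = _
    rw [h4, mul_add, mul_add, ← mul_assoc, ← C_mul, inv_mul_cancel₀ (pow_ne_zero _ ha), C_1,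
      one_mul, ← C_mul]
  exact (congrFun (chi_unique (low_qd hQ a) h1) i).symm

/-- The field is invariant. -/
theorem xi_dil {a : ℝ} (ha : a ≠ 0) {Q : Fin n → Pl n} (hQ : Low Q) (E y : Fin n → ℝ) :
    xi d (qd d a Q) E (chi d (qd d a Q) (fun k => (a ^ d k)⁻¹ * y k)) =
      xi d Q E (chi d Q y) := by
  have h0 : chi d (qd d a Q) (fun k => (a ^ d k)⁻¹ * y k) =
      fun k => C ((a ^ d k)⁻¹) * dil d a (chi d Q y k) := funext fun i => chi_dil ha hQ y i
  have h1 : xstp d (qd d a Q) E (chi d (qd d a Q) (fun k => (a ^ d k)⁻¹ * y k)) =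
      xstp d Q E (chi d Q y) := by
    funext ξ i
    unfold xstp
    rw [h0, bind_qd ha, weightedHomogeneousComponent_C_mul, cmp_dil, ← mul_assoc, ← C_mul,
      inv_mul_cancel₀ (pow_ne_zero _ ha), C_1, one_mul]
  unfold xi
  rw [h1]

/-- The adapted coordinates of a point in dilated coordinates. -/
theorem th_dil {a : ℝ} (ha : a ≠ 0) {Q : Fin n → Pl n} (hQ : Low Q) (y : Fin n → ℝ)
    (i : Fin n) : th d (qd d a Q) (fun k => (a ^ d k)⁻¹ * y k) i =
      C ((a ^ d i)⁻¹) * dil d a (th d Q y i) := by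
  have hq := low_qd (d := d) hQ a
  have h0 : chi d (qd d a Q) (fun k => (a ^ d k)⁻¹ * y k) =
      fun k => C ((a ^ d k)⁻¹) * dil d a (chi d Q y k) := funext fun i => chi_dil ha hQ y i
  refine (th_unique hq (fun k => (a ^ d k)⁻¹ * y k) ?_).symm
  have h3 := bind_qd (d := d) ha (th d Q y) (chi d Q y) i
  unfold qd at h3
  rw [h0, h3, bind_chi hQ]
  unfold dil
  rw [bind₁_X_right, ← mul_assoc, ← C_mul, inv_mul_cancel₀ (pow_ne_zero _ ha), C_1, one_mul]

end Pool.STAT.Chi
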