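import Pool.Agent.H45.EXA.Vgr
import Pool.Agent.H99.GEN.Gr
import Pool.Agent.H39.GEN.LabN
import Pool.Agent.H6.STAT.RateC
import Pool.Agent.H83.GN.NumX
import Pool.Agent.H80.GEN.NumA
import Pool.Agent.H90.STAT.FamA

/-!
# Exactness, times and rates of all large events of a class (row N5)

* `ch_of_lbp`: exactly closed labels are chains of two-sided labels with some gradient;
* `vs_le_thr`: the numbers of the greedy order at the window `w` are at most the thresholds of the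
  chain labels at all larger windows;
* `ex_cls`: exactness in terms of these thresholds;
* `entb_cls`, `ratb_cls`: the entropies and the rates of the family level (`FamA`), for all large
  events of the members of a class.
-/

set_option autoImplicit false

namespace Pool.STAT.FAM

open Finset MvPolynomial
open Pool.Agent.H49.Ent Pool.Agent.H32.Dense Pool.STK Pool.KS3 Pool.KA Pool.KSAT Pool.K2S Pool.PB
  Pool.GEN Pool.S6C Pool.GRD
open Pool.FLF (Fam.sub)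
open Pool.LBN (Tch cof_lt cof_ge cof_len lsys)
open Pool.LBT (LSys ThrOf)

variable {m J : ℕ}

/-! ### Bounded boxes -/

/-- A polynomial is bounded on bounded sets. -/
theorem poly_bdd {σ : Type} (P : MvPolynomial σ ℝ) (R : ℝ) :
    ∃ C : ℝ, 0 ≤ C ∧ ∀ b : σ → ℝ, (∀ o, |b o| ≤ R) → |eval b P| ≤ C := by
  induction P using MvPolynomial.induction_on with
  | C a => exact ⟨|a|, abs_nonneg a, fun b _ => by rw [eval_C]⟩
  | add p q hp hq =>
    obtain ⟨C₁, h0, h1⟩ := hp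
    obtain ⟨C₂, h0', h2⟩ := hq
    refine ⟨C₁ + C₂, by linarith, fun b hb => ?_⟩
    rw [map_add]
    exact (abs_add_le _ _).trans (add_le_add (h1 b hb) (h2 b hb))
  | mul_X p o hp =>
    obtain ⟨C₁, h0, h1⟩ := hp
    refine ⟨C₁ * |R|, by positivity, fun b hb => ?_⟩
    rw [map_mul, eval_X, abs_mul]
    exact mul_le_mul (h1 b hb) ((hb o).trans (le_abs_self R)) (abs_nonneg _) h0

theorem dep_bdd {c : ℕ → Fin m} {i : ℕ} {P : MvPolynomial (Option (Fin m)) ℝ}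
    (hP : DepC c i P) (R : ℝ) : ∃ C : ℝ, 0 ≤ C ∧ ∀ b : Option (Fin m) → ℝ, |b none| ≤ R →
      (∀ l < i, |b (some (c l))| ≤ R) → |eval b P| ≤ C := by
  classical
  obtain ⟨C, hC, h⟩ := poly_bdd P (max R 0)
  refine ⟨C, hC, fun b h0 hb => ?_⟩
  obtain ⟨b', hb'⟩ : ∃ b' : Option (Fin m) → ℝ, b' = fun o => match o with
    | none => b none
    | some k => if ∃ l < i, c l = k then b (some k) else 0 := ⟨_, rfl⟩
  have e0 : b' none = b none := by rw [hb']
  have e1 : ∀ l < i, b' (some (c l)) = b (some (c l)) := by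
    intro l hl
    rw [hb']
    exact if_pos ⟨l, hl, rfl⟩
  rw [hP b b' e0.symm fun l hl => (e1 l hl).symm]
  refine h b' fun o => ?_
  rcases o with _ | k
  · rw [e0]
    exact h0.trans (le_max_left _ _)
  · by_cases hk : ∃ l < i, c l = k
    · obtain ⟨l, hl, rfl⟩ := hk
      rw [e1 l hl]
      exact (hb l hl).trans (le_max_left _ _)
    · have : b' (some k) = 0 := by
        rw [hb']
        exact if_neg hk
      rw [this, abs_zero]
      exact le_max_right _ _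

/-- Natural boxes are bounded. -/
theorem nbx_bdd {c : ℕ → Fin m} {G : ℕ → MvPolynomial (Option (Fin m)) ℝ}
    (hG : ∀ i, DepC c i (G i)) (g : ℕ → ℕ) (a : ℕ) (t : ℝ) (i : ℕ) : ∃ R : ℝ, 0 ≤ R ∧
    ∀ b : Option (Fin m) → ℝ, NBx c G g a t i b → |b none| ≤ R ∧
      ∀ l < i, |b (some (c l))| ≤ R := by
  induction i with
  | zero =>
    refine ⟨|t| + 1, by positivity, fun b hb => ⟨?_, fun l hl => absurd hl (Nat.not_lt_zero l)⟩⟩
    have h1 := hb.1
    have h2 : (1 : ℝ) / 2 ^ a ≤ 1 := by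
      rw [div_le_one (by positivity)]
      exact one_le_pow₀ (by norm_num)
    have h3 : |b none| ≤ |b none - t| + |t| := by
      have := abs_add_le (b none - t) t
      rwa [sub_add_cancel] at this
    linarith
  | succ i ih =>
    obtain ⟨R, hR, h⟩ := ih
    obtain ⟨C, hC, h'⟩ := dep_bdd (hG i) R
    refine ⟨max R (C + 1), le_max_of_le_left hR, fun b hb => ?_⟩
    obtain ⟨h1, h2⟩ := h b ⟨hb.1, fun l hl => hb.2 l (by omega)⟩
    refine ⟨h1.trans (le_max_left _ _), fun l hl => ?_⟩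
    rcases Nat.lt_succ_iff_lt_or_eq.1 hl with h3 | h3
    · exact (h2 l h3).trans (le_max_left _ _)
    · subst h3
      have h4 := hb.2 l (Nat.lt_succ_self l)
      have h5 := h' b h1 h2
      have h6 : (1 : ℝ) / 2 ^ g l ≤ 1 := by
        rw [div_le_one (by positivity)]
        exact one_le_pow₀ (by norm_num)
      have h7 : |b (some (c l))| ≤ |b (some (c l)) - eval b (G l)| + |eval b (G l)| := by
        have := abs_add_le (b (some (c l)) - eval b (G l)) (eval b (G l))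
        rwa [sub_add_cancel] at this
      exact (by linarith : |b (some (c l))| ≤ C + 1).trans (le_max_right _ _)

/-- **Exactly closed labels are chains of two-sided labels**, with some gradient. -/
theorem ch_of_lbp {F : Fam m J} {c : ℕ → Fin m} {r K w : ℕ} {g : ℕ → ℕ} {A : F.Ω → Prop}
    (h : ∀ i < r, ∃ (V : Type) (z : PtT F → V) (z' : LnT F → V)
      (G : V → MvPolynomial (Option (Fin m)) ℝ),
      LbP F ((range i).image c) (c i) K J w (g i) A z z' G) :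
    ∃ e : ℕ, ChN F c r (fun _ => K) w w e g A := by
  classical
  choose V z z' G hG using h
  have hdep : ∀ i (hi : i < r) v, DepC c i (G i hi v) := by
    intro i hi v b b' hn hb
    refine (hG i hi).dep _ b b' hn fun k hk => ?_
    obtain ⟨l, hl, rfl⟩ := mem_image.1 hk
    exact hb l (mem_range.1 hl)
  obtain ⟨Gp, hGp⟩ : ∃ Gp : PtT F → ℕ → MvPolynomial (Option (Fin m)) ℝ,
    Gp = fun y i => if hi : i < r then G i hi (z i hi y) else 0 := ⟨_, rfl⟩
  obtain ⟨Hp, hHp⟩ : ∃ Hp : LnT F → ℕ → MvPolynomial (Option (Fin m)) ℝ,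
    Hp = fun s i => if hi : i < r then G i hi (z' i hi s) else 0 := ⟨_, rfl⟩
  have eG : ∀ y i (hi : i < r), Gp y i = G i hi (z i hi y) := fun y i hi => by
    rw [hGp]
    exact dif_pos hi
  have eG' : ∀ y i, ¬ i < r → Gp y i = 0 := fun y i hi => by
    rw [hGp]
    exact dif_neg hi
  have eH : ∀ s i (hi : i < r), Hp s i = G i hi (z' i hi s) := fun s i hi => by
    rw [hHp]
    exact dif_pos hi
  have eH' : ∀ s i, ¬ i < r → Hp s i = 0 := fun s i hi => by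
    rw [hHp]
    exact dif_neg hi
  have d0 : ∀ i : ℕ, DepC c i (0 : MvPolynomial (Option (Fin m)) ℝ) := by
    intro i b b' _ _
    rw [map_zero, map_zero]
  have dG : ∀ y i, DepC c i (Gp y i) := by
    intro y i
    by_cases hi : i < r
    · rw [eG y i hi]
      exact hdep i hi _
    · rw [eG' y i hi]
      exact d0 i
  have dH : ∀ s i, DepC c i (Hp s i) := by
    intro s i
    by_cases hi : i < r
    · rw [eH s i hi]
      exact hdep i hi _
    · rw [eH' s i hi]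
      exact d0 i
  -- the gradients
  have hlip : ∀ (ω : F.Ω) (i l : ℕ), ∃ e : ℕ, ∀ b : Option (Fin m) → ℝ,
      NBx c (Gp (ptr F J ω)) g w (F.t ω) i b →
      |eval b (pderiv (some (c l)) (Gp (ptr F J ω) i))| ≤ 2 ^ e := by
    intro ω i l
    obtain ⟨R, hR, h1⟩ := nbx_bdd (dG (ptr F J ω)) g w (F.t ω) i
    obtain ⟨C, hC, h2⟩ := dep_bdd ((dG (ptr F J ω) i).pderiv l) R
    obtain ⟨e, he⟩ := pow_unbounded_of_one_lt C (one_lt_two (α := ℝ))
    refine ⟨e, fun b hb => ?_⟩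
    obtain ⟨h3, h4⟩ := h1 b hb
    exact (h2 b h3 h4).trans he.le
  choose e he using hlip
  refine ⟨∑ ω : F.Ω, ∑ i ∈ range r, ∑ l ∈ range r, e ω i l, Gp, Hp, ?_⟩
  refine ⟨fun y i => ?_, fun s i => ?_, dG, dH, fun ω hω i hi => ?_, fun ω hω i hi b _ => ?_,
    fun ω hω i hi b hb l hl => ?_⟩
  · by_cases hi : i < r
    · rw [eG y i hi]
      exact (hG i hi).deg _
    · rw [eG' y i hi, totalDegree_zero]
      exact Nat.zero_le _
  · by_cases hi : i < r
    · rw [eH s i hi]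
      exact (hG i hi).deg _
    · rw [eH' s i hi, totalDegree_zero]
      exact Nat.zero_le _
  · rw [eG _ i hi, (hG i hi).cls ω hω]
    exact (hG i hi).pos ω hω
  · rw [eG _ i hi, eH _ i hi, (hG i hi).cls ω hω, sub_self, abs_zero]
    positivity
  · refine (he ω i l b hb).trans (pow_le_pow_right₀ (by norm_num) ?_)
    have h1 : e ω i l ≤ ∑ l ∈ range r, e ω i l :=
      Finset.single_le_sum (f := fun l => e ω i l) (fun _ _ => Nat.zero_le _)
        (mem_range.2 (hl.trans hi))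
    have h2 : ∑ l ∈ range r, e ω i l ≤ ∑ i ∈ range r, ∑ l ∈ range r, e ω i l :=
      Finset.single_le_sum (f := fun i => ∑ l ∈ range r, e ω i l) (fun _ _ => Nat.zero_le _)
        (mem_range.2 hi)
    have h3 : ∑ i ∈ range r, ∑ l ∈ range r, e ω i l ≤
        ∑ ω : F.Ω, ∑ i ∈ range r, ∑ l ∈ range r, e ω i l :=
      Finset.single_le_sum (f := fun ω => ∑ i ∈ range r, ∑ l ∈ range r, e ω i l)
        (fun _ _ => Nat.zero_le _) (mem_univ ω)
    omega

/-! ### The numbers of a greedy order -/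

section num

variable {n : ℕ}

/-- The coordinates before `j` in the order `ε`. -/
noncomputable def pre (ε : Fin n → Fin m) (j : ℕ) : List (Fin m) := (List.ofFn ε).take j

theorem pre_len (ε : Fin n → Fin m) {j : ℕ} (hj : j ≤ n) : (pre ε j).length = j := by
  unfold pre
  rw [List.length_take, List.length_ofFn]
  omega

theorem cof_pre (ε : Fin n → Fin m) (j : Fin n) {i : ℕ} (hi : i ≤ j) :
    Pool.LBN.cof (pre ε j) (ε j) i = ε ⟨i, lt_of_le_of_lt hi j.2⟩ := by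
  have hl := pre_len ε j.2.le
  rcases hi.lt_or_eq with h | h
  · rw [cof_lt (by omega)]
    simp only [pre, List.getElem_take, List.getElem_ofFn]
  · rw [cof_ge (by omega)]
    congr 1
    exact Fin.ext h.symm

theorem img_pre (ε : Fin n → Fin m) (j : Fin n) {i : ℕ} (hi : i ≤ j) :
    (range i).image (Pool.LBN.cof (pre ε j) (ε j)) =
      (Finset.Iio (⟨i, lt_of_le_of_lt hi j.2⟩ : Fin n)).image ε := by
  classical
  ext x
  simp only [mem_image, mem_range, mem_Iio]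
  constructor
  · rintro ⟨l, hl, rfl⟩
    have hlj : l ≤ (j : ℕ) := by omega
    exact ⟨⟨l, lt_of_le_of_lt hlj j.2⟩, hl, (cof_pre ε j hlj).symm⟩
  · rintro ⟨l, hl, rfl⟩
    have hl' : (l : ℕ) < i := hl
    refine ⟨l, hl', ?_⟩
    rw [cof_pre ε j (by omega)]

/-- **The numbers of the greedy order are at most the thresholds of the chain labels.** -/
theorem vs_le_thr {S : PCl m} (hS : S.Ne) {L : Finset (Fin m) → Fin m → ℝ → ℝ → ℝ}
    (hL : LamW S L) {LL : List (Fin m) × Fin m → ℝ → ℝ → ℝ} (hT : ThrOf (lsys m) S LL)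
    {ε : Fin n → Fin m} {w : ℝ} (hw : w ∈ Wv L ε) (j : Fin n) {w' : ℝ} (hww : w < w')
    (hw' : w' ≤ 1) : vs L ε w (j + 1) ≤ LL (pre ε j, ε j) w' w' := by
  obtain ⟨hw0, hw1, hg, hc⟩ := hw
  by_contra hcon
  push Not at hcon
  obtain ⟨h, hh⟩ : ∃ h, h = (vs L ε w (j + 1) - LL (pre ε j, ε j) w' w') / 2 := ⟨_, rfl⟩
  have hh0 : 0 < h := by
    rw [hh]
    linarith
  have hv1 : ∀ i, vs L ε w i ≤ 1 := vs_le1 hL ε hw1.le
  obtain ⟨K, hK⟩ := vst_att hL hw0 hw1 hg hc hh0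
  have h1 : LL (pre ε j, ε j) w' w' + h ≤ 1 := by
    have := hv1 (j + 1)
    linarith
  have hno := hT.no' (pre ε j, ε j) K hw0.le le_rfl hww hww le_rfl hw' hh0 h1
  have hall : ∀ i : Fin n, Bas S (fun J F A => Lb F ((Finset.Iio i).image ε) (ε i) K ⌊h * J⌋₊ J
      ⌊w * J⌋₊ ⌊min (vs L ε w i + h) 1 * J⌋₊ ⌊(vs L ε w (i + 1) - h) * J⌋₊ A) :=
    fun i => hK i i le_rfl
  obtain ⟨τ, hτ, J₁, hb⟩ := hno.and (Bas.fin hall)
  obtain ⟨J, hJ, F, A, hA⟩ := hS τ hτ J₁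
  obtain ⟨hb1, hb2⟩ := hb J hJ F A hA
  refine hb1 ?_
  have hJ0 : (0 : ℝ) ≤ J := Nat.cast_nonneg J
  have hwJ : ⌊w * (J : ℝ)⌋₊ ≤ J := by
    refine Nat.floor_le_of_le ?_
    nlinarith
  have hgJ : ∀ i, ⌊(vs L ε w (i + 1) - h) * (J : ℝ)⌋₊ ≤ J := fun i => by
    refine Nat.floor_le_of_le ?_
    have := hv1 (i + 1)
    nlinarith
  have hl := pre_len ε j.2.le
  have hlb : ∀ i < (j : ℕ) + 1, ∃ (V : Type) (z : PtT F → V) (z' : LnT F → V)
      (G : V → MvPolynomial (Option (Fin m)) ℝ),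
      LbP F ((range i).image (Pool.LBN.cof (pre ε j) (ε j))) (Pool.LBN.cof (pre ε j) (ε j) i) K J ⌊w * J⌋₊
        ⌊(vs L ε w (i + 1) - h) * J⌋₊ A z z' G := by
    intro i hi
    have hij : i ≤ (j : ℕ) := by omega
    obtain ⟨V, z, z', G, h2⟩ := hb2 ⟨i, lt_of_le_of_lt hij j.2⟩
    refine ⟨V, z, z', G, ?_⟩
    rw [img_pre ε j hij, cof_pre ε j hij]
    exact LbP.of h2
  obtain ⟨e, hch⟩ := ch_of_lbp hlb
  refine Tch.of_ch (l := pre ε j) (g := fun i => ⌊(vs L ε w (i + 1) - h) * J⌋₊) (e := e)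
    (K := fun _ => K) (c := Pool.LBN.cof (pre ε j) (ε j)) ?_ (fun i _ => rfl) (fun _ _ => le_rfl) le_rfl
    (fun i _ => hgJ i) ?_
  · rw [hl]
    exact hch
  · rw [hl]
    refine Nat.floor_le_floor (mul_le_mul_of_nonneg_right ?_ hJ0)
    linarith

/-- The same at the window itself, if the threshold is continuous from the right. -/
theorem vs_le_self {S : PCl m} (hS : S.Ne) {L : Finset (Fin m) → Fin m → ℝ → ℝ → ℝ}
    (hL : LamW S L) {LL : List (Fin m) × Fin m → ℝ → ℝ → ℝ} (hT : ThrOf (lsys m) S LL)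
    {ε : Fin n → Fin m} {w : ℝ} (hw : w ∈ Wv L ε) (j : Fin n)
    (hcont : ContinuousWithinAt (fun x => LL (pre ε j, ε j) x x) (Set.Ioi w) w) :
    vs L ε w (j + 1) ≤ LL (pre ε j, ε j) w w := by
  refine ge_of_tendsto hcont ?_
  have h1 : Set.Ioc w 1 ∈ nhdsWithin w (Set.Ioi w) :=
    Ioc_mem_nhdsGT hw.2.1
  filter_upwards [h1] with x hx
  exact vs_le_thr hS hL hT hw j hx.1 hx.2

end num

/-! ### Classes -/

/-- **Exactness of the greedy order at a window**, with numbers which are at least the numbers of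
the order. -/
theorem ex_cls {n : ℕ} (hF : FZX n) {S : PCl m} (hS : S.Ne) {C₀ : ℝ} (hC : 0 ≤ C₀)
    (htm : TmC S C₀) {L : Finset (Fin m) → Fin m → ℝ → ℝ → ℝ} (hL : LamW S L) {N : ℚ → ℚ → ℝ}
    {al : ℝ} (hal : 0 < al) {g₀ : ℝ → ℝ} (hg₀ : ∀ ε : ℝ, 0 < ε → 0 < g₀ ε) (hN : ActM N al g₀)
    (hpos : Bas S (fun _ F A => 0 < Pe F.p A)) {ε : Fin n → Fin m} (hε : Function.Injective ε)
    (hact : ∀ k : Fin n, (k : ℕ) = 0 → ActB N S (ε k)) {w : ℝ} (hw : w ∈ Wv L ε)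
    {s : Fin n → ℝ} (hs : ∀ j : Fin n, vs L ε w (j + 1) ≤ s j) {ρ : ℝ} (hρ : 0 < ρ) :
    Bas S (fun J F A => ExW F A ε ⌊w * J⌋₊
      (((∑ j : Fin n, (1 - s j)) - ρ) * Real.log 2 * J)) := by
  obtain ⟨hw0, hw1, hg, hc⟩ := hw
  refine Bas.mono 0 (vst_exa hF hS hC htm hL hal hg₀ hN hpos hε hact hw0 hw1 hg hc hρ) ?_
  intro J _ F A h V z z' hz
  refine le_trans ?_ (h V z z' hz)
  have h1 : ∑ j : Fin n, (1 - s j) ≤ ∑ j : Fin n, (1 - vs L ε w (j + 1)) :=
    Finset.sum_le_sum fun j _ => by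
      have := hs j
      linarith
  have h2 : (0 : ℝ) < Real.log 2 := Real.log_pos one_lt_two
  refine mul_le_mul_of_nonneg_right (mul_le_mul_of_nonneg_right (by linarith) h2.le)
    (Nat.cast_nonneg J)

/-- The times of all members of a class. -/
theorem tm_cls {S : PCl m} {C₀ η : ℝ} (hC : 0 ≤ C₀) (htm : TmC S C₀) (hη : 0 < η) :
    Bas S (fun J F A => ∃ h : 0 < Pe F.p A, (Fam.sub F A h).Tm (η * J)) := by
  obtain ⟨τ, hτ⟩ : ∃ τ : ℝ, τ = η / (C₀ + 1) := ⟨_, rfl⟩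
  have hτ0 : 0 < τ := by
    rw [hτ]
    positivity
  have h1 : C₀ * τ ≤ η := by
    have e1 : η = (C₀ + 1) * τ := by
      rw [hτ]
      field_simp
    rw [e1]
    nlinarith
  refine ⟨τ, hτ0, 0, fun J _ F A hA => ?_⟩
  obtain ⟨h2, -⟩ := htm τ J F A hτ0 hA
  refine ⟨h2, ?_⟩
  have h3 := htm.sub (τ' := 0) hτ0 le_rfl hA (fun _ h => h) (by simp) h2
  rw [add_zero] at h3
  unfold Fam.Tm at h3 ⊢
  have h4 := mul_le_mul_of_nonneg_right h1 (Nat.cast_nonneg' J : (0 : ℝ) ≤ J)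
  linarith

/-- **The entropies of all large events**, for all levels. -/
theorem entb_cls {S : PCl m} {n M : ℕ} {e : ℕ → Fin m} {wk : ℕ → ℝ} {s : ℕ → Fin n → ℝ}
    {ρ C₀ η : ℝ} (hC : 0 ≤ C₀) (htm : TmC S C₀) (hη : 0 < η) (hwk : ∀ k ≤ M, wk k ≤ 1)
    (hex : ∀ k ≤ M, Bas S (fun J F A => ExW F A (fun j : Fin n => e (j + 1)) ⌊wk k * J⌋₊
      (((∑ j : Fin n, (1 - s k j)) - ρ) * Real.log 2 * J))) :
    ∃ τ : ℝ, 0 < τ ∧ Bas S (fun J F A => ∀ B : F.Ω → Prop, (∀ ω, B ω → A ω) →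
      Real.exp (-(τ * J)) * Pe F.p A ≤ Pe F.p B → ∀ (w₀ z : ℕ) (g : ℕ → ℕ → ℕ) (θ : ℝ),
      (∀ k ≤ M, w₀ + k * z ≤ ⌊wk k * J⌋₊) →
      (∀ k ≤ M, ∀ j : Fin n, s k j * J - θ ≤ g k (j + 1)) →
      EntB F e n w₀ z M g (η * J) ((n * θ + ρ * J) * Real.log 2) B) := by
  have h1 := (tm_cls hC htm hη).and (Bas.all (M + 1) (Φ := fun k J F A =>
    ExW F A (fun j : Fin n => e (j + 1)) ⌊wk k * J⌋₊
      (((∑ j : Fin n, (1 - s k j)) - ρ) * Real.log 2 * J)) fun k hk => hex k (by omega))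
  obtain ⟨τ, hτ, h2⟩ := Bas.her h1
  refine ⟨τ, hτ, Bas.mono 0 h2 fun J _ F A h B hB hP w₀ z g θ hw hg => ?_⟩
  obtain ⟨⟨h3, h4⟩, h5⟩ := h B hB hP
  refine ⟨h3, h4, fun k hk => ?_⟩
  have hJ0 : (0 : ℝ) ≤ J := Nat.cast_nonneg J
  have h6 : ⌊wk k * (J : ℝ)⌋₊ ≤ J := by
    refine Nat.floor_le_of_le ?_
    have := hwk k hk
    nlinarith
  exact ExW.num ((h5 k (by omega)).win (hw k hk) h6) (hg k hk)

/-- **The rates of the height of all large events.** -/
theorem ratb_cls {S : PCl m} (hpos : ∀ (τ : ℝ) (J : ℕ) (F : Fam m J) (A : F.Ω → Prop),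
      S.St τ J F A → 0 < Pe F.p A) {i₁ : Fin m} {r : ℝ → ℝ} (hR : Pool.ALL.RateOf S i₁ r)
    {P₀ a : ℝ} (h0 : 0 < P₀) (h1 : P₀ < 1) (hd : DifferentiableAt ℝ r P₀) (ha : 0 ≤ a)
    (hda : deriv r P₀ ≤ 1 - a) {e : ℝ} (he : 0 < e) :
    ∃ x₀ : ℝ, 0 < x₀ ∧ ∀ x : ℝ, 0 < x → x ≤ x₀ → ∃ τ : ℝ, 0 < τ ∧ Bas S (fun J F A =>
      ∀ B : F.Ω → Prop, (∀ ω, B ω → A ω) → Real.exp (-(τ * J)) * Pe F.p A ≤ Pe F.p B →
      ∀ (M y : ℕ) (g : ℕ → ℕ),
      (∀ k ≤ M, (P₀ - x) * J ≤ g k ∧ (g k : ℝ) + y ≤ (P₀ + x) * J) →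
      RatB F i₁ M y g a (e * (x * J)) B) := by
  obtain ⟨x₀, hx₀, h⟩ := rate_fam hpos i₁ hR.num h0 h1 hd ha hda he
  refine ⟨x₀, hx₀, fun x hx hxx => ?_⟩
  obtain ⟨τ, hτ, h2⟩ := h x hx hxx
  refine ⟨τ, hτ, Bas.mono 0 h2 fun J _ F A h B hB hP M y g hg k hk Q hQ hQ' => ?_⟩
  refine h B hB hP (g k) Q (hg k hk).1 hQ (le_trans ?_ (hg k hk).2)
  have h3 : (Q : ℝ) ≤ ((g k + y : ℕ) : ℝ) := by exact_mod_cast hQ'
  push_cast at h3
  exact h3

end Pool.STAT.FAM
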