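import Pool.Agent.H90.STAT.CloN

/-!
# The variation of the closed labels, from the variation of the raw ones

The same theorems as in `Near.lean` and `CloN.lean`, with the variation of the raw polynomials as
hypothesis in place of their gradients.
-/

set_option autoImplicit false

namespace Pool.STAT

open Finset MvPolynomial
open Pool.Agent.H49.Ent Pool.Agent.H32.Dense Pool.STK Pool.KS3 Pool.KA Pool.KSAT Pool.PB Pool.GEN
open Pool.K2S

namespace NEAR

open CLO

/-- The data of `near_v`, for the coordinates `< n`. -/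
structure DatV (n K : ℕ) (S R : ℝ) (P G : ℕ → PN) (g : ℕ → ℕ) (x b : ℕ → ℝ) (J y : ℕ) :
    Prop where
  tri : TriN P
  deg : ∀ j, (P j).totalDegree ≤ K
  triG : ∀ j, 1 ≤ j → j < n → (G j).vars ⊆ range j
  degG : ∀ j, 1 ≤ j → j < n → (G j).totalDegree ≤ K
  zero : P 0 = C (x 0)
  fit : ∀ j, 1 ≤ j → j < n → |x j - eval x (P j)| ≤ 1 / 2 ^ g j
  near : ∀ j, 1 ≤ j → j < n → ∀ b : ℕ → ℝ, Bx g P j b →
    |eval b (G j) - eval b (P j)| ≤ S / 2 ^ g j
  var : ∀ j, 1 ≤ j → j < n → |eval b (G j) - eval x (G j)| ≤ R / 2 ^ (g j + y)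
  siz : ∀ j, 1 ≤ j → j < n → g j + y ≤ J

theorem DatV.mono {n n' K : ℕ} {S R : ℝ} {P G : ℕ → PN} {g : ℕ → ℕ} {x b : ℕ → ℝ} {J y : ℕ}
    (h : DatV n K S R P G g x b J y) (hn : n' ≤ n) : DatV n' K S R P G g x b J y where
  tri := h.tri
  deg := h.deg
  triG j h1 h2 := h.triG j h1 (h2.trans_le hn)
  degG j h1 h2 := h.degG j h1 (h2.trans_le hn)
  zero := h.zero
  fit j h1 h2 := h.fit j h1 (h2.trans_le hn)
  near j h1 h2 := h.near j h1 (h2.trans_le hn)
  var j h1 h2 := h.var j h1 (h2.trans_le hn)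
  siz j h1 h2 := h.siz j h1 (h2.trans_le hn)

theorem near_coreV (n K : ℕ) {S R : ℝ} (hS : 0 ≤ S) (hR : 0 ≤ R) : ∀ i ≤ n + 1, ∃ L : ℝ, 1 ≤ L ∧
    ∀ (P G : ℕ → PN) (g : ℕ → ℕ) (x b : ℕ → ℝ) (J y : ℕ), DatV i K S R P G g x b J y →
    b 0 = x 0 → (∀ j < i, |b j - x j| ≤ 1 / 2 ^ J) →
    ∀ j < i, |eval b (P j) - eval x (P j)| ≤ L / 2 ^ (g j + y) := by
  obtain ⟨C₂, hC₂, hbox⟩ := n1_of_box n K
  obtain ⟨K₁, hK₁⟩ : ∃ K₁, K₁ = K * (K + 1) ^ (n + 1) := ⟨_, rfl⟩
  intro i
  induction i with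
  | zero =>
    intro _
    exact ⟨1, le_rfl, fun _ _ _ _ _ _ _ _ _ _ j hj => absurd hj (Nat.not_lt_zero j)⟩
  | succ i ih =>
    intro hi
    obtain ⟨L, hL, hI⟩ := ih (by omega)
    have hL0 : 0 ≤ L := by linarith
    obtain ⟨ρ, hρ⟩ : ∃ ρ : ℝ, ρ = 2 + L := ⟨_, rfl⟩
    have hρ1 : 1 ≤ ρ := by rw [hρ]; linarith
    have hρ0 : 0 ≤ ρ := by linarith
    have hB0 : 0 ≤ n * (K₁ * (C₂ * S) * ρ ^ K₁ * (1 + L)) := by positivity
    refine ⟨L + (R + n * (K₁ * (C₂ * S) * ρ ^ K₁ * (1 + L))), by linarith, ?_⟩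
    intro P G g x b J y h hb0 hb j hj
    have hI' := hI P G g x b J y (h.mono (Nat.le_succ i)) hb0 fun l hl => hb l (by omega)
    rcases Nat.lt_succ_iff_lt_or_eq.1 hj with hj' | hj'
    · refine (hI' j hj').trans ?_
      exact div_le_div_of_nonneg_right (by linarith) (by positivity)
    · subst hj'
      have hjn : j ≤ n := by omega
      rcases Nat.eq_zero_or_pos j with h0 | h0
      · subst h0
        rw [h.zero, eval_C, eval_C, sub_self, abs_zero]
        positivity
      · -- the two points are in the dilated box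
        have boxb : Bxr ρ g P j b := by
          intro l hl
          rcases Nat.eq_zero_or_pos l with l0 | l0
          · subst l0
            rw [h.zero, eval_C, hb0, sub_self, abs_zero]
            positivity
          · have e1 := hb l (by omega)
            have e2 := h.fit l l0 (by omega)
            have e3 := hI' l hl
            have e4 := h.siz l l0 (by omega)
            have e5 : (1 : ℝ) / 2 ^ J ≤ 1 / 2 ^ g l :=
              one_div_le_one_div_of_le (by positivity)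
                (pow_le_pow_right₀ (by norm_num) (by omega))
            have e6 : L / 2 ^ (g l + y) ≤ L / 2 ^ g l :=
              div_le_div_of_nonneg_left hL0 (by positivity)
                (pow_le_pow_right₀ (by norm_num) (by omega))
            have e7 : ρ / 2 ^ g l = 1 / 2 ^ g l + 1 / 2 ^ g l + L / 2 ^ g l := by
              rw [hρ]
              ring
            rw [e7]
            rw [abs_le] at e1 e2 e3 ⊢
            constructor <;> linarith [e1.1, e1.2, e2.1, e2.2, e3.1, e3.2]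
        have boxx : Bxr ρ g P j x := by
          intro l hl
          rcases Nat.eq_zero_or_pos l with l0 | l0
          · subst l0
            rw [h.zero, eval_C, sub_self, abs_zero]
            positivity
          · exact (h.fit l l0 (by omega)).trans
              (div_le_div_of_nonneg_right hρ1 (by positivity))
        -- the difference
        obtain ⟨F, hF⟩ : ∃ F, F = bind₁ (nuc g P) (G j - P j) := ⟨_, rfl⟩
        have hv : (G j - P j).vars ⊆ range j := by
          intro k hk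
          rcases Finset.mem_union.1 (vars_sub_subset _ hk) with h1 | h1
          · exact h.triG j h0 hj h1
          · exact h.tri j h1
        have hd : (G j - P j).totalDegree ≤ K :=
          (totalDegree_sub _ _).trans (max_le (h.degG j h0 hj) (h.deg j))
        obtain ⟨f1, f2⟩ := nat_deg h.tri h.deg g hjn hv hd
        rw [← hF, ← hK₁] at f2
        rw [← hF] at f1
        have f3 : n1 F ≤ C₂ * (S / 2 ^ g j) := by
          rw [hF]
          refine hbox P g (G j - P j) j (S / 2 ^ g j) h.tri h.deg hjn hv hd fun b hb => ?_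
          rw [map_sub]
          exact h.near j h0 hj b hb
        have f4 : ∀ l < j, |nc g P b l - nc g P x l| ≤ (1 + L) / 2 ^ y := by
          intro l hl
          have pg : (0 : ℝ) < 2 ^ g l := by positivity
          unfold nc
          rcases Nat.eq_zero_or_pos l with l0 | l0
          · subst l0
            rw [h.zero, eval_C, eval_C, hb0, sub_self, abs_zero]
            positivity
          · have e1 := hb l (by omega)
            have e3 := hI' l hl
            have e4 := h.siz l l0 (by omega)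
            have e5 : (1 : ℝ) / 2 ^ J ≤ 1 / 2 ^ (g l + y) :=
              one_div_le_one_div_of_le (by positivity)
                (pow_le_pow_right₀ (by norm_num) (by omega))
            have e6 : (2 : ℝ) ^ g l * (b l - eval b (P l)) - 2 ^ g l * (x l - eval x (P l)) =
                2 ^ g l * ((b l - x l) - (eval b (P l) - eval x (P l))) := by ring
            rw [e6, abs_mul, abs_of_pos pg]
            have e7 : |(b l - x l) - (eval b (P l) - eval x (P l))| ≤ (1 + L) / 2 ^ (g l + y) := by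
              have e8 : (1 + L) / 2 ^ (g l + y) = 1 / 2 ^ (g l + y) + L / 2 ^ (g l + y) := by
                ring
              rw [e8]
              rw [abs_le] at e1 e3 ⊢
              constructor <;> linarith [e1.1, e1.2, e3.1, e3.2]
            refine (mul_le_mul_of_nonneg_left e7 pg.le).trans (le_of_eq ?_)
            rw [pow_add]
            field_simp
        have dif : |eval b (G j - P j) - eval x (G j - P j)| ≤
            n * (K₁ * (C₂ * S) * ρ ^ K₁ * (1 + L)) / 2 ^ (g j + y) := by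
          rw [eval_nat h.tri g b, eval_nat h.tri g x, ← hF]
          refine (var_le hρ1 f1 f2 (fun l hl => nc_le.2 (boxx l hl))
            (fun l hl => nc_le.2 (boxb l hl)) f4).trans ?_
          calc (j : ℝ) * (K₁ * n1 F * ρ ^ K₁ * ((1 + L) / 2 ^ y)) ≤
              n * (K₁ * (C₂ * (S / 2 ^ g j)) * ρ ^ K₁ * ((1 + L) / 2 ^ y)) := by
                refine mul_le_mul (by exact_mod_cast hjn) ?_ ?_ (Nat.cast_nonneg n)
                · refine mul_le_mul_of_nonneg_right ?_ (by positivity)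
                  refine mul_le_mul_of_nonneg_right ?_ (by positivity)
                  exact mul_le_mul_of_nonneg_left f3 (Nat.cast_nonneg K₁)
                · have := n1_nonneg F
                  positivity
            _ = n * (K₁ * (C₂ * S) * ρ ^ K₁ * (1 + L)) / 2 ^ (g j + y) := by
              rw [pow_add]
              field_simp
        have tot : eval b (P j) - eval x (P j) = (eval b (G j) - eval x (G j)) -
            (eval b (G j - P j) - eval x (G j - P j)) := by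
          rw [map_sub, map_sub]
          ring
        rw [tot]
        refine (abs_sub _ _).trans ((add_le_add (h.var j h0 hj) dif).trans ?_)
        rw [← add_div]
        exact div_le_div_of_nonneg_right (by linarith) (by positivity)

/-- **The variation of the closed polynomials**, from the variation of the raw ones. -/
theorem near_v (n K : ℕ) {S R : ℝ} (hS : 0 ≤ S) (hR : 0 ≤ R) : ∃ L : ℝ, 1 ≤ L ∧ ∀ i ≤ n + 1,
    ∀ (P G : ℕ → PN) (g : ℕ → ℕ) (x b : ℕ → ℝ) (J y : ℕ), DatV i K S R P G g x b J y →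
    b 0 = x 0 → (∀ j < i, |b j - x j| ≤ 1 / 2 ^ J) →
    ∀ j < i, |eval b (P j) - eval x (P j)| ≤ L / 2 ^ (g j + y) := by
  have h := near_coreV n K hS hR
  choose! L hL h1 using h
  refine ⟨1 + ∑ i ∈ range (n + 2), |L i|, by
    have : 0 ≤ ∑ i ∈ range (n + 2), |L i| := Finset.sum_nonneg fun _ _ => abs_nonneg _
    linarith, ?_⟩
  intro i hi P G g x b J y hd hb0 hb j hj
  refine (h1 i hi P G g x b J y hd hb0 hb j hj).trans ?_
  refine div_le_div_of_nonneg_right ?_ (by positivity)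
  have h2 : |L i| ≤ ∑ i ∈ range (n + 2), |L i| :=
    Finset.single_le_sum (f := fun i => |L i|) (fun _ _ => abs_nonneg _)
      (mem_range.2 (by omega))
  have h3 := le_abs_self (L i)
  linarith

end NEAR

variable {m J : ℕ}

namespace CLO

/-- **The variation of the closed polynomials**, at one sample, from the variation of the raw
ones. -/
theorem near_ptV (n K sh K' s₀ : ℕ) (hK' : 1 ≤ K') {R : ℝ} (hR : 0 ≤ R) : ∃ L : ℝ, 1 ≤ L ∧
    ∀ (m J : ℕ) (F : Fam m J) (c : ℕ → Fin m) (a : ℕ) (g : ℕ → ℕ) (y : ℕ)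
    (G : ℕ → MvPolynomial (Option (Fin m)) ℝ) (P : ℕ → PN) (ω : F.Ω), a ≤ J → Inj c n →
    (∀ i < n, (G i).totalDegree ≤ K) → (∀ i, DepC c i (G i)) →
    (∀ i, 1 ≤ i → i ≤ n → (P i).vars ⊆ range i) → (∀ i, 1 ≤ i → i ≤ n →
      (P i).totalDegree ≤ K') → P 0 = MvPolynomial.C ((F.T1 a ω : ℝ) / 2 ^ a) →
    Nr K' (2 ^ s₀) (gg a g) P (sy c n ((F.T1 a ω : ℝ) / 2 ^ a) G) (n + 1) →
    (∀ i, 1 ≤ i → i ≤ n → |cx F (fun i => c (i - 1)) ω i -
      eval (cx F (fun i => c (i - 1)) ω) (P i)| ≤ 1 / 2 ^ (g (i - 1) - sh)) →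
    (∀ i < n, sh ≤ g i) → (∀ i < n, g i + y ≤ J) →
    ∀ b : ℕ → ℝ, b 0 = F.t ω → ∀ i, 1 ≤ i → i ≤ n →
    (∀ j, 1 ≤ j → j < i → |b j - cx F (fun i => c (i - 1)) ω j| ≤ 1 / 2 ^ J) →
    (∀ j < i, |eval b (tr c j (G j)) - eval (cx F (fun i => c (i - 1)) ω) (tr c j (G j))| ≤
      R / 2 ^ (g j + y)) →
    |eval b (P i) - eval (cx F (fun i => c (i - 1)) ω) (P i)| ≤
      L / 2 ^ (g (i - 1) - sh + y) := by
  obtain ⟨K₂, hK₂⟩ : ∃ K₂, K₂ = max K K' := ⟨_, rfl⟩
  obtain ⟨M, hM⟩ := cc_le K' n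
  obtain ⟨Θ, hΘ⟩ : ∃ Θ : ℝ, Θ = 2 * K' * 2 ^ s₀ * 2 ^ (sh + 1) := ⟨_, rfl⟩
  have hK1 : (1 : ℝ) ≤ K' := by exact_mod_cast hK'
  have hs1 : (1 : ℝ) ≤ 2 ^ s₀ := one_le_pow₀ (by norm_num)
  have hs2 : (1 : ℝ) ≤ 2 ^ (sh + 1) := one_le_pow₀ (by norm_num)
  have hΘ1 : 1 ≤ Θ := by
    rw [hΘ]
    have h1 : (1 : ℝ) ≤ 2 * K' := by linarith
    have h2 : (1 : ℝ) ≤ 2 * K' * 2 ^ s₀ := by nlinarith
    nlinarith
  obtain ⟨ρ, hρ⟩ : ∃ ρ : ℝ, ρ = Θ ^ M := ⟨_, rfl⟩
  have hρ1 : 1 ≤ ρ := by
    rw [hρ]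
    exact one_le_pow₀ hΘ1
  obtain ⟨S, hS⟩ : ∃ S : ℝ, S = (K' * 2 ^ s₀ * ρ) ^ K' := ⟨_, rfl⟩
  have hS0 : 0 ≤ S := by
    rw [hS]
    positivity
  obtain ⟨L, hL, hnear⟩ := NEAR.near_v n K₂ hS0 hR
  refine ⟨L, hL, ?_⟩
  intro m J F c a g y G P ω ha hc hGK hdep hPv hPd hP0 hNr hfit hsh hsiz b hb0 i hi1 hi hb hvar
  obtain ⟨x, hx⟩ : ∃ x, x = cx F (fun i => c (i - 1)) ω := ⟨_, rfl⟩
  have hx0 : x 0 = F.t ω := by
    rw [hx]
    exact if_pos rfl
  rw [← hx] at hfit hb hvar ⊢
  obtain ⟨P', hP'⟩ : ∃ P' : ℕ → PN, P' = fun i => if i = 0 then MvPolynomial.C (F.t ω) else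
    if i ≤ n then P i else 0 := ⟨_, rfl⟩
  have eP0 : P' 0 = MvPolynomial.C (F.t ω) := by rw [hP']; exact if_pos rfl
  have eP : ∀ j, 1 ≤ j → j ≤ n → P' j = P j := by
    intro j h1 h2
    rw [hP']
    show (if j = 0 then _ else if j ≤ n then P j else 0) = P j
    rw [if_neg (by omega), if_pos h2]
  obtain ⟨g', hg'⟩ : ∃ g' : ℕ → ℕ, g' = fun i => if i = 0 then J else g (i - 1) - sh := ⟨_, rfl⟩
  have eg0 : g' 0 = J := by rw [hg']; exact if_pos rfl
  have eg : ∀ j, 1 ≤ j → g' j = g (j - 1) - sh := by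
    intro j h1
    rw [hg']
    exact if_neg (by omega)
  have pJ : (1 : ℝ) / 2 ^ J ≤ 1 / 2 ^ a :=
    one_div_le_one_div_of_le (by positivity) (pow_le_pow_right₀ (by norm_num) ha)
  -- the boxes
  have box1 : ∀ j, 1 ≤ j → j ≤ n → ∀ b : ℕ → ℝ, Bx g' P' j b →
      Bxr (2 ^ (sh + 1)) (gg a g) P j b := by
    intro j hj1 hj b hb l hl
    rcases Nat.eq_zero_or_pos l with rfl | hl0
    · have h1 := hb 0 hl
      rw [eP0, eval_C, eg0] at h1
      rw [hP0, eval_C]
      have h2 := t_cell F ha ω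
      have h3 : gg a g 0 = a := if_pos rfl
      rw [h3]
      have h4 : |b 0 - (F.T1 a ω : ℝ) / 2 ^ a| ≤ 2 / 2 ^ a := by
        have h5 : (2 : ℝ) / 2 ^ a = 1 / 2 ^ a + 1 / 2 ^ a := by ring
        rw [h5]
        rw [abs_le] at h1 h2 ⊢
        constructor <;> linarith [h1.1, h1.2, h2.1, h2.2]
      refine h4.trans (div_le_div_of_nonneg_right ?_ (by positivity))
      rw [pow_succ]
      have : (1 : ℝ) ≤ 2 ^ sh := one_le_pow₀ (by norm_num)
      linarith
    · have h1 := hb l hl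
      rw [eP l hl0 (by omega), eg l hl0] at h1
      have h3 : gg a g l = g (l - 1) := if_neg (by omega)
      rw [h3]
      refine h1.trans ?_
      have h4 := hsh (l - 1) (by omega)
      rw [div_le_div_iff₀ (by positivity) (by positivity), one_mul, ← pow_add]
      exact pow_le_pow_right₀ (by norm_num) (by omega)
  have box2 : ∀ j, 1 ≤ j → j ≤ n → ∀ b : ℕ → ℝ, Bx g' P' j b →
      Bxr ρ (gg a g) (sy c n ((F.T1 a ω : ℝ) / 2 ^ a) G) j b := by
    intro j hj1 hj b hb
    have h1 := Nr.box hK' hs1 (hNr.mono (show j ≤ n + 1 by omega)) hs2 (box1 j hj1 hj b hb) j le_rfl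
    refine h1.mono ?_ le_rfl
    rw [hρ, hΘ]
    rw [hΘ] at hΘ1
    exact pow_le_pow_right₀ hΘ1 (hM j hj)
  have esy : ∀ (t t' : ℝ) (j : ℕ), 1 ≤ j → j ≤ n → sy c n t G j = sy c n t' G j := by
    intro t t' j h1 h2
    obtain ⟨j, rfl⟩ : ∃ j', j = j' + 1 := ⟨j - 1, by omega⟩
    rw [sy_succ (by omega), sy_succ (by omega)]
  obtain ⟨b', hb'⟩ : ∃ b' : ℕ → ℝ, b' = fun j => if j < i then b j else x j := ⟨_, rfl⟩
  have eb : ∀ j < i, b' j = b j := fun j hj => by
    rw [hb']
    exact if_pos hj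
  have hb'0 : b' 0 = x 0 := by rw [eb 0 (by omega), hb0, hx0]
  have hb'1 : ∀ j < i + 1, |b' j - x j| ≤ 1 / 2 ^ J := by
    intro j _
    rw [hb']
    show |(if j < i then b j else x j) - x j| ≤ _
    split_ifs with h
    · rcases Nat.eq_zero_or_pos j with rfl | hj0
      · rw [hb0, hx0, sub_self, abs_zero]
        positivity
      · exact hb j hj0 h
    · rw [sub_self, abs_zero]
      positivity
  have hd : NEAR.DatV (i + 1) K₂ S R P' (sy c n (F.t ω) G) g' x b' J y := by
    refine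
      { tri := fun j => ?_
        deg := fun j => ?_
        triG := fun j _ _ => sy_tri j
        degG := fun j _ _ => (sy_deg hGK j).trans (by rw [hK₂]; exact le_max_left _ _)
        zero := by rw [eP0, hx0]
        fit := fun j h1 h2 => ?_
        near := fun j h1 h2 b hb => ?_
        var := fun j h1 h2 => ?_
        siz := fun j h1 h2 => ?_ }
    · rw [hP']
      show (if j = 0 then MvPolynomial.C (F.t ω) else if j ≤ n then P j else 0).vars ⊆ range j
      split_ifs with h1 h2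
      · rw [vars_C]
        exact Finset.empty_subset _
      · exact hPv j (by omega) h2
      · rw [vars_0]
        exact Finset.empty_subset _
    · rw [hP']
      show (if j = 0 then MvPolynomial.C (F.t ω) else if j ≤ n then P j else 0).totalDegree ≤ K₂
      split_ifs with h1 h2
      · rw [totalDegree_C]
        exact Nat.zero_le _
      · exact (hPd j (by omega) h2).trans (by rw [hK₂]; exact le_max_right _ _)
      · rw [totalDegree_zero]
        exact Nat.zero_le _
    · rw [eP j h1 (by omega), eg j h1]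
      exact hfit j h1 (by omega)
    · have hjn : j ≤ n := by omega
      have h3 := hNr.2 j h1 (by omega) ρ hρ1 b (box2 j h1 hjn b hb)
      have h4 : gg a g j = g (j - 1) := if_neg (by omega)
      rw [h4, ← hS] at h3
      rw [eP j h1 hjn, eg j h1, abs_sub_comm, esy _ ((F.T1 a ω : ℝ) / 2 ^ a) j h1 hjn]
      exact h3.trans (div_le_div_of_nonneg_left hS0 (by positivity)
        (pow_le_pow_right₀ (by norm_num) (Nat.sub_le _ _)))
    · obtain ⟨j, rfl⟩ : ∃ j', j = j' + 1 := ⟨j - 1, by omega⟩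
      have h3 : (sy c n (F.t ω) G (j + 1)) = tr c j (G j) := sy_succ (by omega)
      have h4 := hvar j (by omega)
      have h5 : (sy c n (F.t ω) G (j + 1)).vars ⊆ range (j + 1) := sy_tri (j + 1)
      rw [h3] at h5 ⊢
      have h6 : eval b' (tr c j (G j)) = eval b (tr c j (G j)) :=
        eval_cg h5 fun l hl => eb l (by omega)
      rw [h6, eg (j + 1) h1]
      refine h4.trans (div_le_div_of_nonneg_left hR (by positivity)
        (pow_le_pow_right₀ (by norm_num) ?_))
      show g (j + 1 - 1) - sh + y ≤ g j + y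
      rw [Nat.add_sub_cancel]
      omega
    · have h3 := hsiz (j - 1) (by omega)
      rw [eg j h1]
      omega
  have h1 := hnear (i + 1) (by omega) P' (sy c n (F.t ω) G) g' x b' J y hd hb'0 hb'1 i
    (Nat.lt_succ_self i)
  rw [eP i hi1 hi, eg i hi1] at h1
  have h2 : eval b' (P i) = eval b (P i) := eval_cg (hPv i hi1 hi) fun j hj => eb j hj
  rwa [h2] at h1

/-- **The variation of the exact labels in small cells**, for the labels of `clo_fam`, from the
variation of the point sides. -/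
theorem clo_near_v (n K sh K' s₀ : ℕ) (hK' : 1 ≤ K') {R : ℝ} (hR : 0 ≤ R) : ∃ L : ℝ, 1 ≤ L ∧
    ∀ (m J M w₀ z : ℕ) (F : Fam m J) (c : ℕ → Fin m) (g : ℕ → ℕ → ℕ) (C₁ : ℝ) (A B : F.Ω → Prop)
    (G : ℕ → PtT F → ℕ → MvPolynomial (Option (Fin m)) ℝ) (C : CDat F), w₀ + M * z ≤ J →
    Inj c n → (∀ k ≤ M, ∀ y, ∀ i < n, (G k y i).totalDegree ≤ K) →
    (∀ k ≤ M, ∀ y i, DepC c i (G k y i)) → (∀ k ≤ M, ∀ i < n, sh ≤ g k i) →
    (∀ ω, B ω → A ω) →
    C.Cnd (fun i => c (i - 1)) n K' w₀ z M (fun k i => g k (i - 1) - sh) C₁ B →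
    (∀ k ≤ M, ∀ ω, B ω → Nr K' (2 ^ s₀) (gg (w₀ + k * z) (g k)) (C.Ph w₀ z k ω)
      (Gs c n (w₀ + k * z) (G k) (ptr F J ω)) (n + 1)) →
    ∀ k ≤ M, ∀ y : ℕ,
    (∀ ω ω', A ω → A ω' → F.T ω = F.T ω' → ∀ i < n, (∀ j < i, F.X J ω (c j) = F.X J ω' (c j)) →
      |eval (bt F ω') (G k (ptr F J ω) i) - eval (bt F ω) (G k (ptr F J ω) i)| ≤
        R / 2 ^ (g k i + y)) →
    (∀ i < n, g k i + y ≤ J) →
    C.Near (fun i => c (i - 1)) n w₀ z (fun k i => g k (i - 1) - sh) k y L B := by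
  obtain ⟨L, hL, h⟩ := near_ptV n K sh K' s₀ hK' hR
  refine ⟨L, hL, ?_⟩
  intro m J M w₀ z F c g C₁ A B G C hM hc hGK hdep hsh hB hC hNr k hk y hvar hsiz
  have hak : w₀ + k * z ≤ J := by
    have : k * z ≤ M * z := Nat.mul_le_mul_right _ hk
    omega
  intro ω ω' hω hω' _ hT i hi1 hi hX
  have hPi : ∀ j, 1 ≤ j → C.Ph w₀ z k ω j = C.G k (C.li k (slam F (w₀ + k * z) ω)) j :=
    fun j hj => if_neg (by omega)
  have hcx : ∀ (ω : F.Ω) (j : ℕ), 1 ≤ j → cx F (fun i => c (i - 1)) ω j = F.x ω (c (j - 1)) :=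
    fun ω j hj => if_neg (by omega)
  have hev : ∀ (ω₁ : F.Ω) (j : ℕ), j < n → eval (cx F (fun i => c (i - 1)) ω₁)
      (tr c j (G k (ptr F J ω) j)) = eval (bt F ω₁) (G k (ptr F J ω) j) := by
    intro ω₁ j hj
    refine eval_tr hc hj.le (hdep k hk _ j) ?_ fun l hl => ?_
    · show F.t ω₁ = _
      exact (if_pos rfl).symm
    · show F.x ω₁ (c l) = _
      rw [hcx ω₁ (l + 1) (by omega), Nat.add_sub_cancel]
  have h1 := h m J F c (w₀ + k * z) (g k) y (G k (ptr F J ω)) (C.Ph w₀ z k ω) ω hak hc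
    (hGK k hk _) (hdep k hk _)
    (fun j h1 h2 => by rw [hPi j h1]; exact hC.tri k hk _ j h1 h2)
    (fun j h1 h2 => by rw [hPi j h1]; exact hC.deg k hk _ j h1 h2) (if_pos rfl)
    (hNr k hk ω hω) (fun j h1 h2 => by
      have h3 := hC.pos k hk ω hω j h1 h2
      rw [hcx ω j h1]
      exact h3) (hsh k hk) hsiz (cx F (fun i => c (i - 1)) ω') (by
        show (if 0 = 0 then F.t ω' else _) = _
        rw [if_pos rfl]
        unfold Fam.t
        rw [hT]) i hi1 hi (fun j hj1 hj => by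
        have h5 := hX j hj1 hj
        have h8 : ⌊(2 : ℝ) ^ J * F.x ω' (c (j - 1))⌋ = ⌊(2 : ℝ) ^ J * F.x ω (c (j - 1))⌋ := h5.symm
        have h9 := Ful.fl_eq h8
        rw [← mul_sub, abs_mul, abs_of_pos (by positivity : (0 : ℝ) < 2 ^ J)] at h9
        rw [hcx ω j hj1, hcx ω' j hj1, le_div_iff₀' (by positivity)]
        exact h9) (fun j hj => by
        rw [hev ω' j (by omega), hev ω j (by omega)]
        refine hvar ω ω' (hB ω hω) (hB ω' hω') hT j (by omega) fun l hl => ?_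
        have h5 := hX (l + 1) (by omega) (by omega)
        simpa using h5)
  rw [abs_sub_comm]
  exact h1

end CLO

end Pool.STAT
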